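import Pool.Agent.Work.MP_25cd3b_gt.M.Defs

set_option autoImplicit false

/-!
# MP_25cd3b_gt: statements of the items, each with its complete proof

Notation of the comments: `|v|_g = nrm g x v`, `d_g = gd g`, `G x = op g x` (so that
`inner (G x v) w = g.val x v w`), `z = (x, p)` a point of phase space, `v = iop g x p` its velocity.
-/

open MeasureTheory Set Filter Topology
open scoped ContDiff ENNReal
open Pool.Agent.Work.MP_c9f990_an.Al (IsFlow)

namespace Pool.Agent.MLS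

/-! ### A. distances -/

/-- Bounds on compact sets.  The unit sphere times `K` is compact and `(x, v) ↦ nrm g x v` is
continuous there and, if `g` is Riemannian, positive; use homogeneity in `v`. -/
def StBnd : Prop := ∀ (n : ℕ) (g : Form n) (K : Set (E n)), IsCompact K →
  (∃ C, 0 < C ∧ ∀ x ∈ K, ∀ v, nrm g x v ≤ C * ‖v‖) ∧
  (Riem g → ∃ C, 0 < C ∧ ∀ x ∈ K, ∀ v, ‖v‖ ≤ C * nrm g x v)

/-- Elementary properties of `gd`.  Lengths are `≥ 0` (induction), the straight segment is a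
path (so the set is nonempty), paths can be concatenated (induction on the first one) and reversed
(induction, using concatenation; reverse the piece `c` on `[a, b]` by `t ↦ c (-t)` on `[-b, -a]`).
A single `C^1` curve on `[a, b]` is a path (`cons` and `refl`). -/
def StGd : Prop := ∀ (n : ℕ) (g : Form n),
  (∀ x y l, PathLen g x y l → gd g x y ≤ l) ∧ IsPM (gd g) ∧
  (∀ x y ε, 0 < ε → ∃ l, PathLen g x y l ∧ l < gd g x y + ε) ∧
  (∀ (c : ℝ → E n) (a b : ℝ), ContDiff ℝ 1 c → a ≤ b →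
    gd g (c a) (c b) ≤ ∫ t in a..b, nrm g (c t) (deriv c t))

/-- Invariance.  The group maps paths to paths of the same length (induction; `a ∘ c` is `C^1` with
derivative `dac a (c t) (c' t)`); apply this to `a` and to `a⁻¹`. -/
def StInvD : Prop := ∀ (n : ℕ) (G : Type) [Group G] [MulAction G (E n)], Cocompact n G →
  ∀ g : Form n, Inv G g → (∀ (a : G) x y l, PathLen g x y l → PathLen g (a • x) (a • y) l) ∧
    ∀ (a : G) x y, gd g (a • x) (a • y) = gd g x y

/-- A path can be cut at every length.  Induction on the path.  For `cons c a b y l` with first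
piece of length `m`: if `m ≤ r` use the induction hypothesis with `r - m`; if `r < m` the
function `t ↦ ∫ a..t` is continuous, so it takes the value `r` at some `t ∈ [a, b]` (intermediate
value theorem); cut the piece at `t`. -/
def StSplit : Prop := ∀ (n : ℕ) (g : Form n) (x y : E n) (l r : ℝ), PathLen g x y l → 0 ≤ r →
  r ≤ l → ∃ z, PathLen g x z r ∧ PathLen g z y (l - r)

/-- `gd` is continuous.  By the triangle inequality
`|gd x y - gd x' y'| ≤ gd x x' + gd y y'`, and `gd x x' ≤ C ‖x - x'‖` in a ball by `StBnd` (the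
straight segment stays in the ball). -/
def StCtsD : Prop := ∀ (n : ℕ) (g : Form n), Continuous (fun p : E n × E n => gd g p.1 p.2)

/-- Lipschitz functions.  Let `K` be the (compact) support of `h`; `‖fderiv h‖ ≤ A` everywhere and
`‖v‖ ≤ C nrm g x v` for `x ∈ K` (`StBnd`).  For a `C^1` curve `c`,
`|(h ∘ c)'| ≤ A C nrm g (c t) (c' t)` for all `t` (outside of the support `fderiv h = 0`), so
`|h (c b) - h (c a)| ≤ A C ∫`, and by induction `|h x - h y| ≤ A C l` for every path. -/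
def StFun : Prop := ∀ (n : ℕ) (g : Form n), Riem g → ∀ h : E n → ℝ, ContDiff ℝ 1 h →
  HasCompactSupport h → ∃ C, 0 ≤ C ∧ ∀ x y, |h x - h y| ≤ C * gd g x y

/-- Properness.  Let `K₀` be compact with `G K₀ = R^n` (WLOG nonempty).  Take a smooth `h` with
compact support and `h = 1` on `K₀`, and let `N` be its support; by `StFun` there is `ε > 0` with: if
`x ∈ K₀` and `gd x y < ε` then `y ∈ N`.  The set `A` of all `a` with `a N ∩ K₀ ≠ ∅` is finite (by
`proper` for `N ∪ K₀`), and every `y ∈ N` is of the form `a⁻¹ k`, `a ∈ A`, `k ∈ K₀`.  Claim: for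
every natural `k` there is a compact `K_k` such that `x ∈ K₀`, `gd x y < k ε / 2` implies `y ∈ K_k`.
Induction: if `gd x y < (k+1) ε / 2`, take a path of length `l < (k+1) ε / 2` and cut it
(`StSplit`) at `min l (ε/2)`; the cutting point `z` has `gd x z < ε`, so `z ∈ N`, `z = a⁻¹ z'` with
`z' ∈ K₀`, and `gd z' (a y) = gd z y < k ε / 2` (or `z = y`), so `a y ∈ K_k`; put
`K_{k+1} = N ∪ ⋃_{a ∈ A} a⁻¹ K_k`.  For general compact `K` use that `K ⊆ ⋃ a⁻¹ K₀` over the
finite set of `a` with `a K ∩ K₀ ≠ ∅`. -/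
def StProp : Prop := ∀ (n : ℕ) (G : Type) [Group G] [MulAction G (E n)], Cocompact n G →
  ∀ g : Form n, Riem g → Inv G g → ∀ (K : Set (E n)) (r : ℝ), IsCompact K →
    ∃ K' : Set (E n), IsCompact K' ∧ ∀ x ∈ K, ∀ y, gd g x y ≤ r → y ∈ K'

/-- Comparison.  On a compact `K` with `G K = R^n` use `StBnd` for both forms, and invariance
elsewhere.  Then the lengths of paths, hence the distances, compare (induction). -/
def StCmp : Prop := ∀ (n : ℕ) (G : Type) [Group G] [MulAction G (E n)], Cocompact n G →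
  ∀ g1 g2 : Form n, Riem g1 → Inv G g1 → Inv G g2 → ∃ A, 0 < A ∧
    (∀ x v, nrm g2 x v ≤ A * nrm g1 x v) ∧ ∀ x y, gd g2 x y ≤ A * gd g1 x y

/-- The spectrum and the distance: `L g a` is the infimum of `gd g z (a z)`. -/
def StLd : Prop := ∀ (n : ℕ) (G : Type) [Group G] [MulAction G (E n)] (g : Form n) (a : G),
  (∀ x, L g a ≤ gd g x (a • x)) ∧ (∀ r, (∀ z : E n, r ≤ gd g z (a • z)) → r ≤ L g a)

/-! ### B. hyperbolicity -/

/-- Translation length.  Put `a_k = d p (f^k p)`.  The four point condition for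
`p, f^2 p; f p, f^(k+1) p` is `a_2 + a_k ≤ max (a_1 + a_(k-1)) (a_(k+1) + a_1) + δ`.  Let
`κ = a_2 - a_1 - δ`; assume `κ > 0`.  If `a_(k-1) ≤ a_k` then the maximum is not the first number,
so `a_(k+1) ≥ a_k + κ`.  By induction `a_(k+1) ≥ a_k + κ` for all `k ≥ 1`, so `a_k ≥ (k-1) κ`.
Finally `a_k ≤ 2 d p z + d z (f^k z) ≤ 2 d p z + k d z (f z)`; divide by `k`. -/
def StB1 : Prop := ∀ (X : Type) (d : X → X → ℝ) (δ : ℝ), IsPM d → Hyp4 d δ → ∀ f : X → X,
  (∀ x y, d (f x) (f y) = d x y) → ∀ p z, d p (f (f p)) - d p (f p) - δ ≤ d z (f z)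

/-- Almost closed pieces of geodesics.  (Think of `p, p', q, q', a` as `c s, c (s+R), c t, c (t+R),
c (t-R)` with `T = t - s`.)  Put `b = f p'`, `(x|y) = (d x q + d y q - d x y) / 2`.  The four point
condition gives `(x|y) ≥ min (x|z) (z|y) - δ / 2`, so `(a|b) ≥ min (a|p) (p|f q) (f q|b) - δ`.  Now
`(a|b) ≤ 1` as `d b q ≤ R + 1`, `d a b ≥ 2 R - 1`; `(a|p) = R`; and `(f q|b) ≥ R - 1` as
`d (f q) q ≥ T - 1`, `d b q ≥ R - 1`, `d (f q) b = T - R`.  Since `R - 1 - δ > 1` we get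
`(p|f q) ≤ 1 + δ`, so `d p (f q) ≥ 2 T - 3 - 2 δ`, `d p (f (f p)) ≥ 2 T - 4 - 2 δ`,
`d p (f p) ≤ T + 1`; use `StB1` (`δ ≥ 0` because of four equal points). -/
def StB2 : Prop := ∀ (X : Type) (d : X → X → ℝ) (δ : ℝ), IsPM d → Hyp4 d δ → ∀ f : X → X,
  (∀ x y, d (f x) (f y) = d x y) → ∀ (p p' q q' a : X) (T R : ℝ), d p q = T → d p p' = R →
  d q q' = R → d a q = R → d p a = T - R → d p' q = T - R → d a q' = 2 * R →
  d (f p) q ≤ 1 → d (f p') q' ≤ 1 → 2 + δ < R → R ≤ T → ∀ z, T - (5 + 3 * δ) ≤ d z (f z)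

/-- Pigeonhole.  Induction on `k` for the statement: if `a ≤ m` and the cells of all `i ∈ [a, m]`
are in a finite set of at most `k` elements then `m - a - k (C + 1) ≤ F m - F a`.  Let `j` be the last
index in `[a, m]` with `cell j = cell a`.  If `j = m` use the hypothesis.  Otherwise apply the
induction hypothesis to `[j + 1, m]`, whose cells avoid `cell a`, and add
`F (j + 1) - F j ≥ 0`, `F j - F a ≥ j - a - C`. -/
def StPig : Prop := ∀ (N : ℕ) (F : ℕ → ℝ) (cell : ℕ → Fin N) (C : ℝ), 0 ≤ C → Monotone F →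
  (∀ i j : ℕ, i ≤ j → cell i = cell j → (j : ℝ) - i - C ≤ F j - F i) →
  ∀ m : ℕ, (m : ℝ) - N * (C + 1) ≤ F m - F 0

/-- Finitely many cells.  Let `U = {w | w.1 ∈ K, Hm g w = 1/2}` (compact by `StSub`).  For `w ∈ U`
the set `V_w` of all `w'` with `gd w.1 w'.1 < 1/2` and `gd (φ R w).1 (φ R w').1 < 1/2` is an open
neighbourhood of `w` (`StCtsD`, continuity of `φ R`).  Finitely many `V_w` cover `U`; let `cell w'`
be the index of one which contains `w'`.  Use the triangle inequality. -/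
def StCell : Prop := ∀ (n : ℕ) (g : Form n) (φ : ℝ → W n → W n) (M : ℝ → W n → W n →L[ℝ] W n),
  Riem g → IsFlow (XH (Hm g)) φ M → ∀ (K : Set (E n)) (R : ℝ), IsCompact K →
  ∃ (N : ℕ) (cell : W n → Fin N), ∀ w w' : W n, w.1 ∈ K → w'.1 ∈ K → Hm g w = 1 / 2 →
    Hm g w' = 1 / 2 → cell w = cell w' →
    gd g w.1 w'.1 ≤ 1 ∧ gd g (φ R w).1 (φ R w').1 ≤ 1

/-- Long geodesics.  Let `δ` be as in `HypG`, `R > 2 + δ` with `R ≥ 0`, `K` compact with
`G K = R^n`, `φ` the flow, `A` from `StCmp`, `N`, `cell` from `StCell`.  Let `c` be a unit speed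
geodesic, `z t = (c t, op g1 (c t) (c' t))`, so `z t = φ t (z 0)` (`StGeo2`, uniqueness in
`IsFlow`; for negative times use the group property) and `Hm g1 (z t) = 1/2`.  For `k : ℕ` choose
`γ_k` with `γ_k (c k) ∈ K` and let `w_k = lft g1 γ_k (z k)`, `cell' k = cell (w_k)`.  By
`StEqF` `(φ R w_k).1 = γ_k (c (k + R))`.  Let `i ≤ j`, `cell' i = cell' j`, `f = γ_j⁻¹ γ_i`.  Then
`gd (f (c i)) (c j) ≤ 1` and `gd (f (c (i + R))) (c (j + R)) ≤ 1` (`StInvD`).  If
`R ≤ j - i`, `StB2` with the points `c i, c (i + R), c j, c (j + R), c (j - R)` (distances by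
`Minz`) gives `gd g1 z (f z) ≥ j - i - (5 + 3 δ)` for all `z`; if `j - i < R` then
`gd g1 z (f z) ≥ 0 ≥ j - i - R`.  So `L g1 f ≥ j - i - C₁`, `C₁ = max R (5 + 3 δ)`.  On the other
hand `L g1 f ≤ L g2 f ≤ gd g2 (c i) (f (c i)) ≤ gd g2 (c i) (c j) + gd g2 (c j) (f (c i))
≤ ∫ t in i..j, nrm g2 (c t) (c' t) + A`.  So the hypothesis of `StPig` holds for
`F k = ∫ t in 0..k, nrm g2 (c t) (c' t)` and `C = C₁ + A`, and
`F m ≥ m - N (C + 1)`; for real `T ≥ 0` take `m = ⌊T⌋`.  So `C' = N (C + 1) + 1`. -/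
def StSeg : Prop := ∀ (n : ℕ) (G : Type) [Group G] [MulAction G (E n)], Cocompact n G →
  ∀ g1 g2 : Form n, Riem g1 → Inv G g1 → Inv G g2 → Minz g1 → HypG g1 →
  (∀ a : G, L g1 a ≤ L g2 a) → ∃ C', 0 ≤ C' ∧ ∀ c : ℝ → E n, IsGeo g1 c →
    (∀ t, g1.val (c t) (deriv c t) (deriv c t) = 1) → ∀ T, 0 ≤ T →
    T - C' ≤ ∫ t in (0 : ℝ)..T, nrm g2 (c t) (deriv c t)

/-! ### C. the geodesic flow -/

/-- The operators.  `inner (sh l) w = l w` (expand `w` in the basis).  `op g x` is injective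
(`inner (op v) v = g v v > 0`), so it is a unit of the ring `E →L E` (finite dimension); the inverse is
smooth by `contDiffAt_ringInverse`. -/
def StOp : Prop := ∀ (n : ℕ) (g : Form n), Riem g →
  (∀ (l : E n →L[ℝ] ℝ) (w : E n), inner ℝ (sh l) w = l w) ∧
  (∀ x v w, inner ℝ (op g x v) w = g.val x v w) ∧
  (∀ x v, iop g x (op g x v) = v) ∧ (∀ x v, op g x (iop g x v) = v) ∧
  (∀ x u v, inner ℝ (iop g x u) v = inner ℝ u (iop g x v)) ∧
  ContDiff ℝ ∞ (op g) ∧ ContDiff ℝ ∞ (iop g) ∧ ContDiff ℝ ∞ (Hm g) ∧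
  (∀ z, Hm g z = 1 / 2 * g.val z.1 (vel g z) (vel g z))

/-- The Hamiltonian field.  `D_p H (x, p) w = inner (iop g x p) w` (`iop` is symmetric).  For
`D_x H`: `D (iop g) (x) w = - iop ∘ (D (op g) (x) w) ∘ iop`, and
`inner (D (op g) (x) w v) v = fderiv g.val x w v v`; so `D_x H w = - 1/2 fderiv g.val x w v v`. -/
def StHd : Prop := ∀ (n : ℕ) (g : Form n), Riem g → ∀ z : W n,
  (XH (Hm g) z).1 = vel g z ∧
  ∀ w, inner ℝ (XH (Hm g) z).2 w = 1 / 2 * fderiv ℝ g.val z.1 w (vel g z) (vel g z)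

/-- Hamiltonian fields are divergence free and tangent to the level sets.  The trace is
`∑ i, (inner (e_i) ((DX (e_i, 0)).1) + inner (e_i) ((DX (0, e_i)).2))`, that is
`∑ i, (∂_{x_i} ∂_{p_i} H - ∂_{p_i} ∂_{x_i} H) = 0` (symmetry of the second derivative). -/
def StTr0 : Prop := ∀ (n : ℕ) (H : W n → ℝ), ContDiff ℝ ∞ H → ContDiff ℝ ∞ (XH H) ∧
  (∀ z, LinearMap.trace ℝ (W n) (fderiv ℝ (XH H) z : W n →ₗ[ℝ] W n) = 0) ∧
  (∀ z, fderiv ℝ H z (XH H z) = 0)

/-- Solutions are geodesics.  `z` is `C^1`, so `c' = iop (z.1) (z.2)` (`StHd`) is `C^1` and `c` is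
`C^2`; `g.val c c' w = inner (z.2) w`, whose derivative is given by `StHd`.  The energy is constant
by `StTr0`. -/
def StGeo1 : Prop := ∀ (n : ℕ) (g : Form n), Riem g → ∀ z : ℝ → W n,
  (∀ t, HasDerivAt z (XH (Hm g) (z t)) t) → IsGeo g (fun t => (z t).1) ∧
  (∀ t, deriv (fun s => (z s).1) t = vel g (z t)) ∧ ∀ t, Hm g (z t) = Hm g (z 0)

/-- Geodesics are solutions.  `c' = iop (op c')`, and the derivative of
`inner (op g (c s) (c' s)) w = g.val (c s) (c' s) w` is given by `IsGeo.el`; compare with `StHd`. -/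
def StGeo2 : Prop := ∀ (n : ℕ) (g : Form n), Riem g → ∀ c : ℝ → E n, IsGeo g c →
  ∀ t, HasDerivAt (fun s => (c s, op g (c s) (deriv c s)))
    (XH (Hm g) (c t, op g (c t) (deriv c t))) t

/-- The group maps geodesics to geodesics.  Let `c₁ = a c`, `c₁' = dac a c c'`.  Fix `w` and put
`u x = (dac a x)⁻¹ w` (smooth; the inverse of `dac a x` is `dac a⁻¹ (a x)`).  Then
`g (c₁) (c₁', w) = g (c) (c', u (c))` by invariance, with derivative
`1/2 (Dg(c) u)(c', c') + g(c)(c', Du c')` (apply `el` to fixed `w` and the product rule; write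
`u (c s)` in the basis).  Differentiate `g (a x) (dac v) (dac v) = g x v v` in the direction `u` with
`v = c'` fixed: `(Dg(c₁) w)(c₁', c₁') + 2 g(c₁)(D²a(u, c'), c₁') = (Dg(c) u)(c', c')`.  From
`dac a x (u x) = w`: `D²a(c', u) + dac (Du c') = 0`, so
`g(c)(c', Du c') = g(c₁)(c₁', dac (Du c')) = - g(c₁)(c₁', D²a(c', u))`.  The second derivative of
`a` is symmetric, so the derivative is `1/2 (Dg(c₁) w)(c₁', c₁')`. -/
def StEqG : Prop := ∀ (n : ℕ) (G : Type) [Group G] [MulAction G (E n)], Cocompact n G →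
  ∀ g : Form n, Riem g → Inv G g → ∀ (a : G) (c : ℝ → E n), IsGeo g c →
    IsGeo g (fun t => a • c t)

/-- A `C^1` field whose solutions (also after multiplication with a function `0 ≤ ψ ≤ 1`) cannot
leave compact sets in bounded time has a complete `C^1` flow.  For `k : ℕ` let `S_k` be the closed
ball of radius `k`, `S'_k` from the hypothesis with `T = k`, `ψ_k` a smooth function with compact
support, `0 ≤ ψ_k ≤ 1`, equal to `1` in a neighbourhood of `S'_k`, and `F_k = ψ_k F`: it is `C^1`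
with compact support, so Lipschitz, and has a flow `(φ_k, M_k)` (hypothesis `FLOW` of the file
MP_c9f990_an/Al/Stmts).  For `‖z‖ ≤ k`, `|t| ≤ k` we have `φ_k t z ∈ S'_k`, so `s ↦ φ_k s z` solves
the equation of `F` on `[-k, k]`.  Solutions of the equation of `F` are unique (on a closed ball
containing both solutions `F` is Lipschitz), so `φ_m t z = φ_k t z` for `m ≥ k`.  Put
`φ t z = φ_m t z`, `M t z = M_m t z` for any `m ≥ max |t| ‖z‖ + 1`; near `(t, z)` one may use the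
same `m`, so all local properties are inherited (`fderiv F_m = fderiv F` on `S'_m`). -/
def StPatch : Prop := ∀ (Q : Type) [NormedAddCommGroup Q] [NormedSpace ℝ Q]
  [FiniteDimensional ℝ Q] (F : Q → Q), ContDiff ℝ 1 F →
  (∀ (S : Set Q) (T : ℝ), IsCompact S → ∃ S' : Set Q, IsCompact S' ∧ ∀ ψ : Q → ℝ,
    ContDiff ℝ ∞ ψ → (∀ z, 0 ≤ ψ z ∧ ψ z ≤ 1) → ∀ y : ℝ → Q,
    (∀ t, HasDerivAt y (ψ (y t) • F (y t)) t) → y 0 ∈ S → ∀ t, |t| ≤ T → y t ∈ S') →
  ∃ (φ : ℝ → Q → Q) (M : ℝ → Q → Q →L[ℝ] Q), IsFlow F φ M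

/-- Energy sublevels over compact sets are compact: closed (continuity of `Hm`), and bounded: on
`K` the operators `op g x` are bounded by `C`, and `p = op v`, `‖p‖ ≤ C ‖v‖ ≤ C C' |v|_g
= C C' (2 Hm)^(1/2)` (`StBnd`). -/
def StSub : Prop := ∀ (n : ℕ) (g : Form n), Riem g → ∀ (K : Set (E n)) (r : ℝ), IsCompact K →
  IsCompact {z : W n | z.1 ∈ K ∧ Hm g z ≤ r}

/-- The geodesic flow exists.  Use `StPatch`.  Given `S`, `T`: let `r` be the maximum of `Hm g` on
`S` and `K` the projection of `S`; let `K'` be the compact set of `StProp` for `K` and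
`|T| (2 r)^(1/2)`, and `S' = {z | z.1 ∈ K', Hm g z ≤ r}` (`StSub`).  If
`y' = ψ (y) XH (Hm g) (y)` then `Hm g (y)` is constant (`StTr0`), and `c = (y ·).1` is `C^1`
with `c' = ψ vel`, `nrm g c c' ≤ (2 r)^(1/2)`, so `gd g (c 0) (c t) ≤ |t| (2 r)^(1/2)` and
`c t ∈ K'`. -/
def StFlow : Prop := ∀ (n : ℕ) (G : Type) [Group G] [MulAction G (E n)], Cocompact n G →
  ∀ g : Form n, Riem g → Inv G g → ∃ (φ : ℝ → W n → W n) (M : ℝ → W n → W n →L[ℝ] W n),
    IsFlow (XH (Hm g)) φ M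

/-- Liouville.  By `LIOU` (MP_c9f990_an/Al/Stmts) and `StTr0` the determinant of `M t z` is `1`;
`φ t` is a bijection with inverse `φ (-t)`; use the change of variables formula
`lintegral_image_eq_lintegral_abs_det_fderiv_mul` on `univ`. -/
def StMP : Prop := ∀ (n : ℕ) (H : W n → ℝ) (φ : ℝ → W n → W n)
  (M : ℝ → W n → W n →L[ℝ] W n), ContDiff ℝ ∞ H → IsFlow (XH H) φ M →
  ∀ t, MeasurePreserving (φ t) volume volume

/-- Algebra of the lifted action.  The velocity of `lft g a z` is `dac a x v` (as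
`iop ∘ op = id`); chain rule for `dac (a b)`; invariance of `g`. -/
def StLftA : Prop := ∀ (n : ℕ) (G : Type) [Group G] [MulAction G (E n)], Cocompact n G →
  ∀ g : Form n, Riem g → Inv G g →
  (∀ (a : G) (z : W n), vel g (lft g a z) = dac a z.1 (vel g z)) ∧
  (∀ (a : G) (z : W n), Hm g (lft g a z) = Hm g z) ∧
  (∀ (a b : G) (z : W n), lft g (a * b) z = lft g a (lft g b z)) ∧
  (∀ z : W n, lft g (1 : G) z = z) ∧
  (∀ a : G, Continuous (lft (G := G) g a))

/-- The lifted action preserves Lebesgue measure.  By invariance `op g (a x) ∘ dac a x ∘ iop g x` is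
the inverse of the adjoint of `D = dac a x`: `inner (op g (a x) (D v)) (D w) = g x v w
= inner (op g x v) w`.  So its determinant is `1 / det D`.  With Tonelli and the linear change of
variables `q = A p`, `∫∫ f (a x, A p) dp dx = ∫∫ f (a x, q) |det D x| dq dx`, which equals
`∫∫ f (y, q) dy dq` by the change of variables `y = a x` (bijective). -/
def StLftM : Prop := ∀ (n : ℕ) (G : Type) [Group G] [MulAction G (E n)], Cocompact n G →
  ∀ g : Form n, Riem g → Inv G g → ∀ a : G, MeasurePreserving (lft (G := G) g a) volume volume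

/-- The flow commutes with the action.  `s ↦ φ s z` projects to a geodesic `c` (`StGeo1`), `a c` is a
geodesic (`StEqG`), and `(a c, op (a c)')` is a solution (`StGeo2`), equal to
`s ↦ lft g a (φ s z)`.  Uniqueness in `IsFlow` for `t ≥ 0`; for `t < 0` apply the statement to
`-t` and the point `φ t z`. -/
def StEqF : Prop := ∀ (n : ℕ) (G : Type) [Group G] [MulAction G (E n)], Cocompact n G →
  ∀ g : Form n, Riem g → Inv G g → ∀ (φ : ℝ → W n → W n) (M : ℝ → W n → W n →L[ℝ] W n),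
    IsFlow (XH (Hm g)) φ M → ∀ (a : G) (t : ℝ) (z : W n), φ t (lft g a z) = lft g a (φ t z)

/-- Unfolding.  `∫ a F = ∫ a F ∑ b ∘ ρ_γ = ∑ ∫ a F (b ∘ ρ_γ)`; substitute `y = ρ_γ x`:
`= ∑ ∫ (a ∘ ρ_{γ⁻¹}) F b = ∫ F b ∑ a ∘ ρ_{γ⁻¹} = ∫ b F`. -/
def StUnf : Prop := ∀ (X : Type) [MeasurableSpace X] (ν : Measure X) (G : Type) [Group G]
  [Countable G] (ρ : G → X → X), (∀ γ, MeasurePreserving (ρ γ) ν ν) →
  (∀ γ γ' x, ρ (γ * γ') x = ρ γ (ρ γ' x)) → (∀ x, ρ 1 x = x) → ∀ a b F : X → ℝ≥0∞,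
  Measurable a → Measurable b → Measurable F → (∀ x, ∑' γ, a (ρ γ x) = 1) →
  (∀ x, ∑' γ, b (ρ γ x) = 1) → (∀ γ x, F (ρ γ x) = F x) →
  ∫⁻ x, a x * F x ∂ν = ∫⁻ x, b x * F x ∂ν

/-- The group is countable: it is the union over `k : ℕ` of the finite sets
`{a | a B_k ∩ B_k ≠ ∅}`, `B_k` the closed ball of radius `k` (consider `a 0`). -/
def StCnt : Prop := ∀ (n : ℕ) (G : Type) [Group G] [MulAction G (E n)], Cocompact n G →
  Countable G

/-- Invariant partition of unity.  Let `h ≥ 0` be smooth with compact support and `h = 1` on a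
compact `K` with `G K = R^n`; `s x = ∑' a, h (a x)`; near every point only finitely many terms are
not identically `0` (properness for the union of the support of `h` and a closed ball), so `s` is
smooth, positive and invariant; `χ = h / s`. -/
def StPU : Prop := ∀ (n : ℕ) (G : Type) [Group G] [MulAction G (E n)], Cocompact n G →
  ∃ χ : E n → ℝ, PU G χ

/-- Invariance of averages.  `StUnf` on phase space with `ρ a = lft g a` (`StLftA`, `StLftM`,
`StCnt`), `a z = ofReal (χ z.1)`, `b z = ofReal (χ ((φ (-t) z).1))` (its sum over the group is `1` by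
`StEqF`, as `(lft g a z').1 = a z'.1`): `∫ χ(z.1) F (φ t z) = ∫ χ ((φ (-t) y).1) F y` by
`StMP`, `= ∫ χ(y.1) F y`. -/
def StAvg : Prop := ∀ (n : ℕ) (G : Type) [Group G] [MulAction G (E n)], Cocompact n G →
  ∀ g : Form n, Riem g → Inv G g → ∀ (φ : ℝ → W n → W n) (M : ℝ → W n → W n →L[ℝ] W n),
    IsFlow (XH (Hm g)) φ M → ∀ χ : E n → ℝ, PU G χ → ∀ F : W n → ℝ≥0∞, Measurable F →
    (∀ (a : G) (z : W n), F (lft g a z) = F z) → ∀ t,
    ∫⁻ z, ENNReal.ofReal (χ z.1) * F (φ t z) = ∫⁻ z, ENNReal.ofReal (χ z.1) * F z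

/-- The key inequality.  Let `B = {Hm g1 ≤ 1/2}`, `F z = nrm g1 v * nrm g2 v` (continuous and
invariant under `lft`), `φ` the flow (`StFlow`).  For `z ∈ B` with `r = nrm g1 v > 0`,
`c t = (φ t z).1` is a geodesic of speed `r`, `s ↦ c (s / r)` is a unit speed geodesic, so
`∫ t in 0..T, nrm g2 (c t) (c' t) ≥ r T - C'` (`StSeg`, substitution) and
`∫ t in 0..T, F (φ t z) ≥ r^2 T - C'` (as `r ≤ 1`); this is trivial for `r = 0`.  Multiply by
`χ z.1`, integrate over `B`, exchange the integrals (continuous functions on compact sets, `StSub`)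
and use `StAvg` with `F` times the indicator of `B`:
`T ∫_B χ F ≥ T ∫_B χ r^2 - C' ∫_B χ` for all `T > 0`; divide by `T`. -/
def StKey : Prop := ∀ (n : ℕ) (G : Type) [Group G] [MulAction G (E n)], Cocompact n G →
  ∀ g1 g2 : Form n, Riem g1 → Inv G g1 → Inv G g2 → Minz g1 → HypG g1 →
  (∀ a : G, L g1 a ≤ L g2 a) → ∀ χ : E n → ℝ, PU G χ →
  ∫ z in {z : W n | Hm g1 z ≤ 1 / 2}, χ z.1 * g1.val z.1 (vel g1 z) (vel g1 z) ≤
    ∫ z in {z : W n | Hm g1 z ≤ 1 / 2}, χ z.1 * (nrm g1 z.1 (vel g1 z) * nrm g2 z.1 (vel g1 z))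

/-- Second moments of the ball.  The reflection of one coordinate gives `∫ ξ_i ξ_j = 0` for
`i ≠ j`, the exchange of two coordinates gives that `∫ ξ_i^2` does not depend on `i`; so
`n ∫ ξ_i^2 = cn n`.  Expand the quadratic form. -/
def StSym : Prop := ∀ (n : ℕ) (A : Matrix (Fin n) (Fin n) ℝ),
  ∫ ξ in Metric.closedBall (0 : E n) 1, ∑ i, ∑ j, A i j * (ξ i * ξ j) =
    A.trace / n * cn n

/-- Integral over the fibre.  Let `G = op g x`, `L₀` a linear bijection of `E` with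
`g x (L₀ ξ) (L₀ η) = inner ξ η` (for instance the inverse square root of the positive symmetric `G`,
or Gram-Schmidt).  Substitute `p = G L₀ ξ`: then `v = L₀ ξ`, `Hm g (x, p) = ‖ξ‖^2 / 2`, and
`|det (G L₀)| = (det G)^(1/2)` since `L₀ᵀ G L₀ = 1`.  So the integral is
`(det G)^(1/2) ∫_{‖ξ‖ ≤ 1} b (L₀ ξ) (L₀ ξ)`, and by `StSym` this is
`(det G)^(1/2) (1/n) tr (L₀ᵀ B L₀) cn n`, `tr (L₀ᵀ B L₀) = tr (L₀ L₀ᵀ B) = tr (G⁻¹ B)`. -/
def StFib : Prop := ∀ (n : ℕ) (g : Form n), Riem g → ∀ (x : E n) (b : E n →L[ℝ] E n →L[ℝ] ℝ),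
  ∫ p in {p : E n | Hm g (x, p) ≤ 1 / 2}, b (vel g (x, p)) (vel g (x, p)) =
    ((gm g x)⁻¹ * Matrix.of fun i j => b (ee i) (ee j)).trace / n * cn n * dens g x

/-- Main inequality and its equality case.  With `B` and `v` as in `StKey`, `a = nrm g1 v`,
`b = nrm g2 v`: `∫_B χ a b ≥ ∫_B χ a^2`, and `∫_B χ b^2 = (cn n / n) ∫ χ tr g1 g2 dens g1`,
`∫_B χ a^2 = (cn n / n) n ∫ χ dens g1` by Fubini and `StFib`.  Since `2 a b ≤ a^2 + b^2` we get the
inequality (`cn n > 0` for `n > 0`; for `n = 0` both sides vanish).  If the opposite inequality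
holds then `∫_B χ (a - b)^2 ≤ 0`; the integrand is continuous and nonnegative, so `a = b` at all
interior points of `B` with `χ > 0`, hence by homogeneity for all `v` over all `x` with `χ x > 0`, and
by invariance everywhere (`∑ χ (a x) = 1`).  Polarize. -/
def StMain : Prop := ∀ (n : ℕ) (G : Type) [Group G] [MulAction G (E n)], Cocompact n G →
  ∀ g1 g2 : Form n, Riem g1 → Inv G g1 → Inv G g2 → Minz g1 → HypG g1 →
  (∀ a : G, L g1 a ≤ L g2 a) → ∀ χ : E n → ℝ, PU G χ →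
  n * (∫ x, χ x * dens g1 x) ≤ ∫ x, χ x * (tr g1 g2 x * dens g1 x) ∧
  ((∫ x, χ x * (tr g1 g2 x * dens g1 x)) ≤ n * (∫ x, χ x * dens g1 x) → g1 = g2)

/-! ### D. divergences, Kaehler forms -/

/-- The density: positive, smooth, and `dens g (a x) |det (dac a x)| = dens g x` since
`gm g x = Dᵀ gm g (a x) D`.  So `a` preserves the measure `dens g dx`. -/
def StDens : Prop := ∀ (n : ℕ) (g : Form n), Riem g →
  (∀ x, 0 < (gm g x).det) ∧ ContDiff ℝ ∞ (dens g) ∧
  ∀ (G : Type) [Group G] [MulAction G (E n)], Cocompact n G → Inv G g →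
    (∀ (a : G) x, dens g (a • x) * |(dac a x).det| = dens g x) ∧
    (∀ a : G, MeasurePreserving (fun x : E n => a • x)
      (volume.withDensity fun x => ENNReal.ofReal (dens g x))
      (volume.withDensity fun x => ENNReal.ofReal (dens g x)))

/-- The trace function is invariant and smooth, and `≥ 0`. -/
def StTrI : Prop := ∀ (n : ℕ) (G : Type) [Group G] [MulAction G (E n)], Cocompact n G →
  ∀ g1 g2 : Form n, Riem g1 → Inv G g1 → Inv G g2 →
  (∀ (a : G) x, tr g1 g2 (a • x) = tr g1 g2 x) ∧ ContDiff ℝ ∞ (tr g1 g2) ∧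
  ∀ x, 0 ≤ tr g1 g2 x

/-- Integrals over a fundamental domain.  `StUnf` on `R^n` with the measure `dens g dx`, `a` the
indicator of `D`, `b = ofReal χ`, `F = ofReal f`. -/
def StFD : Prop := ∀ (n : ℕ) (G : Type) [Group G] [MulAction G (E n)], Cocompact n G →
  ∀ g : Form n, Riem g → Inv G g → ∀ χ : E n → ℝ, PU G χ → ∀ D : Set (E n), MeasurableSet D →
  (∀ x : E n, ∃! a : G, a • x ∈ D) → ∀ f : E n → ℝ, Continuous f → (∀ x, 0 ≤ f x) →
  (∀ (a : G) x, f (a • x) = f x) → ∫ x in D, f x * dens g x = ∫ x, χ x * (f x * dens g x)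

/-- The divergence theorem on the quotient.  Let `N` be a compact neighbourhood of the support `S`
of `χ` and `A` the finite set of `a` with `a N ∩ N ≠ ∅` (stable under inversion).  For `x ∈ N`,
`∑_{a ∈ A} χ (a x) = 1`.  Integration by parts (compact support): the integral is
`- ∫ ρ Dχ(Z)`.  Now `∫ ρ Dχ(Z) = ∑_{a ∈ A} ∫ ρ (x) χ (a x) Dχ(x)(Z x) dx`; substitute `y = a x`:
`= ∑_{a ∈ A} ∫ ρ (y) χ (y) (D(χ ∘ a⁻¹)(y) (Z y)) dy = ∫ ρ χ D(∑_{a ∈ A} χ ∘ a⁻¹)(Z) = 0`, because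
the sum is constant near `S`. -/
def StDivZ : Prop := ∀ (n : ℕ) (G : Type) [Group G] [MulAction G (E n)], Cocompact n G →
  ∀ χ : E n → ℝ, PU G χ → ∀ ρ : E n → ℝ, ContDiff ℝ ∞ ρ →
  (∀ (a : G) x, ρ (a • x) * |(dac a x).det| = ρ x) → ∀ Z : E n → E n, ContDiff ℝ ∞ Z →
  (∀ (a : G) x, Z (a • x) = dac a x (Z x)) →
  ∫ x, χ x * ∑ j, fderiv ℝ (fun y => ρ y * Z y j) x (ee j) = 0

/-- The inverse of a closed two form is divergence free.  Write `P = Ω⁻¹`, `ρ = (det Ω)^(1/2)`.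
`∂_j ρ = ρ/2 tr (P ∂_j Ω)` (Jacobi), `∂_j P = - P (∂_j Ω) P`.  So
`∑_j ∂_j (ρ P_ij) = ρ (1/2 ∑ P_ij P_kl ∂_j Ω_lk - ∑ P_ik P_lj ∂_j Ω_kl)`.  Rename the second sum:
`∑ P_ij P_lk ∂_k Ω_jl`; since `P_lk` is antisymmetric this is
`1/2 ∑ P_ij P_lk (∂_k Ω_jl - ∂_l Ω_jk) = - 1/2 ∑ P_ij P_lk ∂_j Ω_lk` by closedness
(`∂_j Ω_lk + ∂_l Ω_kj + ∂_k Ω_jl = 0`), and the first sum is `- 1/2 ∑ P_ij P_lk ∂_j Ω_lk`. -/
def StDiv : Prop := ∀ (n : ℕ) (Ω : E n → Matrix (Fin n) (Fin n) ℝ),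
  (∀ i j, ContDiff ℝ ∞ (fun x => Ω x i j)) → (∀ x i j, Ω x i j = -Ω x j i) →
  (∀ x i j k, fderiv ℝ (fun y => Ω y j k) x (ee i) + fderiv ℝ (fun y => Ω y k i) x (ee j) +
    fderiv ℝ (fun y => Ω y i j) x (ee k) = 0) → (∀ x, 0 < (Ω x).det) →
  ∀ x i, ∑ j, fderiv ℝ (fun y => Real.sqrt (Ω y).det * (Ω y)⁻¹ i j) x (ee j) = 0

/-- The trace in a Kaehler class.  Let `Jm x` be the matrix of `J x`, `Ω_i x = Jmᵀ gm g_i x` (entries
`g_i (J e_a, e_b)`).  `J x` is an isometry of `g_1` with square `-1`, so `det Jm = ±1`... more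
precisely `det Jm ^ 2 = (-1)^n` and `Jmᵀ gm Jm = gm` give `det Jm ^ 2 = 1`, and
`det Ω_1 = det Jm det gm g1`; since `Jmᵀ gm` is antisymmetric and real, its determinant is
`≥ 0`, so `det Jm = 1` and `det Ω_1 = det gm g1 > 0`.  `Ω_1⁻¹ Ω_2 = (gm g1)⁻¹ gm g2`, so
`tr g1 g2 = tr (Ω_1⁻¹ Ω_2) = r n + tr (Ω_1⁻¹ dα)`, and with `P = Ω_1⁻¹` antisymmetric
`tr (P dα) = ∑ P_ij (∂_j α_i - ∂_i α_j) = 2 ∑ P_ij ∂_j α_i`.  By `StDiv`
`dens g1 * tr g1 g2 = r n dens g1 + ∑_j ∂_j (ρ Z_j)`, `Z_j = 2 ∑_i P_ij α_i`, `ρ = dens g1`.  `Z` is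
invariant because `Ω_1` and `α` are.  Use `StDivZ` and `StDens`. -/
def StKah : Prop := ∀ (n : ℕ) (G : Type) [Group G] [MulAction G (E n)], Cocompact n G →
  ∀ g1 g2 : Form n, Riem g1 → Inv G g1 → ∀ J : E n → E n →L[ℝ] E n, IsJ G J →
  Kah J g1 → ∀ r : ℝ, Cohom G J g1 g2 r → ∀ χ : E n → ℝ, PU G χ →
  ∫ x, χ x * (tr g1 g2 x * dens g1 x) = r * (n * ∫ x, χ x * dens g1 x)

/-- Pull-back.  The pull-back under an equivariant smooth map is invariant (chain rule), and the map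
sends paths to paths of the same length, and curves from `x` to `a x` to curves from `F x` to
`a (F x)`; so `L g a ≤ L (pull F g) a`. -/
def StPull : Prop := ∀ (n : ℕ) (G : Type) [Group G] [MulAction G (E n)], Cocompact n G →
  ∀ g : Form n, Inv G g → ∀ (F : E n → E n) (hF : ContDiff ℝ ∞ F),
  (∀ (a : G) x, F (a • x) = a • F x) → Inv G (pull F hF g) ∧ ∀ a : G, L g a ≤ L (pull F hF g) a

/-! ### the theorems -/

/-- Energy.  If no closed geodesic of `g1` is longer than the one of `g2` in the same class then every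
smooth map homotopic to the identity has energy at least that of an isometry, with equality only
if it pulls `g2` back to `g1`. -/
def StThA : Prop := ∀ (n : ℕ) (G : Type) [Group G] [MulAction G (E n)], Cocompact n G →
  ∀ g1 g2 : Form n, Riem g1 → Riem g2 → Inv G g1 → Inv G g2 → Minz g1 → HypG g1 →
  (∀ a : G, L g1 a ≤ L g2 a) → ∀ (F : E n → E n) (hF : ContDiff ℝ ∞ F),
  (∀ (a : G) x, F (a • x) = a • F x) → ∀ D : Set (E n), MeasurableSet D →
  (∀ x : E n, ∃! a : G, a • x ∈ D) →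
  n * (∫ x in D, dens g1 x) ≤ ∫ x in D, tr g1 (pull F hF g2) x * dens g1 x ∧
  ((∫ x in D, tr g1 (pull F hF g2) x * dens g1 x) ≤ n * (∫ x in D, dens g1 x) →
    g1 = pull F hF g2)

/-- Kaehler classes. -/
def StThB : Prop := ∀ (n : ℕ) (G : Type) [Group G] [MulAction G (E n)], Cocompact n G →
  ∀ g1 g2 : Form n, Riem g1 → Riem g2 → Inv G g1 → Inv G g2 → Minz g1 → HypG g1 →
  (∀ a : G, L g1 a ≤ L g2 a) → ∀ J : E n → E n →L[ℝ] E n, IsJ G J → Kah J g1 →
  ∀ (F : E n → E n) (hF : ContDiff ℝ ∞ F), (∀ (a : G) x, F (a • x) = a • F x) →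
  ∀ r : ℝ, r ≤ 1 → Cohom G J g1 (pull F hF g2) r → g1 = pull F hF g2

end Pool.Agent.MLS
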