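import Mathlib
import Pool.Agent.Work.MP_25cd3b_gt.M.Stmts

set_option autoImplicit false

/-!
# MP_25cd3b_gt, item Bnd: bounds on compact sets
-/

open MeasureTheory Set Filter Topology
open scoped ContDiff ENNReal

namespace Pool.Agent.MLS

namespace IBnd

theorem cts {n : ℕ} (g : Form n) : Continuous fun z : E n × E n => g.val z.1 z.2 z.2 :=
  ((g.smooth.continuous.comp continuous_fst).clm_apply continuous_snd).clm_apply continuous_snd

theorem unit_mem {n : ℕ} {v : E n} (hv : v ≠ 0) : (‖v‖⁻¹ • v) ∈ Metric.sphere (0 : E n) 1 := by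
  rw [mem_sphere_zero_iff_norm, norm_smul, norm_inv, norm_norm,
    inv_mul_cancel₀ (norm_pos_iff.2 hv).ne']

theorem hom {n : ℕ} (g : Form n) (x : E n) {v : E n} (hv : v ≠ 0) :
    g.val x (‖v‖⁻¹ • v) (‖v‖⁻¹ • v) * ‖v‖ ^ 2 = g.val x v v := by
  have hv0 : ‖v‖ ≠ 0 := (norm_pos_iff.2 hv).ne'
  simp only [map_smul, smul_apply, smul_eq_mul]
  field_simp

theorem upper {n : ℕ} (g : Form n) (K : Set (E n)) (hK : IsCompact K) :
    ∃ C, 0 < C ∧ ∀ x ∈ K, ∀ v, nrm g x v ≤ C * ‖v‖ := by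
  have hS : IsCompact (K ×ˢ Metric.sphere (0 : E n) 1) := hK.prod (isCompact_sphere _ _)
  obtain ⟨B, hB⟩ := hS.exists_bound_of_continuousOn (cts g).continuousOn
  refine ⟨Real.sqrt |B| + 1, by positivity, fun x hx v => ?_⟩
  by_cases hv : v = 0
  · subst hv
    simp [nrm]
  · have h1 : g.val x v v ≤ |B| * ‖v‖ ^ 2 := by
      rw [← hom g x hv]
      refine mul_le_mul_of_nonneg_right ?_ (sq_nonneg _)
      exact (le_abs_self _).trans ((hB (x, ‖v‖⁻¹ • v) ⟨hx, unit_mem hv⟩).trans (le_abs_self B))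
    calc nrm g x v ≤ Real.sqrt (|B| * ‖v‖ ^ 2) := Real.sqrt_le_sqrt h1
      _ = Real.sqrt |B| * ‖v‖ := by
        rw [Real.sqrt_mul (abs_nonneg B), Real.sqrt_sq (norm_nonneg v)]
      _ ≤ (Real.sqrt |B| + 1) * ‖v‖ := by
        have := norm_nonneg v
        nlinarith

theorem lower {n : ℕ} (g : Form n) (K : Set (E n)) (hK : IsCompact K) (hg : Riem g) :
    ∃ C, 0 < C ∧ ∀ x ∈ K, ∀ v, ‖v‖ ≤ C * nrm g x v := by
  have hS : IsCompact (K ×ˢ Metric.sphere (0 : E n) 1) := hK.prod (isCompact_sphere _ _)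
  obtain ⟨m, hm, hm1⟩ := hS.exists_forall_le' (a := 0) (cts g).continuousOn (fun z hz => by
    refine hg z.1 z.2 ?_
    intro h0
    have h1 : ‖z.2‖ = 1 := by simpa using hz.2
    rw [h0, norm_zero] at h1
    exact zero_ne_one h1)
  have hm0 : 0 < Real.sqrt m := Real.sqrt_pos.2 hm
  refine ⟨(Real.sqrt m)⁻¹, inv_pos.2 hm0, fun x hx v => ?_⟩
  by_cases hv : v = 0
  · rw [hv, norm_zero]
    exact mul_nonneg (inv_pos.2 hm0).le (Real.sqrt_nonneg _)
  · have h3 : m * ‖v‖ ^ 2 ≤ g.val x v v := by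
      rw [← hom g x hv]
      exact mul_le_mul_of_nonneg_right (hm1 (x, ‖v‖⁻¹ • v) ⟨hx, unit_mem hv⟩) (sq_nonneg _)
    have h6 : Real.sqrt m * ‖v‖ ≤ nrm g x v := by
      calc Real.sqrt m * ‖v‖ = Real.sqrt (m * ‖v‖ ^ 2) := by
            rw [Real.sqrt_mul hm.le, Real.sqrt_sq (norm_nonneg v)]
        _ ≤ nrm g x v := Real.sqrt_le_sqrt h3
    rw [inv_mul_eq_div, le_div_iff₀ hm0]
    linarith

end IBnd

/-- bounds on compact sets -/
theorem pr_Bnd : StBnd := fun _ g K hK => ⟨IBnd.upper g K hK, IBnd.lower g K hK⟩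

end Pool.Agent.MLS
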