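import Mathlib
import Pool.Agent.Work.MP_25cd3b_gt.M.Stmts

set_option autoImplicit false

/-! Item LftA of the block [25cd3b MLS]: algebra of the lifted action. -/

open MeasureTheory Set Filter Topology
open scoped ContDiff ENNReal

namespace Pool.Agent.MLS

namespace ILftA

variable {n : ℕ} {G : Type} [Group G] [MulAction G (E n)]

theorem dac_mul (h : Cocompact n G) (a b : G) (x v : E n) :
    dac (a * b) x v = dac a (b • x) (dac b x v) := by
  have ha : DifferentiableAt ℝ (fun y : E n => a • y) (b • x) :=
    ((h.smooth a).differentiable (by norm_num)).differentiableAt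
  have hb : DifferentiableAt ℝ (fun y : E n => b • y) x :=
    ((h.smooth b).differentiable (by norm_num)).differentiableAt
  have h1 : (fun y : E n => (a * b) • y) = (fun y : E n => a • y) ∘ (fun y : E n => b • y) := by
    funext y
    exact mul_smul a b y
  unfold dac
  rw [h1, fderiv_comp x ha hb]
  rfl

theorem dac_one (x v : E n) : dac (1 : G) x v = v := by
  have h1 : (fun y : E n => (1 : G) • y) = fun y : E n => y := by
    funext y
    exact one_smul G y
  unfold dac
  rw [h1]
  simp

theorem dac_continuous (h : Cocompact n G) (a : G) : Continuous (fun x : E n => dac a x) := by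
  have h1 : ContDiff ℝ ∞ (fun x : E n => fderiv ℝ (fun y : E n => a • y) x) :=
    (h.smooth a).fderiv_right (by norm_num)
  exact h1.continuous

end ILftA

theorem pr_LftA (h1 : StOp) : StLftA := by
  intro n G _ _ hG g hg hinv
  obtain ⟨-, -, hio, hoi, -, hop, hiop, -, hHm⟩ := h1 n g hg
  have hvel : ∀ (a : G) (z : W n), vel g (lft g a z) = dac a z.1 (vel g z) := by
    intro a z
    unfold vel lft
    exact hio _ _
  refine ⟨hvel, ?_, ?_, ?_, ?_⟩
  · intro a z
    rw [hHm, hHm, hvel a z]
    have h2 : (lft g a z).1 = a • z.1 := rfl
    rw [h2, hinv a z.1]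
  · intro a b z
    have h2 : (lft g b z).1 = b • z.1 := rfl
    refine Prod.ext ?_ ?_
    · change (a * b) • z.1 = a • (b • z.1)
      exact mul_smul a b z.1
    · change op g ((a * b) • z.1) (dac (a * b) z.1 (vel g z)) =
        op g (a • (b • z.1)) (dac a (b • z.1) (vel g (lft g b z)))
      rw [hvel b z, ILftA.dac_mul hG, mul_smul]
  · intro z
    refine Prod.ext ?_ ?_
    · change (1 : G) • z.1 = z.1
      exact one_smul G z.1
    · change op g ((1 : G) • z.1) (dac (1 : G) z.1 (iop g z.1 z.2)) = z.2
      rw [ILftA.dac_one, one_smul]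
      exact hoi _ _
  · intro a
    have ha : Continuous (fun x : E n => a • x) := (hG.smooth a).continuous
    have h3 : Continuous (fun z : W n => a • z.1) := ha.comp continuous_fst
    have h4 : Continuous (fun z : W n => iop g z.1 z.2) :=
      (hiop.continuous.comp continuous_fst).clm_apply continuous_snd
    have h5 : Continuous (fun z : W n => dac a z.1 (iop g z.1 z.2)) :=
      ((ILftA.dac_continuous hG a).comp continuous_fst).clm_apply h4
    have h6 : Continuous (fun z : W n => op g (a • z.1) (dac a z.1 (iop g z.1 z.2))) :=
      (hop.continuous.comp h3).clm_apply h5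
    exact h3.prodMk h6

end Pool.Agent.MLS
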