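import Mathlib
import Pool.Agent.Work.MP_25cd3b_gt.M.Stmts

/-!
# MP_25cd3b_gt, item Op: the operators of a form
-/

set_option autoImplicit false

open MeasureTheory Set Filter Topology
open scoped ContDiff ENNReal

namespace Pool.Agent.MLS

namespace IOp

theorem sh_apply {n : ℕ} (l : E n →L[ℝ] ℝ) : sh l = ∑ i, l (ee i) • (ee i : E n) := by
  simp [sh]

theorem inner_sh {n : ℕ} (l : E n →L[ℝ] ℝ) (w : E n) : inner ℝ (sh l) w = l w := by
  have h1 : w = ∑ i, w i • (ee i : E n) := by
    ext j
    simp [ee, Pi.single_apply]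
  have h2 : l w = ∑ i, w i * l (ee i) := by
    conv_lhs => rw [h1]
    simp
  rw [h2, sh_apply, sum_inner]
  refine Finset.sum_congr rfl fun i _ => ?_
  rw [real_inner_smul_left, ee, EuclideanSpace.inner_single_left]
  simp [mul_comm]

theorem inner_op {n : ℕ} (g : Form n) (x v w : E n) : inner ℝ (op g x v) w = g.val x v w := by
  simp only [op, ContinuousLinearMap.comp_apply]
  exact inner_sh _ _

theorem isUnit_op {n : ℕ} {g : Form n} (hg : Riem g) (x : E n) : IsUnit (op g x) := by
  have hinj : Function.Injective (op g x) := by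
    rw [injective_iff_map_eq_zero]
    intro v hv
    by_contra hne
    have h1 := hg x v hne
    rw [← inner_op, hv, inner_zero_left] at h1
    exact lt_irrefl _ h1
  have hsurj : Function.Surjective (op g x) :=
    (LinearMap.injective_iff_surjective (f := (op g x : E n →ₗ[ℝ] E n))).1 hinj
  exact ContinuousLinearMap.isUnit_iff_bijective.2 ⟨hinj, hsurj⟩

theorem iop_op {n : ℕ} {g : Form n} (hg : Riem g) (x v : E n) : iop g x (op g x v) = v := by
  have h := Ring.inverse_mul_cancel _ (isUnit_op hg x)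
  have h2 := congrArg (fun T : E n →L[ℝ] E n => T v) h
  simpa [iop] using h2

theorem op_iop {n : ℕ} {g : Form n} (hg : Riem g) (x v : E n) : op g x (iop g x v) = v := by
  have h := Ring.mul_inverse_cancel _ (isUnit_op hg x)
  have h2 := congrArg (fun T : E n →L[ℝ] E n => T v) h
  simpa [iop] using h2

theorem iop_symm {n : ℕ} {g : Form n} (hg : Riem g) (x u v : E n) :
    inner ℝ (iop g x u) v = inner ℝ u (iop g x v) := by
  have h1 : inner ℝ (iop g x u) v = g.val x (iop g x v) (iop g x u) := by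
    rw [← inner_op, op_iop hg, real_inner_comm]
  have h2 : inner ℝ u (iop g x v) = g.val x (iop g x u) (iop g x v) := by
    rw [← inner_op, op_iop hg]
  rw [h1, h2, g.symm]

theorem contDiff_op {n : ℕ} (g : Form n) : ContDiff ℝ ∞ (op g) :=
  contDiff_const.clm_comp g.smooth

theorem contDiff_iop {n : ℕ} {g : Form n} (hg : Riem g) : ContDiff ℝ ∞ (iop g) := by
  rw [contDiff_iff_contDiffAt]
  intro x
  obtain ⟨u, hu⟩ := isUnit_op hg x
  have h1 : ContDiffAt ℝ ∞ Ring.inverse (op g x) := by
    rw [← hu]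
    exact contDiffAt_ringInverse ℝ u
  exact h1.comp x (contDiff_op g).contDiffAt

theorem contDiff_Hm {n : ℕ} {g : Form n} (hg : Riem g) : ContDiff ℝ ∞ (Hm g) := by
  have h1 : ContDiff ℝ ∞ (fun z : W n => iop g z.1 z.2) :=
    ((contDiff_iop hg).comp contDiff_fst).clm_apply contDiff_snd
  exact contDiff_const.mul (contDiff_snd.inner ℝ h1)

theorem Hm_eq {n : ℕ} {g : Form n} (hg : Riem g) (z : W n) :
    Hm g z = 1 / 2 * g.val z.1 (vel g z) (vel g z) := by
  rw [← inner_op, vel, op_iop hg, Hm]

end IOp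

theorem pr_Op : StOp := fun _ g hg =>
  ⟨IOp.inner_sh, IOp.inner_op g, IOp.iop_op hg, IOp.op_iop hg, IOp.iop_symm hg,
    IOp.contDiff_op g, IOp.contDiff_iop hg, IOp.contDiff_Hm hg, IOp.Hm_eq hg⟩

end Pool.Agent.MLS
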