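import Pool.Agent.Work.MP_25cd3b_gt.M.Stmts

set_option autoImplicit false

open MeasureTheory Set Filter Topology
open scoped ContDiff ENNReal Matrix MatrixOrder

namespace Pool.Agent.MLS

namespace IFib

/-- a square root of a positive semidefinite matrix -/
theorem exR {n : ℕ} (S : Matrix (Fin n) (Fin n) ℝ) (hS : S.PosSemidef) :
    ∃ R : Matrix (Fin n) (Fin n) ℝ, R.transpose = R ∧ R * R = S := by
  refine ⟨CFC.sqrt S, ?_, CFC.sqrt_mul_sqrt_self S hS.nonneg⟩
  have h := (Matrix.nonneg_iff_posSemidef.mp (CFC.sqrt_nonneg S)).isHermitian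
  have h2 := h.eq
  rwa [Matrix.conjTranspose_eq_transpose_of_trivial] at h2

/-- the vector in the basis -/
theorem eq_sum {n : ℕ} (v : E n) : v = ∑ i, v i • ee i := by
  ext j
  simp [ee, Pi.single_apply]

/-- a bilinear form in the basis -/
theorem bil {n : ℕ} (b : E n →L[ℝ] E n →L[ℝ] ℝ) (v w : E n) :
    b v w = (WithLp.ofLp v) ⬝ᵥ
      ((Matrix.of fun i j => b (ee i) (ee j)) : Matrix (Fin n) (Fin n) ℝ) *ᵥ (WithLp.ofLp w) := by
  conv_lhs => rw [eq_sum v, eq_sum w]
  simp only [map_sum, map_smul, ContinuousLinearMap.sum_apply, ContinuousLinearMap.smul_apply,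
    smul_eq_mul, dotProduct, Matrix.mulVec, Matrix.of_apply, Finset.mul_sum]
  rw [Finset.sum_comm]
  refine Finset.sum_congr rfl fun i _ => Finset.sum_congr rfl fun j _ => ?_
  ring

/-- positivity of the matrix of the form -/
theorem gm_posDef {n : ℕ} (g : Form n) (hg : Riem g) (x : E n) : (gm g x).PosDef := by
  refine Matrix.PosDef.of_dotProduct_mulVec_pos ?_ ?_
  · ext i j
    simp [gm, g.symm x (ee i) (ee j)]
  · intro u hu
    have h := bil (g.val x) (WithLp.toLp 2 u) (WithLp.toLp 2 u)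
    have h2 : 0 < g.val x (WithLp.toLp 2 u) (WithLp.toLp 2 u) := by
      apply hg
      intro h0
      apply hu
      have := congrArg WithLp.ofLp h0
      simpa using this
    rw [h] at h2
    simpa [gm] using h2

/-- the operator of the form is given by its matrix -/
theorem op_eq {n : ℕ} (g : Form n) (hg : Riem g) (h1 : StOp) (x v : E n) :
    op g x v = Matrix.toEuclideanCLM (n := Fin n) (𝕜 := ℝ) (gm g x) v := by
  obtain ⟨-, h2, -⟩ := h1 n g hg
  refine ext_inner_left ℝ fun w => ?_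
  rw [real_inner_comm, h2 x v w, Matrix.inner_toEuclideanCLM, g.symm x v w, bil (g.val x) w v]
  rfl

end IFib

open IFib

theorem pr_Fib (h1 : StOp) (h2 : StSym) : StFib := by
  intro n g hg x b
  obtain ⟨-, hop, hiop, hopi, hsym, -⟩ := h1 n g hg
  have hPD := gm_posDef g hg x
  obtain ⟨R, hRt, hRR⟩ := exR (gm g x) hPD.posSemidef
  have hdS : 0 < (gm g x).det := hPD.det_pos
  have hdR : R.det * R.det = (gm g x).det := by rw [← Matrix.det_mul, hRR]
  have hR0 : R.det ≠ 0 := by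
    intro h
    rw [h] at hdR
    simp at hdR
    exact hdS.ne hdR
  have hRu : IsUnit R.det := isUnit_iff_ne_zero.mpr hR0
  have hRi : R * R⁻¹ = 1 := Matrix.mul_nonsing_inv R hRu
  have hiR : R⁻¹ * R = 1 := Matrix.nonsing_inv_mul R hRu
  set T := Matrix.toEuclideanCLM (n := Fin n) (𝕜 := ℝ) R with hT
  set T' := Matrix.toEuclideanCLM (n := Fin n) (𝕜 := ℝ) R⁻¹ with hT'
  have hTT' : ∀ ξ, T (T' ξ) = ξ := by
    intro ξ
    have : (T * T') ξ = ξ := by rw [hT, hT', ← map_mul, hRi, map_one]; rfl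
    exact this
  have hT'T : ∀ ξ, T' (T ξ) = ξ := by
    intro ξ
    have : (T' * T) ξ = ξ := by rw [hT, hT', ← map_mul, hiR, map_one]; rfl
    exact this
  have hv : ∀ ξ, iop g x (T ξ) = T' ξ := by
    intro ξ
    have h3 : op g x (T' ξ) = T ξ := by
      rw [op_eq g hg h1]
      have : (Matrix.toEuclideanCLM (n := Fin n) (𝕜 := ℝ) (gm g x) * T') ξ = T ξ := by
        rw [hT', hT, ← map_mul, ← hRR, Matrix.mul_assoc, hRi, Matrix.mul_one]
      exact this
    rw [← h3, hiop]
  have hTs : ∀ ξ η, inner ℝ (T ξ) η = inner ℝ ξ (T η) := by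
    intro ξ η
    rw [real_inner_comm, hT, Matrix.inner_toEuclideanCLM, Matrix.inner_toEuclideanCLM,
      Matrix.dotProduct_mulVec, ← Matrix.mulVec_transpose, hRt, dotProduct_comm]
  have hH : ∀ ξ, Hm g (x, T ξ) = 1 / 2 * ‖ξ‖ ^ 2 := by
    intro ξ
    simp only [Hm]
    rw [hv, hTs, hTT', real_inner_self_eq_norm_sq]
  have hset : {p : E n | Hm g (x, p) ≤ 1 / 2} = T '' Metric.closedBall (0 : E n) 1 := by
    ext p
    simp only [mem_setOf_eq, mem_image, mem_closedBall_zero_iff]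
    constructor
    · intro hp
      refine ⟨T' p, ?_, hTT' p⟩
      have h4 := hH (T' p)
      rw [hTT'] at h4
      rw [h4] at hp
      have : ‖T' p‖ ^ 2 ≤ 1 := by linarith
      nlinarith [norm_nonneg (T' p)]
    · rintro ⟨ξ, hξ, rfl⟩
      rw [hH]
      nlinarith [norm_nonneg ξ]
  have hinj : InjOn T (Metric.closedBall (0 : E n) 1) := by
    intro ξ _ η _ h
    rw [← hT'T ξ, h, hT'T]
  have hdet : T.det = R.det := by
    rw [ContinuousLinearMap.det, hT, Matrix.coe_toEuclideanCLM_eq_toEuclideanLin,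
      Matrix.toEuclideanLin_eq_toLin, LinearMap.det_toLin]
  have habs : |R.det| = dens g x := by
    rw [dens, ← hdR, Real.sqrt_mul_self_eq_abs]
  rw [hset, integral_image_eq_integral_abs_det_fderiv_smul volume
    Metric.isClosed_closedBall.measurableSet (fun ξ _ => T.hasFDerivAt.hasFDerivWithinAt) hinj]
  set B : Matrix (Fin n) (Fin n) ℝ := Matrix.of fun i j => b (ee i) (ee j) with hB
  have hint : ∀ ξ : E n, b (vel g (x, T ξ)) (vel g (x, T ξ)) =
      ∑ i, ∑ j, (R⁻¹.transpose * B * R⁻¹) i j * (ξ i * ξ j) := by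
    intro ξ
    have h5 : vel g (x, T ξ) = T' ξ := hv ξ
    rw [h5, bil b, hT', Matrix.ofLp_toEuclideanCLM, ← hB]
    have h6 : (R⁻¹ *ᵥ (WithLp.ofLp ξ)) ⬝ᵥ B *ᵥ (R⁻¹ *ᵥ (WithLp.ofLp ξ)) =
        (WithLp.ofLp ξ) ⬝ᵥ (R⁻¹.transpose * B * R⁻¹) *ᵥ (WithLp.ofLp ξ) := by
      rw [← Matrix.mulVec_mulVec, ← Matrix.mulVec_mulVec, Matrix.dotProduct_mulVec
        (WithLp.ofLp ξ), Matrix.vecMul_transpose]
    rw [h6]
    simp only [dotProduct, Matrix.mulVec, Finset.mul_sum]
    refine Finset.sum_congr rfl fun i _ => Finset.sum_congr rfl fun j _ => ?_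
    ring
  simp only [hint, smul_eq_mul, hdet, habs]
  rw [integral_const_mul, h2 n]
  have htr : (R⁻¹.transpose * B * R⁻¹).trace = ((gm g x)⁻¹ * B).trace := by
    rw [Matrix.transpose_nonsing_inv, hRt, Matrix.trace_mul_comm, ← Matrix.mul_assoc, ← hRR,
      Matrix.mul_inv_rev]
  rw [htr]
  ring

end Pool.Agent.MLS
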