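import Pool.Agent.Work.MP_25cd3b_gt.M.Stmts2

set_option autoImplicit false

/-!
# MP_25cd3b_gt: proofs of the theorems of the second part from the items
-/

open MeasureTheory Set Filter Topology
open scoped ContDiff ENNReal

namespace Pool.Agent.MLS

theorem sdens_zero {n : ℕ} (g1 g2 : Form n) (x : E n) : sdens g1 g2 0 x = dens g1 x := by
  simp [sdens, dens]

theorem sdens_one {n : ℕ} (g1 g2 : Form n) (x : E n) : sdens g1 g2 1 x = dens g2 x := by
  simp [sdens, dens]

theorem pr_ThV (hM : StMain) (hP : StPU) (hS : StSFD) (hV : StVar) : StThV := by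
  intro n G _ _ hG g1 g2 r1 r2 i1 i2 m1 h1 hL D hD hc
  obtain ⟨χ, hχ⟩ := hP n G hG
  obtain ⟨a1, b1⟩ := hM n G hG g1 g2 r1 i1 i2 m1 h1 hL χ hχ
  have hv := hV n g1 g2 r1 χ hχ.smooth.continuous hχ.cpt
  have he : (fun t => ∫ x in D, sdens g1 g2 t x) = fun t => ∫ x, χ x * sdens g1 g2 t x := by
    funext t
    exact hS n G hG g1 g2 r1 i1 i2 χ hχ D hD t
  have e0 : (∫ x in D, dens g1 x) = ∫ x, χ x * sdens g1 g2 0 x := by
    rw [← hS n G hG g1 g2 r1 i1 i2 χ hχ D hD 0]
    simp only [sdens_zero]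
  have e1 : (∫ x in D, dens g2 x) = ∫ x, χ x * sdens g1 g2 1 x := by
    rw [← hS n G hG g1 g2 r1 i1 i2 χ hχ D hD 1]
    simp only [sdens_one]
  rw [he] at hc
  have hs := hc.le_slope_of_hasDerivAt (left_mem_Icc.2 zero_le_one)
    (right_mem_Icc.2 zero_le_one) zero_lt_one hv
  rw [slope_def_field] at hs
  simp only [sub_zero, div_one] at hs
  rw [e0, e1]
  refine ⟨by linarith, fun h => b1 (by linarith)⟩

theorem pr_ThK (hM : StMain) (hP : StPU) (hT : StTrI) (hK : StKah) (hU : StPull) (hO : StOp)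
    (hA : StLftA) (hW : StFDW) (hFu : StFub) (hKK : StKeyK) (hSub : StSub) : StThK := by
  intro n G _ _ hG g1 g2 r1 r2 i1 i2 m1 h1 κ hκ hL J hJ hk F hFs hFe hc D hD
  obtain ⟨ip, lp⟩ := hU n G hG g2 i2 F hFs hFe
  have hL' : ∀ a : G, κ * L g1 a ≤ L (pull F hFs g2) a := fun a => (hL a).trans (lp a)
  refine ⟨?_, fun h => ?_⟩
  swap
  · refine kah_le hM hK hP hT n G hG g1 _ r1 i1 ip m1 h1 (fun a => ?_) J hJ hk hc
    have := hL' a
    rwa [h, one_mul] at this
  generalize pull F hFs g2 = g at ip hL' hc ⊢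
  obtain ⟨χ, hχ⟩ := hP n G hG
  obtain ⟨o1, o2, o3, o4, o5, o6, o7, o8, o9⟩ := hO n g1 r1
  obtain ⟨l1, l2, l3, l4, l5⟩ := hA n G hG g1 r1 i1
  have hvc : Continuous (vel g1) := by
    have : Continuous fun z : W n => iop g1 z.1 z.2 :=
      (o7.continuous.comp continuous_fst).clm_apply continuous_snd
    exact this
  have hvalc : ∀ h : Form n, Continuous fun z : W n => h.val z.1 (vel g1 z) (vel g1 z) := fun h =>
    (((h.smooth.continuous.comp continuous_fst).clm_apply hvc).clm_apply hvc)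
  have hnc : ∀ h : Form n, Continuous fun z : W n => nrm h z.1 (vel g1 z) := fun h =>
    Real.continuous_sqrt.comp (hvalc h)
  have hni : ∀ h : Form n, Inv G h → ∀ (a : G) (z : W n),
      nrm h (lft g1 a z).1 (vel g1 (lft g1 a z)) = nrm h z.1 (vel g1 z) := by
    intro h hi a z
    rw [l1 a z]
    simp only [nrm, lft]
    rw [hi a z.1]
  have hsq : ∀ h : Form n, ∀ z : W n, nrm h z.1 (vel g1 z) ^ 2 =
      h.val z.1 (vel g1 z) (vel g1 z) := fun h z => Real.sq_sqrt (h.nonneg _ _)
  set B : Set (W n) := {z : W n | Hm g1 z ≤ 1 / 2} with hB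
  have hBm : MeasurableSet B := (isClosed_le o8.continuous continuous_const).measurableSet
  have hI : ∀ f : W n → ℝ, Continuous f → IntegrableOn (fun z => χ z.1 * f z) B := by
    intro f hf
    have hK := hSub n g1 r1 (tsupport χ) (1 / 2) hχ.cpt
    have hsub : {z : W n | z.1 ∈ tsupport χ ∧ Hm g1 z ≤ 1 / 2} ⊆ B := fun z hz => hz.2
    have hc1 : Continuous fun z : W n => χ z.1 * f z :=
      (hχ.smooth.continuous.comp continuous_fst).mul hf
    have hi1 := hc1.continuousOn.integrableOn_compact hK (μ := volume)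
    refine hi1.of_forall_sdiff_eq_zero hBm ?_
    intro z hz
    have : z.1 ∉ tsupport χ := fun h => hz.2 ⟨h, hz.1⟩
    rw [image_eq_zero_of_notMem_tsupport this, zero_mul]
  -- pass to the partition of unity
  rw [hW n G hG g1 r1 i1 χ hχ D hD
      (fun z => (nrm g z.1 (vel g1 z) - nrm g1 z.1 (vel g1 z)) ^ 2)
      (((hnc g).sub (hnc g1)).pow 2) (fun z => sq_nonneg _)
      (fun a z => by simp only [hni g ip a z, hni g1 i1 a z]),
    hW n G hG g1 r1 i1 χ hχ D hD (fun z => nrm g1 z.1 (vel g1 z) ^ 2) ((hnc g1).pow 2)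
      (fun z => sq_nonneg _) (fun a z => by simp only [hni g1 i1 a z])]
  have hkey := hKK n G hG g1 g r1 i1 ip m1 h1 κ hκ hL' χ hχ
  have hf1 := hFu n g1 g1 r1 χ hχ.smooth.continuous hχ.cpt
  have hf2 := hFu n g1 g r1 χ hχ.smooth.continuous hχ.cpt
  -- mean trace
  have htr : ∫ x, χ x * (tr g1 g x * dens g1 x) ≤ ∫ x, χ x * (tr g1 g1 x * dens g1 x) := by
    obtain ⟨b, α, ib, ha, hi, he⟩ := hc
    obtain ⟨_, t2, _⟩ := hT n G hG g1 g r1 i1 ip
    obtain ⟨_, s2, s3⟩ := hT n G hG g1 b r1 i1 ib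
    have hcoh : Cohom G J g1 (addF g b) 1 := by
      refine ⟨fun x => (-1 : ℝ) • α x, ha.const_smul (-1 : ℝ), fun a x u => ?_, fun x u v => ?_⟩
      · simp only [smul_apply, hi a x u]
      · have hd : fderiv ℝ (fun x => (-1 : ℝ) • α x) x = (-1 : ℝ) • fderiv ℝ α x :=
          fderiv_fun_const_smul (ha.differentiable (by norm_num) x) _
        rw [hd]
        simp only [addF, smul_apply, add_apply, smul_eq_mul]
        linarith [he x u v]
    have hcoh1 : Cohom G J g1 g1 1 := by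
      refine ⟨fun _ => 0, contDiff_const, fun a x u => rfl, fun x u v => ?_⟩
      simp
    have k1 := hK n G hG g1 (addF g b) r1 i1 J hJ hk 1 hcoh χ hχ
    have k2 := hK n G hG g1 g1 r1 i1 J hJ hk 1 hcoh1 χ hχ
    rw [k2, ← k1]
    have hcd : Continuous (dens g1) := by
      unfold dens gm
      refine Real.continuous_sqrt.comp (Continuous.matrix_det ?_)
      refine continuous_matrix fun i j => ?_
      exact ((g1.smooth.continuous.clm_apply continuous_const).clm_apply continuous_const)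
    have hint : ∀ f : E n → ℝ, Continuous f →
        Integrable (fun x => χ x * (f x * dens g1 x)) := by
      intro f hf
      apply Continuous.integrable_of_hasCompactSupport
      · exact hχ.smooth.continuous.mul (hf.mul hcd)
      · exact hχ.cpt.mul_right
    apply integral_mono (hint _ t2.continuous)
    · have : (fun x => χ x * (tr g1 (addF g b) x * dens g1 x)) =
          fun x => χ x * ((fun y => tr g1 g y + tr g1 b y) x * dens g1 x) := by
        funext x
        rw [tr_addF]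
      rw [this]
      exact hint _ (t2.continuous.add s2.continuous)
    · intro x
      simp only [tr_addF]
      have h1 : 0 ≤ χ x * (tr g1 b x * dens g1 x) :=
        mul_nonneg (hχ.nonneg x) (mul_nonneg (s3 x) (Real.sqrt_nonneg _))
      linarith [h1]
  have hcn : 0 ≤ cn n / n := by
    apply div_nonneg _ (Nat.cast_nonneg n)
    exact integral_nonneg fun ξ => sq_nonneg _
  have hbb : ∫ z in B, χ z.1 * g.val z.1 (vel g1 z) (vel g1 z) ≤
      ∫ z in B, χ z.1 * g1.val z.1 (vel g1 z) (vel g1 z) := by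
    rw [hf1, hf2]
    exact mul_le_mul_of_nonneg_left htr hcn
  have hexp : ∫ z in B, χ z.1 * (nrm g z.1 (vel g1 z) - nrm g1 z.1 (vel g1 z)) ^ 2 =
      (∫ z in B, χ z.1 * g.val z.1 (vel g1 z) (vel g1 z)) +
      (∫ z in B, χ z.1 * g1.val z.1 (vel g1 z) (vel g1 z)) -
      2 * ∫ z in B, χ z.1 * (nrm g1 z.1 (vel g1 z) * nrm g z.1 (vel g1 z)) := by
    have c1 := hI _ (hvalc g)
    have c2 := hI _ (hvalc g1)
    have c3 := hI (fun z => nrm g1 z.1 (vel g1 z) * nrm g z.1 (vel g1 z)) ((hnc g1).mul (hnc g))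
    have c12 : Integrable (fun z : W n => χ z.1 * g.val z.1 (vel g1 z) (vel g1 z) +
        χ z.1 * g1.val z.1 (vel g1 z) (vel g1 z)) (volume.restrict B) := c1.add c2
    rw [← integral_add c1 c2, ← integral_const_mul, ← integral_sub c12 (c3.const_mul 2)]
    congr 1
    funext z
    rw [← hsq g z, ← hsq g1 z]
    ring
  have hsq1 : ∫ z in B, χ z.1 * nrm g1 z.1 (vel g1 z) ^ 2 =
      ∫ z in B, χ z.1 * g1.val z.1 (vel g1 z) (vel g1 z) := by
    congr 1
    funext z
    rw [hsq g1 z]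
  rw [hexp, hsq1]
  nlinarith

end Pool.Agent.MLS
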