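import Pool.Agent.Work.MP_25cd3b_gt.M.Stmts

set_option autoImplicit false

/-!
# MP_25cd3b_gt, item Avg: invariance of averages under the geodesic flow
-/

open MeasureTheory Set Filter Topology
open scoped ContDiff ENNReal
open Pool.Agent.Work.MP_c9f990_an.Al (IsFlow)

namespace Pool.Agent.MLS

namespace IAvg

/-- the partition of unity as an identity of extended nonnegative reals -/
theorem tsum_one {n : ℕ} {G : Type} [Group G] [MulAction G (E n)] {χ : E n → ℝ}
    (hχ : PU G χ) (x : E n) : ∑' a : G, ENNReal.ofReal (χ (a • x)) = 1 := by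
  have h := hχ.sum x
  have h2 := ENNReal.ofReal_tsum_of_nonneg (f := fun a : G => χ (a • x))
    (fun a => hχ.nonneg _) h.summable
  rw [← h2, h.tsum_eq, ENNReal.ofReal_one]

/-- measurability of the cut-off along a measurable map -/
theorem meas_chi {n : ℕ} {G : Type} [Group G] [MulAction G (E n)] {χ : E n → ℝ}
    (hχ : PU G χ) {f : W n → W n} (hf : Measurable f) :
    Measurable (fun z : W n => ENNReal.ofReal (χ (f z).1)) :=
  (hχ.smooth.continuous.measurable.comp (measurable_fst.comp hf)).ennreal_ofReal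

end IAvg

open IAvg in
theorem pr_Avg (h1 : StUnf) (h2 : StCnt) (h3 : StOp) (h5 : StMP) (h6 : StLftA)
    (h7 : StLftM) (h8 : StEqF) : StAvg := by
  intro n G _ _ hC g hg hI φ M hφ χ hχ F hF hFi t
  have : Countable G := h2 n G hC
  obtain ⟨-, -, hmul, hone, -⟩ := h6 n G hC g hg hI
  have hH : ContDiff ℝ ∞ (Hm g) := (h3 n g hg).2.2.2.2.2.2.2.1
  have hMP : ∀ s, MeasurePreserving (φ s) volume volume := fun s => h5 n (Hm g) φ M hH hφ s
  have hmt : Measurable (φ t) := (hMP t).measurable
  have hmn : Measurable (φ (-t)) := (hMP (-t)).measurable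
  have hinv : ∀ z, φ (-t) (φ t z) = z := by
    intro z
    rw [← hφ.add, neg_add_cancel, hφ.zero]
  -- the substitution
  have e1 : ∫⁻ z, ENNReal.ofReal (χ z.1) * F (φ t z) =
      ∫⁻ y, ENNReal.ofReal (χ (φ (-t) y).1) * F y := by
    have hmeas : Measurable (fun y : W n => ENNReal.ofReal (χ (φ (-t) y).1) * F y) :=
      (meas_chi hχ hmn).mul hF
    rw [← (hMP t).lintegral_comp hmeas]
    refine lintegral_congr fun z => ?_
    rw [hinv]
  rw [e1]
  -- unfolding
  have hb : ∀ z : W n, ∑' a : G, ENNReal.ofReal (χ (φ (-t) (lft g a z)).1) = 1 := by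
    intro z
    have : ∀ a : G, (φ (-t) (lft g a z)).1 = a • (φ (-t) z).1 := by
      intro a
      rw [h8 n G hC g hg hI φ M hφ a (-t) z]
      rfl
    simp_rw [this]
    exact tsum_one hχ _
  have ha : ∀ z : W n, ∑' a : G, ENNReal.ofReal (χ (lft g a z).1) = 1 := fun z => tsum_one hχ z.1
  exact h1 (W n) volume G (fun a => lft g a) (fun a => h7 n G hC g hg hI a)
    (fun a b z => hmul a b z) (fun z => hone z)
    (fun z => ENNReal.ofReal (χ (φ (-t) z).1)) (fun z => ENNReal.ofReal (χ z.1)) F
    (meas_chi hχ hmn) (meas_chi hχ measurable_id) hF hb ha (fun a z => hFi a z)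

end Pool.Agent.MLS
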