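import Pool.Agent.Work.MP_25cd3b_gt.M.Stmts

/-!
# MP_25cd3b_gt, item B1: translation length in a hyperbolic space (helper51)
-/

set_option autoImplicit false

namespace Pool.Agent.MLS

namespace IB1

variable {X : Type} {d : X → X → ℝ} {f : X → X}

theorem iso (hf : ∀ x y, d (f x) (f y) = d x y) (k : ℕ) (x y : X) :
    d (f^[k] x) (f^[k] y) = d x y := by
  induction k with
  | zero => rfl
  | succ k ih => rw [Function.iterate_succ_apply', Function.iterate_succ_apply', hf, ih]

theorem move (hd : IsPM d) (hf : ∀ x y, d (f x) (f y) = d x y) (k : ℕ) (z : X) :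
    d z (f^[k] z) ≤ k * d z (f z) := by
  induction k with
  | zero => simp [hd.self]
  | succ k ih =>
    have h1 := hd.tri z (f^[k] z) (f^[k + 1] z)
    have h2 : d (f^[k] z) (f^[k + 1] z) = d z (f z) := by
      rw [Function.iterate_succ_apply]
      exact iso hf k z (f z)
    rw [h2] at h1
    push_cast
    linarith

end IB1

theorem pr_B1 : StB1 := by
  intro X d δ hd hh f hf p z
  have hδ : 0 ≤ δ := by
    have h := hh p p p p
    rw [hd.self] at h
    simpa using h
  set a : ℕ → ℝ := fun k => d p (f^[k] p) with ha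
  set κ : ℝ := a 2 - a 1 - δ with hκ
  have ha0 : ∀ k, 0 ≤ a k := fun k => hd.nonneg _ _
  show κ ≤ d z (f z)
  rcases le_or_gt κ 0 with h0 | h0
  · exact h0.trans (hd.nonneg _ _)
  have hq : ∀ k : ℕ, a 2 + a (k + 1) ≤ max (a 1 + a k) (a (k + 2) + a 1) + δ := by
    intro k
    have h1 := hh p (f^[2] p) (f^[1] p) (f^[k + 2] p)
    have e1 : d (f^[1] p) (f^[k + 2] p) = a (k + 1) := by
      have h2 : f^[k + 2] p = f^[1] (f^[k + 1] p) := by
        rw [← Function.iterate_add_apply]
        congr 1
        ring
      rw [h2]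
      exact IB1.iso hf 1 p (f^[k + 1] p)
    have e2 : d (f^[2] p) (f^[k + 2] p) = a k := by
      have h2 : f^[k + 2] p = f^[2] (f^[k] p) := by
        rw [← Function.iterate_add_apply]
        congr 1
        ring
      rw [h2]
      exact IB1.iso hf 2 p (f^[k] p)
    have e3 : d (f^[2] p) (f^[1] p) = a 1 := by
      have h2 : f^[2] p = f^[1] (f^[1] p) := rfl
      rw [h2, IB1.iso hf 1 (f^[1] p) p]
      exact hd.symm _ _
    rw [e1, e2, e3] at h1
    exact h1
  have hstep : ∀ k : ℕ, a (k + 1) + κ ≤ a (k + 2) := by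
    intro k
    induction k with
    | zero =>
      show a 1 + κ ≤ a 2
      linarith
    | succ k ih =>
      have h1 := hq (k + 1)
      rcases max_cases (a 1 + a (k + 1)) (a (k + 1 + 2) + a 1) with ⟨h2, -⟩ | ⟨h2, -⟩
      · rw [h2] at h1
        have h3 : a (k + 1 + 1) = a (k + 2) := rfl
        linarith
      · rw [h2] at h1
        have h3 : a (k + 1 + 1) = a (k + 2) := rfl
        linarith
  have hlow : ∀ k : ℕ, k * κ ≤ a (k + 1) := by
    intro k
    induction k with
    | zero =>
      have := ha0 1
      simpa using this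
    | succ k ih =>
      have h1 := hstep k
      have h3 : a (k + 1 + 1) = a (k + 2) := rfl
      push_cast
      linarith
  have hup : ∀ k : ℕ, a k ≤ 2 * d p z + k * d z (f z) := by
    intro k
    have h1 := hd.tri p z (f^[k] p)
    have h2 := hd.tri z (f^[k] z) (f^[k] p)
    have h3 := IB1.iso hf k z p
    have h4 := IB1.move hd hf k z
    have h5 := hd.symm z p
    show d p (f^[k] p) ≤ _
    linarith
  by_contra hlt
  push Not at hlt
  obtain ⟨k, hk⟩ := exists_nat_gt ((2 * d p z + d z (f z)) / (κ - d z (f z)))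
  have hpos : 0 < κ - d z (f z) := by linarith
  rw [div_lt_iff₀ hpos] at hk
  have h1 := hlow k
  have h2 := hup (k + 1)
  push_cast at h2
  nlinarith

end Pool.Agent.MLS
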