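import Pool.Agent.Work.MP_25cd3b_gt.M.Stmts

/-! Item [25cd3b MLS B2] (helper70): almost closed pieces of geodesics. -/

set_option autoImplicit false

namespace Pool.Agent.MLS

theorem pr_B2 (h1 : StB1) : StB2 := by
  intro X d δ hd h4 f hf p p' q q' a T R hpq hpp' hqq' haq hpa hp'q haq' hfp hfp' hR hRT z
  have hδ : 0 ≤ δ := by
    have h := h4 p p p p
    rw [max_self] at h
    linarith
  have s1 := hd.symm (f p') q
  have s2 := hd.symm (f p') q'
  have s3 := hd.symm q q'
  have s4 := hd.symm (f p) q
  have s5 := hd.symm (f q) q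
  have s6 := hd.symm a p
  have s7 := hd.symm (f p') (f p)
  have s8 := hd.symm (f p') (f q)
  have s9 := hd.symm (f p) (f q)
  have s10 := hd.symm p (f p')
  have s11 := hd.symm q p'
  have s12 := hd.symm a q'
  have i1 := hf p' p
  have i2 := hf p' q
  have i3 := hf p q
  have i4 := hf q (f p)
  have i5 := hd.symm p' p
  -- distances to the point q
  have t1 : d (f p') q ≤ 1 + R := by
    have := hd.tri (f p') q' q
    linarith
  have t2 : 2 * R - 1 ≤ d a (f p') := by
    have := hd.tri a (f p') q'
    linarith
  have t3 : T - 1 ≤ d (f q) q := by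
    have := hd.tri (f q) q (f p)
    linarith
  have t4 : R - 1 ≤ d (f p') q := by
    have := hd.tri (f p') q (f p)
    linarith
  -- four point conditions
  have c1 := h4 a (f p') p q
  have c2 := h4 p (f p') (f q) q
  have t5 : 2 * T - 3 - 2 * δ ≤ d p (f q) := by
    by_contra hcon
    rw [not_le] at hcon
    rcases le_max_iff.1 (sub_le_iff_le_add.2 c1) with h | h <;>
      rcases le_max_iff.1 (sub_le_iff_le_add.2 c2) with h' | h' <;>
      linarith
  have t6 : 2 * T - 4 - 2 * δ ≤ d p (f (f p)) := by
    have := hd.tri p (f (f p)) (f q)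
    have s := hd.symm (f (f p)) (f q)
    linarith
  have t7 : d p (f p) ≤ T + 1 := by
    have := hd.tri p q (f p)
    linarith
  have key := h1 X d δ hd h4 f hf p z
  linarith

end Pool.Agent.MLS
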