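import Mathlib
import Pool.Agent.Work.MP_25cd3b_gt.M.Stmts

set_option autoImplicit false

/-!
# MP_25cd3b_gt: item Cell, finitely many cells of the unit energy level over a compact set
-/

open MeasureTheory Set Filter Topology
open scoped ContDiff ENNReal
open Pool.Agent.Work.MP_c9f990_an.Al (IsFlow)

namespace Pool.Agent.MLS

namespace ICell

/-- The open condition which defines the cell of `w`. -/
def V {n : ℕ} (g : Form n) (ψ : W n → W n) (w : W n) : Set (W n) :=
  {w' | gd g w.1 w'.1 < 1 / 2 ∧ gd g (ψ w).1 (ψ w').1 < 1 / 2}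

theorem V_open {n : ℕ} (g : Form n) (ψ : W n → W n) (hψ : Continuous ψ)
    (hc : Continuous (fun p : E n × E n => gd g p.1 p.2)) (w : W n) : IsOpen (V g ψ w) := by
  have c1 : Continuous (fun w' : W n => gd g w.1 w'.1) :=
    hc.comp (continuous_const.prodMk continuous_fst)
  have c2 : Continuous (fun w' : W n => gd g (ψ w).1 (ψ w').1) :=
    hc.comp (continuous_const.prodMk (continuous_fst.comp hψ))
  exact (isOpen_lt c1 continuous_const).inter (isOpen_lt c2 continuous_const)

theorem V_self {n : ℕ} (g : Form n) (ψ : W n → W n) (hpm : IsPM (gd g)) (w : W n) :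
    w ∈ V g ψ w := by
  refine ⟨?_, ?_⟩
  · rw [hpm.self]; norm_num
  · rw [hpm.self]; norm_num

end ICell

open ICell

theorem pr_Cell (h1 : StGd) (h2 : StCtsD) (h3 : StSub) : StCell := by
  classical
  intro n g φ M hg hφ K R hK
  have hpm : IsPM (gd g) := (h1 n g).2.1
  have hcd := h2 n g
  have hU : IsCompact {z : W n | z.1 ∈ K ∧ Hm g z ≤ 1 / 2} := h3 n g hg K (1 / 2) hK
  have hφR : Continuous (φ R) := hφ.cont.comp (continuous_const.prodMk continuous_id)
  obtain ⟨t, -, ht⟩ := hU.elim_nhds_subcover (fun w => V g (φ R) w)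
    (fun w _ => (V_open g (φ R) hφR hcd w).mem_nhds (V_self g (φ R) hpm w))
  have key : ∀ w : W n, w.1 ∈ K → Hm g w = 1 / 2 →
      ∃ i : Fin t.card, w ∈ V g (φ R) ((t.equivFin.symm i : t) : W n) := by
    intro w hw hH
    have hmem : w ∈ {z : W n | z.1 ∈ K ∧ Hm g z ≤ 1 / 2} := ⟨hw, hH.le⟩
    obtain ⟨x, hx⟩ := mem_iUnion.1 (ht hmem)
    obtain ⟨hxt, hx'⟩ := mem_iUnion.1 hx
    refine ⟨t.equivFin ⟨x, hxt⟩, ?_⟩
    rw [Equiv.symm_apply_apply]
    exact hx'
  refine ⟨t.card + 1, fun w =>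
    if h : ∃ i : Fin t.card, w ∈ V g (φ R) ((t.equivFin.symm i : t) : W n) then
      Fin.castSucc h.choose else Fin.last _, ?_⟩
  intro w w' hw hw' hH hH' hc
  have e := key w hw hH
  have e' := key w' hw' hH'
  simp only [dif_pos e, dif_pos e'] at hc
  have hc' : e.choose = e'.choose := Fin.castSucc_injective _ hc
  have m := e.choose_spec
  have m' := e'.choose_spec
  rw [← hc'] at m'
  obtain ⟨a1, a2⟩ := m
  obtain ⟨b1, b2⟩ := m'
  refine ⟨?_, ?_⟩
  · have h4 := hpm.tri w.1 ((t.equivFin.symm e.choose : t) : W n).1 w'.1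
    have h5 := hpm.symm w.1 ((t.equivFin.symm e.choose : t) : W n).1
    linarith
  · have h4 := hpm.tri (φ R w).1 (φ R ((t.equivFin.symm e.choose : t) : W n)).1 (φ R w').1
    have h5 := hpm.symm (φ R w).1 (φ R ((t.equivFin.symm e.choose : t) : W n)).1
    linarith

end Pool.Agent.MLS
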