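import Mathlib
import Pool.Agent.Work.MP_25cd3b_gt.M.Stmts

set_option autoImplicit false

/-!
# MP_25cd3b_gt: comparison of two invariant forms (StCmp)
-/

open MeasureTheory Set Filter Topology
open scoped ContDiff ENNReal

namespace Pool.Agent.MLS

namespace ICmp

/-- the speed of a `C^1` curve is continuous -/
lemma cont_speed {n : ℕ} (g : Form n) (c : ℝ → E n) (hc : ContDiff ℝ 1 c) :
    Continuous (fun t => nrm g (c t) (deriv c t)) := by
  have h1 : Continuous (deriv c) := hc.continuous_deriv (le_refl _)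
  have h2 : Continuous (fun t => g.val (c t)) := g.smooth.continuous.comp hc.continuous
  exact Real.continuous_sqrt.comp ((h2.clm_apply h1).clm_apply h1)

/-- invariance of the length of vectors -/
lemma nrm_inv {n : ℕ} {G : Type} [Group G] [MulAction G (E n)] {g : Form n} (h : Inv G g)
    (a : G) (x v : E n) : nrm g (a • x) (dac a x v) = nrm g x v := by
  unfold nrm
  rw [h a x v v]

/-- comparison of paths -/
lemma path_cmp {n : ℕ} (g1 g2 : Form n) (A : ℝ)
    (hA : ∀ x v, nrm g2 x v ≤ A * nrm g1 x v) (x y : E n) (l : ℝ) (h : PathLen g1 x y l) :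
    ∃ l', PathLen g2 x y l' ∧ l' ≤ A * l := by
  induction h with
  | refl x => exact ⟨0, PathLen.refl x, by simp⟩
  | cons c a b y l hc hab h ih =>
    obtain ⟨l', h1, h2⟩ := ih
    refine ⟨_, PathLen.cons c a b y l' hc hab h1, ?_⟩
    have h3 : (∫ t in a..b, nrm g2 (c t) (deriv c t)) ≤
        ∫ t in a..b, A * nrm g1 (c t) (deriv c t) := by
      apply intervalIntegral.integral_mono_on hab
      · exact (cont_speed g2 c hc).intervalIntegrable a b
      · exact ((cont_speed g1 c hc).const_mul A).intervalIntegrable a b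
      · intro t _
        exact hA _ _
    rw [intervalIntegral.integral_const_mul] at h3
    rw [mul_add]
    exact add_le_add h3 h2

end ICmp

theorem pr_Cmp (h1 : StBnd) (h2 : StGd) : StCmp := by
  intro n G _ _ hG g1 g2 hR hI1 hI2
  obtain ⟨K, hK, hKc⟩ := hG.cocompact
  obtain ⟨C2, hC2, hb2⟩ := (h1 n g2 K hK).1
  obtain ⟨C1, hC1, hb1⟩ := (h1 n g1 K hK).2 hR
  have hA : ∀ x v, nrm g2 x v ≤ (C2 * C1) * nrm g1 x v := by
    intro x v
    obtain ⟨a, ha⟩ := hKc x
    rw [← ICmp.nrm_inv hI2 a x v, ← ICmp.nrm_inv hI1 a x v]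
    have h3 := hb2 (a • x) ha (dac a x v)
    have h4 := mul_le_mul_of_nonneg_left (hb1 (a • x) ha (dac a x v)) hC2.le
    rw [mul_assoc]
    exact h3.trans h4
  have hAp : 0 < C2 * C1 := mul_pos hC2 hC1
  refine ⟨C2 * C1, hAp, hA, ?_⟩
  intro x y
  apply le_of_forall_pos_le_add
  intro ε hε
  obtain ⟨l, hl1, hl2⟩ := (h2 n g1).2.2.1 x y (ε / (C2 * C1)) (div_pos hε hAp)
  obtain ⟨l', h5, h6⟩ := ICmp.path_cmp g1 g2 (C2 * C1) hA x y l hl1
  have h7 := (h2 n g2).1 x y l' h5
  have h8 : (C2 * C1) * l ≤ (C2 * C1) * (gd g1 x y + ε / (C2 * C1)) :=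
    mul_le_mul_of_nonneg_left hl2.le hAp.le
  have h9 : (C2 * C1) * (gd g1 x y + ε / (C2 * C1)) = (C2 * C1) * gd g1 x y + ε := by
    field_simp
  linarith

end Pool.Agent.MLS
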