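import Mathlib
import Pool.Agent.Work.MP_25cd3b_gt.M.Stmts

set_option autoImplicit false

/-! # MP_25cd3b_gt, item Cnt: the group is countable -/

open MeasureTheory Set Filter Topology

namespace Pool.Agent.MLS

theorem pr_Cnt : StCnt := by
  intro n G _ _ hG
  have hfin : ∀ k : ℕ, {a : G | ((fun x : E n => a • x) '' Metric.closedBall (0 : E n) k ∩
      Metric.closedBall (0 : E n) k).Nonempty}.Finite := fun k =>
    hG.proper _ (isCompact_closedBall _ _)
  have hcov : (Set.univ : Set G) ⊆ ⋃ k : ℕ, {a : G | ((fun x : E n => a • x) ''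
      Metric.closedBall (0 : E n) k ∩ Metric.closedBall (0 : E n) k).Nonempty} := by
    intro a _
    obtain ⟨k, hk⟩ := exists_nat_ge ‖a • (0 : E n)‖
    refine Set.mem_iUnion.2 ⟨k, a • (0 : E n), ⟨0, by simp, rfl⟩, ?_⟩
    simpa [Metric.mem_closedBall, dist_zero_right] using hk
  have hc : (Set.univ : Set G).Countable :=
    (Set.countable_iUnion fun k => (hfin k).countable).mono hcov
  exact Set.countable_univ_iff.1 hc

end Pool.Agent.MLS
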