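import Mathlib
import Pool.Agent.Work.MP_25cd3b_gt.M.Stmts

set_option autoImplicit false

open MeasureTheory Set Filter Topology
open scoped ContDiff ENNReal

namespace Pool.Agent.MLS

namespace IDens

lemma sum_ee {n : ℕ} (v : E n) : v = ∑ i, v i • ee i := by
  ext j
  simp [ee, Pi.single_apply]

lemma val_expand {n : ℕ} (b : E n →L[ℝ] E n →L[ℝ] ℝ) (u v : E n) :
    b u v = ∑ i, ∑ j, u i * (b (ee i) (ee j)) * v j := by
  conv_lhs => rw [sum_ee u, sum_ee v]
  simp only [map_sum, map_smul, _root_.sum_apply, _root_.smul_apply,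
    smul_eq_mul, Finset.mul_sum]
  rw [Finset.sum_comm]
  refine Finset.sum_congr rfl fun i _ => Finset.sum_congr rfl fun j _ => ?_
  ring

lemma gm_posDef {n : ℕ} (g : Form n) (hg : Riem g) (x : E n) : (gm g x).PosDef := by
  refine Matrix.PosDef.of_dotProduct_mulVec_pos ?_ ?_
  · ext i j
    simp only [gm, Matrix.conjTranspose_apply, Matrix.of_apply, star_trivial]
    exact g.symm _ _ _
  · intro v hv
    have h1 : g.val x (WithLp.toLp 2 v) (WithLp.toLp 2 v) = star v ⬝ᵥ (gm g x).mulVec v := by
      rw [val_expand]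
      simp only [dotProduct, Matrix.mulVec, gm, Matrix.of_apply, Pi.star_apply, star_trivial,
        Finset.mul_sum]
      refine Finset.sum_congr rfl fun i _ => Finset.sum_congr rfl fun j _ => ?_
      ring
    rw [← h1]
    apply hg
    intro h
    apply hv
    have := congrArg (fun w : E n => (w : Fin n → ℝ)) h
    simpa using this

lemma det_pos {n : ℕ} (g : Form n) (hg : Riem g) (x : E n) : 0 < (gm g x).det :=
  (gm_posDef g hg x).det_pos

lemma det_smooth {n : ℕ} (g : Form n) : ContDiff ℝ ∞ (fun x => (gm g x).det) := by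
  simp only [Matrix.det_apply]
  refine ContDiff.sum fun σ _ => ?_
  refine ContDiff.const_smul _ ?_
  refine contDiff_prod fun i _ => ?_
  simp only [gm, Matrix.of_apply]
  exact (g.smooth.clm_apply contDiff_const).clm_apply contDiff_const

lemma dens_smooth {n : ℕ} (g : Form n) (hg : Riem g) : ContDiff ℝ ∞ (dens g) :=
  (det_smooth g).sqrt fun x => (det_pos g hg x).ne'

/-- matrix of a linear map -/
noncomputable def mt {n : ℕ} (A : E n →L[ℝ] E n) : Matrix (Fin n) (Fin n) ℝ :=
  Matrix.of fun i j => A (ee j) i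

lemma mt_det {n : ℕ} (A : E n →L[ℝ] E n) : (mt A).det = A.det := by
  have h : mt A = LinearMap.toMatrix (EuclideanSpace.basisFun (Fin n) ℝ).toBasis
      (EuclideanSpace.basisFun (Fin n) ℝ).toBasis (A : E n →ₗ[ℝ] E n) := by
    ext i j
    simp [mt, ee, LinearMap.toMatrix_apply]
  rw [h, LinearMap.det_toMatrix]

lemma gm_eq {n : ℕ} {G : Type} [Group G] [MulAction G (E n)] (g : Form n) (hI : Inv G g)
    (a : G) (x : E n) : gm g x = (mt (dac a x)).transpose * gm g (a • x) * mt (dac a x) := by
  ext i j
  have h := hI a x (ee i) (ee j)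
  rw [val_expand] at h
  simp only [gm, Matrix.of_apply, Matrix.mul_apply, Matrix.transpose_apply, mt, Finset.sum_mul]
  rw [← h, Finset.sum_comm]

lemma dens_inv {n : ℕ} {G : Type} [Group G] [MulAction G (E n)] (g : Form n) (hI : Inv G g)
    (a : G) (x : E n) : dens g (a • x) * |(dac a x).det| = dens g x := by
  unfold dens
  rw [gm_eq g hI a x, Matrix.det_mul, Matrix.det_mul, Matrix.det_transpose, mt_det]
  rw [show (dac a x).det * (gm g (a • x)).det * (dac a x).det =
    (dac a x).det ^ 2 * (gm g (a • x)).det by ring, Real.sqrt_mul (sq_nonneg _),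
    Real.sqrt_sq_eq_abs]
  ring

end IDens

open IDens in
theorem pr_Dens : StDens := by
  intro n g hg
  refine ⟨det_pos g hg, dens_smooth g hg, ?_⟩
  intro G _ _ hC hI
  refine ⟨fun a x => dens_inv g hI a x, fun a => ?_⟩
  have hsm := hC.smooth a
  have hmeas : Measurable (fun x : E n => a • x) := hsm.continuous.measurable
  refine ⟨hmeas, ?_⟩
  have hinj : Function.Injective (fun x : E n => a • x) := MulAction.injective a
  have hsurj : Function.Surjective (fun x : E n => a • x) := MulAction.surjective a
  refine Measure.ext fun s hs => ?_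
  rw [Measure.map_apply hmeas hs, withDensity_apply _ (hmeas hs), withDensity_apply _ hs]
  have him : (fun x : E n => a • x) '' ((fun x : E n => a • x) ⁻¹' s) = s :=
    Set.image_preimage_eq s hsurj
  have hd : ∀ x ∈ (fun x : E n => a • x) ⁻¹' s,
      HasFDerivWithinAt (fun x : E n => a • x) (dac a x) ((fun x : E n => a • x) ⁻¹' s) x := by
    intro x _
    exact ((hsm.differentiable (by norm_num)) x).hasFDerivAt.hasFDerivWithinAt
  have hcv := lintegral_image_eq_lintegral_abs_det_fderiv_mul volume (hmeas hs) hd hinj.injOn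
    (fun x => ENNReal.ofReal (dens g x))
  rw [him] at hcv
  rw [hcv]
  refine lintegral_congr fun x => ?_
  rw [← ENNReal.ofReal_mul (abs_nonneg _), mul_comm, dens_inv g hI a x]

end Pool.Agent.MLS
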