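import Pool.Agent.Work.MP_25cd3b_gt.M.Stmts

set_option autoImplicit false

/-!
# The inverse of a closed two form is divergence free
-/

open MeasureTheory Set Filter Topology
open scoped ContDiff ENNReal Matrix

namespace Pool.Agent.MLS

namespace IDiv

variable {V : Type*} [NormedAddCommGroup V] [NormedSpace ℝ V] {n : ℕ}

theorem diff_det {A : V → Matrix (Fin n) (Fin n) ℝ} {x : V}
    (h : ∀ i j, DifferentiableAt ℝ (fun y => A y i j) x) :
    DifferentiableAt ℝ (fun y => (A y).det) x := by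
  simp only [Matrix.det_apply']
  refine DifferentiableAt.fun_sum fun σ _ => ?_
  refine DifferentiableAt.const_mul ?_ _
  exact (HasFDerivAt.finsetProd (u := Finset.univ) (g := fun i y => A y (σ i) i)
    fun i _ => (h (σ i) i).hasFDerivAt).differentiableAt

theorem diff_adj {A : V → Matrix (Fin n) (Fin n) ℝ} {x : V}
    (h : ∀ i j, DifferentiableAt ℝ (fun y => A y i j) x) (i j : Fin n) :
    DifferentiableAt ℝ (fun y => (A y).adjugate i j) x := by
  simp only [Matrix.adjugate_apply]
  refine diff_det fun k l => ?_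
  by_cases hk : k = j
  · subst hk
    simp only [Matrix.updateRow_self]
    exact differentiableAt_const _
  · simp only [Matrix.updateRow_ne hk]
    exact h k l

theorem diff_inv {A : V → Matrix (Fin n) (Fin n) ℝ} {x : V}
    (h : ∀ i j, DifferentiableAt ℝ (fun y => A y i j) x) (hd : (A x).det ≠ 0) (i j : Fin n) :
    DifferentiableAt ℝ (fun y => (A y)⁻¹ i j) x := by
  simp only [Matrix.inv_def, Ring.inverse_eq_inv', Matrix.smul_apply, smul_eq_mul]
  exact ((diff_det h).inv hd).mul (diff_adj h i j)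

/-- derivative of the determinant along a curve -/
theorem det_hasDerivAt (Y : ℝ → Matrix (Fin n) (Fin n) ℝ) (Y' : Matrix (Fin n) (Fin n) ℝ) (z : ℝ)
    (h : ∀ i j, HasDerivAt (fun s => Y s i j) (Y' i j) z) :
    HasDerivAt (fun s => (Y s).det) (∑ k, ((Y z).updateRow k (Y' k)).det) z := by
  have h1 : ∀ σ : Equiv.Perm (Fin n), HasDerivAt (fun s => ∏ i, Y s (σ i) i)
      (∑ k, (∏ l ∈ Finset.univ.erase k, Y z (σ l) l) * Y' (σ k) k) z := by
    intro σ
    have := HasDerivAt.fun_finsetProd (u := (Finset.univ : Finset (Fin n)))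
      (f := fun i s => Y s (σ i) i)
      (f' := fun i => Y' (σ i) i) (x := z) (fun i _ => h (σ i) i)
    simpa only [smul_eq_mul] using this
  have h2 : HasDerivAt (fun s => (Y s).det) (∑ σ : Equiv.Perm (Fin n),
      ((Equiv.Perm.sign σ : ℤ) : ℝ) *
      ∑ k, (∏ l ∈ Finset.univ.erase k, Y z (σ l) l) * Y' (σ k) k) z := by
    simp only [Matrix.det_apply']
    exact HasDerivAt.fun_sum fun σ _ => (h1 σ).const_mul _
  refine h2.congr_deriv ?_
  have h3 : ∀ k, ((Y z).updateRow k (Y' k)).det = ∑ σ : Equiv.Perm (Fin n),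
      ((Equiv.Perm.sign σ : ℤ) : ℝ) * ((∏ l ∈ Finset.univ.erase (σ⁻¹ k), Y z (σ l) l)
        * Y' k (σ⁻¹ k)) := by
    intro k
    rw [Matrix.det_apply']
    refine Finset.sum_congr rfl fun σ _ => ?_
    congr 1
    rw [← Finset.prod_erase_mul _ _ (Finset.mem_univ (σ⁻¹ k))]
    congr 1
    · refine Finset.prod_congr rfl fun l hl => ?_
      have : σ l ≠ k := by
        rintro rfl
        simp at hl
      rw [Matrix.updateRow_ne this]
    · rw [show σ (σ⁻¹ k) = k from σ.apply_symm_apply k, Matrix.updateRow_self]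
  simp only [h3]
  rw [Finset.sum_comm]
  refine Finset.sum_congr rfl fun σ _ => ?_
  rw [← Finset.mul_sum]
  congr 1
  refine Fintype.sum_equiv σ _ _ fun k => ?_
  rw [show σ⁻¹ (σ k) = k from σ.symm_apply_apply k]

theorem det_row_sum (A Y : Matrix (Fin n) (Fin n) ℝ) (k : Fin n) :
    (Y.updateRow k ((A * Y) k)).det = A k k * Y.det := by
  have h : (A * Y) k = ∑ l, A k l • Y l := by
    ext j
    simp [Matrix.mul_apply]
  rw [h]
  exact Matrix.det_updateRow_sum Y k (fun l => A k l)

/-- the formula of Jacobi -/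
theorem fderiv_det {A : V → Matrix (Fin n) (Fin n) ℝ} {x : V}
    (h : ∀ i j, DifferentiableAt ℝ (fun y => A y i j) x) (hd : (A x).det ≠ 0) (v : V) :
    fderiv ℝ (fun y => (A y).det) x v =
      (A x).det * ((A x)⁻¹ * Matrix.of fun i j => fderiv ℝ (fun y => A y i j) x v).trace := by
  set A' : Matrix (Fin n) (Fin n) ℝ := Matrix.of fun i j => fderiv ℝ (fun y => A y i j) x v with hA'
  have h0 : x + (0 : ℝ) • v = x := by simp
  have h1 := det_hasDerivAt (fun t : ℝ => A (x + t • v)) A' 0
    (fun i j => (h i j).hasFDerivAt.hasLineDerivAt v)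
  have h2 : HasDerivAt (fun t : ℝ => (A (x + t • v)).det) (fderiv ℝ (fun y => (A y).det) x v) 0 :=
    (diff_det h).hasFDerivAt.hasLineDerivAt v
  rw [h2.unique h1, h0]
  have hu : IsUnit (A x).det := isUnit_iff_ne_zero.2 hd
  have h3 : ∀ k, A' k = ((A' * (A x)⁻¹) * A x) k := by
    intro k
    rw [Matrix.mul_assoc, Matrix.nonsing_inv_mul _ hu, Matrix.mul_one]
  have h4 : ∀ k, ((A x).updateRow k (A' k)).det = (A' * (A x)⁻¹) k k * (A x).det := by
    intro k
    rw [← det_row_sum, ← h3 k]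
  rw [Finset.sum_congr rfl fun k _ => h4 k, ← Finset.sum_mul, mul_comm, Matrix.trace_mul_comm]
  rfl

/-- derivative of the inverse -/
theorem fderiv_inv {A : V → Matrix (Fin n) (Fin n) ℝ} {x : V}
    (h : ∀ i j, DifferentiableAt ℝ (fun y => A y i j) x) (hd : ∀ y, (A y).det ≠ 0) (v : V)
    (i j : Fin n) :
    fderiv ℝ (fun y => (A y)⁻¹ i j) x v =
      -((A x)⁻¹ * (Matrix.of fun i j => fderiv ℝ (fun y => A y i j) x v) * (A x)⁻¹) i j := by
  set A' : Matrix (Fin n) (Fin n) ℝ := Matrix.of fun i j => fderiv ℝ (fun y => A y i j) x v with hA'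
  set P' : Matrix (Fin n) (Fin n) ℝ := Matrix.of fun i j => fderiv ℝ (fun y => (A y)⁻¹ i j) x v
    with hP'
  have hu : IsUnit (A x).det := isUnit_iff_ne_zero.2 (hd x)
  have hdi := fun a b => diff_inv h (hd x) a b
  have h1 : P' * A x + (A x)⁻¹ * A' = 0 := by
    ext a b
    have h2 : (fun y => ∑ k, (A y)⁻¹ a k * A y k b) =
        fun _ => (1 : Matrix (Fin n) (Fin n) ℝ) a b := by
      funext y
      rw [← Matrix.mul_apply, Matrix.nonsing_inv_mul _ (isUnit_iff_ne_zero.2 (hd y))]
    have h3 : fderiv ℝ (fun y => ∑ k, (A y)⁻¹ a k * A y k b) x v = 0 := by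
      rw [h2]
      simp
    have hk : ∀ k ∈ (Finset.univ : Finset (Fin n)),
        DifferentiableAt ℝ (fun y => (A y)⁻¹ a k * A y k b) x :=
      fun k _ => (hdi a k).mul (h k b)
    rw [fderiv_fun_sum hk] at h3
    rw [sum_apply] at h3
    have h4 : ∀ k, fderiv ℝ (fun y => (A y)⁻¹ a k * A y k b) x v =
        (A x)⁻¹ a k * A' k b + P' a k * A x k b := by
      intro k
      rw [fderiv_fun_mul (hdi a k) (h k b)]
      simp only [add_apply, smul_apply, smul_eq_mul, hA',
        hP', Matrix.of_apply]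
      ring
    rw [Finset.sum_congr rfl fun k _ => h4 k, Finset.sum_add_distrib] at h3
    rw [Matrix.add_apply, Matrix.mul_apply, Matrix.mul_apply, Matrix.zero_apply]
    linarith
  have h5 : P' = -((A x)⁻¹ * A' * (A x)⁻¹) := by
    have h6 : P' * A x = -((A x)⁻¹ * A') := eq_neg_of_add_eq_zero_left h1
    calc P' = P' * (A x * (A x)⁻¹) := by rw [Matrix.mul_nonsing_inv _ hu, Matrix.mul_one]
      _ = (P' * A x) * (A x)⁻¹ := by rw [Matrix.mul_assoc]
      _ = -((A x)⁻¹ * A' * (A x)⁻¹) := by rw [h6, Matrix.neg_mul]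
  have h7 : P' i j = (-((A x)⁻¹ * A' * (A x)⁻¹)) i j := by rw [h5]
  exact h7

/-- the algebra -/
theorem alg (P : Matrix (Fin n) (Fin n) ℝ) (a : Fin n → Fin n → Fin n → ℝ)
    (hP : ∀ i j, P i j = -P j i) (hc : ∀ i j k, a i j k + a j k i + a k i j = 0)
    (ha : ∀ i j k, a i j k = -a i k j) (i : Fin n) :
    ∑ j, (1 / 2 * (∑ k, ∑ l, P k l * a j l k) * P i j -
      ∑ l, (∑ k, P i k * a j k l) * P l j) = 0 := by
  have hT : ∀ j, ∑ k, ∑ l, P l k * a k j l = 1 / 2 * ∑ k, ∑ l, P k l * a j l k := by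
    intro j
    have h1 : ∑ k, ∑ l, P l k * a k j l = ∑ k, ∑ l, P k l * a l j k := Finset.sum_comm
    have h2 : ∑ k, ∑ l, P l k * a k j l + ∑ k, ∑ l, P k l * a l j k =
        ∑ k, ∑ l, P k l * a j l k := by
      rw [← Finset.sum_add_distrib]
      refine Finset.sum_congr rfl fun k _ => ?_
      rw [← Finset.sum_add_distrib]
      refine Finset.sum_congr rfl fun l _ => ?_
      have h3 := hc k j l
      have h4 := ha l k j
      have h5 := hP l k
      rw [h5]
      have h6 : a l j k = a k j l + a j l k := by linarith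
      rw [h6]
      ring
    linarith
  rw [Finset.sum_sub_distrib, sub_eq_zero]
  have h7 : ∑ j, ∑ l, (∑ k, P i k * a j k l) * P l j = ∑ j, P i j * ∑ k, ∑ l, P l k * a k j l := by
    simp only [Finset.sum_mul, Finset.mul_sum]
    calc ∑ j, ∑ l, ∑ k, P i k * a j k l * P l j
        = ∑ j, ∑ k, ∑ l, P i k * a j k l * P l j :=
          Finset.sum_congr rfl fun j _ => Finset.sum_comm
      _ = ∑ k, ∑ j, ∑ l, P i k * a j k l * P l j := Finset.sum_comm
      _ = ∑ j, ∑ k, ∑ l, P i j * (P l k * a k j l) := by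
          refine Finset.sum_congr rfl fun j _ => Finset.sum_congr rfl fun k _ =>
            Finset.sum_congr rfl fun l _ => ?_
          ring
  rw [h7]
  refine Finset.sum_congr rfl fun j _ => ?_
  rw [hT j]
  ring

end IDiv

theorem pr_Div : StDiv := by
  intro n Ω hs hanti hclosed hdet x i
  have hd : ∀ i j, DifferentiableAt ℝ (fun y => Ω y i j) x := fun i j =>
    ((hs i j).differentiable (by simp)).differentiableAt
  have hne : ∀ y, (Ω y).det ≠ 0 := fun y => (hdet y).ne'
  set P := (Ω x)⁻¹ with hP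
  set a : Fin n → Fin n → Fin n → ℝ := fun i j k => fderiv ℝ (fun y => Ω y j k) x (ee i) with ha
  set d := (Ω x).det with hdd
  have hd0 : 0 < d := hdet x
  have hsq : 0 < Real.sqrt d := Real.sqrt_pos.2 hd0
  have hterm : ∀ j, fderiv ℝ (fun y => Real.sqrt (Ω y).det * (Ω y)⁻¹ i j) x (ee j) =
      Real.sqrt d * (1 / 2 * (∑ k, ∑ l, P k l * a j l k) * P i j -
        ∑ l, (∑ k, P i k * a j k l) * P l j) := by
    intro j
    have h1 : DifferentiableAt ℝ (fun y => Real.sqrt (Ω y).det) x :=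
      (IDiv.diff_det hd).sqrt (hne x)
    have h2 := IDiv.diff_inv hd (hne x) i j
    rw [fderiv_fun_mul h1 h2]
    have h3 : fderiv ℝ (fun y => Real.sqrt (Ω y).det) x (ee j) =
        1 / (2 * Real.sqrt d) * (d * ∑ k, ∑ l, P k l * a j l k) := by
      rw [fderiv_sqrt (IDiv.diff_det hd) (hne x), smul_apply,
        IDiv.fderiv_det hd (hne x), smul_eq_mul]
      rfl
    have h4 := IDiv.fderiv_inv hd hne (ee j) i j
    rw [add_apply, smul_apply,
      smul_apply, h3, h4, smul_eq_mul, smul_eq_mul]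
    have h5 : (P * (Matrix.of fun k l => fderiv ℝ (fun y => Ω y k l) x (ee j)) * P) i j =
        ∑ l, (∑ k, P i k * a j k l) * P l j := by
      rw [Matrix.mul_apply]
      refine Finset.sum_congr rfl fun l _ => ?_
      rw [Matrix.mul_apply]
      rfl
    rw [h5]
    have h6 : d = Real.sqrt d * Real.sqrt d := (Real.mul_self_sqrt hd0.le).symm
    have h7 : 1 / (2 * Real.sqrt d) * (d * ∑ k, ∑ l, P k l * a j l k) =
        Real.sqrt d * (1 / 2 * ∑ k, ∑ l, P k l * a j l k) := by
      rw [show 1 / (2 * Real.sqrt d) * (d * ∑ k, ∑ l, P k l * a j l k) =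
        (d / Real.sqrt d) * (1 / 2 * ∑ k, ∑ l, P k l * a j l k) by
          field_simp]
      congr 1
      rw [div_eq_iff hsq.ne']
      exact h6
    rw [h7]
    ring
  rw [Finset.sum_congr rfl fun j _ => hterm j, ← Finset.mul_sum]
  have hPanti : ∀ i j, P i j = -P j i := by
    have h1 : (Ω x)ᵀ = -Ω x := by
      ext k l
      rw [Matrix.transpose_apply, Matrix.neg_apply]
      exact hanti x l k
    have h2 : Pᵀ = -P := by
      rw [hP, Matrix.transpose_nonsing_inv, h1]
      exact Matrix.inv_eq_left_inv (by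
        rw [Matrix.neg_mul, Matrix.mul_neg, neg_neg]
        exact Matrix.nonsing_inv_mul _ (isUnit_iff_ne_zero.2 (hne x)))
    intro k l
    have h3 : Pᵀ l k = (-P) l k := by rw [h2]
    exact h3
  have haanti : ∀ i j k, a i j k = -a i k j := by
    intro i j k
    have h1 : (fun y => Ω y j k) = fun y => -Ω y k j := funext fun y => hanti y j k
    simp only [ha]
    rw [h1, fderiv_fun_neg]
    rfl
  rw [IDiv.alg P a hPanti (fun i j k => hclosed x i j k) haanti i, mul_zero]

end Pool.Agent.MLS
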