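import Mathlib
import Pool.Agent.Work.MP_25cd3b_gt.M.Stmts

set_option autoImplicit false

/-!
# MP_25cd3b_gt, block MLS, item DivZ: the divergence theorem on the quotient
-/

open MeasureTheory Set Filter Topology
open scoped ContDiff ENNReal

namespace Pool.Agent.MLS

namespace IDivZ

/-- expansion of a vector in the standard basis -/
theorem exp {n : ℕ} (v : E n) : v = ∑ j, v j • (ee j : E n) := by
  ext i
  simp [ee, Pi.single_apply]

/-- the coordinate is smooth -/
theorem coordSmooth {n : ℕ} {Z : E n → E n} (hZ : ContDiff ℝ ∞ Z) (j : Fin n) :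
    ContDiff ℝ ∞ (fun y => Z y j) := by
  have := (contDiff_euclidean (𝕜 := ℝ) (f := Z) (n := ∞)).1 hZ
  exact this j

/-- change of variables for a group element -/
theorem chvar {n : ℕ} {G : Type} [Group G] [MulAction G (E n)] (hG : Cocompact n G) (a : G)
    (F : E n → ℝ) : ∫ x, F x = ∫ y, |(dac a y).det| * F (a • y) := by
  have h := integral_image_eq_integral_abs_det_fderiv_smul (μ := (volume : Measure (E n)))
    (s := univ) MeasurableSet.univ (f := fun y : E n => a • y) (f' := fun y => dac a y)
    (fun x _ => ((hG.smooth a).differentiable (by simp) x).hasFDerivAt.hasFDerivWithinAt)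
    (fun x _ y _ hxy => MulAction.injective a hxy) F
  have himg : (fun y : E n => a • y) '' univ = univ := by
    rw [image_univ]
    exact (MulAction.surjective a).range_eq
  rw [himg] at h
  simpa using h

end IDivZ

open IDivZ in
theorem pr_DivZ : StDivZ := by
  intro n G _ _ hG χ hχ ρ hρ hρa Z hZ hZa
  have hχ1 : ContDiff ℝ 1 χ := hχ.smooth.of_le (by simp)
  have hχd : Differentiable ℝ χ := hχ1.differentiable (by simp)
  have hρd : Differentiable ℝ ρ := hρ.differentiable (by simp)
  have hZjd : ∀ j, Differentiable ℝ (fun y => Z y j) := fun j =>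
    (coordSmooth hZ j).differentiable (by simp)
  have hprod : ∀ j, ContDiff ℝ ∞ (fun y => ρ y * Z y j) := fun j => hρ.mul (coordSmooth hZ j)
  have hcfd : Continuous (fderiv ℝ χ) := hχ1.continuous_fderiv (by simp)
  have hcs : HasCompactSupport (fderiv ℝ χ) := hχ.cpt.fderiv ℝ
  -- integration by parts
  have hparts : ∀ j, ∫ x, χ x * fderiv ℝ (fun y => ρ y * Z y j) x (ee j) =
      -∫ x, fderiv ℝ χ x (ee j) * (ρ x * Z x j) := by
    intro j
    have hc2 : Continuous (fderiv ℝ (fun y => ρ y * Z y j)) :=
      (hprod j).continuous_fderiv (by simp)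
    refine integral_mul_fderiv_eq_neg_fderiv_mul_of_integrable ?_ ?_ ?_
      (fun x _ => hχd x) (fun x _ => (hprod j).differentiable (by simp) x)
    · refine Continuous.integrable_of_hasCompactSupport ?_ ?_
      · exact (hcfd.clm_apply continuous_const).mul (hprod j).continuous
      · refine HasCompactSupport.mul_right ?_
        exact hcs.comp_left (g := fun L : E n →L[ℝ] ℝ => L (ee j)) (by simp)
    · refine Continuous.integrable_of_hasCompactSupport ?_ ?_
      · exact hχ1.continuous.mul (hc2.clm_apply continuous_const)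
      · exact hχ.cpt.mul_right
    · refine Continuous.integrable_of_hasCompactSupport ?_ ?_
      · exact hχ1.continuous.mul (hprod j).continuous
      · exact hχ.cpt.mul_right
  -- the total
  have hI1 : ∀ j, Integrable (fun x => χ x * fderiv ℝ (fun y => ρ y * Z y j) x (ee j)) := by
    intro j
    have hc2 : Continuous (fderiv ℝ (fun y => ρ y * Z y j)) :=
      (hprod j).continuous_fderiv (by simp)
    refine Continuous.integrable_of_hasCompactSupport ?_ ?_
    · exact hχ1.continuous.mul (hc2.clm_apply continuous_const)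
    · exact hχ.cpt.mul_right
  have hI2 : ∀ j, Integrable (fun x => fderiv ℝ χ x (ee j) * (ρ x * Z x j)) := by
    intro j
    refine Continuous.integrable_of_hasCompactSupport ?_ ?_
    · exact (hcfd.clm_apply continuous_const).mul (hprod j).continuous
    · refine HasCompactSupport.mul_right ?_
      exact hcs.comp_left (g := fun L : E n →L[ℝ] ℝ => L (ee j)) (by simp)
  have hA : ∫ x, χ x * ∑ j, fderiv ℝ (fun y => ρ y * Z y j) x (ee j) =
      -∫ x, ρ x * fderiv ℝ χ x (Z x) := by
    have e1 : ∀ x, χ x * ∑ j, fderiv ℝ (fun y => ρ y * Z y j) x (ee j) =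
        ∑ j, χ x * fderiv ℝ (fun y => ρ y * Z y j) x (ee j) := fun x => Finset.mul_sum _ _ _
    have e2 : ∀ x, ρ x * fderiv ℝ χ x (Z x) = ∑ j, fderiv ℝ χ x (ee j) * (ρ x * Z x j) := by
      intro x
      conv_lhs => rw [exp (Z x)]
      rw [map_sum, Finset.mul_sum]
      refine Finset.sum_congr rfl fun j _ => ?_
      rw [map_smul, smul_eq_mul]; ring
    simp_rw [e1, e2]
    rw [integral_finsetSum _ (fun j _ => hI1 j), integral_finsetSum _ (fun j _ => hI2 j),
      ← Finset.sum_neg_distrib]
    exact Finset.sum_congr rfl fun j _ => hparts j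
  rw [hA, neg_eq_zero]
  -- the finite set of group elements
  set K : Set (E n) := tsupport χ with hK
  have hKc : IsCompact K := hχ.cpt
  set N : Set (E n) := Metric.cthickening 1 K with hN
  have hNc : IsCompact N := hKc.cthickening
  have hfin := hG.proper N hNc
  set A : Finset G := hfin.toFinset with hAdef
  have hKN : K ⊆ N := Metric.self_subset_cthickening K
  have hmemA : ∀ (a : G) (x : E n), x ∈ N → a • x ∈ N → a ∈ A := by
    intro a x hx hax
    rw [hAdef, Set.Finite.mem_toFinset]
    exact ⟨a • x, ⟨x, hx, rfl⟩, hax⟩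
  have hinvA : ∀ a, a ∈ A → a⁻¹ ∈ A := by
    intro a ha
    rw [hAdef, Set.Finite.mem_toFinset] at ha
    obtain ⟨y, ⟨x, hx, hxy⟩, hy⟩ := ha
    have hxy' : a • x = y := hxy
    refine hmemA a⁻¹ y hy ?_
    rw [← hxy', inv_smul_smul]; exact hx
  have hχK : ∀ x, χ x ≠ 0 → x ∈ K := fun x hx => subset_tsupport χ hx
  have hsum : ∀ x ∈ N, ∑ a ∈ A, χ (a • x) = 1 := by
    intro x hx
    refine HasSum.unique (hasSum_sum_of_ne_finset_zero ?_) (hχ.sum x)
    intro a ha
    by_contra hne
    exact ha (hmemA a x hx (hKN (hχK _ hne)))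
  have hsum' : ∀ x ∈ N, ∑ a ∈ A, χ (a⁻¹ • x) = 1 := by
    intro x hx
    rw [← hsum x hx]
    refine Finset.sum_bij (fun a _ => a⁻¹) (fun a ha => hinvA a ha)
      (fun a _ b _ h => inv_injective h) (fun b hb => ⟨b⁻¹, hinvA b hb, inv_inv b⟩)
      (fun a _ => rfl)
  -- the derivative of the sum vanishes on the support
  have hder0 : ∀ y ∈ K, ∀ v, ∑ a ∈ A, fderiv ℝ (fun z => χ (a⁻¹ • z)) y v = 0 := by
    intro y hy v
    have hnhds : N ∈ 𝓝 y := by
      refine Filter.mem_of_superset (Metric.isOpen_thickening.mem_nhds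
        (Metric.self_subset_thickening (by norm_num : (0 : ℝ) < 1) K hy))
        (Metric.thickening_subset_cthickening 1 K)
    have hev : (fun z => ∑ a ∈ A, χ (a⁻¹ • z)) =ᶠ[𝓝 y] fun _ => (1 : ℝ) := by
      filter_upwards [hnhds] with z hz using hsum' z hz
    have h1 : fderiv ℝ (fun z => ∑ a ∈ A, χ (a⁻¹ • z)) y = 0 := by
      rw [hev.fderiv_eq]; simp
    have h2 : fderiv ℝ (fun z => ∑ a ∈ A, χ (a⁻¹ • z)) y =
        ∑ a ∈ A, fderiv ℝ (fun z => χ (a⁻¹ • z)) y := by
      refine fderiv_fun_sum fun a _ => ?_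
      exact (hχd _).comp y ((hG.smooth a⁻¹).differentiable (by simp) y)
    have h3 := congrArg (fun L : E n →L[ℝ] ℝ => L v) (h2.symm.trans h1)
    simpa using h3
  -- split the integral
  have hterm : ∀ a : G, ∫ x, ρ x * (χ (a • x) * fderiv ℝ χ x (Z x)) =
      ∫ y, ρ y * (χ y * fderiv ℝ (fun z => χ (a⁻¹ • z)) y (Z y)) := by
    intro a
    rw [chvar hG a⁻¹ (fun x => ρ x * (χ (a • x) * fderiv ℝ χ x (Z x)))]
    refine integral_congr_ae (Eventually.of_forall fun y => ?_)
    have h1 : fderiv ℝ (fun z => χ (a⁻¹ • z)) y = (fderiv ℝ χ (a⁻¹ • y)).comp (dac a⁻¹ y) :=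
      fderiv_comp y (hχd _) ((hG.smooth a⁻¹).differentiable (by simp) y)
    simp only [h1, ContinuousLinearMap.comp_apply, smul_inv_smul, hZa]
    rw [← hρa a⁻¹ y]
    ring
  have hint : ∀ a : G, Integrable (fun x => ρ x * (χ (a • x) * fderiv ℝ χ x (Z x))) := by
    intro a
    refine Continuous.integrable_of_hasCompactSupport ?_ ?_
    · exact hρ.continuous.mul ((hχ1.continuous.comp (hG.smooth a).continuous).mul
        (hcfd.clm_apply hZ.continuous))
    · refine HasCompactSupport.mul_left (HasCompactSupport.mul_left ?_)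
      refine HasCompactSupport.intro hKc fun x hx => ?_
      have : fderiv ℝ χ x = 0 := by
        by_contra hne
        exact hx (tsupport_fderiv_subset ℝ (subset_tsupport _ hne))
      rw [this]; rfl
  have hint2 : ∀ a : G,
      Integrable (fun y => ρ y * (χ y * fderiv ℝ (fun z => χ (a⁻¹ • z)) y (Z y))) := by
    intro a
    have hc3 : ContDiff ℝ 1 (fun z => χ (a⁻¹ • z)) :=
      hχ1.comp ((hG.smooth a⁻¹).of_le (by simp))
    refine Continuous.integrable_of_hasCompactSupport ?_ ?_
    · exact hρ.continuous.mul (hχ1.continuous.mul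
        ((hc3.continuous_fderiv (by simp)).clm_apply hZ.continuous))
    · exact HasCompactSupport.mul_left hχ.cpt.mul_right
  calc ∫ x, ρ x * fderiv ℝ χ x (Z x)
      = ∫ x, ∑ a ∈ A, ρ x * (χ (a • x) * fderiv ℝ χ x (Z x)) := by
        refine integral_congr_ae (Eventually.of_forall fun x => ?_)
        simp only
        by_cases hx : x ∈ K
        · rw [← Finset.mul_sum, ← Finset.sum_mul, hsum x (hKN hx), one_mul]
        · have : fderiv ℝ χ x = 0 := by
            by_contra hne
            exact hx (tsupport_fderiv_subset ℝ (subset_tsupport _ hne))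
          simp [this]
    _ = ∑ a ∈ A, ∫ x, ρ x * (χ (a • x) * fderiv ℝ χ x (Z x)) :=
        integral_finsetSum _ fun a _ => hint a
    _ = ∑ a ∈ A, ∫ y, ρ y * (χ y * fderiv ℝ (fun z => χ (a⁻¹ • z)) y (Z y)) :=
        Finset.sum_congr rfl fun a _ => hterm a
    _ = ∫ y, ∑ a ∈ A, ρ y * (χ y * fderiv ℝ (fun z => χ (a⁻¹ • z)) y (Z y)) :=
        (integral_finsetSum _ fun a _ => hint2 a).symm
    _ = ∫ y : E n, (0 : ℝ) := by
        refine integral_congr_ae (Eventually.of_forall fun y => ?_)
        simp only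
        rw [← Finset.mul_sum, ← Finset.mul_sum]
        by_cases hy : y ∈ K
        · rw [hder0 y hy, mul_zero, mul_zero]
        · have : χ y = 0 := by
            by_contra hne
            exact hy (hχK y hne)
          rw [this, zero_mul, mul_zero]
    _ = 0 := by simp

end Pool.Agent.MLS
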