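import Mathlib
import Pool.Agent.Work.MP_25cd3b_gt.M.Stmts

set_option autoImplicit false

/-!
# MP_25cd3b_gt: the geodesic flow commutes with the lifted action
-/

open MeasureTheory Set Filter Topology
open scoped ContDiff ENNReal
open Pool.Agent.Work.MP_c9f990_an.Al (IsFlow)

namespace Pool.Agent.MLS

namespace IEqF

/-- nonnegative times -/
theorem nonneg_time (h3 : StGeo1) (h4 : StGeo2) (h5 : StEqG) (n : ℕ) (G : Type) [Group G]
    [MulAction G (E n)] (hG : Cocompact n G) (g : Form n) (hg : Riem g) (hi : Inv G g)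
    (φ : ℝ → W n → W n) (M : ℝ → W n → W n →L[ℝ] W n) (hφ : IsFlow (XH (Hm g)) φ M)
    (a : G) (t : ℝ) (ht : 0 ≤ t) (z : W n) : φ t (lft g a z) = lft g a (φ t z) := by
  obtain ⟨hgeo, hder, -⟩ := h3 n g hg (fun s => φ s z) (fun s => hφ.ode z s)
  have hgeo2 := h5 n G hG g hg hi a (fun s => (φ s z).1) hgeo
  have hd : ∀ s, deriv (fun r => a • (φ r z).1) s
      = dac a (φ s z).1 (vel g (φ s z)) := by
    intro s
    have hc : HasDerivAt (fun r => (φ r z).1) (vel g (φ s z)) s := by
      have h1 : DifferentiableAt ℝ (fun r => (φ r z).1) s :=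
        (hgeo.smooth.differentiable (by norm_num)).differentiableAt
      have h2 := h1.hasDerivAt
      rwa [hder s] at h2
    have ha : HasFDerivAt (fun y : E n => a • y) (dac a (φ s z).1) (φ s z).1 :=
      (((hG.smooth a).differentiable (by simp)) _).hasFDerivAt
    have h3 : HasDerivAt ((fun y : E n => a • y) ∘ (fun r => (φ r z).1))
        (dac a (φ s z).1 (vel g (φ s z))) s := ha.comp_hasDerivAt s hc
    exact h3.deriv
  have hy : ∀ s, HasDerivAt (fun r => lft g a (φ r z)) (XH (Hm g) (lft g a (φ s z))) s := by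
    intro s
    have h6 := h4 n g hg (fun r => a • (φ r z).1) hgeo2 s
    have e1 : (fun r => (a • (φ r z).1, op g (a • (φ r z).1) (deriv (fun r => a • (φ r z).1) r)))
        = fun r => lft g a (φ r z) := by
      funext r
      rw [hd r]
      rfl
    have e2 : (a • (φ s z).1, op g (a • (φ s z).1) (deriv (fun r => a • (φ r z).1) s))
        = lft g a (φ s z) := congrFun e1 s
    rw [e1, e2] at h6
    exact h6
  have h7 := hφ.uniq (fun r => lft g a (φ r z)) (fun s _ => (hy s).hasDerivWithinAt) t ht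
  have h8 : φ 0 z = z := hφ.zero z
  simp only [h8] at h7
  exact h7.symm

end IEqF

theorem pr_EqF (h3 : StGeo1) (h4 : StGeo2) (h5 : StEqG) : StEqF := by
  intro n G _ _ hG g hg hi φ M hφ a t z
  rcases le_total 0 t with ht | ht
  · exact IEqF.nonneg_time h3 h4 h5 n G hG g hg hi φ M hφ a t ht z
  · have h1 := IEqF.nonneg_time h3 h4 h5 n G hG g hg hi φ M hφ a (-t) (by linarith) (φ t z)
    have h2 : φ (-t) (φ t z) = z := by
      rw [← hφ.add, neg_add_cancel, hφ.zero]
    rw [h2] at h1
    rw [← h1, ← hφ.add, add_neg_cancel, hφ.zero]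

end Pool.Agent.MLS
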