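import Mathlib
import Pool.Agent.Work.MP_25cd3b_gt.M.Stmts

set_option autoImplicit false

/-!
# Item EqG: the group maps geodesics to geodesics
-/

open MeasureTheory Set Filter Topology
open scoped ContDiff ENNReal

namespace Pool.Agent.MLS

namespace IEqG

section abstract

variable {Q F : Type} [NormedAddCommGroup Q] [NormedSpace ℝ Q] [NormedAddCommGroup F]
  [NormedSpace ℝ F]

theorem compD {f : Q → F} {f' : Q →L[ℝ] F} {γ : ℝ → Q} {γ' : Q} {t : ℝ} {y : Q}
    (hy : γ t = y) (hf : HasFDerivAt f f' y) (hγ : HasDerivAt γ γ' t) :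
    HasDerivAt (fun s => f (γ s)) (f' γ') t := by
  subst hy
  exact hf.comp_hasDerivAt t hγ

theorem appD {M : ℝ → Q →L[ℝ] F} {M' : Q →L[ℝ] F} {u : ℝ → Q} {u' : Q} {t : ℝ}
    (hM : HasDerivAt M M' t) (hu : HasDerivAt u u' t) :
    HasDerivAt (fun s => M s (u s)) (M' (u t) + M t u') t :=
  hM.clm_apply hu

theorem appD' {M : ℝ → Q →L[ℝ] F} {M' N : Q →L[ℝ] F} {u : ℝ → Q} {u' y : Q} {t : ℝ}
    (hN : M t = N) (hy : u t = y) (hM : HasDerivAt M M' t) (hu : HasDerivAt u u' t) :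
    HasDerivAt (fun s => M s (u s)) (M' y + N u') t := by
  subst hN hy
  exact hM.clm_apply hu

theorem appC {M : ℝ → Q →L[ℝ] F} {M' : Q →L[ℝ] F} {t : ℝ} (hM : HasDerivAt M M' t) (v : Q) :
    HasDerivAt (fun s => M s v) (M' v) t := by
  have h := appD hM (hasDerivAt_const t v)
  simpa using h

/-- derivative of the invariance of the metric in the direction `e` -/
theorem inv_der (φ : Q → Q) (A : Q → Q →L[ℝ] Q) (g : Q → Q →L[ℝ] Q →L[ℝ] ℝ)
    (dA : Q → Q →L[ℝ] Q →L[ℝ] Q) (dg : Q → Q →L[ℝ] Q →L[ℝ] Q →L[ℝ] ℝ)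
    (hφ : ∀ x, HasFDerivAt φ (A x) x) (hA : ∀ x, HasFDerivAt A (dA x) x)
    (hg : ∀ x, HasFDerivAt g (dg x) x) (hsymm : ∀ x u v, g x u v = g x v u)
    (hinv : ∀ x u v, g (φ x) (A x u) (A x v) = g x u v) (x e V : Q) :
    dg (φ x) (A x e) (A x V) (A x V) + 2 * g (φ x) (A x V) (dA x e V) = dg x e V V := by
  have hγ : HasDerivAt (fun s : ℝ => x + s • e) e 0 := by
    have h := ((hasDerivAt_id (0 : ℝ)).smul_const e).const_add x
    simpa using h
  have hγ0 : (fun s : ℝ => x + s • e) 0 = x := by simp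
  have h0 : HasDerivAt (fun s : ℝ => φ (x + s • e)) (A x e) 0 := compD hγ0 (hφ x) hγ
  have h00 : (fun s : ℝ => φ (x + s • e)) 0 = φ x := by simp
  have h1 : HasDerivAt (fun s : ℝ => g (φ (x + s • e))) (dg (φ x) (A x e)) 0 :=
    compD (f := g) (f' := dg (φ x)) h00 (hg (φ x)) h0
  have h2 : HasDerivAt (fun s : ℝ => A (x + s • e)) (dA x e) 0 := compD hγ0 (hA x) hγ
  have h2' : HasDerivAt (fun s : ℝ => A (x + s • e) V) (dA x e V) 0 := appC h2 V
  have hV : (fun s : ℝ => A (x + s • e) V) 0 = A x V := by simp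
  have hG0 : (fun s : ℝ => g (φ (x + s • e))) 0 = g (φ x) := by simp
  have hG1 : (fun s : ℝ => g (φ (x + s • e)) (A (x + s • e) V)) 0 = g (φ x) (A x V) := by simp
  have h30 : HasDerivAt (fun s : ℝ => g (φ (x + s • e)) (A (x + s • e) V))
      (dg (φ x) (A x e) (A x V) + g (φ x) (dA x e V)) 0 := appD' hG0 hV h1 h2'
  have h3 : HasDerivAt (fun s : ℝ => g (φ (x + s • e)) (A (x + s • e) V) (A (x + s • e) V))
      ((dg (φ x) (A x e) (A x V) + g (φ x) (dA x e V)) (A x V) + g (φ x) (A x V) (dA x e V)) 0 :=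
    appD' hG1 hV h30 h2'
  have h40 : HasDerivAt (fun s : ℝ => g (x + s • e)) (dg x e) 0 :=
    compD (f := g) (f' := dg x) hγ0 (hg x) hγ
  have h4 : HasDerivAt (fun s : ℝ => g (x + s • e) V V) (dg x e V V) 0 :=
    appC (appC h40 V) V
  have h5 : (fun s : ℝ => g (φ (x + s • e)) (A (x + s • e) V) (A (x + s • e) V)) =
      fun s : ℝ => g (x + s • e) V V := by
    funext s
    exact hinv _ _ _
  rw [h5] at h3
  have h6 := h3.unique h4
  rw [add_apply] at h6
  rw [← h6, hsymm (φ x) (dA x e V) (A x V)]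
  ring

theorem core (φ : Q → Q) (A : Q → Q →L[ℝ] Q) (g : Q → Q →L[ℝ] Q →L[ℝ] ℝ)
    (dA : Q → Q →L[ℝ] Q →L[ℝ] Q) (dg : Q → Q →L[ℝ] Q →L[ℝ] Q →L[ℝ] ℝ)
    (hφ : ∀ x, HasFDerivAt φ (A x) x) (hA : ∀ x, HasFDerivAt A (dA x) x)
    (hg : ∀ x, HasFDerivAt g (dg x) x) (hsymm : ∀ x u v, g x u v = g x v u)
    (hinv : ∀ x u v, g (φ x) (A x u) (A x v) = g x u v)
    (hsnd : ∀ x u v, dA x u v = dA x v u)
    (c v : ℝ → Q) (t : ℝ) (v' : Q) (hc : HasDerivAt c (v t) t) (hv : HasDerivAt v v' t)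
    (hel : ∀ w, HasDerivAt (fun s => g (c s) (v s) w) (1 / 2 * dg (c t) w (v t) (v t)) t)
    (w : Q) (U : ℝ → Q) (U' : Q) (hU : HasDerivAt U U' t) (hAU : ∀ s, A (c s) (U s) = w) :
    HasDerivAt (fun s => g (φ (c s)) (A (c s) (v s)) w)
      (1 / 2 * dg (φ (c t)) w (A (c t) (v t)) (A (c t) (v t))) t := by
  have hfun : (fun s => g (φ (c s)) (A (c s) (v s)) w) = fun s => g (c s) (v s) (U s) := by
    funext s
    have h := hinv (c s) (v s) (U s)
    rw [hAU s] at h
    exact h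
  have hψ : HasDerivAt (fun s => g (c s) (v s)) (dg (c t) (v t) (v t) + g (c t) v') t :=
    appD (compD rfl (hg (c t)) hc) hv
  have hψe : ∀ w' : Q, (dg (c t) (v t) (v t) + g (c t) v') w' =
      1 / 2 * dg (c t) w' (v t) (v t) := fun w' => (appC hψ w').unique (hel w')
  have hf := appD hψ hU
  rw [hψe (U t)] at hf
  rw [hfun]
  have hAc : HasDerivAt (fun s => A (c s)) (dA (c t) (v t)) t := compD rfl (hA (c t)) hc
  have h0 : dA (c t) (v t) (U t) + A (c t) U' = 0 := by
    have h := appD hAc hU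
    have h' : (fun s => A (c s) (U s)) = fun _ => w := by
      funext s
      exact hAU s
    rw [h'] at h
    exact h.unique (hasDerivAt_const t w)
  have hi := inv_der φ A g dA dg hφ hA hg hsymm hinv (c t) (U t) (v t)
  rw [hAU t] at hi
  have h2 := hinv (c t) (v t) U'
  have h3 : A (c t) U' = - dA (c t) (U t) (v t) := by
    rw [← hsnd]
    exact eq_neg_of_add_eq_zero_right h0
  rw [h3, map_neg] at h2
  have hval : 1 / 2 * dg (c t) (U t) (v t) (v t) + g (c t) (v t) U' =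
      1 / 2 * dg (φ (c t)) w (A (c t) (v t)) (A (c t) (v t)) := by
    rw [← hi, ← h2]
    ring
  rw [hval] at hf
  exact hf

end abstract

variable {n : ℕ} {G : Type} [Group G] [MulAction G (E n)]

theorem hasFDerivAt_act (hG : Cocompact n G) (a : G) (x : E n) :
    HasFDerivAt (fun y : E n => a • y) (dac a x) x :=
  ((hG.smooth a).differentiable (by simp)).differentiableAt.hasFDerivAt

theorem contDiff_dac (hG : Cocompact n G) (a : G) : ContDiff ℝ ∞ (fun x : E n => dac a x) :=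
  (hG.smooth a).fderiv_right (by norm_num)

theorem dac_dac_inv (hG : Cocompact n G) (a : G) (x w : E n) :
    dac a x (dac a⁻¹ (a • x) w) = w := by
  have h1 : HasFDerivAt (fun y : E n => a • (a⁻¹ • y))
      ((dac a (a⁻¹ • (a • x))).comp (dac a⁻¹ (a • x))) (a • x) :=
    (hasFDerivAt_act hG a (a⁻¹ • (a • x))).comp (a • x) (hasFDerivAt_act hG a⁻¹ (a • x))
  have h2 : (fun y : E n => a • (a⁻¹ • y)) = fun y => y := by
    funext y
    exact smul_inv_smul a y
  rw [h2, inv_smul_smul] at h1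
  have h3 := h1.unique (hasFDerivAt_id (𝕜 := ℝ) (a • x))
  have h4 := congrArg (fun T : E n →L[ℝ] E n => T w) h3
  simpa using h4

theorem diff_u (hG : Cocompact n G) (a : G) (w : E n) :
    Differentiable ℝ (fun x : E n => dac a⁻¹ (a • x) w) := by
  intro x
  have h1 : DifferentiableAt ℝ (fun y : E n => dac a⁻¹ y) (a • x) :=
    ((contDiff_dac hG a⁻¹).differentiable (by simp)).differentiableAt
  have h2 : DifferentiableAt ℝ (fun y : E n => a • y) x :=
    (hasFDerivAt_act hG a x).differentiableAt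
  have h3 : DifferentiableAt ℝ (fun y : E n => dac a⁻¹ (a • y)) x := h1.comp x h2
  exact h3.clm_apply (differentiableAt_const w)

end IEqG

open IEqG in
theorem pr_EqG (h1 : StOp) : StEqG := by
  intro n G _ _ hG g hg hi a c hc
  obtain ⟨hcs, hel⟩ := hc
  have hcd : Differentiable ℝ c := hcs.differentiable (by norm_num)
  have hc' : ∀ t, HasDerivAt c (deriv c t) t := fun t => (hcd t).hasDerivAt
  have hvs : ContDiff ℝ 1 (deriv c) := by
    have h := hcs
    rw [show (2 : WithTop ℕ∞) = 1 + 1 by norm_num, contDiff_succ_iff_deriv] at h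
    exact h.2.2
  have hv' : ∀ t, HasDerivAt (deriv c) (deriv (deriv c) t) t := fun t =>
    (hvs.differentiable (by norm_num) t).hasDerivAt
  have hc1' : ∀ t, deriv (fun s => a • c s) t = dac a (c t) (deriv c t) := fun t =>
    (compD rfl (hasFDerivAt_act hG a (c t)) (hc' t)).deriv
  refine ⟨((hG.smooth a).of_le (by exact ENat.LEInfty.out)).comp hcs, ?_⟩
  intro t w
  have hUd : HasDerivAt (fun s => dac a⁻¹ (a • c s) w)
      (fderiv ℝ (fun x : E n => dac a⁻¹ (a • x) w) (c t) (deriv c t)) t :=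
    compD (f := fun x : E n => dac a⁻¹ (a • x) w) rfl ((diff_u hG a w (c t)).hasFDerivAt) (hc' t)
  have hA : ∀ y, HasFDerivAt (fun y : E n => dac a y) (fderiv ℝ (fun y : E n => dac a y) y) y :=
    fun y => ((contDiff_dac hG a).differentiable (by simp)).differentiableAt.hasFDerivAt
  have hgd : ∀ y, HasFDerivAt g.val (fderiv ℝ g.val y) y := fun y =>
    (g.smooth.differentiable (by simp)).differentiableAt.hasFDerivAt
  have hmain := core (fun y : E n => a • y) (fun y : E n => dac a y) g.val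
    (fun y => fderiv ℝ (fun y : E n => dac a y) y) (fun y => fderiv ℝ g.val y)
    (hasFDerivAt_act hG a) hA hgd g.symm (hi a)
    (fun x u v => second_derivative_symmetric (hasFDerivAt_act hG a) (hA x) u v)
    c (deriv c) t (deriv (deriv c) t) (hc' t) (hv' t) (hel t) w
    (fun s => dac a⁻¹ (a • c s) w) _ hUd (fun s => dac_dac_inv hG a (c s) w)
  have hfun : (fun s => g.val (a • c s) (deriv (fun s => a • c s) s) w) =
      fun s => g.val (a • c s) (dac a (c s) (deriv c s)) w := by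
    funext s
    rw [hc1' s]
  rw [hfun, hc1' t]
  exact hmain

end Pool.Agent.MLS
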