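import Pool.Agent.Work.MP_25cd3b_gt.M.Stmts

set_option autoImplicit false

/-!
# MP_25cd3b_gt, item FD: integrals over a fundamental domain
-/

open MeasureTheory Set Filter Topology
open scoped ContDiff ENNReal

namespace Pool.Agent.MLS

namespace IFD

/-- The indicator of a fundamental domain sums to one over every orbit. -/
theorem tsum_indicator {X G : Type} [Group G] [MulAction G X] {D : Set X}
    (hD : ∀ x : X, ∃! a : G, a • x ∈ D) (x : X) :
    ∑' a : G, D.indicator (fun _ => (1 : ℝ≥0∞)) (a • x) = 1 := by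
  classical
  obtain ⟨a₀, h0, h1⟩ := hD x
  rw [tsum_eq_single a₀]
  · exact Set.indicator_of_mem h0 _
  · intro b hb
    refine Set.indicator_of_notMem (fun h => hb (h1 b h)) _

/-- The partition of unity, in the extended nonnegative reals. -/
theorem tsum_ofReal {n : ℕ} {G : Type} [Group G] [MulAction G (E n)] {χ : E n → ℝ} (h : PU G χ)
    (x : E n) : ∑' a : G, ENNReal.ofReal (χ (a • x)) = 1 := by
  have h1 := h.sum x
  rw [← ENNReal.ofReal_tsum_of_nonneg (fun a => h.nonneg _) h1.summable, h1.tsum_eq,
    ENNReal.ofReal_one]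

end IFD

open IFD in
theorem pr_FD (h1 : StUnf) (h2 : StCnt) (h3 : StDens) : StFD := by
  intro n G _ _ hG g hR hI χ hχ D hDm hD f hf hf0 hfi
  have : Countable G := h2 n G hG
  obtain ⟨_, hdc, hd⟩ := h3 n g hR
  obtain ⟨_, hmp⟩ := hd G hG hI
  have hdc' : Continuous (dens g) := hdc.continuous
  have hd0 : ∀ x, 0 ≤ dens g x := fun x => Real.sqrt_nonneg _
  have hdm : Measurable fun x => ENNReal.ofReal (dens g x) := hdc'.measurable.ennreal_ofReal
  have hχc : Continuous χ := hχ.smooth.continuous
  have hχm : Measurable fun x => ENNReal.ofReal (χ x) := hχc.measurable.ennreal_ofReal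
  have hfm : Measurable fun x => ENNReal.ofReal (f x) := hf.measurable.ennreal_ofReal
  have him : Measurable (D.indicator (fun _ => (1 : ℝ≥0∞))) := measurable_const.indicator hDm
  have key := h1 (E n) (volume.withDensity fun x => ENNReal.ofReal (dens g x)) G
    (fun a x => a • x) hmp (fun a b x => mul_smul a b x) (fun x => one_smul G x)
    (D.indicator (fun _ => (1 : ℝ≥0∞))) (fun x => ENNReal.ofReal (χ x))
    (fun x => ENNReal.ofReal (f x)) him hχm hfm (tsum_indicator hD) (tsum_ofReal hχ)
    (fun a x => by simp only [hfi a x])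
  have hm1 : Measurable fun x => D.indicator (fun _ => (1 : ℝ≥0∞)) x * ENNReal.ofReal (f x) :=
    him.mul hfm
  have hm2 : Measurable fun x => ENNReal.ofReal (χ x) * ENNReal.ofReal (f x) := hχm.mul hfm
  rw [lintegral_withDensity_eq_lintegral_mul _ hdm hm1,
    lintegral_withDensity_eq_lintegral_mul _ hdm hm2] at key
  rw [integral_eq_lintegral_of_nonneg_ae, integral_eq_lintegral_of_nonneg_ae]
  · congr 1
    rw [← lintegral_indicator hDm]
    refine Eq.trans ?_ (key.trans ?_)
    · refine lintegral_congr fun x => ?_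
      by_cases hx : x ∈ D
      · simp only [Set.indicator_of_mem hx, Pi.mul_apply, one_mul]
        rw [ENNReal.ofReal_mul (hf0 x), mul_comm]
      · simp only [Set.indicator_of_notMem hx, Pi.mul_apply, zero_mul, mul_zero]
    · refine lintegral_congr fun x => ?_
      simp only [Pi.mul_apply]
      rw [ENNReal.ofReal_mul (hχ.nonneg x), ENNReal.ofReal_mul (hf0 x)]
      ring
  · exact Eventually.of_forall fun x => mul_nonneg (hχ.nonneg x) (mul_nonneg (hf0 x) (hd0 x))
  · exact (hχc.mul (hf.mul hdc')).aestronglyMeasurable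
  · exact Eventually.of_forall fun x => mul_nonneg (hf0 x) (hd0 x)
  · exact (hf.mul hdc').aestronglyMeasurable

end Pool.Agent.MLS
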