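import Pool.Agent.Work.MP_25cd3b_gt.M.Stmts2
import Pool.Agent.Work.MP_25cd3b_gt.M.I_FD

set_option autoImplicit false

/-!
# MP_25cd3b_gt, item FDW: integrals over the ball bundle of a fundamental domain
-/

open MeasureTheory Set Filter Topology
open scoped ContDiff ENNReal

namespace Pool.Agent.MLS

namespace IFDW

/-- Product of an indicator with a number. -/
theorem ind_mul {X : Type} (A B : Set X) (u : X → ℝ≥0∞) (z : X) :
    A.indicator (fun _ => (1 : ℝ≥0∞)) z * B.indicator u z = (A ∩ B).indicator u z := by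
  by_cases hA : z ∈ A
  · rw [Set.indicator_of_mem hA, one_mul]
    by_cases hB : z ∈ B
    · rw [Set.indicator_of_mem hB, Set.indicator_of_mem (show z ∈ A ∩ B from ⟨hA, hB⟩)]
    · rw [Set.indicator_of_notMem hB, Set.indicator_of_notMem (fun h => hB h.2)]
  · rw [Set.indicator_of_notMem hA, zero_mul, Set.indicator_of_notMem (fun h => hA h.1)]

end IFDW

open IFDW IFD in
theorem pr_FDW (h1 : StUnf) (h2 : StCnt) (h3 : StOp) (h4 : StLftA) (h5 : StLftM) : StFDW := by
  intro n G _ _ hG g hR hI χ hχ D hD f hf hf0 hfi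
  obtain ⟨hDm, hDu⟩ := hD
  have : Countable G := h2 n G hG
  obtain ⟨_, _, _, _, _, _, _, hHc, _⟩ := h3 n g hR
  obtain ⟨_, hH, hmul, hone, _⟩ := h4 n G hG g hR hI
  have hmp := h5 n G hG g hR hI
  have hHm : Measurable (Hm g) := hHc.continuous.measurable
  have hχc : Continuous χ := hχ.smooth.continuous
  have hχ1 : Continuous fun z : W n => χ z.1 := hχc.comp continuous_fst
  have hB : MeasurableSet {z : W n | Hm g z ≤ 1 / 2} := measurableSet_le hHm measurable_const
  have hD1 : MeasurableSet {z : W n | z.1 ∈ D} := measurable_fst hDm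
  have hfm : Measurable fun z => ENNReal.ofReal (f z) := hf.measurable.ennreal_ofReal
  have hBd : Bd g D = {z : W n | z.1 ∈ D} ∩ {z : W n | Hm g z ≤ 1 / 2} := rfl
  have hBdm : MeasurableSet (Bd g D) := by rw [hBd]; exact hD1.inter hB
  have key := h1 (W n) volume G (fun a z => lft g a z) hmp hmul hone
    ({z : W n | z.1 ∈ D}.indicator (fun _ => (1 : ℝ≥0∞)))
    (fun z => ENNReal.ofReal (χ z.1))
    ({z : W n | Hm g z ≤ 1 / 2}.indicator fun z => ENNReal.ofReal (f z))
    (measurable_const.indicator hD1) hχ1.measurable.ennreal_ofReal (hfm.indicator hB)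
    (fun z => by
      have := tsum_indicator hDu z.1
      refine Eq.trans (tsum_congr fun a => ?_) this
      by_cases h : a • z.1 ∈ D
      · rw [Set.indicator_of_mem (show lft g a z ∈ {z : W n | z.1 ∈ D} from h),
          Set.indicator_of_mem h]
      · rw [Set.indicator_of_notMem (show lft g a z ∉ {z : W n | z.1 ∈ D} from h),
          Set.indicator_of_notMem h])
    (fun z => tsum_ofReal hχ z.1)
    (fun a z => by
      by_cases h : Hm g z ≤ 1 / 2
      · rw [Set.indicator_of_mem (show lft g a z ∈ {z : W n | Hm g z ≤ 1 / 2} from by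
          rw [Set.mem_setOf_eq, hH a z]; exact h),
          Set.indicator_of_mem (show z ∈ {z : W n | Hm g z ≤ 1 / 2} from h), hfi a z]
      · rw [Set.indicator_of_notMem (show lft g a z ∉ {z : W n | Hm g z ≤ 1 / 2} from by
          rw [Set.mem_setOf_eq, hH a z]; exact h),
          Set.indicator_of_notMem (show z ∉ {z : W n | Hm g z ≤ 1 / 2} from h)])
  rw [integral_eq_lintegral_of_nonneg_ae, integral_eq_lintegral_of_nonneg_ae]
  · congr 1
    rw [← lintegral_indicator hBdm, ← lintegral_indicator hB]
    refine Eq.trans ?_ (key.trans ?_)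
    · refine lintegral_congr fun z => ?_
      rw [ind_mul, hBd]
    · refine lintegral_congr fun z => ?_
      by_cases h : z ∈ {z : W n | Hm g z ≤ 1 / 2}
      · rw [Set.indicator_of_mem h, Set.indicator_of_mem h, ENNReal.ofReal_mul (hχ.nonneg _)]
      · rw [Set.indicator_of_notMem h, Set.indicator_of_notMem h, mul_zero]
  · exact Eventually.of_forall fun z => mul_nonneg (hχ.nonneg z.1) (hf0 z)
  · exact (hχ1.mul hf).aestronglyMeasurable
  · exact Eventually.of_forall fun z => hf0 z
  · exact hf.aestronglyMeasurable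

end Pool.Agent.MLS
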