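import Mathlib
import Pool.Agent.Work.MP_25cd3b_gt.M.Stmts

set_option autoImplicit false

/-!
# MP_25cd3b_gt, item Flow: the geodesic flow of a cocompact metric exists

The energy is constant along the (slowed down) Hamiltonian field, so the projected curves have
bounded speed and stay in compact sets for bounded time.
-/

open MeasureTheory Set Filter Topology
open scoped ContDiff ENNReal
open Pool.Agent.Work.MP_c9f990_an.Al (IsFlow)

namespace Pool.Agent.MLS

namespace IFlow

/-- a function with vanishing derivative is constant -/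
theorem const_of_deriv {f : ℝ → ℝ} (h : ∀ t, HasDerivAt f 0 t) (s t : ℝ) : f s = f t := by
  have hd : Differentiable ℝ f := fun t => (h t).differentiableAt
  exact is_const_of_deriv_eq_zero hd (fun t => (h t).deriv) s t

/-- the energy is constant along solutions of the slowed down equation -/
theorem energy {n : ℕ} (H : W n → ℝ) (hH : ContDiff ℝ ∞ H)
    (h0 : ∀ z, fderiv ℝ H z (XH H z) = 0) (ψ : W n → ℝ) (y : ℝ → W n)
    (hy : ∀ t, HasDerivAt y (ψ (y t) • XH H (y t)) t) (t : ℝ) : H (y t) = H (y 0) := by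
  apply const_of_deriv (f := fun s => H (y s))
  intro s
  have h1 : HasFDerivAt H (fderiv ℝ H (y s)) (y s) :=
    ((hH.differentiable (by norm_num)) (y s)).hasFDerivAt
  have h2 := h1.comp_hasDerivAt s (hy s)
  rw [map_smul, h0, smul_zero] at h2
  exact h2

/-- the projected curve -/
theorem curve {n : ℕ} (F : W n → W n) (hF : Continuous F) (ψ : W n → ℝ) (hψ : Continuous ψ)
    (y : ℝ → W n) (hy : ∀ t, HasDerivAt y (ψ (y t) • F (y t)) t) :
    ContDiff ℝ 1 (fun t => (y t).1) ∧ ∀ t, deriv (fun t => (y t).1) t = ψ (y t) • (F (y t)).1 := by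
  have hyc : Continuous y := continuous_iff_continuousAt.2 fun t => (hy t).continuousAt
  have h1 : ∀ t, HasDerivAt (fun t => (y t).1) (ψ (y t) • (F (y t)).1) t := by
    intro t
    have h2 : HasFDerivAt (fun z : W n => z.1) (ContinuousLinearMap.fst ℝ (E n) (E n)) (y t) :=
      hasFDerivAt_fst
    exact h2.comp_hasDerivAt t (hy t)
  have h3 : ∀ t, deriv (fun t => (y t).1) t = ψ (y t) • (F (y t)).1 := fun t => (h1 t).deriv
  refine ⟨?_, h3⟩
  rw [contDiff_one_iff_deriv]
  refine ⟨fun t => (h1 t).differentiableAt, ?_⟩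
  have h4 : deriv (fun t => (y t).1) = fun t => ψ (y t) • (F (y t)).1 := funext h3
  rw [h4]
  exact (hψ.comp hyc).smul (continuous_fst.comp (hF.comp hyc))

/-- scaling of the norm -/
theorem nrm_smul_le {n : ℕ} (g : Form n) (x v : E n) (c r : ℝ) (h0 : 0 ≤ c) (h1 : c ≤ 1)
    (h : g.val x v v ≤ 2 * r) : nrm g x (c • v) ≤ Real.sqrt (2 * r) := by
  unfold nrm
  apply Real.sqrt_le_sqrt
  have h2 : g.val x (c • v) (c • v) = c * c * g.val x v v := by
    rw [map_smul, map_smul, _root_.smul_apply, smul_eq_mul, smul_eq_mul]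
    ring
  rw [h2]
  have h3 : c * c ≤ 1 := by nlinarith
  have h4 := g.nonneg x v
  nlinarith

/-- the distance along a curve of bounded speed -/
theorem dist_curve {n : ℕ} (g : Form n) (hG : StGd) (c : ℝ → E n) (hc : ContDiff ℝ 1 c) (B : ℝ)
    (hB : ∀ t, nrm g (c t) (deriv c t) ≤ B) (t : ℝ) : gd g (c 0) (c t) ≤ |t| * B := by
  obtain ⟨-, hpm, -, hint⟩ := hG n g
  have hcont : Continuous (fun t => nrm g (c t) (deriv c t)) := by
    unfold nrm
    apply Continuous.sqrt
    have h1 : Continuous (fun t => g.val (c t)) := g.smooth.continuous.comp hc.continuous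
    have h2 : Continuous (deriv c) := hc.continuous_deriv (le_refl 1)
    exact (h1.clm_apply h2).clm_apply h2
  have key : ∀ a b : ℝ, a ≤ b → gd g (c a) (c b) ≤ (b - a) * B := by
    intro a b hab
    refine le_trans (hint c a b hc hab) ?_
    have h1 : (∫ t in a..b, nrm g (c t) (deriv c t)) ≤ ∫ t in a..b, B := by
      apply intervalIntegral.integral_mono_on hab
      · exact hcont.intervalIntegrable a b
      · exact intervalIntegrable_const
      · intro t _
        exact hB t
    rw [intervalIntegral.integral_const, smul_eq_mul] at h1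
    exact h1
  rcases le_total 0 t with ht | ht
  · have h1 := key 0 t ht
    rw [abs_of_nonneg ht]
    rw [sub_zero] at h1
    exact h1
  · have h1 := key t 0 ht
    rw [abs_of_nonpos ht, hpm.symm]
    rw [zero_sub] at h1
    exact h1

end IFlow

open IFlow in
/-- Item Flow. -/
theorem pr_Flow (h1 : StPatch) (h2 : StSub) (h3 : StProp) (h4 : StGd) (h5 : StOp) (h6 : StHd)
    (h7 : StTr0) : StFlow := by
  intro n G _ _ hG g hR hI
  obtain ⟨-, -, -, -, -, -, -, hHm, hHv⟩ := h5 n g hR
  obtain ⟨hX, -, hX0⟩ := h7 n (Hm g) hHm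
  have hF : ContDiff ℝ 1 (XH (Hm g)) := hX.of_le (by norm_num)
  apply h1 (W n) (XH (Hm g)) hF
  intro S T hS
  -- a bound for the energy on `S`
  obtain ⟨r, hr0, hr⟩ : ∃ r : ℝ, 0 ≤ r ∧ ∀ z ∈ S, Hm g z ≤ r := by
    obtain ⟨r, hr⟩ := hS.bddAbove_image (hHm.continuous.continuousOn)
    refine ⟨max r 0, le_max_right _ _, fun z hz => le_trans (hr ⟨z, hz, rfl⟩) (le_max_left _ _)⟩
  obtain ⟨K', hK', hK'2⟩ := h3 n G hG g hR hI (Prod.fst '' S) (|T| * Real.sqrt (2 * r))
    (hS.image continuous_fst)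
  refine ⟨{z : W n | z.1 ∈ K' ∧ Hm g z ≤ r}, h2 n g hR K' r hK', ?_⟩
  intro ψ hψ hψ01 y hy hy0 t ht
  have hE : ∀ t, Hm g (y t) = Hm g (y 0) := energy (Hm g) hHm hX0 ψ y hy
  have hE2 : ∀ t, Hm g (y t) ≤ r := fun t => (hE t).trans_le (hr _ hy0)
  obtain ⟨hc, hc'⟩ := curve (XH (Hm g)) hX.continuous ψ hψ.continuous y hy
  refine ⟨?_, hE2 t⟩
  apply hK'2 (y 0).1 ⟨y 0, hy0, rfl⟩
  have hspeed : ∀ t, nrm g ((fun t => (y t).1) t) (deriv (fun t => (y t).1) t) ≤
      Real.sqrt (2 * r) := by
    intro s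
    rw [hc' s, (h6 n g hR (y s)).1]
    apply nrm_smul_le g _ _ _ r (hψ01 _).1 (hψ01 _).2
    have h8 := hHv (y s)
    have h9 := hE2 s
    rw [h8] at h9
    change g.val (y s).1 (vel g (y s)) (vel g (y s)) ≤ 2 * r
    linarith
  have h10 := dist_curve g h4 (fun t => (y t).1) hc (Real.sqrt (2 * r)) hspeed t
  refine le_trans h10 ?_
  apply mul_le_mul_of_nonneg_right _ (Real.sqrt_nonneg _)
  exact le_trans ht (le_abs_self T)

end Pool.Agent.MLS
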