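import Pool.Agent.Work.MP_25cd3b_gt.M.Stmts
import Mathlib

/-!
# MP_25cd3b_gt, block MLS, item Fun (helper38): compactly supported functions are Lipschitz
-/

set_option autoImplicit false

open MeasureTheory Set Filter Topology
open scoped ContDiff ENNReal

namespace Pool.Agent.MLS

namespace IFun

variable {n : ℕ}

theorem nrm_nonneg (g : Form n) (x v : E n) : 0 ≤ nrm g x v := Real.sqrt_nonneg _

theorem nrm_cont (g : Form n) {c : ℝ → E n} (hc : ContDiff ℝ 1 c) :
    Continuous (fun t => nrm g (c t) (deriv c t)) := by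
  have h1 : Continuous (deriv c) := hc.continuous_deriv (by norm_num)
  have h2 : Continuous (fun t => g.val (c t)) := g.smooth.continuous.comp hc.continuous
  exact Real.continuous_sqrt.comp ((h2.clm_apply h1).clm_apply h1)

/-- the estimate along one curve -/
theorem curve (g : Form n) {h : E n → ℝ} (hh : ContDiff ℝ 1 h) {A C : ℝ} (hA : 0 ≤ A)
    (hfd : ∀ x, ‖fderiv ℝ h x‖ ≤ A)
    (hC : 0 < C) (hb : ∀ x ∈ tsupport h, ∀ v, ‖v‖ ≤ C * nrm g x v)
    {c : ℝ → E n} (hc : ContDiff ℝ 1 c) {a b : ℝ} (hab : a ≤ b) :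
    |h (c b) - h (c a)| ≤ A * C * ∫ t in a..b, nrm g (c t) (deriv c t) := by
  have hd : ∀ t, HasDerivAt (fun s => h (c s)) (fderiv ℝ h (c t) (deriv c t)) t := by
    intro t
    have h1 : HasFDerivAt h (fderiv ℝ h (c t)) (c t) :=
      (hh.differentiable (by norm_num) (c t)).hasFDerivAt
    have h2 : HasDerivAt c (deriv c t) t := (hc.differentiable (by norm_num) t).hasDerivAt
    exact h1.comp_hasDerivAt t h2
  have hcont : Continuous (fun t => fderiv ℝ h (c t) (deriv c t)) := by
    have h1 : Continuous (deriv c) := hc.continuous_deriv (by norm_num)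
    have h2 : Continuous (fun t => fderiv ℝ h (c t)) :=
      (hh.continuous_fderiv (by norm_num)).comp hc.continuous
    exact h2.clm_apply h1
  have hpt : ∀ t, |fderiv ℝ h (c t) (deriv c t)| ≤ A * C * nrm g (c t) (deriv c t) := by
    intro t
    by_cases hx : c t ∈ tsupport h
    · calc |fderiv ℝ h (c t) (deriv c t)| ≤ ‖fderiv ℝ h (c t)‖ * ‖deriv c t‖ :=
            (fderiv ℝ h (c t)).le_opNorm _
        _ ≤ A * (C * nrm g (c t) (deriv c t)) := by
            exact mul_le_mul (hfd _) (hb _ hx _) (norm_nonneg _) hA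
        _ = A * C * nrm g (c t) (deriv c t) := by ring
    · have h0 : fderiv ℝ h (c t) = 0 := by
        by_contra hne
        exact hx (support_fderiv_subset ℝ hne)
      rw [h0]
      simp only [ContinuousLinearMap.zero_apply, abs_zero]
      exact mul_nonneg (mul_nonneg hA hC.le) (nrm_nonneg _ _ _)
  have hftc : ∫ t in a..b, fderiv ℝ h (c t) (deriv c t) = h (c b) - h (c a) :=
    intervalIntegral.integral_eq_sub_of_hasDerivAt (fun t _ => hd t)
      (hcont.intervalIntegrable _ _)
  rw [← hftc]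
  calc |∫ t in a..b, fderiv ℝ h (c t) (deriv c t)|
      ≤ ∫ t in a..b, |fderiv ℝ h (c t) (deriv c t)| :=
        intervalIntegral.abs_integral_le_integral_abs hab
    _ ≤ ∫ t in a..b, A * C * nrm g (c t) (deriv c t) := by
        refine intervalIntegral.integral_mono_on hab (hcont.abs.intervalIntegrable _ _)
          (((nrm_cont g hc).const_mul (A * C)).intervalIntegrable _ _) fun t _ => hpt t
    _ = A * C * ∫ t in a..b, nrm g (c t) (deriv c t) := by
        rw [intervalIntegral.integral_const_mul]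

theorem path (g : Form n) {h : E n → ℝ} (hh : ContDiff ℝ 1 h) {A C : ℝ} (hA : 0 ≤ A)
    (hfd : ∀ x, ‖fderiv ℝ h x‖ ≤ A)
    (hC : 0 < C) (hb : ∀ x ∈ tsupport h, ∀ v, ‖v‖ ≤ C * nrm g x v)
    {x y : E n} {l : ℝ} (hp : PathLen g x y l) : |h x - h y| ≤ A * C * l := by
  induction hp with
  | refl x => simp
  | cons c a b y l hc hab _ ih =>
    have h1 := curve g hh hA hfd hC hb hc hab
    rw [abs_sub_comm] at h1
    calc |h (c a) - h y| = |(h (c a) - h (c b)) + (h (c b) - h y)| := by ring_nf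
      _ ≤ |h (c a) - h (c b)| + |h (c b) - h y| := abs_add_le _ _
      _ ≤ A * C * (∫ t in a..b, nrm g (c t) (deriv c t)) + A * C * l := add_le_add h1 ih
      _ = A * C * ((∫ t in a..b, nrm g (c t) (deriv c t)) + l) := by ring

end IFun

open IFun in
theorem pr_Fun (h1 : StBnd) (h2 : StGd) : StFun := by
  intro n g hg h hh hc
  obtain ⟨C, hC, hb⟩ := (h1 n g (tsupport h) hc).2 hg
  obtain ⟨A, hA⟩ := (hc.fderiv (𝕜 := ℝ)).exists_bound_of_continuous
    (hh.continuous_fderiv (by norm_num))
  have hA0 : 0 ≤ A := (norm_nonneg _).trans (hA 0)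
  refine ⟨A * C, mul_nonneg hA0 hC.le, fun x y => ?_⟩
  obtain ⟨_, _, h3, _⟩ := h2 n g
  refine le_of_forall_pos_le_add fun ε hε => ?_
  obtain ⟨l, hl, hlt⟩ := h3 x y (ε / (A * C + 1)) (by positivity)
  have h4 := path g hh hA0 hA hC hb hl
  have h5 : A * C * l ≤ A * C * (gd g x y + ε / (A * C + 1)) :=
    mul_le_mul_of_nonneg_left hlt.le (mul_nonneg hA0 hC.le)
  have h6 : A * C * (ε / (A * C + 1)) ≤ ε := by
    rw [mul_div_assoc', div_le_iff₀ (by positivity)]
    nlinarith [mul_nonneg hA0 hC.le]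
  calc |h x - h y| ≤ A * C * l := h4
    _ ≤ A * C * (gd g x y + ε / (A * C + 1)) := h5
    _ = A * C * gd g x y + A * C * (ε / (A * C + 1)) := by ring
    _ ≤ A * C * gd g x y + ε := by linarith

end Pool.Agent.MLS
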