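import Pool.Agent.Work.MP_25cd3b_gt.M.Stmts

set_option autoImplicit false

/-! # Item Gd: elementary properties of the distance -/

open MeasureTheory Set Filter Topology
open scoped ContDiff ENNReal

namespace Pool.Agent.MLS

namespace IGd

variable {n : ℕ} {g : Form n}

theorem nrm_nonneg (x v : E n) : 0 ≤ nrm g x v := Real.sqrt_nonneg _

theorem nrm_neg (x v : E n) : nrm g x (-v) = nrm g x v := by
  unfold nrm
  simp

theorem len_nonneg {x y : E n} {l : ℝ} (h : PathLen g x y l) : 0 ≤ l := by
  induction h with
  | refl x => exact le_rfl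
  | cons c a b y l hc hab h ih =>
    exact add_nonneg (intervalIntegral.integral_nonneg hab fun t _ => nrm_nonneg _ _) ih

theorem single (c : ℝ → E n) (a b : ℝ) (hc : ContDiff ℝ 1 c) (hab : a ≤ b) :
    PathLen g (c a) (c b) (∫ t in a..b, nrm g (c t) (deriv c t)) := by
  have h := PathLen.cons (g := g) c a b (c b) 0 hc hab (PathLen.refl _)
  rwa [add_zero] at h

theorem trans' {x y z : E n} {l m : ℝ} (h : PathLen g x y l) (h' : PathLen g y z m) :
    PathLen g x z (l + m) := by
  induction h with
  | refl x => rwa [zero_add]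
  | cons c a b y l hc hab h ih =>
    rw [add_assoc]
    exact PathLen.cons c a b z (l + m) hc hab (ih h')

theorem rev {x y : E n} {l : ℝ} (h : PathLen g x y l) : PathLen g y x l := by
  induction h with
  | refl x => exact PathLen.refl x
  | cons c a b y l hc hab h ih =>
    have h1 : PathLen g (c b) (c a) (∫ t in a..b, nrm g (c t) (deriv c t)) := by
      have h2 := single (g := g) (fun t => c (-t)) (-b) (-a) (hc.comp contDiff_neg)
        (neg_le_neg hab)
      simp only [neg_neg] at h2
      have h3 : (∫ t in (-b)..(-a), nrm g (c (-t)) (deriv (fun t => c (-t)) t)) =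
          ∫ t in a..b, nrm g (c t) (deriv c t) := by
        have h4 : ∀ t : ℝ, nrm g (c (-t)) (deriv (fun t => c (-t)) t) =
            nrm g (c (-t)) (deriv c (-t)) := by
          intro t
          rw [deriv_comp_neg, nrm_neg]
        simp only [h4]
        rw [intervalIntegral.integral_comp_neg (fun t => nrm g (c t) (deriv c t)), neg_neg, neg_neg]
      rwa [h3] at h2
    have h5 := trans' ih h1
    rwa [add_comm] at h5

theorem exists_path (x y : E n) : ∃ l, PathLen g x y l := by
  have h := single (g := g) (fun t : ℝ => x + t • (y - x)) 0 1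
    (contDiff_const.add (contDiff_id.smul contDiff_const)) zero_le_one
  simp only [zero_smul, add_zero, one_smul, add_sub_cancel] at h
  exact ⟨_, h⟩

theorem bdd (x y : E n) : BddBelow {l | PathLen g x y l} :=
  ⟨0, fun _ h => len_nonneg h⟩

theorem gd_le {x y : E n} {l : ℝ} (h : PathLen g x y l) : gd g x y ≤ l := csInf_le (bdd x y) h

theorem exists_lt (x y : E n) {ε : ℝ} (hε : 0 < ε) : ∃ l, PathLen g x y l ∧ l < gd g x y + ε := by
  obtain ⟨l, hl⟩ := exists_path (g := g) x y
  obtain ⟨m, hm, hlt⟩ := exists_lt_of_csInf_lt (s := {l | PathLen g x y l}) ⟨l, hl⟩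
    (show sInf {l | PathLen g x y l} < gd g x y + ε from lt_add_of_pos_right _ hε)
  exact ⟨m, hm, hlt⟩

theorem isPM : IsPM (gd g) where
  nonneg := fun x y => Real.sInf_nonneg fun _ h => len_nonneg h
  self := fun x => le_antisymm (gd_le (PathLen.refl x)) (Real.sInf_nonneg fun _ h => len_nonneg h)
  symm := fun x y => by
    have h : {l | PathLen g x y l} = {l | PathLen g y x l} := by
      ext l
      exact ⟨rev, rev⟩
    unfold gd
    rw [h]
  tri := fun x y z => by
    refine le_of_forall_pos_le_add fun ε hε => ?_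
    obtain ⟨l, hl, hl'⟩ := exists_lt (g := g) x y (half_pos hε)
    obtain ⟨m, hm, hm'⟩ := exists_lt (g := g) y z (half_pos hε)
    have := gd_le (trans' hl hm)
    linarith

end IGd

/-- Elementary properties of `gd`. -/
theorem pr_Gd : StGd := fun _ _ =>
  ⟨fun _ _ _ h => IGd.gd_le h, IGd.isPM, fun x y _ hε => IGd.exists_lt x y hε,
    fun c a b hc hab => IGd.gd_le (IGd.single c a b hc hab)⟩

end Pool.Agent.MLS
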