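import Mathlib
import Pool.Agent.Work.MP_25cd3b_gt.M.Stmts

set_option autoImplicit false

/-!
# MP_25cd3b_gt: item Geo1, solutions of the Hamiltonian equation project to geodesics
-/

open MeasureTheory Set Filter Topology
open scoped ContDiff ENNReal

namespace Pool.Agent.MLS

namespace IGeo1

theorem fst' {n : ℕ} {z : ℝ → W n} {z' : W n} {t : ℝ} (h : HasDerivAt z z' t) :
    HasDerivAt (fun s => (z s).1) z'.1 t :=
  ((ContinuousLinearMap.fst ℝ (E n) (E n)).hasFDerivAt (x := z t)).comp_hasDerivAt t h

theorem snd' {n : ℕ} {z : ℝ → W n} {z' : W n} {t : ℝ} (h : HasDerivAt z z' t) :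
    HasDerivAt (fun s => (z s).2) z'.2 t :=
  ((ContinuousLinearMap.snd ℝ (E n) (E n)).hasFDerivAt (x := z t)).comp_hasDerivAt t h

end IGeo1

open IGeo1

theorem pr_Geo1 (h1 : StOp) (h2 : StHd) (h3 : StTr0) : StGeo1 := by
  intro n g hg z hz
  obtain ⟨_, hop, _, hopi, _, _, hiop, hHm, _⟩ := h1 n g hg
  obtain ⟨hX, _, hE⟩ := h3 n (Hm g) hHm
  have hc : ∀ t, HasDerivAt (fun s => (z s).1) (vel g (z t)) t := by
    intro t
    have h := fst' (hz t)
    rwa [(h2 n g hg (z t)).1] at h
  have hdc : deriv (fun s => (z s).1) = fun t => vel g (z t) := funext fun t => (hc t).deriv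
  have hdz : deriv z = fun t => XH (Hm g) (z t) := funext fun t => (hz t).deriv
  have hzd : Differentiable ℝ z := fun t => (hz t).differentiableAt
  have hz1 : ContDiff ℝ 1 z := by
    rw [contDiff_one_iff_deriv]
    refine ⟨hzd, ?_⟩
    rw [hdz]
    exact hX.continuous.comp hzd.continuous
  have hvel : ContDiff ℝ 1 (fun t => vel g (z t)) := by
    have ha : ContDiff ℝ 1 (fun t => iop g (z t).1) :=
      (hiop.of_le (by exact_mod_cast le_top)).comp (contDiff_fst.comp hz1)
    exact ha.clm_apply (contDiff_snd.comp hz1)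
  refine ⟨⟨?_, ?_⟩, fun t => (hc t).deriv, ?_⟩
  · have h2' : (2 : WithTop ℕ∞) = 1 + 1 := by norm_num
    rw [h2', contDiff_succ_iff_deriv]
    refine ⟨fun t => (hc t).differentiableAt, ?_, ?_⟩
    · intro h
      exact absurd h (by decide)
    · rw [hdc]
      exact hvel
  · intro t w
    rw [hdc]
    have hfun : (fun s => g.val ((fun t => (z t).1) s) ((fun t => vel g (z t)) s) w) =
        fun s => inner ℝ (z s).2 w := by
      funext s
      have h := hop (z s).1 (vel g (z s)) w
      have h' : op g (z s).1 (vel g (z s)) = (z s).2 := hopi (z s).1 (z s).2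
      rw [h'] at h
      exact h.symm
    rw [hfun]
    have hd := (snd' (hz t)).inner ℝ (hasDerivAt_const t w)
    rw [inner_zero_right, zero_add] at hd
    rw [(h2 n g hg (z t)).2 w] at hd
    exact hd
  · intro t
    have hd : ∀ s, HasDerivAt (fun s => Hm g (z s)) 0 s := by
      intro s
      have hf : HasFDerivAt (Hm g) (fderiv ℝ (Hm g) (z s)) (z s) :=
        ((hHm.differentiable (by simp)) (z s)).hasFDerivAt
      have h := hf.comp_hasDerivAt s (hz s)
      rw [hE (z s)] at h
      exact h
    exact is_const_of_deriv_eq_zero (fun s => (hd s).differentiableAt) (fun s => (hd s).deriv) t 0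

end Pool.Agent.MLS
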