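import Mathlib
import Pool.Agent.Work.MP_25cd3b_gt.M.Stmts

set_option autoImplicit false

/-! # Item Geo2: geodesics are solutions of the Hamiltonian equations -/

open MeasureTheory Set Filter Topology
open scoped ContDiff ENNReal

namespace Pool.Agent.MLS

namespace IGeo2

/-- expansion of a vector in the standard basis -/
theorem expand {n : ℕ} (v : E n) : ∑ i, (inner ℝ v (ee i)) • (ee i : E n) = v := by
  have h := (EuclideanSpace.basisFun (Fin n) ℝ).sum_repr' v
  calc ∑ i, (inner ℝ v (ee i)) • (ee i : E n)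
      = ∑ i, (inner ℝ (EuclideanSpace.basisFun (Fin n) ℝ i) v) •
          (EuclideanSpace.basisFun (Fin n) ℝ i) := by
        refine Finset.sum_congr rfl fun i _ => ?_
        rw [EuclideanSpace.basisFun_apply, real_inner_comm]
        rfl
    _ = v := h

/-- a curve is differentiable if its inner products with the basis vectors are -/
theorem hasDerivAt_of_inner {n : ℕ} (f : ℝ → E n) (f' : E n) (t : ℝ)
    (h : ∀ i, HasDerivAt (fun s => inner ℝ (f s) (ee i : E n)) (inner ℝ f' (ee i : E n)) t) :
    HasDerivAt f f' t := by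
  have h1 : HasDerivAt (fun s => ∑ i, (inner ℝ (f s) (ee i : E n)) • (ee i : E n))
      (∑ i, (inner ℝ f' (ee i : E n)) • (ee i : E n)) t :=
    HasDerivAt.fun_sum fun i _ => (h i).smul_const (ee i)
  simpa only [expand] using h1

end IGeo2

theorem pr_Geo2 (h1 : StOp) (h2 : StHd) : StGeo2 := by
  intro n g hg c hc t
  obtain ⟨-, hop, hio, -, -, -, -, -, -⟩ := h1 n g hg
  obtain ⟨hx, hp⟩ := h2 n g hg (c t, op g (c t) (deriv c t))
  have hvel : vel g (c t, op g (c t) (deriv c t)) = deriv c t := hio (c t) (deriv c t)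
  rw [hvel] at hx hp
  have hc1 : HasDerivAt c (deriv c t) t :=
    ((hc.smooth.differentiable (by norm_num)) t).hasDerivAt
  have e : XH (Hm g) (c t, op g (c t) (deriv c t)) =
      (deriv c t, (XH (Hm g) (c t, op g (c t) (deriv c t))).2) :=
    Prod.ext hx rfl
  rw [e]
  refine hc1.prodMk (IGeo2.hasDerivAt_of_inner _ _ t fun i => ?_)
  rw [hp (ee i)]
  have h3 := hc.el t (ee i)
  have h4 : (fun s => inner ℝ (op g (c s) (deriv c s)) (ee i : E n)) =
      fun s => g.val (c s) (deriv c s) (ee i) := by
    funext s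
    exact hop _ _ _
  rw [h4]
  exact h3

end Pool.Agent.MLS
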