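import Pool.Agent.Work.MP_25cd3b_gt.M.Stmts

set_option autoImplicit false

/-!
# Item Hd: the Hamiltonian field of the kinetic energy
-/

open MeasureTheory Set Filter Topology
open scoped ContDiff ENNReal

namespace Pool.Agent.MLS

namespace IHd

theorem fd {n : ℕ} {g : Form n} (hc : ContDiff ℝ ∞ (iop g)) (z : W n) (u w : E n) :
    fderiv ℝ (Hm g) z (u, w) = 1 / 2 * (inner ℝ z.2 (fderiv ℝ (iop g) z.1 u z.2 +
      iop g z.1 w) + inner ℝ w (iop g z.1 z.2)) := by
  have hT : HasFDerivAt (iop g) (fderiv ℝ (iop g) z.1) z.1 :=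
    ((hc.differentiable (by simp)).differentiableAt).hasFDerivAt
  have hTf : HasFDerivAt (fun y : W n => iop g y.1)
      ((fderiv ℝ (iop g) z.1).comp (ContinuousLinearMap.fst ℝ (E n) (E n))) z :=
    hT.comp z hasFDerivAt_fst
  have hs : HasFDerivAt (fun y : W n => y.2) (ContinuousLinearMap.snd ℝ (E n) (E n)) z :=
    hasFDerivAt_snd
  have hA := hTf.clm_apply hs
  have hB := (hs.inner ℝ hA).const_mul (1 / 2 : ℝ)
  have hC : HasFDerivAt (Hm g) _ z := hB
  rw [hC.fderiv]
  simp [fderivInnerCLM_apply, add_comm]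

theorem dop {n : ℕ} {g : Form n} (x u v : E n) :
    fderiv ℝ (op g) x u v = sh (fderiv ℝ g.val x u v) := by
  have hg : HasFDerivAt g.val (fderiv ℝ g.val x) x :=
    ((g.smooth.differentiable (by simp)).differentiableAt).hasFDerivAt
  have h2 : HasFDerivAt (fun _ : E n => (sh : (E n →L[ℝ] ℝ) →L[ℝ] E n))
      (0 : E n →L[ℝ] (E n →L[ℝ] ℝ) →L[ℝ] E n) x := hasFDerivAt_const _ _
  have h3 := h2.clm_comp hg
  have h4 : HasFDerivAt (op g) _ x := h3
  rw [h4.fderiv]
  simp

end IHd

theorem pr_Hd (h1 : StOp) : StHd := by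
  intro n g hg z
  obtain ⟨hsh, hop, hio, hoi, hsym, hcop, hciop, hcH, hHv⟩ := h1 n g hg
  have hT : HasFDerivAt (iop g) (fderiv ℝ (iop g) z.1) z.1 :=
    ((hciop.differentiable (by simp)).differentiableAt).hasFDerivAt
  have hO : HasFDerivAt (op g) (fderiv ℝ (op g) z.1) z.1 :=
    ((hcop.differentiable (by simp)).differentiableAt).hasFDerivAt
  refine ⟨?_, ?_⟩
  · refine ext_inner_right ℝ fun w => ?_
    show inner ℝ (sh ((fderiv ℝ (Hm g) z).comp (ContinuousLinearMap.inr ℝ (E n) (E n)))) w = _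
    rw [hsh, ContinuousLinearMap.comp_apply, ContinuousLinearMap.inr_apply, IHd.fd hciop]
    have h5 : inner ℝ z.2 (iop g z.1 w) = inner ℝ (iop g z.1 z.2) w := (hsym z.1 z.2 w).symm
    have h6 : inner ℝ w (iop g z.1 z.2) = inner ℝ (iop g z.1 z.2) w := real_inner_comm _ _
    simp only [map_zero, zero_add, zero_apply]
    rw [h5, h6]
    show _ = inner ℝ (iop g z.1 z.2) w
    ring
  · intro w
    show inner ℝ (-sh ((fderiv ℝ (Hm g) z).comp (ContinuousLinearMap.inl ℝ (E n) (E n)))) w = _
    rw [inner_neg_left, hsh, ContinuousLinearMap.comp_apply, ContinuousLinearMap.inl_apply,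
      IHd.fd hciop]
    set v : E n := vel g z with hv
    have hv' : iop g z.1 z.2 = v := rfl
    have hz : z.2 = op g z.1 v := by rw [← hv', hoi]
    -- differentiate iop (op v) = v
    have hcomp : HasFDerivAt (fun x : E n => iop g x (op g x v)) _ z.1 :=
      hT.clm_apply (hO.clm_apply (hasFDerivAt_const v z.1))
    have hconst : HasFDerivAt (fun x : E n => iop g x (op g x v)) (0 : E n →L[ℝ] E n) z.1 := by
      have : (fun x : E n => iop g x (op g x v)) = fun _ => v := funext fun x => hio x v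
      rw [this]
      exact hasFDerivAt_const v z.1
    have h7 := congrArg (fun L : E n →L[ℝ] E n => L w) (hcomp.unique hconst)
    simp only [add_apply, ContinuousLinearMap.comp_apply,
      ContinuousLinearMap.flip_apply, zero_apply, map_zero,
      zero_add] at h7
    rw [← hz, IHd.dop] at h7
    have h8 : fderiv ℝ (iop g) z.1 w z.2 = -iop g z.1 (sh (fderiv ℝ g.val z.1 w v)) := by
      rw [eq_neg_iff_add_eq_zero, add_comm]
      exact h7
    simp only [map_zero, add_zero, inner_zero_left]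
    rw [h8, inner_neg_right, ← hsym, hv', real_inner_comm, hsh]
    ring

end Pool.Agent.MLS
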