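import Mathlib
import Pool.Agent.Work.MP_25cd3b_gt.M.Stmts

/-!
# Item InvD: the group preserves lengths and distances
-/

set_option autoImplicit false

open MeasureTheory Set Filter Topology
open scoped ContDiff ENNReal

namespace Pool.Agent.MLS

namespace IInvD

variable {n : ℕ} {G : Type} [Group G] [MulAction G (E n)]

/-- Derivative of a translated curve. -/
theorem hasDerivAt_smul (hC : Cocompact n G) (a : G) {c : ℝ → E n} (hc : ContDiff ℝ 1 c) (t : ℝ) :
    HasDerivAt (fun s => a • c s) (dac a (c t) (deriv c t)) t := by
  have h1 : HasFDerivAt (fun y : E n => a • y) (dac a (c t)) (c t) :=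
    (((hC.smooth a).differentiable (by simp)) (c t)).hasFDerivAt
  have h2 : HasDerivAt c (deriv c t) t :=
    ((hc.differentiable (by simp)) t).hasDerivAt
  exact h1.comp_hasDerivAt t h2

theorem nrm_smul {g : Form n} (hg : Inv G g) (a : G) (x v : E n) :
    nrm g (a • x) (dac a x v) = nrm g x v := by
  unfold nrm
  rw [hg a x v v]

/-- The group maps paths to paths of the same length. -/
theorem pathLen_smul (hC : Cocompact n G) {g : Form n} (hg : Inv G g) (a : G) {x y : E n} {l : ℝ}
    (h : PathLen g x y l) : PathLen g (a • x) (a • y) l := by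
  induction h with
  | refl x => exact PathLen.refl _
  | cons c s t y l hc hst h ih =>
    have h1 : ContDiff ℝ 1 (fun r => a • c r) :=
      ((hC.smooth a).of_le (by exact_mod_cast le_top)).comp hc
    have h2 : (∫ r in s..t, nrm g (c r) (deriv c r)) =
        ∫ r in s..t, nrm g ((fun r => a • c r) r) (deriv (fun r => a • c r) r) := by
      refine intervalIntegral.integral_congr fun r _ => ?_
      show nrm g (c r) (deriv c r) = nrm g (a • c r) (deriv (fun r => a • c r) r)
      rw [(hasDerivAt_smul hC a hc r).deriv, nrm_smul hg]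
    rw [h2]
    exact PathLen.cons (fun r => a • c r) s t (a • y) l h1 hst ih

end IInvD

/-- Item InvD. -/
theorem pr_InvD : StInvD := by
  intro n G _ _ hC g hg
  refine ⟨fun a x y l h => IInvD.pathLen_smul hC hg a h, fun a x y => ?_⟩
  unfold gd
  congr 1
  ext l
  constructor
  · intro h
    have h1 := IInvD.pathLen_smul hC hg a⁻¹ h
    rwa [inv_smul_smul, inv_smul_smul] at h1
  · intro h
    exact IInvD.pathLen_smul hC hg a h

end Pool.Agent.MLS
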