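import Pool.Agent.Work.MP_25cd3b_gt.M.Stmts

set_option autoImplicit false

/-!
# Item Kah: the trace in a Kaehler class
-/

open MeasureTheory Set Filter Topology
open scoped ContDiff ENNReal

namespace Pool.Agent.MLS

namespace IKah

variable {n : ℕ}

/-! ### smoothness of determinants and inverses -/

theorem det_smooth (A : E n → Matrix (Fin n) (Fin n) ℝ)
    (h : ∀ i j, ContDiff ℝ ∞ (fun x => A x i j)) : ContDiff ℝ ∞ (fun x => (A x).det) := by
  simp only [Matrix.det_apply']
  exact ContDiff.sum fun σ _ => contDiff_const.mul (contDiff_prod fun i _ => h _ _)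

theorem inv_smooth (A : E n → Matrix (Fin n) (Fin n) ℝ)
    (h : ∀ i j, ContDiff ℝ ∞ (fun x => A x i j)) (hd : ∀ x, (A x).det ≠ 0) (i j : Fin n) :
    ContDiff ℝ ∞ (fun x => (A x)⁻¹ i j) := by
  have h1 : (fun x => (A x)⁻¹ i j) = fun x => ((A x).det)⁻¹ * (A x).adjugate i j := by
    funext x
    rw [Matrix.inv_def, Ring.inverse_eq_inv', Matrix.smul_apply, smul_eq_mul]
  rw [h1]
  refine ((det_smooth A h).inv hd).mul ?_
  simp only [Matrix.adjugate_apply]
  refine det_smooth (fun x => (A x).updateRow j (Pi.single i 1)) fun k l => ?_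
  by_cases hk : k = j
  · subst hk
    simp only [Matrix.updateRow_self]
    exact contDiff_const
  · simp only [Matrix.updateRow_ne hk]
    exact h k l

/-! ### the determinant of a complex structure -/

theorem det_pos_of_sq (J : Matrix (Fin n) (Fin n) ℝ) (hJ : J * J = -1) : 0 < J.det := by
  let f : ℝ → ℝ := fun t => ((1 - t) • (1 : Matrix (Fin n) (Fin n) ℝ) + t • J).det
  have hf : Continuous f := by
    apply Continuous.matrix_det
    exact ((continuous_const.sub continuous_id).smul continuous_const).add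
      (continuous_id.smul continuous_const)
  have hne : ∀ t, f t ≠ 0 := by
    intro t h0
    have h1 : ((1 - t) • (1 : Matrix (Fin n) (Fin n) ℝ) + t • J) *
        ((1 - t) • (1 : Matrix (Fin n) (Fin n) ℝ) - t • J) =
        ((1 - t) ^ 2 + t ^ 2) • (1 : Matrix (Fin n) (Fin n) ℝ) := by
      rw [add_mul, mul_sub, mul_sub]
      simp only [Matrix.smul_mul, Matrix.mul_smul, Matrix.one_mul, Matrix.mul_one, hJ, smul_smul,
        smul_neg]
      module
    have h2 := congrArg Matrix.det h1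
    rw [Matrix.det_mul, Matrix.det_smul, Matrix.det_one, mul_one] at h2
    have h3 : f t = ((1 - t) • (1 : Matrix (Fin n) (Fin n) ℝ) + t • J).det := rfl
    rw [← h3, h0, zero_mul] at h2
    have h4 : 0 < (1 - t) ^ 2 + t ^ 2 := by nlinarith [sq_nonneg (1 - 2 * t)]
    exact (pow_pos h4 _).ne h2
  have h0 : f 0 = 1 := by simp [f]
  have h1 : f 1 = J.det := by simp [f]
  rw [← h1]
  by_contra hcon
  rw [not_lt] at hcon
  have hmem : (0 : ℝ) ∈ Icc (f 1) (f 0) := ⟨hcon, by rw [h0]; exact zero_le_one⟩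
  obtain ⟨t, _, ht⟩ := intermediate_value_Icc' (zero_le_one' ℝ) hf.continuousOn hmem
  exact hne t ht

theorem det_eq_one (J G : Matrix (Fin n) (Fin n) ℝ) (hJ : J * J = -1)
    (hG : J.transpose * G * J = G) (hd : G.det ≠ 0) : J.det = 1 := by
  have h1 := congrArg Matrix.det hG
  rw [Matrix.det_mul, Matrix.det_mul, Matrix.det_transpose] at h1
  have h2 : J.det * J.det = 1 := by
    have : G.det * (J.det * J.det - 1) = 0 := by linear_combination h1
    rcases mul_eq_zero.mp this with h | h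
    · exact absurd h hd
    · linarith
  have h3 := det_pos_of_sq J hJ
  nlinarith

/-! ### coordinates -/

theorem expand (v : E n) : v = ∑ i, v i • (ee i : E n) := by
  have h := (EuclideanSpace.basisFun (Fin n) ℝ).sum_repr v
  simpa [ee] using h.symm

/-- matrix of the operator -/
noncomputable def jm (T : E n →L[ℝ] E n) : Matrix (Fin n) (Fin n) ℝ :=
  Matrix.of fun b a => (T (ee a)) b

theorem T_ee (T : E n →L[ℝ] E n) (a : Fin n) : T (ee a) = ∑ b, jm T b a • (ee b : E n) :=
  expand _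

/-- matrix of the two form -/
noncomputable def om (g : Form n) (J : E n → E n →L[ℝ] E n) (x : E n) :
    Matrix (Fin n) (Fin n) ℝ :=
  Matrix.of fun a b => g.val x (J x (ee a)) (ee b)

theorem om_eq (g : Form n) (J : E n → E n →L[ℝ] E n) (x : E n) :
    om g J x = (jm (J x)).transpose * gm g x := by
  ext a b
  rw [Matrix.mul_apply]
  simp only [om, Matrix.of_apply, Matrix.transpose_apply, gm]
  rw [T_ee (J x) a, map_sum, ContinuousLinearMap.sum_apply]
  refine Finset.sum_congr rfl fun c _ => ?_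
  rw [map_smul, ContinuousLinearMap.smul_apply, smul_eq_mul]

theorem jm_sq (T : E n →L[ℝ] E n) (h : ∀ u, T (T u) = -u) : jm T * jm T = -1 := by
  ext a b
  rw [Matrix.mul_apply]
  have h1 := h (ee b)
  rw [T_ee T b, map_sum] at h1
  have h2 := congrArg (fun v : E n => v a) h1
  simp only [map_smul, PiLp.neg_apply] at h2
  have h3 : (∑ c, jm T c b • T (ee c)) a = ∑ c, jm T c b * (T (ee c)) a := by
    simp [Finset.sum_apply]
  rw [h3] at h2
  calc ∑ c, jm T a c * jm T c b = ∑ c, jm T c b * (T (ee c)) a := by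
        refine Finset.sum_congr rfl fun c _ => ?_
        rw [mul_comm]; rfl
    _ = -(ee b : E n) a := h2
    _ = _ := by
      rw [Matrix.neg_apply, Matrix.one_apply, ee, EuclideanSpace.single_apply]

theorem compat_mat (g : Form n) (J : E n → E n →L[ℝ] E n) (x : E n)
    (h : ∀ u v, g.val x (J x u) (J x v) = g.val x u v) : om g J x * jm (J x) = gm g x := by
  ext a b
  rw [Matrix.mul_apply]
  have h1 := h (ee a) (ee b)
  rw [T_ee (J x) b, map_sum] at h1
  simp only [map_smul, smul_eq_mul] at h1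
  simp only [om, gm, Matrix.of_apply]
  rw [← h1]
  refine Finset.sum_congr rfl fun c _ => mul_comm _ _

theorem om_anti (g : Form n) (J : E n → E n →L[ℝ] E n) (hsq : ∀ x u, J x (J x u) = -u)
    (hc : ∀ x u v, g.val x (J x u) (J x v) = g.val x u v) (x : E n) (i j : Fin n) :
    om g J x i j = -om g J x j i := by
  simp only [om, Matrix.of_apply]
  rw [← hc x (J x (ee i)) (ee j), hsq, map_neg, ContinuousLinearMap.neg_apply,
    g.symm x (ee i) (J x (ee j))]

/-! ### smoothness of the entries -/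

theorem gm_smooth (g : Form n) (i j : Fin n) : ContDiff ℝ ∞ (fun x => gm g x i j) := by
  have h : (fun x => gm g x i j) = fun x => g.val x (ee i) (ee j) := rfl
  rw [h]
  exact (g.smooth.clm_apply contDiff_const).clm_apply contDiff_const

theorem om_smooth (g : Form n) (J : E n → E n →L[ℝ] E n) (hJ : ContDiff ℝ ∞ J) (i j : Fin n) :
    ContDiff ℝ ∞ (fun x => om g J x i j) := by
  have h : (fun x => om g J x i j) = fun x => g.val x (J x (ee i)) (ee j) := rfl
  rw [h]
  exact (g.smooth.clm_apply (hJ.clm_apply contDiff_const)).clm_apply contDiff_const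

theorem tr_cont (g1 g2 : Form n) (hd : ∀ x, (gm g1 x).det ≠ 0) : Continuous (tr g1 g2) := by
  have h : tr g1 g2 = fun x => ∑ i, ∑ j, (gm g1 x)⁻¹ i j * gm g2 x j i := by
    funext x
    simp only [tr, Matrix.trace, Matrix.diag_apply, Matrix.mul_apply]
  rw [h]
  refine continuous_finset_sum _ fun i _ => continuous_finset_sum _ fun j _ => ?_
  exact (inv_smooth _ (gm_smooth g1) hd i j).continuous.mul (gm_smooth g2 j i).continuous

/-! ### the field -/

/-- the dual field of the one form -/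
noncomputable def ZZ (g : Form n) (J : E n → E n →L[ℝ] E n) (α : E n → E n →L[ℝ] ℝ) (x : E n) :
    E n := ∑ j, (2 * ∑ i, (om g J x)⁻¹ i j * α x (ee i)) • (ee j : E n)

theorem ZZ_apply (g : Form n) (J : E n → E n →L[ℝ] E n) (α : E n → E n →L[ℝ] ℝ) (x : E n)
    (j : Fin n) : ZZ g J α x j = 2 * ∑ i, (om g J x)⁻¹ i j * α x (ee i) := by
  simp [ZZ, ee, Finset.sum_apply, Pi.single_apply]

theorem ZZ_smooth (g : Form n) (J : E n → E n →L[ℝ] E n) (α : E n → E n →L[ℝ] ℝ)
    (hJ : ContDiff ℝ ∞ J) (hα : ContDiff ℝ ∞ α) (hd : ∀ x, (om g J x).det ≠ 0) :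
    ContDiff ℝ ∞ (ZZ g J α) := by
  refine ContDiff.sum fun j _ => ?_
  have h : ContDiff ℝ ∞ (fun x => 2 * ∑ i, (om g J x)⁻¹ i j * α x (ee i)) :=
    contDiff_const.mul (ContDiff.sum fun i _ =>
      (inv_smooth _ (om_smooth g J hJ) hd i j).mul (hα.clm_apply contDiff_const))
  exact h.smul contDiff_const

theorem ZZ_inner (g : Form n) (J : E n → E n →L[ℝ] E n) (α : E n → E n →L[ℝ] ℝ) (x : E n)
    (hc : ∀ u v, g.val x (J x u) (J x v) = g.val x u v) (hd : (om g J x).det ≠ 0) (w : E n) :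
    g.val x (ZZ g J α x) w = 2 * α x (J x w) := by
  have hP : (om g J x)⁻¹ * gm g x = jm (J x) := by
    rw [← compat_mat g J x hc, ← mul_assoc, Matrix.nonsing_inv_mul _ (Ne.isUnit hd), one_mul]
  have hk : ∀ k, g.val x (ZZ g J α x) (ee k) = 2 * α x (J x (ee k)) := by
    intro k
    have h1 : g.val x (ZZ g J α x) (ee k) =
        ∑ j, (2 * ∑ i, (om g J x)⁻¹ i j * α x (ee i)) * gm g x j k := by
      rw [ZZ, map_sum, ContinuousLinearMap.sum_apply]
      refine Finset.sum_congr rfl fun j _ => ?_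
      rw [map_smul, ContinuousLinearMap.smul_apply, smul_eq_mul]
      rfl
    rw [h1, T_ee (J x) k, map_sum]
    calc ∑ j, (2 * ∑ i, (om g J x)⁻¹ i j * α x (ee i)) * gm g x j k
        = ∑ j, ∑ i, 2 * α x (ee i) * ((om g J x)⁻¹ i j * gm g x j k) := by
          refine Finset.sum_congr rfl fun j _ => ?_
          rw [Finset.mul_sum, Finset.sum_mul]
          refine Finset.sum_congr rfl fun i _ => ?_
          ring
      _ = ∑ i, ∑ j, 2 * α x (ee i) * ((om g J x)⁻¹ i j * gm g x j k) := Finset.sum_comm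
      _ = ∑ i, 2 * α x (ee i) * jm (J x) i k := by
          refine Finset.sum_congr rfl fun i _ => ?_
          rw [← Finset.mul_sum, ← Matrix.mul_apply, hP]
      _ = _ := by
          rw [Finset.mul_sum]
          refine Finset.sum_congr rfl fun i _ => ?_
          rw [map_smul, smul_eq_mul]
          ring
  rw [expand w, map_sum, map_sum, map_sum, Finset.mul_sum]
  refine Finset.sum_congr rfl fun k _ => ?_
  rw [map_smul, map_smul, map_smul, smul_eq_mul, smul_eq_mul, hk]
  ring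

theorem dac_inv (G : Type) [Group G] [MulAction G (E n)] (hG : Cocompact n G) (a : G) (x w : E n) :
    dac a x (dac a⁻¹ (a • x) w) = w := by
  have h1 : HasFDerivAt (fun y : E n => a⁻¹ • y) (dac a⁻¹ (a • x)) (a • x) :=
    ((hG.smooth a⁻¹).differentiable (by norm_num)).differentiableAt.hasFDerivAt
  have h2 : HasFDerivAt (fun y : E n => a • y) (dac a (a⁻¹ • (a • x))) (a⁻¹ • (a • x)) :=
    ((hG.smooth a).differentiable (by norm_num)).differentiableAt.hasFDerivAt
  have h3 := h2.comp (a • x) h1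
  have h4 : ((fun y : E n => a • y) ∘ fun y : E n => a⁻¹ • y) = id := by
    funext y; simp
  rw [h4] at h3
  have h5 := h3.unique (hasFDerivAt_id (a • x))
  rw [inv_smul_smul] at h5
  have h6 := congrArg (fun T : E n →L[ℝ] E n => T w) h5
  simpa using h6

theorem ZZ_inv (G : Type) [Group G] [MulAction G (E n)] (hG : Cocompact n G) (g : Form n)
    (hR : Riem g) (hI : Inv G g) (J : E n → E n →L[ℝ] E n) (hJ : IsJ G J)
    (hc : ∀ x u v, g.val x (J x u) (J x v) = g.val x u v) (hd : ∀ x, (om g J x).det ≠ 0)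
    (α : E n → E n →L[ℝ] ℝ) (hα : ∀ (a : G) (x u : E n), α (a • x) (dac a x u) = α x u)
    (a : G) (x : E n) : ZZ g J α (a • x) = dac a x (ZZ g J α x) := by
  have h1 : ∀ w', g.val (a • x) (ZZ g J α (a • x) - dac a x (ZZ g J α x)) w' = 0 := by
    intro w'
    obtain ⟨w, rfl⟩ : ∃ w, w' = dac a x w := ⟨_, (dac_inv G hG a x w').symm⟩
    rw [map_sub, ContinuousLinearMap.sub_apply, ZZ_inner g J α (a • x) (hc _) (hd _), hI,
      ZZ_inner g J α x (hc _) (hd _), hJ.inv, hα, sub_self]
  by_contra hne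
  have h2 := hR (a • x) _ (sub_ne_zero.mpr hne)
  rw [h1] at h2
  exact lt_irrefl _ h2

/-! ### the divergence -/

theorem trace_eq (g1 g2 : Form n) (J : E n → E n →L[ℝ] E n) (x : E n)
    (hJ : (jm (J x)).det ≠ 0) : tr g1 g2 x = ((om g1 J x)⁻¹ * om g2 J x).trace := by
  have hu : IsUnit ((jm (J x)).transpose).det := by
    rw [Matrix.det_transpose]; exact Ne.isUnit hJ
  rw [tr, om_eq, om_eq, Matrix.mul_inv_rev, Matrix.mul_assoc,
    ← Matrix.mul_assoc ((jm (J x)).transpose)⁻¹, Matrix.nonsing_inv_mul _ hu, Matrix.one_mul]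

theorem inv_anti (Ω : Matrix (Fin n) (Fin n) ℝ) (h : ∀ i j, Ω i j = -Ω j i) (hd : Ω.det ≠ 0)
    (i j : Fin n) : Ω⁻¹ i j = -Ω⁻¹ j i := by
  have h1 : Ω.transpose = -Ω := by
    ext a b
    rw [Matrix.transpose_apply, Matrix.neg_apply, h]
  have h2 : (-Ω)⁻¹ = -Ω⁻¹ := by
    apply Matrix.inv_eq_right_inv
    rw [neg_mul_neg, Matrix.mul_nonsing_inv _ (Ne.isUnit hd)]
  have h3 : (Ω⁻¹).transpose = -Ω⁻¹ := by rw [Matrix.transpose_nonsing_inv, h1, h2]
  have h4 := congrArg (fun M : Matrix (Fin n) (Fin n) ℝ => M j i) h3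
  simpa [Matrix.transpose_apply, Matrix.neg_apply] using h4

theorem trace_sum (Ω Ω2 P D : Matrix (Fin n) (Fin n) ℝ) (r : ℝ) (hP : P * Ω = 1)
    (hanti : ∀ i j, P i j = -P j i) (h2 : ∀ i j, Ω2 i j = r * Ω i j + (D i j - D j i)) :
    (P * Ω2).trace = r * n + 2 * ∑ i, ∑ j, P i j * D j i := by
  have h3 : (P * Ω2).trace = ∑ i, ∑ j, P i j * Ω2 j i := by
    simp only [Matrix.trace, Matrix.diag_apply, Matrix.mul_apply]
  have h4 : ∑ i, ∑ j, P i j * Ω j i = n := by
    have : (P * Ω).trace = ∑ i, ∑ j, P i j * Ω j i := by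
      simp only [Matrix.trace, Matrix.diag_apply, Matrix.mul_apply]
    rw [← this, hP, Matrix.trace_one, Fintype.card_fin]
  have h5 : ∑ i, ∑ j, P i j * D i j = -∑ i, ∑ j, P i j * D j i := by
    rw [Finset.sum_comm, ← Finset.sum_neg_distrib]
    refine Finset.sum_congr rfl fun i _ => ?_
    rw [← Finset.sum_neg_distrib]
    refine Finset.sum_congr rfl fun j _ => ?_
    rw [hanti j i]; ring
  rw [h3]
  calc ∑ i, ∑ j, P i j * Ω2 j i
      = ∑ i, ∑ j, (r * (P i j * Ω j i) + P i j * D j i - P i j * D i j) := by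
        refine Finset.sum_congr rfl fun i _ => Finset.sum_congr rfl fun j _ => ?_
        rw [h2]; ring
    _ = r * (∑ i, ∑ j, P i j * Ω j i) + ∑ i, ∑ j, P i j * D j i - ∑ i, ∑ j, P i j * D i j := by
        simp only [Finset.sum_sub_distrib, Finset.sum_add_distrib, ← Finset.mul_sum]
    _ = _ := by rw [h4, h5]; ring

theorem div_formula (hDiv : StDiv) (g1 g2 : Form n) (J : E n → E n →L[ℝ] E n)
    (hJs : ContDiff ℝ ∞ J) (hsq : ∀ x u, J x (J x u) = -u) (hK : Kah J g1)
    (hd : ∀ x, 0 < (gm g1 x).det) (hdens : ContDiff ℝ ∞ (dens g1)) (r : ℝ)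
    (α : E n → E n →L[ℝ] ℝ) (hα : ContDiff ℝ ∞ α)
    (h2 : ∀ x u v, g2.val x (J x u) v =
      r * g1.val x (J x u) v + (fderiv ℝ α x u v - fderiv ℝ α x v u)) (x : E n) :
    ∑ j, fderiv ℝ (fun y => dens g1 y * ZZ g1 J α y j) x (ee j) =
      dens g1 x * (tr g1 g2 x - r * n) := by
  have hJd : ∀ y, (jm (J y)).det = 1 := fun y => by
    refine det_eq_one (jm (J y)) (gm g1 y) (jm_sq _ (hsq y)) ?_ (hd y).ne'
    rw [← om_eq, compat_mat g1 J y (hK.compat y)]
  have hdet : ∀ y, (om g1 J y).det = (gm g1 y).det := fun y => by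
    rw [om_eq, Matrix.det_mul, Matrix.det_transpose, hJd, one_mul]
  have hpos : ∀ y, 0 < (om g1 J y).det := fun y => by rw [hdet]; exact hd y
  have hPs : ∀ i j, ContDiff ℝ ∞ (fun y => (om g1 J y)⁻¹ i j) :=
    inv_smooth _ (om_smooth g1 J hJs) fun y => (hpos y).ne'
  have hdiv := hDiv n (om g1 J) (om_smooth g1 J hJs)
    (om_anti g1 J hsq hK.compat) (fun y i j k => hK.closed y (ee i) (ee j) (ee k)) hpos x
  have hsqrt : ∀ y, Real.sqrt (om g1 J y).det = dens g1 y := fun y => by rw [hdet]; rfl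
  simp only [hsqrt] at hdiv
  have hR : ∀ i j, HasFDerivAt (fun y => dens g1 y * (om g1 J y)⁻¹ i j)
      (fderiv ℝ (fun y => dens g1 y * (om g1 J y)⁻¹ i j) x) x := fun i j =>
    ((hdens.mul (hPs i j)).differentiable (by norm_num)).differentiableAt.hasFDerivAt
  have hαd : HasFDerivAt α (fderiv ℝ α x) x :=
    (hα.differentiable (by norm_num)).differentiableAt.hasFDerivAt
  have hαi : ∀ i, HasFDerivAt (fun y => α y (ee i))
      ((ContinuousLinearMap.apply ℝ ℝ (ee i : E n)).comp (fderiv ℝ α x)) x := fun i =>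
    (ContinuousLinearMap.apply ℝ ℝ (ee i : E n)).hasFDerivAt.comp x hαd
  have hterm : ∀ j, fderiv ℝ (fun y => dens g1 y * ZZ g1 J α y j) x (ee j) =
      ∑ i, (2 * α x (ee i) * fderiv ℝ (fun y => dens g1 y * (om g1 J y)⁻¹ i j) x (ee j) +
        2 * dens g1 x * ((om g1 J x)⁻¹ i j * fderiv ℝ α x (ee j) (ee i))) := by
    intro j
    have h3 : HasFDerivAt (fun y => ∑ i, dens g1 y * (om g1 J y)⁻¹ i j * (2 * α y (ee i))) _ x :=
      HasFDerivAt.fun_sum fun i _ => (hR i j).mul ((hαi i).const_mul 2)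
    have h4 : (fun y => dens g1 y * ZZ g1 J α y j) =
        fun y => ∑ i, dens g1 y * (om g1 J y)⁻¹ i j * (2 * α y (ee i)) := by
      funext y
      rw [ZZ_apply, Finset.mul_sum, Finset.mul_sum]
      refine Finset.sum_congr rfl fun i _ => ?_
      ring
    rw [h4, h3.fderiv, ContinuousLinearMap.sum_apply]
    refine Finset.sum_congr rfl fun i _ => ?_
    simp only [ContinuousLinearMap.add_apply, ContinuousLinearMap.smul_apply, smul_eq_mul,
      ContinuousLinearMap.comp_apply, ContinuousLinearMap.apply_apply]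
    ring
  have htr : tr g1 g2 x = r * n + 2 * ∑ i, ∑ j, (om g1 J x)⁻¹ i j * fderiv ℝ α x (ee j) (ee i) := by
    rw [trace_eq g1 g2 J x (by rw [hJd]; exact one_ne_zero)]
    exact trace_sum (om g1 J x) (om g2 J x) ((om g1 J x)⁻¹)
      (Matrix.of fun i j => fderiv ℝ α x (ee i) (ee j)) r
      (Matrix.nonsing_inv_mul _ (Ne.isUnit (hpos x).ne'))
      (inv_anti _ (om_anti g1 J hsq hK.compat x) (hpos x).ne')
      (fun i j => h2 x (ee i) (ee j))
  rw [Finset.sum_congr rfl fun j _ => hterm j, Finset.sum_comm]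
  simp only [Finset.sum_add_distrib, ← Finset.mul_sum, hdiv, mul_zero, zero_add]
  rw [htr]
  ring

end IKah

open IKah

/-- Item Kah. -/
theorem pr_Kah (h1 : StDiv) (h2 : StDivZ) (h3 : StDens) : StKah := by
  intro n G _ _ hG g1 g2 hR hI J hJ hK r hCo χ hχ
  obtain ⟨α, hα, hαI, hco⟩ := hCo
  obtain ⟨hpos, hdens, hdG⟩ := h3 n g1 hR
  have hdI := (hdG G hG hI).1
  have hJd : ∀ y, (jm (J y)).det = 1 := fun y => by
    refine det_eq_one (jm (J y)) (gm g1 y) (jm_sq _ (hJ.sq y)) ?_ (hpos y).ne'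
    rw [← om_eq, compat_mat g1 J y (hK.compat y)]
  have hdne : ∀ y, (om g1 J y).det ≠ 0 := fun y => by
    rw [om_eq, Matrix.det_mul, Matrix.det_transpose, hJd, one_mul]; exact (hpos y).ne'
  have hz := h2 n G hG χ hχ (dens g1) hdens hdI (ZZ g1 J α)
    (ZZ_smooth g1 J α hJ.smooth hα hdne)
    (ZZ_inv G hG g1 hR hI J hJ hK.compat hdne α hαI)
  simp only [div_formula h1 g1 g2 J hJ.smooth hJ.sq hK hpos hdens r α hα hco] at hz
  have hχc : Continuous χ := hχ.smooth.continuous
  have hdc : Continuous (dens g1) := hdens.continuous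
  have htc : Continuous (tr g1 g2) := tr_cont g1 g2 fun y => (hpos y).ne'
  have hi1 : Integrable (fun x => χ x * (tr g1 g2 x * dens g1 x)) :=
    (hχc.mul (htc.mul hdc)).integrable_of_hasCompactSupport hχ.cpt.mul_right
  have hi2 : Integrable (fun x => χ x * dens g1 x) :=
    (hχc.mul hdc).integrable_of_hasCompactSupport hχ.cpt.mul_right
  have h4 : ∀ x, χ x * (dens g1 x * (tr g1 g2 x - r * n)) =
      χ x * (tr g1 g2 x * dens g1 x) - r * n * (χ x * dens g1 x) := fun x => by ring
  simp only [h4] at hz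
  rw [integral_sub hi1 (hi2.const_mul _), integral_const_mul] at hz
  linarith

end Pool.Agent.MLS
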