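import Pool.Agent.Work.MP_25cd3b_gt.M.Stmts

set_option autoImplicit false

/-!
# MP_25cd3b_gt: the key inequality (item Key)
-/

open MeasureTheory Set Filter Topology
open scoped ContDiff ENNReal
open Pool.Agent.Work.MP_c9f990_an.Al (IsFlow)

namespace Pool.Agent.MLS

namespace IKey

variable {n : ℕ}

theorem vel_cont (h5 : StOp) (g : Form n) (hg : Riem g) : Continuous (vel g) := by
  have h := (h5 n g hg).2.2.2.2.2.2.1
  have hc : Continuous (iop g) := h.continuous
  have e : vel g = fun z : W n => iop g z.1 z.2 := rfl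
  rw [e]
  exact (hc.comp continuous_fst).clm_apply continuous_snd

theorem val_cont (g : Form n) {X : Type} [TopologicalSpace X] {a b : X → E n}
    (ha : Continuous a) (hb : Continuous b) : Continuous (fun z => g.val (a z) (b z) (b z)) :=
  ((g.smooth.continuous.comp ha).clm_apply hb).clm_apply hb

theorem nrm_cont (g : Form n) {X : Type} [TopologicalSpace X] {a b : X → E n}
    (ha : Continuous a) (hb : Continuous b) : Continuous (fun z => nrm g (a z) (b z)) := by
  unfold nrm
  exact Real.continuous_sqrt.comp (val_cont g ha hb)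

theorem nrm_nonneg (g : Form n) (x v : E n) : 0 ≤ nrm g x v := Real.sqrt_nonneg _

theorem nrm_smul (g : Form n) (x v : E n) (r : ℝ) (hr : 0 ≤ r) :
    nrm g x (r • v) = r * nrm g x v := by
  unfold nrm
  have e : g.val x (r • v) (r • v) = r ^ 2 * g.val x v v := by
    simp [pow_two, mul_assoc]
  rw [e, Real.sqrt_mul (by positivity), Real.sqrt_sq hr]

theorem deriv_scale (c : ℝ → E n) (hc : ContDiff ℝ 2 c) (r s : ℝ) :
    deriv (fun s => c (r * s)) s = r • deriv c (r * s) := by
  have h1 : HasDerivAt c (deriv c (r * s)) (r * s) :=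
    ((hc.differentiable (by norm_num)) (r * s)).hasDerivAt
  have h2 : HasDerivAt (fun s : ℝ => r * s) r s := by simpa using (hasDerivAt_id s).const_mul r
  exact (h1.scomp s h2).deriv

theorem geo_scale (g : Form n) (c : ℝ → E n) (hc : IsGeo g c) (r : ℝ) :
    IsGeo g (fun s => c (r * s)) := by
  refine ⟨hc.smooth.comp (contDiff_const.mul contDiff_id), fun t w => ?_⟩
  have h3 : (fun s => g.val (c (r * s)) (deriv (fun s => c (r * s)) s) w) =
      fun s => r * (g.val (c (r * s)) (deriv c (r * s)) w) := by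
    funext s
    rw [deriv_scale c hc.smooth]
    simp
  rw [h3, deriv_scale c hc.smooth]
  have h2 : HasDerivAt (fun s : ℝ => r * s) r t := by simpa using (hasDerivAt_id t).const_mul r
  have h4 := ((hc.el (r * t) w).comp t h2).const_mul r
  have e : r * (1 / 2 * fderiv ℝ g.val (c (r * t)) w (deriv c (r * t)) (deriv c (r * t)) * r) =
      1 / 2 * fderiv ℝ g.val (c (r * t)) w (r • deriv c (r * t)) (r • deriv c (r * t)) := by
    simp only [map_smul, smul_apply, smul_eq_mul]
    ring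
  rw [← e]
  exact h4

/-- the pointwise inequality along one trajectory -/
theorem pointwise (h5 : StOp) (h7 : StGeo1) (g1 g2 : Form n) (hR : Riem g1)
    (hSeg : ∃ C', 0 ≤ C' ∧ ∀ c : ℝ → E n, IsGeo g1 c →
      (∀ t, g1.val (c t) (deriv c t) (deriv c t) = 1) → ∀ T, 0 ≤ T →
      T - C' ≤ ∫ t in (0 : ℝ)..T, nrm g2 (c t) (deriv c t)) :
    ∃ C', 0 ≤ C' ∧ ∀ z : ℝ → W n, (∀ t, HasDerivAt z (XH (Hm g1) (z t)) t) →
      Hm g1 (z 0) ≤ 1 / 2 → ∀ T, 0 ≤ T → T * (2 * Hm g1 (z 0)) - C' ≤
        ∫ t in (0 : ℝ)..T, nrm g1 (z t).1 (vel g1 (z t)) * nrm g2 (z t).1 (vel g1 (z t)) := by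
  obtain ⟨C', hC0, hC⟩ := hSeg
  refine ⟨C', hC0, fun z hz hB T hT => ?_⟩
  obtain ⟨hgeo, hder, hen⟩ := h7 n g1 hR z hz
  have hHm := (h5 n g1 hR).2.2.2.2.2.2.2.2
  set c : ℝ → E n := fun t => (z t).1 with hcdef
  set r : ℝ := Real.sqrt (2 * Hm g1 (z 0)) with hr
  have hH0 : 0 ≤ 2 * Hm g1 (z 0) := by
    rw [hHm]
    have := g1.nonneg (z 0).1 (vel g1 (z 0))
    linarith
  have hr0 : 0 ≤ r := Real.sqrt_nonneg _
  have hr2 : r ^ 2 = 2 * Hm g1 (z 0) := Real.sq_sqrt hH0
  have hr1 : r ≤ 1 := by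
    have : r ^ 2 ≤ 1 := by rw [hr2]; linarith
    nlinarith
  have hval : ∀ t, g1.val (z t).1 (vel g1 (z t)) (vel g1 (z t)) = r ^ 2 := by
    intro t
    have h := hHm (z t)
    rw [hen t] at h
    rw [hr2]
    linarith
  have hn1 : ∀ t, nrm g1 (z t).1 (vel g1 (z t)) = r := by
    intro t
    unfold nrm
    rw [hval t, Real.sqrt_sq hr0]
  have hint : (∫ t in (0 : ℝ)..T, nrm g1 (z t).1 (vel g1 (z t)) * nrm g2 (z t).1 (vel g1 (z t)))
      = r * ∫ t in (0 : ℝ)..T, nrm g2 (c t) (deriv c t) := by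
    rw [← intervalIntegral.integral_const_mul]
    refine intervalIntegral.integral_congr fun t _ => ?_
    have e : deriv c t = vel g1 (z t) := hder t
    simp only [hn1 t, e]
    rfl
  rw [hint]
  rcases hr0.eq_or_lt with h0 | hpos
  · rw [← h0, ← hr2, ← h0]
    simp only [zero_mul, mul_zero, ne_eq, OfNat.ofNat_ne_zero, not_false_eq_true, zero_pow]
    linarith
  · have hgeo' := geo_scale g1 c hgeo r⁻¹
    have hunit : ∀ t, g1.val ((fun s => c (r⁻¹ * s)) t) (deriv (fun s => c (r⁻¹ * s)) t)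
        (deriv (fun s => c (r⁻¹ * s)) t) = 1 := by
      intro t
      rw [deriv_scale c hgeo.smooth]
      have e := hval (r⁻¹ * t)
      have e2 : deriv c (r⁻¹ * t) = vel g1 (z (r⁻¹ * t)) := hder _
      have e3 : g1.val (c (r⁻¹ * t)) (vel g1 (z (r⁻¹ * t))) (vel g1 (z (r⁻¹ * t))) = r ^ 2 := e
      simp only [map_smul, smul_apply, smul_eq_mul, e2]
      rw [e3]
      field_simp
    have hS := hC (fun s => c (r⁻¹ * s)) hgeo' hunit (r * T) (by positivity)
    have hI : (∫ t in (0 : ℝ)..(r * T), nrm g2 ((fun s => c (r⁻¹ * s)) t)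
        (deriv (fun s => c (r⁻¹ * s)) t)) = ∫ t in (0 : ℝ)..T, nrm g2 (c t) (deriv c t) := by
      have e1 : ∀ t, nrm g2 ((fun s => c (r⁻¹ * s)) t) (deriv (fun s => c (r⁻¹ * s)) t) =
          r⁻¹ * (fun u => nrm g2 (c u) (deriv c u)) (r⁻¹ * t) := by
        intro t
        rw [deriv_scale c hgeo.smooth, nrm_smul g2 _ _ _ (by positivity)]
      simp only [e1]
      rw [intervalIntegral.integral_const_mul]
      rw [intervalIntegral.integral_comp_mul_left (fun u => nrm g2 (c u) (deriv c u))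
        (inv_ne_zero hpos.ne')]
      rw [inv_inv, smul_eq_mul, ← mul_assoc, inv_mul_cancel₀ hpos.ne', one_mul, mul_zero,
        ← mul_assoc, inv_mul_cancel₀ hpos.ne', one_mul]
    rw [hI] at hS
    have h3 : r * (r * T - C') ≤ r * ∫ t in (0 : ℝ)..T, nrm g2 (c t) (deriv c t) :=
      mul_le_mul_of_nonneg_left hS hr0
    have h4 : T * (2 * Hm g1 (z 0)) - C' ≤ r * (r * T - C') := by
      rw [← hr2]
      nlinarith
    linarith

/-- integrability over the disk bundle of functions supported over a compact set -/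
theorem integrableOn_disk (h4 : StSub) (h5 : StOp) (g : Form n) (hg : Riem g) (χ : E n → ℝ)
    (hχ : Continuous χ) (hc : HasCompactSupport χ) (f : W n → ℝ) (hf : Continuous f) :
    IntegrableOn (fun z : W n => χ z.1 * f z) {z : W n | Hm g z ≤ 1 / 2} := by
  have hHc : Continuous (Hm g) := (h5 n g hg).2.2.2.2.2.2.2.1.continuous
  have hS := h4 n g hg (tsupport χ) (1 / 2) hc
  have h1 : IntegrableOn (fun z : W n => χ z.1 * f z)
      {z : W n | z.1 ∈ tsupport χ ∧ Hm g z ≤ 1 / 2} :=
    ((hχ.comp continuous_fst).mul hf).continuousOn.integrableOn_compact hS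
  refine h1.of_forall_sdiff_eq_zero (measurableSet_le hHc.measurable measurable_const) ?_
  rintro z ⟨hz1, hz2⟩
  have : z.1 ∉ tsupport χ := fun h => hz2 ⟨h, hz1⟩
  have h0 : χ z.1 = 0 := image_eq_zero_of_notMem_tsupport this
  simp [h0]

end IKey

open IKey in
/-- the key inequality from the inequality for long segments of geodesics -/
theorem keyS (h2 : StAvg) (h3 : StFlow) (h4 : StSub) (h5 : StOp) (h7 : StGeo1)
    (h8 : StLftA) : ∀ (n : ℕ) (G : Type) [Group G] [MulAction G (E n)], Cocompact n G →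
    ∀ g1 g2 : Form n, Riem g1 → Inv G g1 → Inv G g2 →
    (∃ C', 0 ≤ C' ∧ ∀ c : ℝ → E n, IsGeo g1 c →
      (∀ t, g1.val (c t) (deriv c t) (deriv c t) = 1) → ∀ T, 0 ≤ T →
      T - C' ≤ ∫ t in (0 : ℝ)..T, nrm g2 (c t) (deriv c t)) → ∀ χ : E n → ℝ, PU G χ →
    ∫ z in {z : W n | Hm g1 z ≤ 1 / 2}, χ z.1 * g1.val z.1 (vel g1 z) (vel g1 z) ≤
      ∫ z in {z : W n | Hm g1 z ≤ 1 / 2}, χ z.1 * (nrm g1 z.1 (vel g1 z) *
        nrm g2 z.1 (vel g1 z)) := by
  intro n G _ _ hG g1 g2 hR hI1 hI2 hSeg χ hχ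
  obtain ⟨C', hC0, hC⟩ := pointwise h5 h7 g1 g2 hR hSeg
  obtain ⟨φ, M, hφ⟩ := h3 n G hG g1 hR hI1
  have hop := h5 n g1 hR
  have hHc : Continuous (Hm g1) := hop.2.2.2.2.2.2.2.1.continuous
  have hHm := hop.2.2.2.2.2.2.2.2
  have hvc : Continuous (vel g1) := vel_cont h5 g1 hR
  have hχc : Continuous χ := hχ.smooth.continuous
  obtain ⟨hA1, hA2, -, -, -⟩ := h8 n G hG g1 hR hI1
  set B : Set (W n) := {z : W n | Hm g1 z ≤ 1 / 2} with hB
  have hBm : MeasurableSet B := measurableSet_le hHc.measurable measurable_const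
  set F : W n → ℝ := fun z => nrm g1 z.1 (vel g1 z) * nrm g2 z.1 (vel g1 z) with hF
  have hFc : Continuous F := (nrm_cont g1 continuous_fst hvc).mul (nrm_cont g2 continuous_fst hvc)
  have hF0 : ∀ z, 0 ≤ F z := fun z => mul_nonneg (nrm_nonneg _ _ _) (nrm_nonneg _ _ _)
  set f : W n → ℝ≥0∞ := B.indicator (fun z => ENNReal.ofReal (F z)) with hf
  have hfm : Measurable f := (ENNReal.measurable_ofReal.comp hFc.measurable).indicator hBm
  have hfI : ∀ (a : G) (z : W n), f (lft g1 a z) = f z := by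
    intro a z
    have e1 : (lft g1 a z).1 = a • z.1 := rfl
    have e2 : F (lft g1 a z) = F z := by
      simp only [hF, e1, hA1 a z, nrm]
      rw [hI1, hI2]
    have e3 : lft g1 a z ∈ B ↔ z ∈ B := by
      simp only [hB, mem_ofPred_eq, hA2 a z]
    by_cases hz : z ∈ B
    · rw [hf, indicator_of_mem (e3.2 hz), indicator_of_mem hz, e2]
    · rw [hf, indicator_of_notMem (fun h => hz (e3.1 h)), indicator_of_notMem hz]
  have havg := h2 n G hG g1 hR hI1 φ M hφ χ hχ f hfm hfI
  -- energy along the flow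
  have hen : ∀ (z : W n) (t : ℝ), Hm g1 (φ t z) = Hm g1 z := by
    intro z t
    have := (h7 n g1 hR (fun s => φ s z) (hφ.ode z)).2.2 t
    simpa [hφ.zero z] using this
  set D : W n → ℝ := fun z => g1.val z.1 (vel g1 z) (vel g1 z) with hD
  have hDc : Continuous D := val_cont g1 continuous_fst hvc
  have hD0 : ∀ z, 0 ≤ D z := fun z => g1.nonneg _ _
  have hDH : ∀ z, D z = 2 * Hm g1 z := by
    intro z
    rw [hHm z]
    ring
  set μ : Measure (W n) := (volume : Measure (W n)).restrict B with hμ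
  have ia : Integrable (fun z : W n => χ z.1 * D z) μ :=
    integrableOn_disk h4 h5 g1 hR χ hχc hχ.cpt D hDc
  have ib : Integrable (fun z : W n => χ z.1 * F z) μ :=
    integrableOn_disk h4 h5 g1 hR χ hχc hχ.cpt F hFc
  have im : Integrable (fun z : W n => χ z.1) μ := by
    have h := integrableOn_disk h4 h5 g1 hR χ hχc hχ.cpt (fun _ => 1) continuous_const
    simp only [mul_one] at h
    exact h
  set a : ℝ := ∫ z, χ z.1 * D z ∂μ with ha
  set b : ℝ := ∫ z, χ z.1 * F z ∂μ with hb
  set m : ℝ := ∫ z, χ z.1 ∂μ with hmdef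
  have hm0 : 0 ≤ m := integral_nonneg fun z => hχ.nonneg _
  have ha0 : 0 ≤ a := integral_nonneg fun z => mul_nonneg (hχ.nonneg _) (hD0 _)
  have hb0 : 0 ≤ b := integral_nonneg fun z => mul_nonneg (hχ.nonneg _) (hF0 _)
  change a ≤ b
  -- lintegrals
  have La : ENNReal.ofReal a = ∫⁻ z, ENNReal.ofReal (χ z.1) * ENNReal.ofReal (D z) ∂μ := by
    rw [ha, ofReal_integral_eq_lintegral_ofReal ia
      (Eventually.of_forall fun z => mul_nonneg (hχ.nonneg _) (hD0 _))]
    refine lintegral_congr fun z => ?_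
    rw [ENNReal.ofReal_mul (hχ.nonneg _)]
  have Lm : ENNReal.ofReal m = ∫⁻ z, ENNReal.ofReal (χ z.1) ∂μ := by
    rw [hmdef, ofReal_integral_eq_lintegral_ofReal im (Eventually.of_forall fun z => hχ.nonneg _)]
  have Lb : ENNReal.ofReal b = ∫⁻ z, ENNReal.ofReal (χ z.1) * f z := by
    rw [hb, ofReal_integral_eq_lintegral_ofReal ib
      (Eventually.of_forall fun z => mul_nonneg (hχ.nonneg _) (hF0 _)), hμ,
      ← lintegral_indicator hBm]
    refine lintegral_congr fun z => ?_
    by_cases hz : z ∈ B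
    · rw [indicator_of_mem hz, hf, indicator_of_mem hz, ENNReal.ofReal_mul (hχ.nonneg _)]
    · rw [indicator_of_notMem hz, hf, indicator_of_notMem hz, mul_zero]
  -- the inequality for every T
  have key : ∀ T : ℝ, 0 ≤ T → T * a ≤ C' * m + T * b := by
    intro T hT
    have hjm : Measurable (fun p : ℝ × W n => ENNReal.ofReal (χ p.2.1) * f (φ p.1 p.2)) := by
      refine Measurable.mul ?_ (hfm.comp hφ.cont.measurable)
      exact ENNReal.measurable_ofReal.comp (hχc.measurable.comp (measurable_fst.comp measurable_snd))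
    have sw : ∫⁻ t in Ioc (0 : ℝ) T, ∫⁻ z, ENNReal.ofReal (χ z.1) * f (φ t z) =
        ∫⁻ z, ∫⁻ t in Ioc (0 : ℝ) T, ENNReal.ofReal (χ z.1) * f (φ t z) :=
      lintegral_lintegral_swap hjm.aemeasurable
    have l1 : ∫⁻ t in Ioc (0 : ℝ) T, ∫⁻ z, ENNReal.ofReal (χ z.1) * f (φ t z) =
        ENNReal.ofReal T * ENNReal.ofReal b := by
      simp only [havg, ← Lb]
      rw [setLIntegral_const, Real.volume_Ioc, sub_zero, mul_comm]
    have pw : ∀ z ∈ B, ENNReal.ofReal T * (ENNReal.ofReal (χ z.1) * ENNReal.ofReal (D z)) ≤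
        ENNReal.ofReal C' * ENNReal.ofReal (χ z.1) +
          ∫⁻ t in Ioc (0 : ℝ) T, ENNReal.ofReal (χ z.1) * f (φ t z) := by
      intro z hz
      have hz' : Hm g1 ((fun s => φ s z) 0) ≤ 1 / 2 := by
        simp only [hφ.zero z]
        exact hz
      have hp := hC (fun s => φ s z) (hφ.ode z) hz' T hT
      simp only [hφ.zero z] at hp
      have hcz : Continuous (fun t => F (φ t z)) :=
        hFc.comp (hφ.cont.comp (continuous_id.prodMk continuous_const))
      have e1 : ∫⁻ t in Ioc (0 : ℝ) T, ENNReal.ofReal (χ z.1) * f (φ t z) =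
          ENNReal.ofReal (χ z.1) * ENNReal.ofReal (∫ t in (0 : ℝ)..T, F (φ t z)) := by
        rw [intervalIntegral.integral_of_le hT, ofReal_integral_eq_lintegral_ofReal
          (hcz.integrableOn_Ioc) (Eventually.of_forall fun t => hF0 _), ← lintegral_const_mul]
        · refine lintegral_congr fun t => ?_
          have : φ t z ∈ B := by
            change Hm g1 (φ t z) ≤ 1 / 2
            rw [hen]
            exact hz
          rw [hf, indicator_of_mem this]
        · exact ENNReal.measurable_ofReal.comp hcz.measurable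
      rw [e1]
      have e2 : ENNReal.ofReal (T * D z) ≤ ENNReal.ofReal C' +
          ENNReal.ofReal (∫ t in (0 : ℝ)..T, F (φ t z)) := by
        refine le_trans (ENNReal.ofReal_le_ofReal ?_) ENNReal.ofReal_add_le
        have : T * D z - C' ≤ ∫ t in (0 : ℝ)..T, F (φ t z) := by
          rw [hDH z]
          exact hp
        linarith
      calc ENNReal.ofReal T * (ENNReal.ofReal (χ z.1) * ENNReal.ofReal (D z))
          = ENNReal.ofReal (χ z.1) * ENNReal.ofReal (T * D z) := by
            rw [ENNReal.ofReal_mul hT]; ring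
        _ ≤ ENNReal.ofReal (χ z.1) * (ENNReal.ofReal C' +
            ENNReal.ofReal (∫ t in (0 : ℝ)..T, F (φ t z))) := by gcongr
        _ = _ := by ring
    have hle : ENNReal.ofReal T * ENNReal.ofReal a ≤
        ENNReal.ofReal C' * ENNReal.ofReal m + ENNReal.ofReal T * ENNReal.ofReal b := by
      have hmχ : Measurable (fun z : W n => ENNReal.ofReal (χ z.1)) :=
        ENNReal.measurable_ofReal.comp (hχc.measurable.comp measurable_fst)
      have hmD : Measurable (fun z : W n => ENNReal.ofReal (D z)) :=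
        ENNReal.measurable_ofReal.comp hDc.measurable
      calc ENNReal.ofReal T * ENNReal.ofReal a
          = ∫⁻ z, ENNReal.ofReal T * (ENNReal.ofReal (χ z.1) * ENNReal.ofReal (D z)) ∂μ := by
            rw [La]
            exact (lintegral_const_mul (μ := μ) (ENNReal.ofReal T) (hmχ.mul hmD)).symm
        _ ≤ ∫⁻ z, (ENNReal.ofReal C' * ENNReal.ofReal (χ z.1) +
              ∫⁻ t in Ioc (0 : ℝ) T, ENNReal.ofReal (χ z.1) * f (φ t z)) ∂μ := by
            rw [hμ]
            exact setLIntegral_mono' hBm pw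
        _ = ENNReal.ofReal C' * ENNReal.ofReal m +
              ∫⁻ z, (∫⁻ t in Ioc (0 : ℝ) T, ENNReal.ofReal (χ z.1) * f (φ t z)) ∂μ := by
            have hm2 : Measurable (fun z : W n => ENNReal.ofReal C' * ENNReal.ofReal (χ z.1)) :=
              measurable_const.mul hmχ
            rw [lintegral_add_left hm2, lintegral_const_mul _ hmχ, Lm]
        _ ≤ ENNReal.ofReal C' * ENNReal.ofReal m +
              ∫⁻ z, (∫⁻ t in Ioc (0 : ℝ) T, ENNReal.ofReal (χ z.1) * f (φ t z)) := by
            gcongr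
            exact Measure.restrict_le_self
        _ = _ := by rw [← sw, l1]
    rw [← ENNReal.ofReal_mul hT, ← ENNReal.ofReal_mul hC0, ← ENNReal.ofReal_mul hT,
      ← ENNReal.ofReal_add (by positivity) (by positivity)] at hle
    exact (ENNReal.ofReal_le_ofReal_iff (by positivity)).1 hle
  by_contra hcon
  push Not at hcon
  have hpos : 0 < a - b := by linarith
  have h := key ((C' * m + 1) / (a - b)) (by positivity)
  have e : (C' * m + 1) / (a - b) * (a - b) = C' * m + 1 := by field_simp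
  nlinarith

theorem pr_Key (h1 : StSeg) (h2 : StAvg) (h3 : StFlow) (h4 : StSub) (h5 : StOp)
    (h7 : StGeo1) (h8 : StLftA) : StKey := by
  intro n G _ _ hG g1 g2 hR hI1 hI2 hm hh hL χ hχ
  exact keyS h2 h3 h4 h5 h7 h8 n G hG g1 g2 hR hI1 hI2
    (h1 n G hG g1 g2 hR hI1 hI2 hm hh hL) χ hχ

end Pool.Agent.MLS
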