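import Pool.Agent.Work.MP_25cd3b_gt.M.Stmts2

set_option autoImplicit false

/-!
# MP_25cd3b_gt: the key inequality with a constant
-/

open MeasureTheory Set Filter Topology
open scoped ContDiff ENNReal

namespace Pool.Agent.MLS

theorem pr_KeyK (h1 : StScale) (h2 : StKey) : StKeyK := by
  intro n G _ _ hG g1 g2 hR hI1 hI2 hM hH κ hκ hL χ hχ
  rcases hκ.eq_or_lt with h0 | hpos
  · rw [← h0, zero_mul]
    refine integral_nonneg fun z => ?_
    exact mul_nonneg (hχ.nonneg _) (mul_nonneg (Real.sqrt_nonneg _) (Real.sqrt_nonneg _))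
  · have hinv : 0 < κ⁻¹ := inv_pos.mpr hpos
    obtain ⟨hn, hLs, hIs⟩ := h1 n G g2 κ⁻¹ hinv
    have key := h2 n G hG g1 (smulF (κ⁻¹ ^ 2) (sq_nonneg κ⁻¹) g2) hR hI1 (hIs hI2) hM hH
      (fun a => by
        rw [hLs a]
        have h := mul_le_mul_of_nonneg_left (hL a) hinv.le
        rwa [← mul_assoc, inv_mul_cancel₀ hpos.ne', one_mul] at h) χ hχ
    have he : ∫ z in {z : W n | Hm g1 z ≤ 1 / 2}, χ z.1 * (nrm g1 z.1 (vel g1 z) *
        nrm (smulF (κ⁻¹ ^ 2) (sq_nonneg κ⁻¹) g2) z.1 (vel g1 z)) =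
        κ⁻¹ * ∫ z in {z : W n | Hm g1 z ≤ 1 / 2},
          χ z.1 * (nrm g1 z.1 (vel g1 z) * nrm g2 z.1 (vel g1 z)) := by
      rw [← integral_const_mul]
      refine integral_congr_ae (Eventually.of_forall fun z => ?_)
      simp only [hn]
      ring
    rw [he] at key
    have h := mul_le_mul_of_nonneg_left key hpos.le
    rwa [← mul_assoc, mul_inv_cancel₀ hpos.ne', one_mul] at h

end Pool.Agent.MLS
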