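import Mathlib
import Pool.Agent.Work.MP_25cd3b_gt.M.Stmts

set_option autoImplicit false

/-! Item LftM of the block [25cd3b MLS]: the lifted action preserves Lebesgue measure. -/

open MeasureTheory Set Filter Topology
open scoped ContDiff ENNReal

namespace Pool.Agent.MLS

namespace ILftM

/-- If `inner (A p) (D w) = inner p w` then `det A * det D = 1`. -/
theorem det_mul {n : ℕ} (A D : E n →L[ℝ] E n)
    (h : ∀ p w, inner ℝ (A p) (D w) = inner ℝ p w) :
    LinearMap.det (A : E n →ₗ[ℝ] E n) * LinearMap.det (D : E n →ₗ[ℝ] E n) = 1 := by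
  have h1 : (LinearMap.adjoint (D : E n →ₗ[ℝ] E n)) ∘ₗ (A : E n →ₗ[ℝ] E n) = LinearMap.id := by
    refine LinearMap.ext fun p => ?_
    refine ext_inner_right ℝ fun w => ?_
    rw [LinearMap.comp_apply, LinearMap.adjoint_inner_left]
    exact h p w
  have h2 : LinearMap.det (LinearMap.adjoint (D : E n →ₗ[ℝ] E n))
      = LinearMap.det (D : E n →ₗ[ℝ] E n) := by
    have b := (EuclideanSpace.basisFun (Fin n) ℝ)
    rw [← LinearMap.det_toMatrix b.toBasis, ← LinearMap.det_toMatrix b.toBasis,
      LinearMap.toMatrix_adjoint, Matrix.det_conjTranspose]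
    simp
  have h3 := congrArg LinearMap.det h1
  rw [LinearMap.det_comp, h2, LinearMap.det_id] at h3
  rw [mul_comm]
  exact h3

end ILftM

theorem pr_LftM (h1 : StOp) (h2 : StLftA) : StLftM := by
  intro n G _ _ hG g hg hinv a
  obtain ⟨-, hop, hio, hoi, -, -, -, -, -⟩ := h1 n g hg
  obtain ⟨-, -, -, -, hcont⟩ := h2 n G hG g hg hinv
  have hT : Continuous (lft (G := G) g a) := hcont a
  refine ⟨hT.measurable, ?_⟩
  -- the fibre map
  obtain ⟨A, hA⟩ : ∃ A : E n → E n →L[ℝ] E n, ∀ x, A x =
      (op g (a • x)).comp ((dac a x).comp (iop g x)) := ⟨_, fun _ => rfl⟩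
  have hlft : ∀ z : W n, lft g a z = (a • z.1, A z.1 z.2) := by
    intro z
    rw [hA]
    rfl
  have hdet : ∀ x, LinearMap.det (A x : E n →ₗ[ℝ] E n) *
      LinearMap.det (dac a x : E n →ₗ[ℝ] E n) = 1 := by
    intro x
    refine ILftM.det_mul _ _ fun p w => ?_
    rw [hA]
    simp only [ContinuousLinearMap.comp_apply]
    rw [hop, hinv, ← hop, hoi]
  have hder : ∀ x ∈ (univ : Set (E n)), HasFDerivWithinAt (fun y : E n => a • y) (dac a x) univ x :=
    fun x _ => (((hG.smooth a).differentiable (by norm_num)).differentiableAt).hasFDerivAt.hasFDerivWithinAt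
  have hinj : InjOn (fun y : E n => a • y) univ := fun x _ y _ hxy => MulAction.injective a hxy
  have himg : (fun y : E n => a • y) '' univ = univ := by
    rw [image_univ]
    exact (MulAction.surjective a).range_eq
  refine Measure.ext fun s hs => ?_
  rw [Measure.map_apply hT.measurable hs, Measure.volume_eq_prod,
    Measure.prod_apply (hT.measurable hs), Measure.prod_apply hs]
  have e1 : ∀ x : E n, volume (Prod.mk x ⁻¹' (lft (G := G) g a ⁻¹' s)) =
      ENNReal.ofReal |(dac a x).det| * volume (Prod.mk (a • x) ⁻¹' s) := by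
    intro x
    have e2 : Prod.mk x ⁻¹' (lft (G := G) g a ⁻¹' s) = A x ⁻¹' (Prod.mk (a • x) ⁻¹' s) := by
      ext p
      simp only [mem_preimage, hlft]
    have hd := hdet x
    have hne : LinearMap.det (A x : E n →ₗ[ℝ] E n) ≠ 0 := left_ne_zero_of_mul_eq_one hd
    rw [e2, Measure.addHaar_preimage_continuousLinearMap volume hne]
    congr 3
    exact inv_eq_of_mul_eq_one_right hd
  simp_rw [e1]
  have e3 := lintegral_image_eq_lintegral_abs_det_fderiv_mul volume MeasurableSet.univ hder hinj
    (fun y : E n => volume (Prod.mk y ⁻¹' s))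
  rw [himg, setLIntegral_univ, setLIntegral_univ] at e3
  exact e3.symm

end Pool.Agent.MLS
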