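import Pool.Agent.Work.MP_25cd3b_gt.M.Stmts
import Pool.Agent.Work.MP_c9f990_an.Al.Stmts

set_option autoImplicit false

/-!
# Item MP of the block MLS: the flow of a Hamiltonian field preserves Lebesgue measure
-/

open MeasureTheory Set Filter Topology
open scoped ContDiff ENNReal
open Pool.Agent.Work.MP_c9f990_an.Al (IsFlow)

namespace Pool.Agent.MLS

namespace IMP

/-- a flow with determinant one preserves Lebesgue measure -/
theorem mp {Q : Type} [NormedAddCommGroup Q] [NormedSpace ℝ Q] [FiniteDimensional ℝ Q]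
    [MeasurableSpace Q] [BorelSpace Q] (μ : Measure Q) [μ.IsAddHaarMeasure] {F : Q → Q}
    {φ : ℝ → Q → Q} {M : ℝ → Q → Q →L[ℝ] Q} (h : IsFlow F φ M)
    (hd : ∀ t z, (M t z).det = 1) (t : ℝ) : MeasurePreserving (φ t) μ μ := by
  have hcont : ∀ t, Continuous (φ t) := fun t => h.cont.comp (Continuous.prodMk_right t)
  have hl : ∀ t z, φ (-t) (φ t z) = z := by
    intro t z
    rw [← h.add, neg_add_cancel, h.zero]
  have hr : ∀ t z, φ t (φ (-t) z) = z := by
    intro t z
    rw [← h.add, add_neg_cancel, h.zero]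
  refine ⟨(hcont t).measurable, ?_⟩
  ext s hs
  rw [Measure.map_apply (hcont t).measurable hs]
  have h1 : φ t ⁻¹' s = φ (-t) '' s := by
    ext z
    constructor
    · intro hz
      exact ⟨φ t z, hz, hl t z⟩
    · rintro ⟨y, hy, rfl⟩
      change φ t (φ (-t) y) ∈ s
      rw [hr]
      exact hy
  have hinj : InjOn (φ (-t)) s := by
    intro x _ y _ hxy
    rw [← hr t x, ← hr t y]
    exact congrArg (φ t) hxy
  rw [h1, ← lintegral_abs_det_fderiv_eq_addHaar_image μ hs
    (fun x _ => (h.diff (-t) x).hasFDerivWithinAt) hinj]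
  simp [hd]

end IMP

/-- MP -/
theorem pr_MP (h1 : Pool.Agent.Work.MP_c9f990_an.Al.LIOU) (h2 : StTr0) : StMP := by
  intro n H φ M hH hφ t
  obtain ⟨hX, htr, -⟩ := h2 n H hH
  have hd : ∀ t z, (M t z).det = 1 := by
    intro t z
    rw [h1 (W n) (XH H) φ M hφ (hX.of_le (by exact_mod_cast le_top)) z t]
    simp only [htr]
    simp
  have hv : (volume : Measure (W n)).IsAddHaarMeasure := by
    change ((volume : Measure (E n)).prod (volume : Measure (E n))).IsAddHaarMeasure
    exact Measure.prod.instIsAddHaarMeasure _ _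
  exact IMP.mp volume hφ hd t

end Pool.Agent.MLS
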