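import Mathlib
import Pool.Agent.Work.MP_25cd3b_gt.M.Stmts

set_option autoImplicit false

/-!
# MP_25cd3b_gt: the main inequality and its equality case (item Main)
-/

open MeasureTheory Set Filter Topology
open scoped ContDiff ENNReal

namespace Pool.Agent.MLS

namespace IMain

variable {n : ℕ}

theorem vel_cont (h3 : StOp) (g : Form n) (hg : Riem g) : Continuous (vel g) := by
  have h := (h3 n g hg).2.2.2.2.2.2.1
  have hc : Continuous (iop g) := h.continuous
  have e : vel g = fun z : W n => iop g z.1 z.2 := rfl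
  rw [e]
  exact (hc.comp continuous_fst).clm_apply continuous_snd

theorem val_cont (g : Form n) {X : Type} [TopologicalSpace X] {a b : X → E n}
    (ha : Continuous a) (hb : Continuous b) : Continuous (fun z => g.val (a z) (b z) (b z)) :=
  ((g.smooth.continuous.comp ha).clm_apply hb).clm_apply hb

theorem nrm_cont (g : Form n) {X : Type} [TopologicalSpace X] {a b : X → E n}
    (ha : Continuous a) (hb : Continuous b) : Continuous (fun z => nrm g (a z) (b z)) := by
  unfold nrm
  exact Real.continuous_sqrt.comp (val_cont g ha hb)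

theorem nrm_nonneg (g : Form n) (x v : E n) : 0 ≤ nrm g x v := Real.sqrt_nonneg _

theorem nrm_sq (g : Form n) (x v : E n) : nrm g x v ^ 2 = g.val x v v :=
  Real.sq_sqrt (g.nonneg x v)

theorem nrm_smul (g : Form n) (x v : E n) (r : ℝ) (hr : 0 ≤ r) :
    nrm g x (r • v) = r * nrm g x v := by
  unfold nrm
  have e : g.val x (r • v) (r • v) = r ^ 2 * g.val x v v := by
    simp [pow_two, mul_assoc]
  rw [e, Real.sqrt_mul (by positivity), Real.sqrt_sq hr]

/-- integrability over the disk bundle of functions supported over a compact set -/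
theorem integrableOn_disk (h4 : StSub) (h3 : StOp) (g : Form n) (hg : Riem g) (χ : E n → ℝ)
    (hχ : Continuous χ) (hc : HasCompactSupport χ) (f : W n → ℝ) (hf : Continuous f) :
    IntegrableOn (fun z : W n => χ z.1 * f z) {z : W n | Hm g z ≤ 1 / 2} := by
  have hHc : Continuous (Hm g) := (h3 n g hg).2.2.2.2.2.2.2.1.continuous
  have hS := h4 n g hg (tsupport χ) (1 / 2) hc
  have h1 : IntegrableOn (fun z : W n => χ z.1 * f z)
      {z : W n | z.1 ∈ tsupport χ ∧ Hm g z ≤ 1 / 2} :=
    ((hχ.comp continuous_fst).mul hf).continuousOn.integrableOn_compact hS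
  refine h1.of_forall_sdiff_eq_zero (measurableSet_le hHc.measurable measurable_const) ?_
  rintro z ⟨hz1, hz2⟩
  have : z.1 ∉ tsupport χ := fun h => hz2 ⟨h, hz1⟩
  have h0 : χ z.1 = 0 := image_eq_zero_of_notMem_tsupport this
  simp [h0]

/-- the matrix of a Riemannian form is invertible -/
theorem isUnit_det (g : Form n) (hg : Riem g) (x : E n) : IsUnit (gm g x).det := by
  by_contra h
  have h0 : (gm g x).det = 0 := by
    by_contra h1
    exact h (isUnit_iff_ne_zero.2 h1)
  obtain ⟨w, hw, hw0⟩ := Matrix.exists_mulVec_eq_zero_iff.2 h0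
  set v : E n := ∑ i, w i • (ee i : E n) with hv
  have hcoord : ∀ j, v j = w j := by
    intro j
    simp [hv, ee, Pi.single_apply]
  have hvne : v ≠ 0 := by
    intro hv0
    apply hw
    funext j
    rw [← hcoord j, hv0]
    rfl
  have hpos := hg x v hvne
  have hzero : g.val x v v = 0 := by
    have e1 : g.val x v v = ∑ i, w i * ∑ j, g.val x (ee i) (ee j) * w j := by
      conv_lhs => rw [hv]
      simp only [map_sum, map_smul, sum_apply, smul_apply, smul_eq_mul,
        Finset.mul_sum]
      rw [Finset.sum_comm]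
      refine Finset.sum_congr rfl fun i _ => Finset.sum_congr rfl fun j _ => ?_
      ring
    have e2 : ∀ i, ∑ j, g.val x (ee i) (ee j) * w j = 0 := by
      intro i
      have := congrFun hw0 i
      simpa [Matrix.mulVec, dotProduct, gm] using this
    rw [e1]
    simp [e2]
  linarith

theorem tr_self (g : Form n) (hg : Riem g) (x : E n) : tr g g x = n := by
  unfold tr
  rw [Matrix.nonsing_inv_mul _ (isUnit_det g hg x)]
  simp

/-- the second moment is positive -/
theorem cn_pos (hn : 0 < n) : 0 < cn n := by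
  unfold cn
  have hc : Continuous (fun ξ : E n => ‖ξ‖ ^ 2) := continuous_norm.pow 2
  rw [setIntegral_pos_iff_support_of_nonneg_ae
    (Eventually.of_forall fun ξ => by positivity)
    (hc.continuousOn.integrableOn_compact (isCompact_closedBall _ _))]
  have hsub : Metric.ball (0 : E n) 1 ∩ {0}ᶜ ⊆
      Function.support (fun ξ : E n => ‖ξ‖ ^ 2) ∩ Metric.closedBall (0 : E n) 1 := by
    rintro ξ ⟨h1, h2⟩
    refine ⟨?_, Metric.ball_subset_closedBall h1⟩
    have : ξ ≠ 0 := h2
    simp [Function.mem_support, this]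
  refine lt_of_lt_of_le ?_ (measure_mono hsub)
  refine IsOpen.measure_pos _ (Metric.isOpen_ball.inter isOpen_compl_singleton) ?_
  refine ⟨(1 / 2 : ℝ) • (ee ⟨0, hn⟩ : E n), ?_, ?_⟩
  · simp only [Metric.mem_ball, dist_zero_right, norm_smul, ee]
    norm_num
  · simp only [mem_compl_iff, mem_singleton_iff, smul_eq_zero, not_or, ee]
    refine ⟨by norm_num, ?_⟩
    intro h
    have := congrArg (fun u : E n => u ⟨0, hn⟩) h
    simp at this

/-- Fubini and the fibre integral -/
theorem fubini (h2 : StFib) (h3 : StOp) (h4 : StSub) (g1 g2 : Form n) (hR : Riem g1)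
    (χ : E n → ℝ) (hχ : Continuous χ) (hc : HasCompactSupport χ) :
    ∫ z in {z : W n | Hm g1 z ≤ 1 / 2}, χ z.1 * g2.val z.1 (vel g1 z) (vel g1 z) =
      cn n / n * ∫ x, χ x * (tr g1 g2 x * dens g1 x) := by
  have hHc : Continuous (Hm g1) := (h3 n g1 hR).2.2.2.2.2.2.2.1.continuous
  have hvc : Continuous (vel g1) := vel_cont h3 g1 hR
  set B : Set (W n) := {z : W n | Hm g1 z ≤ 1 / 2} with hB
  have hBm : MeasurableSet B := measurableSet_le hHc.measurable measurable_const
  set f : W n → ℝ := fun z => χ z.1 * g2.val z.1 (vel g1 z) (vel g1 z) with hf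
  have hfc : Continuous (fun z : W n => g2.val z.1 (vel g1 z) (vel g1 z)) :=
    val_cont g2 continuous_fst hvc
  have hint : IntegrableOn f B := integrableOn_disk h4 h3 g1 hR χ hχ hc _ hfc
  have hint2 : Integrable (B.indicator f) (volume : Measure (W n)) :=
    (integrable_indicator_iff hBm).2 hint
  rw [← integral_indicator hBm]
  have e0 : ∫ z, B.indicator f z = ∫ x, ∫ p, B.indicator f (x, p) := by
    rw [Measure.volume_eq_prod] at hint2 ⊢
    exact integral_prod _ hint2
  rw [e0, ← integral_const_mul]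
  refine integral_congr_ae (Eventually.of_forall fun x => ?_)
  change ∫ p, B.indicator f (x, p) = cn n / n * (χ x * (tr g1 g2 x * dens g1 x))
  have hBx : MeasurableSet {p : E n | Hm g1 (x, p) ≤ 1 / 2} :=
    measurableSet_le (hHc.comp (continuous_const.prodMk continuous_id)).measurable measurable_const
  have e1 : (fun p => B.indicator f (x, p)) =
      {p : E n | Hm g1 (x, p) ≤ 1 / 2}.indicator
        (fun p => χ x * g2.val x (vel g1 (x, p)) (vel g1 (x, p))) := by
    funext p
    by_cases hp : Hm g1 (x, p) ≤ 1 / 2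
    · rw [indicator_of_mem (show (x, p) ∈ B from hp),
        indicator_of_mem (show p ∈ {p : E n | Hm g1 (x, p) ≤ 1 / 2} from hp)]
    · rw [indicator_of_notMem (show (x, p) ∉ B from hp),
        indicator_of_notMem (show p ∉ {p : E n | Hm g1 (x, p) ≤ 1 / 2} from hp)]
  rw [e1, integral_indicator hBx, integral_const_mul, h2 n g1 hR x (g2.val x)]
  change χ x * (tr g1 g2 x / n * cn n * dens g1 x) = _
  ring

end IMain

open IMain in
/-- the main inequality and its equality case from the key inequality of the same pair of forms -/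
theorem coreMain (h2 : StFib) (h3 : StOp) (h4 : StSub) (n : ℕ) (G : Type) [Group G]
    [MulAction G (E n)] (g1 g2 : Form n) (hR : Riem g1) (hI1 : Inv G g1) (hI2 : Inv G g2)
    (χ : E n → ℝ) (hχ : PU G χ)
    (hkey : ∫ z in {z : W n | Hm g1 z ≤ 1 / 2}, χ z.1 * g1.val z.1 (vel g1 z) (vel g1 z) ≤
      ∫ z in {z : W n | Hm g1 z ≤ 1 / 2}, χ z.1 * (nrm g1 z.1 (vel g1 z) *
        nrm g2 z.1 (vel g1 z))) :
    n * (∫ x, χ x * dens g1 x) ≤ ∫ x, χ x * (tr g1 g2 x * dens g1 x) ∧
    ((∫ x, χ x * (tr g1 g2 x * dens g1 x)) ≤ n * (∫ x, χ x * dens g1 x) → g1 = g2) := by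
  rcases Nat.eq_zero_or_pos n with hn0 | hn
  · subst hn0
    have ht : ∀ x, tr g1 g2 x = 0 := fun x => by
      unfold tr
      simp [Matrix.trace]
    refine ⟨by simp [ht], fun _ => ?_⟩
    ext x u v
    have hu : u = 0 := Subsingleton.elim _ _
    simp [hu]
  have hnR : (0 : ℝ) < n := by exact_mod_cast hn
  have hcn := cn_pos hn
  have hop := h3 n g1 hR
  have hHc : Continuous (Hm g1) := hop.2.2.2.2.2.2.2.1.continuous
  have hHm := hop.2.2.2.2.2.2.2.2
  have hvc : Continuous (vel g1) := vel_cont h3 g1 hR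
  have hχc : Continuous χ := hχ.smooth.continuous
  set B : Set (W n) := {z : W n | Hm g1 z ≤ 1 / 2} with hB
  have hBm : MeasurableSet B := measurableSet_le hHc.measurable measurable_const
  set a : W n → ℝ := fun z => nrm g1 z.1 (vel g1 z) with ha
  set b : W n → ℝ := fun z => nrm g2 z.1 (vel g1 z) with hb
  have hac : Continuous a := nrm_cont g1 continuous_fst hvc
  have hbc : Continuous b := nrm_cont g2 continuous_fst hvc
  have haa : ∀ z, g1.val z.1 (vel g1 z) (vel g1 z) = a z ^ 2 := fun z => (nrm_sq g1 _ _).symm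
  have hbb : ∀ z, g2.val z.1 (vel g1 z) (vel g1 z) = b z ^ 2 := fun z => (nrm_sq g2 _ _).symm
  have F1 := fubini h2 h3 h4 g1 g1 hR χ hχc hχ.cpt
  have F2 := fubini h2 h3 h4 g1 g2 hR χ hχc hχ.cpt
  rw [← hB] at F1 F2
  have i1 : IntegrableOn (fun z : W n => χ z.1 * a z ^ 2) B :=
    integrableOn_disk h4 h3 g1 hR χ hχc hχ.cpt _ (hac.pow 2)
  have i2 : IntegrableOn (fun z : W n => χ z.1 * b z ^ 2) B :=
    integrableOn_disk h4 h3 g1 hR χ hχc hχ.cpt _ (hbc.pow 2)
  have i3 : IntegrableOn (fun z : W n => χ z.1 * (a z * b z)) B :=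
    integrableOn_disk h4 h3 g1 hR χ hχc hχ.cpt _ (hac.mul hbc)
  have i4 : IntegrableOn (fun z : W n => χ z.1 * (a z - b z) ^ 2) B :=
    integrableOn_disk h4 h3 g1 hR χ hχc hχ.cpt _ ((hac.sub hbc).pow 2)
  have F1' : ∫ z in B, χ z.1 * a z ^ 2 = cn n * ∫ x, χ x * dens g1 x := by
    have e : ∫ z in B, χ z.1 * a z ^ 2 =
        ∫ z in B, χ z.1 * g1.val z.1 (vel g1 z) (vel g1 z) := by
      simp only [haa]
    rw [e, F1]
    have e2 : (∫ x, χ x * (tr g1 g1 x * dens g1 x)) = n * ∫ x, χ x * dens g1 x := by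
      rw [← integral_const_mul]
      refine integral_congr_ae (Eventually.of_forall fun x => ?_)
      change χ x * (tr g1 g1 x * dens g1 x) = n * (χ x * dens g1 x)
      rw [tr_self g1 hR x]
      ring
    rw [e2]
    field_simp
  have F2' : ∫ z in B, χ z.1 * b z ^ 2 = cn n / n * ∫ x, χ x * (tr g1 g2 x * dens g1 x) := by
    rw [← F2]
    simp only [hbb]
  have K : ∫ z in B, χ z.1 * a z ^ 2 ≤ ∫ z in B, χ z.1 * (a z * b z) := by
    simpa only [haa] using hkey
  have hexp : ∫ z in B, χ z.1 * (a z - b z) ^ 2 =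
      (∫ z in B, χ z.1 * a z ^ 2) - 2 * (∫ z in B, χ z.1 * (a z * b z)) +
        ∫ z in B, χ z.1 * b z ^ 2 := by
    have q1 : ∫ z in B, (χ z.1 * a z ^ 2 - 2 * (χ z.1 * (a z * b z))) =
        (∫ z in B, χ z.1 * a z ^ 2) - 2 * (∫ z in B, χ z.1 * (a z * b z)) := by
      rw [← integral_const_mul]
      exact integral_sub i1 (i3.const_mul 2)
    have q2 : ∫ z in B, ((χ z.1 * a z ^ 2 - 2 * (χ z.1 * (a z * b z))) + χ z.1 * b z ^ 2) =
        (∫ z in B, (χ z.1 * a z ^ 2 - 2 * (χ z.1 * (a z * b z)))) +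
          ∫ z in B, χ z.1 * b z ^ 2 :=
      integral_add (i1.sub (i3.const_mul 2)) i2
    rw [← q1, ← q2]
    refine integral_congr_ae (Eventually.of_forall fun z => ?_)
    change χ z.1 * (a z - b z) ^ 2 =
      (χ z.1 * a z ^ 2 - 2 * (χ z.1 * (a z * b z))) + χ z.1 * b z ^ 2
    ring
  have hnn : ∀ z : W n, 0 ≤ χ z.1 * (a z - b z) ^ 2 := fun z =>
    mul_nonneg (hχ.nonneg _) (sq_nonneg _)
  have hge : 0 ≤ ∫ z in B, χ z.1 * (a z - b z) ^ 2 := integral_nonneg hnn
  set P := ∫ x, χ x * dens g1 x with hP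
  set Q := ∫ x, χ x * (tr g1 g2 x * dens g1 x) with hQ
  have hdiff : ∫ z in B, χ z.1 * (a z - b z) ^ 2 ≤ cn n / n * (Q - n * P) := by
    have e : cn n / n * (Q - n * P) = cn n / n * Q - cn n * P := by
      field_simp
    rw [e, hexp, F2', ← F1']
    linarith
  have hcnn : 0 < cn n / n := div_pos hcn hnR
  constructor
  · by_contra hcon
    push Not at hcon
    have : cn n / n * (Q - n * P) < 0 := mul_neg_of_pos_of_neg hcnn (by linarith)
    linarith
  · intro hle
    have hzero : ∫ z in B, χ z.1 * (a z - b z) ^ 2 = 0 := by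
      have : cn n / n * (Q - n * P) ≤ 0 :=
        mul_nonpos_of_nonneg_of_nonpos hcnn.le (by linarith)
      linarith
    have hae : (fun z : W n => χ z.1 * (a z - b z) ^ 2) =ᵐ[volume.restrict B] 0 :=
      (integral_eq_zero_iff_of_nonneg hnn i4).1 hzero
    have hcont : Continuous (fun z : W n => χ z.1 * (a z - b z) ^ 2) :=
      (hχc.comp continuous_fst).mul ((hac.sub hbc).pow 2)
    -- vanishing on the open set
    have hopen : ∀ z : W n, Hm g1 z < 1 / 2 → χ z.1 * (a z - b z) ^ 2 = 0 := by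
      intro z hz
      by_contra hne
      set U : Set (W n) := {z | Hm g1 z < 1 / 2} ∩ {z | χ z.1 * (a z - b z) ^ 2 ≠ 0} with hU
      have hUo : IsOpen U :=
        (isOpen_lt hHc continuous_const).inter (isOpen_ne_fun hcont continuous_const)
      have hUp : 0 < (volume : Measure (W n)) U := hUo.measure_pos _ ⟨z, hz, hne⟩
      have hUB : U ⊆ B := by
        intro w hw
        have h6 : Hm g1 w < 1 / 2 := hw.1
        exact h6.le
      have h0 : (volume : Measure (W n)) U = 0 := by
        have h5 : (volume.restrict B) {w : W n | ¬ (χ w.1 * (a w - b w) ^ 2 = 0)} = 0 := hae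
        rw [Measure.restrict_apply' hBm] at h5
        have hsub : U ⊆ {w : W n | ¬ (χ w.1 * (a w - b w) ^ 2 = 0)} ∩ B :=
          fun w hw => ⟨hw.2, hUB hw⟩
        exact measure_mono_null hsub h5
      exact absurd h0 hUp.ne'
    -- equality of the norms over the support
    have hsupp : ∀ x, 0 < χ x → ∀ v, g1.val x v v = g2.val x v v := by
      intro x hx v
      set t : ℝ := 1 / (1 + nrm g1 x v) with ht
      have hN := nrm_nonneg g1 x v
      have ht0 : 0 < t := by positivity
      have hvel : vel g1 (x, op g1 x (t • v)) = t • v := hop.2.2.1 x (t • v)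
      have hlt : Hm g1 (x, op g1 x (t • v)) < 1 / 2 := by
        rw [hHm, hvel]
        have e : g1.val x (t • v) (t • v) = (t * nrm g1 x v) ^ 2 := by
          rw [← nrm_sq, nrm_smul g1 x v t ht0.le]
        change 1 / 2 * g1.val x (t • v) (t • v) < 1 / 2
        rw [e]
        have h6 : t * nrm g1 x v < 1 := by
          rw [ht, one_div, inv_mul_lt_iff₀ (by positivity)]
          linarith
        have h7 : 0 ≤ t * nrm g1 x v := by positivity
        nlinarith
      have h8 := hopen _ hlt
      have h9 : a (x, op g1 x (t • v)) = b (x, op g1 x (t • v)) := by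
        rcases mul_eq_zero.1 h8 with h | h
        · exact absurd h hx.ne'
        · have := pow_eq_zero_iff (two_ne_zero) |>.1 h
          linarith
      have h10 : nrm g1 x (t • v) = nrm g2 x (t • v) := by
        simp only [ha, hb, hvel] at h9
        exact h9
      rw [nrm_smul g1 x v t ht0.le, nrm_smul g2 x v t ht0.le] at h10
      have h11 : nrm g1 x v = nrm g2 x v := mul_left_cancel₀ ht0.ne' h10
      rw [← nrm_sq, ← nrm_sq, h11]
    have hall : ∀ x v, g1.val x v v = g2.val x v v := by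
      intro x v
      have hs := hχ.sum x
      have hex : ∃ c : G, χ (c • x) ≠ 0 := by
        by_contra hcon
        push Not at hcon
        have : HasSum (fun c : G => χ (c • x)) 0 := by
          simp only [hcon]
          exact hasSum_zero
        exact zero_ne_one (this.unique hs)
      obtain ⟨c, hc⟩ := hex
      have hcp : 0 < χ (c • x) := lt_of_le_of_ne (hχ.nonneg _) (Ne.symm hc)
      have := hsupp (c • x) hcp (dac c x v)
      rw [hI1, hI2] at this
      exact this
    ext x u v
    have p1 := hall x (u + v)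
    have p2 := hall x u
    have p3 := hall x v
    have s1 := g1.symm x u v
    have s2 := g2.symm x u v
    simp only [map_add, add_apply] at p1
    linarith

/-- the main inequality and its equality case from the inequality for long segments of geodesics;
the hypothesis `hK` is the statement of `keyS` in the file `I_Key` -/
theorem mainS
    (hK : ∀ (n : ℕ) (G : Type) [Group G] [MulAction G (E n)], Cocompact n G →
      ∀ g1 g2 : Form n, Riem g1 → Inv G g1 → Inv G g2 →
      (∃ C', 0 ≤ C' ∧ ∀ c : ℝ → E n, IsGeo g1 c →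
        (∀ t, g1.val (c t) (deriv c t) (deriv c t) = 1) → ∀ T, 0 ≤ T →
        T - C' ≤ ∫ t in (0 : ℝ)..T, nrm g2 (c t) (deriv c t)) → ∀ χ : E n → ℝ, PU G χ →
      ∫ z in {z : W n | Hm g1 z ≤ 1 / 2}, χ z.1 * g1.val z.1 (vel g1 z) (vel g1 z) ≤
        ∫ z in {z : W n | Hm g1 z ≤ 1 / 2}, χ z.1 * (nrm g1 z.1 (vel g1 z) *
          nrm g2 z.1 (vel g1 z)))
    (h2 : StFib) (h3 : StOp) (h4 : StSub) :
    ∀ (n : ℕ) (G : Type) [Group G] [MulAction G (E n)], Cocompact n G →
    ∀ g1 g2 : Form n, Riem g1 → Inv G g1 → Inv G g2 →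
    (∃ C', 0 ≤ C' ∧ ∀ c : ℝ → E n, IsGeo g1 c →
      (∀ t, g1.val (c t) (deriv c t) (deriv c t) = 1) → ∀ T, 0 ≤ T →
      T - C' ≤ ∫ t in (0 : ℝ)..T, nrm g2 (c t) (deriv c t)) → ∀ χ : E n → ℝ, PU G χ →
    n * (∫ x, χ x * dens g1 x) ≤ ∫ x, χ x * (tr g1 g2 x * dens g1 x) ∧
    ((∫ x, χ x * (tr g1 g2 x * dens g1 x)) ≤ n * (∫ x, χ x * dens g1 x) → g1 = g2) := by
  intro n G _ _ hG g1 g2 hR hI1 hI2 hS χ hχ
  exact coreMain h2 h3 h4 n G g1 g2 hR hI1 hI2 χ hχ (hK n G hG g1 g2 hR hI1 hI2 hS χ hχ)

theorem pr_Main (h1 : StKey) (h2 : StFib) (h3 : StOp) (h4 : StSub) : StMain := by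
  intro n G _ _ hG g1 g2 hR hI1 hI2 hM hH hL χ hχ
  exact coreMain h2 h3 h4 n G g1 g2 hR hI1 hI2 χ hχ (h1 n G hG g1 g2 hR hI1 hI2 hM hH hL χ hχ)

end Pool.Agent.MLS
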