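import Mathlib
import Pool.Agent.Work.MP_25cd3b_gt.M.Stmts

set_option autoImplicit false

/-! # MP_25cd3b_gt, item PU: invariant partition of unity -/

open MeasureTheory Set Filter Topology
open scoped ContDiff

namespace Pool.Agent.MLS

namespace IPU

/-- the translates of a function with support in a ball are locally finite -/
theorem fin_near {n : ℕ} {G : Type} [Group G] [MulAction G (E n)] (hG : Cocompact n G)
    (h : E n → ℝ) (r : ℝ) (hr : ∀ x, h x ≠ 0 → x ∈ Metric.closedBall (0 : E n) r) (x : E n) :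
    ∃ F : Finset G, ∀ y ∈ Metric.ball x 1, ∀ a : G, h (a • y) ≠ 0 → a ∈ F := by
  have hf := hG.proper (Metric.closedBall (0 : E n) r ∪ Metric.closedBall x 1)
    ((isCompact_closedBall _ _).union (isCompact_closedBall _ _))
  refine ⟨hf.toFinset, fun y hy a ha => ?_⟩
  rw [Set.Finite.mem_toFinset]
  exact ⟨a • y, ⟨y, Or.inr (Metric.ball_subset_closedBall hy), rfl⟩, Or.inl (hr _ ha)⟩

end IPU

open IPU in
theorem pr_PU : StPU := by
  intro n G _ _ hG
  obtain ⟨K, hK, hcov⟩ := hG.cocompact
  obtain ⟨R, hR⟩ := hK.isBounded.subset_closedBall (0 : E n)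
  set r1 : ℝ := max R 0 + 1 with hr1
  have hr1p : 0 < r1 := by have := le_max_right R 0; linarith
  let f : ContDiffBump (0 : E n) := ⟨r1, r1 + 1, hr1p, by linarith⟩
  have hfin : f.rIn = r1 := rfl
  have hfout : f.rOut = r1 + 1 := rfl
  have hsup : ∀ x, f x ≠ 0 → x ∈ Metric.closedBall (0 : E n) (r1 + 1) := by
    intro x hx
    have : x ∈ Function.support (f : E n → ℝ) := hx
    rw [f.support_eq] at this
    exact Metric.ball_subset_closedBall this
  have hone : ∀ x ∈ K, f x = 1 := by
    intro x hx
    apply f.one_of_mem_closedBall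
    have h1 := hR hx
    rw [Metric.mem_closedBall] at h1 ⊢
    rw [hfin]
    have := le_max_left R 0
    linarith
  have hnn : ∀ x, 0 ≤ f x := fun x => f.nonneg
  -- the sum
  set s : E n → ℝ := fun x => ∑ᶠ a : G, f (a • x) with hs
  have hsupx : ∀ x, (Function.support fun a : G => f (a • x)).Finite := by
    intro x
    obtain ⟨F, hF⟩ := fin_near hG (fun x => f x) (r1 + 1) hsup x
    exact F.finite_toSet.subset fun a ha => hF x (Metric.mem_ball_self one_pos) a ha
  have hspos : ∀ x, 0 < s x := by
    intro x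
    obtain ⟨a, ha⟩ := hcov x
    have h1 : s x = ∑ a ∈ (hsupx x).toFinset, f (a • x) :=
      finsum_eq_sum_of_support_subset _ (by simp)
    rw [h1]
    have h2 : f (a • x) = 1 := hone _ ha
    have h3 : a ∈ (hsupx x).toFinset := by
      rw [Set.Finite.mem_toFinset, Function.mem_support, h2]
      exact one_ne_zero
    exact Finset.sum_pos' (fun b _ => hnn _) ⟨a, h3, by rw [h2]; exact one_pos⟩
  have hsinv : ∀ (b : G) (x : E n), s (b • x) = s x := by
    intro b x
    show (∑ᶠ a : G, f (a • b • x)) = ∑ᶠ a : G, f (a • x)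
    have h1 : (fun a : G => f (a • b • x)) = fun a : G => f (Equiv.mulRight b a • x) := by
      funext a
      show f (a • b • x) = f ((a * b) • x)
      rw [mul_smul]
    have h2 : (∑ᶠ a : G, f (Equiv.mulRight b a • x)) = ∑ᶠ a : G, f (a • x) :=
      finsum_comp_equiv (Equiv.mulRight b) (f := fun a : G => f (a • x))
    rw [h1]
    exact h2
  have hssm : ContDiff ℝ ∞ s := by
    rw [contDiff_iff_contDiffAt]
    intro x
    obtain ⟨F, hF⟩ := fin_near hG (fun x => f x) (r1 + 1) hsup x
    have h1 : s =ᶠ[𝓝 x] fun y => ∑ a ∈ F, f (a • y) := by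
      filter_upwards [Metric.ball_mem_nhds x one_pos] with y hy
      exact finsum_eq_sum_of_support_subset _ fun a ha => hF y hy a ha
    have h2 : ContDiff ℝ ∞ fun y : E n => ∑ a ∈ F, f (a • y) :=
      ContDiff.sum fun a _ => f.contDiff.comp (hG.smooth a)
    exact h2.contDiffAt.congr_of_eventuallyEq h1
  refine ⟨fun x => f x * (s x)⁻¹, ?_, ?_, ?_, ?_⟩
  · exact f.contDiff.mul (hssm.inv fun x => (hspos x).ne')
  · intro x
    exact mul_nonneg (hnn x) (inv_nonneg.2 (hspos x).le)
  · exact f.hasCompactSupport.mul_right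
  · intro x
    have h1 : HasSum (fun a : G => f (a • x)) (s x) := by
      have h1 : s x = ∑ a ∈ (hsupx x).toFinset, f (a • x) :=
        finsum_eq_sum_of_support_subset _ (by simp)
      rw [h1]
      apply hasSum_sum_of_ne_finset_zero
      intro a ha
      by_contra hne
      exact ha (by rw [Set.Finite.mem_toFinset]; exact hne)
    have h2 := h1.mul_right (s x)⁻¹
    rw [mul_inv_cancel₀ (hspos x).ne'] at h2
    have h3 : (fun a : G => f (a • x) * (s (a • x))⁻¹) = fun a : G => f (a • x) * (s x)⁻¹ := by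
      funext a
      rw [hsinv a x]
    show HasSum (fun a : G => f (a • x) * (s (a • x))⁻¹) 1
    rw [h3]
    exact h2

end Pool.Agent.MLS
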