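import Mathlib
import Pool.Agent.Work.MP_25cd3b_gt.M.Stmts
import Pool.Agent.Work.MP_c9f990_an.Al.Stmts

set_option autoImplicit false

/-!
# MP_25cd3b_gt, item Patch: completeness of vector fields whose solutions stay in compact sets

The flows of the cut-off fields are patched together.
-/

open MeasureTheory Set Filter Topology
open scoped ContDiff ENNReal NNReal
open Pool.Agent.Work.MP_c9f990_an.Al (IsFlow)

namespace Pool.Agent.MLS

namespace IPatch

variable {Q : Type} [NormedAddCommGroup Q] [NormedSpace ℝ Q] [FiniteDimensional ℝ Q]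

/-- a `C^1` field is Lipschitz on closed balls -/
theorem lip (F : Q → Q) (hF : ContDiff ℝ 1 F) (ρ : ℝ) :
    ∃ K : ℝ≥0, LipschitzOnWith K F (Metric.closedBall 0 ρ) := by
  have : ProperSpace Q := FiniteDimensional.proper ℝ Q
  have hc : Continuous (fderiv ℝ F) := hF.continuous_fderiv (by norm_num)
  obtain ⟨C, hC⟩ := (isCompact_closedBall (0 : Q) ρ).exists_bound_of_continuousOn
    hc.continuousOn
  refine ⟨Real.toNNReal C, ?_⟩
  apply Convex.lipschitzOnWith_of_nnnorm_fderiv_le (𝕜 := ℝ)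
    (fun x _ => (hF.differentiable (by norm_num)) x) _ (convex_closedBall _ _)
  intro x hx
  have h1 := hC x hx
  rw [← NNReal.coe_le_coe, coe_nnnorm]
  exact le_trans h1 (Real.le_coe_toNNReal C)

/-- uniqueness of solutions on a symmetric interval -/
theorem uniq_sym (F : Q → Q) (hF : ContDiff ℝ 1 F) (T : ℝ) (f g : ℝ → Q)
    (hf : ∀ t, |t| ≤ T → HasDerivAt f (F (f t)) t) (hg : ∀ t, |t| ≤ T → HasDerivAt g (F (g t)) t)
    (h0 : f 0 = g 0) : ∀ t, |t| ≤ T → f t = g t := by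
  intro t ht
  rcases (abs_nonneg t).lt_or_eq with h | h
  · have hT : 0 < T := lt_of_lt_of_le h ht
    have hfc : ContinuousOn f (Icc (-T) T) := fun s hs =>
      (hf s (abs_le.2 hs)).continuousAt.continuousWithinAt
    have hgc : ContinuousOn g (Icc (-T) T) := fun s hs =>
      (hg s (abs_le.2 hs)).continuousAt.continuousWithinAt
    obtain ⟨A, hA⟩ := (isCompact_Icc (a := -T) (b := T)).exists_bound_of_continuousOn hfc
    obtain ⟨B, hB⟩ := (isCompact_Icc (a := -T) (b := T)).exists_bound_of_continuousOn hgc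
    obtain ⟨K, hK⟩ := lip F hF (max A B)
    have h1 : EqOn f g (Icc (-T) T) := by
      apply ODE_solution_unique_of_mem_Icc (v := fun _ => F)
        (s := fun _ => Metric.closedBall 0 (max A B)) (K := K) (t₀ := 0)
        (fun _ _ => hK) ⟨by linarith, hT⟩ hfc _ _ hgc _ _ h0
      · intro s hs
        exact hf s (abs_le.2 ⟨hs.1.le, hs.2.le⟩)
      · intro s hs
        rw [mem_closedBall_zero_iff]
        exact le_trans (hA s ⟨hs.1.le, hs.2.le⟩) (le_max_left _ _)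
      · intro s hs
        exact hg s (abs_le.2 ⟨hs.1.le, hs.2.le⟩)
      · intro s hs
        rw [mem_closedBall_zero_iff]
        exact le_trans (hB s ⟨hs.1.le, hs.2.le⟩) (le_max_right _ _)
    exact h1 (abs_le.1 ht)
  · have h2 : t = 0 := abs_eq_zero.1 h.symm
    rw [h2, h0]

/-- uniqueness of solutions on the half line -/
theorem uniq_half (F : Q → Q) (hF : ContDiff ℝ 1 F) (f g : ℝ → Q)
    (hf : ∀ t, 0 ≤ t → HasDerivWithinAt f (F (f t)) (Ici 0) t)
    (hg : ∀ t, 0 ≤ t → HasDerivWithinAt g (F (g t)) (Ici 0) t)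
    (h0 : f 0 = g 0) : ∀ t, 0 ≤ t → f t = g t := by
  intro t ht
  have hfc : ContinuousOn f (Icc 0 t) := fun s hs =>
    ((hf s hs.1).continuousWithinAt).mono Icc_subset_Ici_self
  have hgc : ContinuousOn g (Icc 0 t) := fun s hs =>
    ((hg s hs.1).continuousWithinAt).mono Icc_subset_Ici_self
  obtain ⟨A, hA⟩ := (isCompact_Icc (a := 0) (b := t)).exists_bound_of_continuousOn hfc
  obtain ⟨B, hB⟩ := (isCompact_Icc (a := 0) (b := t)).exists_bound_of_continuousOn hgc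
  obtain ⟨K, hK⟩ := lip F hF (max A B)
  have h1 : EqOn f g (Icc 0 t) := by
    apply ODE_solution_unique_of_mem_Icc_right (v := fun _ => F)
      (s := fun _ => Metric.closedBall 0 (max A B)) (K := K)
      (fun _ _ => hK) hfc _ _ hgc _ _ h0
    · intro s hs
      exact (hf s hs.1).mono (Ici_subset_Ici.2 hs.1)
    · intro s hs
      rw [mem_closedBall_zero_iff]
      exact le_trans (hA s ⟨hs.1, hs.2.le⟩) (le_max_left _ _)
    · intro s hs
      exact (hg s hs.1).mono (Ici_subset_Ici.2 hs.1)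
    · intro s hs
      rw [mem_closedBall_zero_iff]
      exact le_trans (hB s ⟨hs.1, hs.2.le⟩) (le_max_right _ _)
  exact h1 ⟨ht, le_refl t⟩

/-- The flows of the cut-off fields. -/
theorem pieces (hFL : Pool.Agent.Work.MP_c9f990_an.Al.FLOW) (F : Q → Q) (hF : ContDiff ℝ 1 F)
    (hS : ∀ (S : Set Q) (T : ℝ), IsCompact S → ∃ S' : Set Q, IsCompact S' ∧ ∀ ψ : Q → ℝ,
      ContDiff ℝ ∞ ψ → (∀ z, 0 ≤ ψ z ∧ ψ z ≤ 1) → ∀ y : ℝ → Q,
      (∀ t, HasDerivAt y (ψ (y t) • F (y t)) t) → y 0 ∈ S → ∀ t, |t| ≤ T → y t ∈ S') (k : ℕ) :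
    ∃ (G : Q → Q) (φ : ℝ → Q → Q) (M : ℝ → Q → Q →L[ℝ] Q), IsFlow G φ M ∧
      ∀ t z, |t| ≤ (k : ℝ) → ‖z‖ ≤ (k : ℝ) → ∀ᶠ w in 𝓝 (φ t z), G w = F w := by
  have : ProperSpace Q := FiniteDimensional.proper ℝ Q
  obtain ⟨S', hS', hS2⟩ := hS (Metric.closedBall 0 (k : ℝ)) k (isCompact_closedBall _ _)
  obtain ⟨ρ, hρ0, hρ⟩ : ∃ ρ : ℝ, 0 < ρ ∧ S' ⊆ Metric.ball 0 ρ :=
    hS'.isBounded.subset_ball_lt 0 0
  let b : ContDiffBump (0 : Q) := ⟨ρ, ρ + 1, hρ0, by linarith⟩
  have hb : ContDiff ℝ ∞ (b : Q → ℝ) := b.contDiff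
  have hG : ContDiff ℝ 1 (fun z => b z • F z) := (hb.of_le (by norm_num)).smul hF
  have hcs : HasCompactSupport (fun z => b z • F z) := b.hasCompactSupport.smul_right
  obtain ⟨L, hL⟩ := hG.lipschitzWith_of_hasCompactSupport hcs (by norm_num)
  obtain ⟨φ, M, hφ⟩ := hFL Q (fun z => b z • F z) L hL hG
  refine ⟨fun z => b z • F z, φ, M, hφ, ?_⟩
  intro t z ht hz
  have h1 : φ t z ∈ S' := by
    apply hS2 b hb (fun w => ⟨b.nonneg, b.le_one⟩) (fun s => φ s z) (fun s => hφ.ode z s) _ t ht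
    rw [hφ.zero]
    exact mem_closedBall_zero_iff.2 hz
  have h2 : Metric.ball (0 : Q) ρ ∈ 𝓝 (φ t z) := Metric.isOpen_ball.mem_nhds (hρ h1)
  filter_upwards [h2] with w hw
  have h3 : b w = 1 := b.one_of_mem_closedBall (Metric.ball_subset_closedBall hw)
  change b w • F w = F w
  rw [h3, one_smul]

end IPatch

open IPatch in
/-- Item Patch. -/
theorem pr_Patch (h1 : Pool.Agent.Work.MP_c9f990_an.Al.FLOW) : StPatch := by
  intro Q _ _ _ F hF hS
  have : ProperSpace Q := FiniteDimensional.proper ℝ Q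
  choose G f N hfl hG using pieces h1 F hF hS
  -- compatibility
  have hGF : ∀ (k : ℕ) t z, |t| ≤ (k : ℝ) → ‖z‖ ≤ (k : ℝ) → G k (f k t z) = F (f k t z) :=
    fun k t z ht hz => (hG k t z ht hz).self_of_nhds
  have hGD : ∀ (k : ℕ) t z, |t| ≤ (k : ℝ) → ‖z‖ ≤ (k : ℝ) →
      fderiv ℝ (G k) (f k t z) = fderiv ℝ F (f k t z) :=
    fun k t z ht hz => Filter.EventuallyEq.fderiv_eq (hG k t z ht hz)
  have hode : ∀ (k : ℕ) t z, |t| ≤ (k : ℝ) → ‖z‖ ≤ (k : ℝ) →
      HasDerivAt (fun s => f k s z) (F (f k t z)) t := by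
    intro k t z ht hz
    have h2 := (hfl k).ode z t
    rw [hGF k t z ht hz] at h2
    exact h2
  have hcomp : ∀ (k m : ℕ) t z, |t| ≤ (k : ℝ) → |t| ≤ (m : ℝ) → ‖z‖ ≤ (k : ℝ) →
      ‖z‖ ≤ (m : ℝ) → f k t z = f m t z := by
    intro k m t z ht ht' hz hz'
    apply uniq_sym F hF (min (k : ℝ) m) (fun s => f k s z) (fun s => f m s z)
    · intro s hs
      exact hode k s z (le_trans hs (min_le_left _ _)) hz
    · intro s hs
      exact hode m s z (le_trans hs (min_le_right _ _)) hz'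
    · rw [(hfl k).zero, (hfl m).zero]
    · exact le_min ht ht'
  have hcompM : ∀ (k m : ℕ) t z, |t| ≤ (k : ℝ) → |t| ≤ (m : ℝ) → ‖z‖ < (k : ℝ) →
      ‖z‖ < (m : ℝ) → N k t z = N m t z := by
    intro k m t z ht ht' hz hz'
    have h2 : f k t =ᶠ[𝓝 z] f m t := by
      have h3 : ∀ᶠ w in 𝓝 z, ‖w‖ < (k : ℝ) := continuous_norm.continuousAt.eventually_lt_const hz
      have h4 : ∀ᶠ w in 𝓝 z, ‖w‖ < (m : ℝ) := continuous_norm.continuousAt.eventually_lt_const hz'
      filter_upwards [h3, h4] with w h5 h6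
      exact hcomp k m t w ht ht' h5.le h6.le
    exact ((hfl k).diff t z).unique (((hfl m).diff t z).congr_of_eventuallyEq h2)
  -- the index
  let J : ℝ → Q → ℕ := fun t z => ⌈max |t| ‖z‖⌉₊ + 1
  have hJ1 : ∀ t z, |t| < (J t z : ℝ) := by
    intro t z
    have h2 := Nat.le_ceil (max |t| ‖z‖)
    have h3 := le_max_left |t| ‖z‖
    have h4 : (J t z : ℝ) = (⌈max |t| ‖z‖⌉₊ : ℝ) + 1 := by
      simp [J]
    rw [h4]
    linarith
  have hJ2 : ∀ t z, ‖z‖ < (J t z : ℝ) := by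
    intro t z
    have h2 := Nat.le_ceil (max |t| ‖z‖)
    have h3 := le_max_right |t| ‖z‖
    have h4 : (J t z : ℝ) = (⌈max |t| ‖z‖⌉₊ : ℝ) + 1 := by
      simp [J]
    rw [h4]
    linarith
  let φ : ℝ → Q → Q := fun t z => f (J t z) t z
  let M : ℝ → Q → Q →L[ℝ] Q := fun t z => N (J t z) t z
  have hφ : ∀ (m : ℕ) t z, |t| ≤ (m : ℝ) → ‖z‖ ≤ (m : ℝ) → φ t z = f m t z := fun m t z ht hz =>
    hcomp (J t z) m t z (hJ1 t z).le ht (hJ2 t z).le hz
  have hM : ∀ (m : ℕ) t z, |t| ≤ (m : ℝ) → ‖z‖ < (m : ℝ) → M t z = N m t z := fun m t z ht hz =>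
    hcompM (J t z) m t z (hJ1 t z).le ht (hJ2 t z) hz
  have hodeφ : ∀ z t, HasDerivAt (fun s => φ s z) (F (φ t z)) t := by
    intro z t
    have h2 : (fun s => φ s z) =ᶠ[𝓝 t] (fun s => f (J t z) s z) := by
      have h3 : ∀ᶠ s in 𝓝 t, |s| < (J t z : ℝ) :=
        continuous_abs.continuousAt.eventually_lt_const (hJ1 t z)
      filter_upwards [h3] with s hs
      exact hφ (J t z) s z hs.le (hJ2 t z).le
    exact (hode (J t z) t z (hJ1 t z).le (hJ2 t z).le).congr_of_eventuallyEq h2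
  have hzero : ∀ z, φ 0 z = z := fun z => (hfl (J 0 z)).zero z
  refine ⟨φ, M, ?_⟩
  refine ⟨hzero, hodeφ, ?_, ?_, ?_, ?_, ?_, ?_, ?_⟩
  · -- group property
    intro s t z
    obtain ⟨m, hm⟩ := exists_nat_ge (max (|s| + |t|) (max ‖z‖ ‖φ t z‖))
    have e1 : |s| + |t| ≤ (m : ℝ) := le_trans (le_max_left _ _) hm
    have e2 : ‖z‖ ≤ (m : ℝ) := le_trans (le_trans (le_max_left _ _) (le_max_right _ _)) hm
    have e3 : ‖φ t z‖ ≤ (m : ℝ) := le_trans (le_trans (le_max_right _ _) (le_max_right _ _)) hm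
    have e4 : |s| ≤ (m : ℝ) := le_trans (le_add_of_nonneg_right (abs_nonneg t)) e1
    have e5 : |t| ≤ (m : ℝ) := le_trans (le_add_of_nonneg_left (abs_nonneg s)) e1
    rw [hφ m (s + t) z (le_trans (abs_add_le s t) e1) e2, (hfl m).add s t z,
      hφ m s (φ t z) e4 e3, hφ m t z e5 e2]
  · -- continuity
    rw [continuous_iff_continuousAt]
    rintro ⟨t, z⟩
    have h2 : (fun p : ℝ × Q => φ p.1 p.2) =ᶠ[𝓝 (t, z)] (fun p => f (J t z) p.1 p.2) := by
      have h3 : ∀ᶠ p : ℝ × Q in 𝓝 (t, z), |p.1| < (J t z : ℝ) :=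
        (continuous_abs.comp continuous_fst).continuousAt.eventually_lt_const (hJ1 t z)
      have h4 : ∀ᶠ p : ℝ × Q in 𝓝 (t, z), ‖p.2‖ < (J t z : ℝ) :=
        (continuous_norm.comp continuous_snd).continuousAt.eventually_lt_const (hJ2 t z)
      filter_upwards [h3, h4] with p h5 h6
      exact hφ (J t z) p.1 p.2 h5.le h6.le
    exact (hfl (J t z)).cont.continuousAt.congr h2.symm
  · -- derivative
    intro t z
    have h2 : φ t =ᶠ[𝓝 z] f (J t z) t := by
      have h4 : ∀ᶠ w in 𝓝 z, ‖w‖ < (J t z : ℝ) :=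
        continuous_norm.continuousAt.eventually_lt_const (hJ2 t z)
      filter_upwards [h4] with w h6
      exact hφ (J t z) t w (hJ1 t z).le h6.le
    exact ((hfl (J t z)).diff t z).congr_of_eventuallyEq h2
  · intro z
    exact (hfl (J 0 z)).M0 z
  · -- variational equation
    intro z t
    have h2 : (fun s => M s z) =ᶠ[𝓝 t] (fun s => N (J t z) s z) := by
      have h3 : ∀ᶠ s in 𝓝 t, |s| < (J t z : ℝ) :=
        continuous_abs.continuousAt.eventually_lt_const (hJ1 t z)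
      filter_upwards [h3] with s hs
      exact hM (J t z) s z hs.le (hJ2 t z)
    have h3 := (hfl (J t z)).Mode z t
    rw [hGD (J t z) t z (hJ1 t z).le (hJ2 t z).le] at h3
    exact h3.congr_of_eventuallyEq h2
  · -- continuity of the derivative
    rw [continuous_iff_continuousAt]
    rintro ⟨t, z⟩
    have h2 : (fun p : ℝ × Q => M p.1 p.2) =ᶠ[𝓝 (t, z)] (fun p => N (J t z) p.1 p.2) := by
      have h3 : ∀ᶠ p : ℝ × Q in 𝓝 (t, z), |p.1| < (J t z : ℝ) :=
        (continuous_abs.comp continuous_fst).continuousAt.eventually_lt_const (hJ1 t z)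
      have h4 : ∀ᶠ p : ℝ × Q in 𝓝 (t, z), ‖p.2‖ < (J t z : ℝ) :=
        (continuous_norm.comp continuous_snd).continuousAt.eventually_lt_const (hJ2 t z)
      filter_upwards [h3, h4] with p h5 h6
      exact hM (J t z) p.1 p.2 h5.le h6
    exact (hfl (J t z)).Mcont.continuousAt.congr h2.symm
  · -- uniqueness
    intro y hy t ht
    apply uniq_half F hF y (fun s => φ s (y 0)) hy _ (hzero (y 0)).symm t ht
    intro s _
    exact (hodeφ (y 0) s).hasDerivWithinAt

end Pool.Agent.MLS
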