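import Pool.Agent.Work.MP_25cd3b_gt.M.Stmts
import Mathlib

set_option autoImplicit false

/-!
# Item Pig: pigeonhole
-/

namespace Pool.Agent.MLS

namespace IPig

lemma main {N : ℕ} {F : ℕ → ℝ} {cell : ℕ → Fin N} {C : ℝ} (hC : 0 ≤ C) (hF : Monotone F)
    (h : ∀ i j : ℕ, i ≤ j → cell i = cell j → (j : ℝ) - i - C ≤ F j - F i) :
    ∀ (k : ℕ) (S : Finset (Fin N)), S.card ≤ k → ∀ a m : ℕ, a ≤ m →
      (∀ i, a ≤ i → i ≤ m → cell i ∈ S) → (m : ℝ) - a - k * (C + 1) ≤ F m - F a := by
  intro k
  induction k with
  | zero =>
    intro S hS a m ham hc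
    have h1 := hc a le_rfl ham
    have h2 : S = ∅ := Finset.card_eq_zero.1 (by omega)
    rw [h2] at h1
    exact absurd h1 (Finset.notMem_empty _)
  | succ k ih =>
    intro S hS a m ham hc
    set j := Nat.findGreatest (fun i => cell i = cell a) m with hj
    have hPj : cell j = cell a := Nat.findGreatest_spec (P := fun i => cell i = cell a) ham rfl
    have haj : a ≤ j := Nat.le_findGreatest ham rfl
    have hjm : j ≤ m := Nat.findGreatest_le m
    have h1 := h a j haj hPj.symm
    rcases Nat.lt_or_ge j m with hlt | hge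
    · have h2 : (S.erase (cell a)).card ≤ k := by
        rw [Finset.card_erase_of_mem (hc a le_rfl ham)]
        omega
      have h3 := ih (S.erase (cell a)) h2 (j + 1) m hlt (by
        intro i hi him
        refine Finset.mem_erase.2 ⟨?_, hc i (by omega) him⟩
        exact Nat.findGreatest_is_greatest (P := fun i => cell i = cell a) (by omega) him)
      have h4 : F j ≤ F (j + 1) := hF (Nat.le_succ j)
      push_cast at h3 ⊢
      linarith
    · have h2 : j = m := le_antisymm hjm hge
      rw [h2] at h1
      have h3 : (0 : ℝ) ≤ k * (C + 1) := by positivity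
      push_cast
      linarith

end IPig

theorem pr_Pig : StPig := by
  intro N F cell C hC hF h m
  have h1 := IPig.main hC hF h N Finset.univ (by simp) 0 m (Nat.zero_le m)
    (fun i _ _ => Finset.mem_univ _)
  simpa using h1

end Pool.Agent.MLS
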