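import Pool.Agent.Work.MP_25cd3b_gt.M.Stmts

/-!
# Item Prop: balls of the distance of an invariant metric are bounded
-/

set_option autoImplicit false

open MeasureTheory Set Filter Topology
open scoped ContDiff ENNReal

namespace Pool.Agent.MLS

namespace IProp

variable {n : ℕ} {G : Type} [Group G] [MulAction G (E n)]

/-- The union of the translates of a compact set by a finite set is compact. -/
theorem compact_translates (hC : Cocompact n G) {A : Set G} (hA : A.Finite) {K : Set (E n)}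
    (hK : IsCompact K) : IsCompact (⋃ a ∈ A, (fun x : E n => a⁻¹ • x) '' K) :=
  hA.isCompact_biUnion fun a _ => hK.image (hC.smooth a⁻¹).continuous

theorem mem_translates {A : Set G} {K : Set (E n)} {a : G} (ha : a ∈ A) {y : E n}
    (hy : a • y ∈ K) : y ∈ ⋃ a ∈ A, (fun x : E n => a⁻¹ • x) '' K :=
  mem_iUnion₂.2 ⟨a, ha, a • y, hy, inv_smul_smul a y⟩

/-- A compact set is contained in a ball which contains all points near it. -/
theorem exists_near (h4 : StFun) {g : Form n} (hg : Riem g) {K₀ : Set (E n)}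
    (hK : IsCompact K₀) : ∃ (N : Set (E n)) (ε : ℝ), IsCompact N ∧ K₀ ⊆ N ∧ 0 < ε ∧
      ∀ x ∈ K₀, ∀ y, gd g x y < ε → y ∈ N := by
  obtain ⟨R, hR⟩ := hK.isBounded.subset_closedBall (0 : E n)
  have hR1 : (0 : ℝ) < max R 1 := lt_of_lt_of_le one_pos (le_max_right _ _)
  let f : ContDiffBump (0 : E n) := ⟨max R 1, max R 1 + 1, hR1, lt_add_one _⟩
  obtain ⟨C, hC0, hC⟩ := h4 n g hg f (f.contDiff (n := 1)) f.hasCompactSupport
  refine ⟨Metric.closedBall 0 (max R 1 + 1), 1 / (C + 1), isCompact_closedBall _ _, ?_, by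
    positivity, ?_⟩
  · intro x hx
    exact Metric.closedBall_subset_closedBall
      (by linarith [le_max_left R 1]) (hR hx)
  · intro x hx y hy
    have hx1 : f x = 1 := by
      apply f.one_of_mem_closedBall
      exact Metric.closedBall_subset_closedBall (le_max_left R 1) (hR hx)
    by_contra hcon
    have hy0 : f y = 0 := by
      apply f.zero_of_le_dist
      have : ¬ dist y 0 ≤ max R 1 + 1 := fun h => hcon (Metric.mem_closedBall.2 h)
      exact (not_le.1 this).le
    have h5 := hC x y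
    rw [hx1, hy0, sub_zero, abs_one] at h5
    have h6 : C * gd g x y ≤ C * (1 / (C + 1)) := mul_le_mul_of_nonneg_left hy.le hC0
    have h7 : C * (1 / (C + 1)) < 1 := by
      rw [mul_one_div, div_lt_one (by linarith)]
      linarith
    linarith

/-- The induction. -/
theorem claim (h1 : StGd) (h2 : StInvD) (h3 : StSplit) (hC : Cocompact n G) {g : Form n}
    (hI : Inv G g) {K₀ N : Set (E n)} {ε : ℝ} (hcov : ∀ x : E n, ∃ a : G, a • x ∈ K₀)
    (hN : IsCompact N) (hKN : K₀ ⊆ N) (hε : 0 < ε)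
    (hnear : ∀ x ∈ K₀, ∀ y, gd g x y < ε → y ∈ N) (k : ℕ) :
    ∃ K' : Set (E n), IsCompact K' ∧ ∀ x ∈ K₀, ∀ y, gd g x y < k * (ε / 2) → y ∈ K' := by
  obtain ⟨hle, hpm, happ, -⟩ := h1 n g
  induction k with
  | zero =>
    refine ⟨∅, isCompact_empty, ?_⟩
    intro x _ y hy
    have := hpm.nonneg x y
    simp only [Nat.cast_zero, zero_mul] at hy
    linarith
  | succ k ih =>
    obtain ⟨K', hK', hin⟩ := ih
    refine ⟨N ∪ ⋃ a ∈ {a : G | ((fun x : E n => a • x) '' N ∩ N).Nonempty},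
      (fun x : E n => a⁻¹ • x) '' K', hN.union (compact_translates hC (hC.proper N hN) hK'), ?_⟩
    intro x hx y hy
    by_cases hxy : gd g x y < ε
    · exact Or.inl (hnear x hx y hxy)
    · refine Or.inr ?_
      rw [not_lt] at hxy
      obtain ⟨l, hl, hlt⟩ := happ x y (((k + 1 : ℕ) : ℝ) * (ε / 2) - gd g x y) (by linarith)
      have hl2 : l < ((k + 1 : ℕ) : ℝ) * (ε / 2) := by linarith
      have hl3 : ε ≤ l := hxy.trans (hle x y l hl)
      obtain ⟨z, hz1, hz2⟩ := h3 n g x y l (ε / 2) hl (by linarith) (by linarith)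
      have hzN : z ∈ N := hnear x hx z (lt_of_le_of_lt (hle _ _ _ hz1) (by linarith))
      obtain ⟨a, ha⟩ := hcov z
      have h5 : gd g (a • z) (a • y) < k * (ε / 2) := by
        rw [(h2 n G hC g hI).2 a z y]
        have h6 := hle _ _ _ hz2
        push_cast at hl2
        linarith
      exact mem_translates (A := {a : G | ((fun x : E n => a • x) '' N ∩ N).Nonempty})
        ⟨a • z, ⟨z, hzN, rfl⟩, hKN ha⟩ (hin _ ha _ h5)

end IProp

open IProp in
theorem pr_Prop (h1 : StGd) (h2 : StInvD) (h3 : StSplit) (h4 : StFun) : StProp := by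
  intro n G _ _ hC g hg hI K r hK
  obtain ⟨K₀, hK₀, hcov⟩ := hC.cocompact
  obtain ⟨N, ε, hN, hKN, hε, hnear⟩ := exists_near h4 hg hK₀
  obtain ⟨k, hk⟩ := exists_nat_gt (r / (ε / 2))
  have hk2 : r < k * (ε / 2) := by
    rwa [div_lt_iff₀ (by linarith)] at hk
  obtain ⟨K', hK', hin⟩ := claim h1 h2 h3 hC hI hcov hN hKN hε hnear k
  refine ⟨⋃ a ∈ {a : G | ((fun x : E n => a • x) '' (K ∪ N) ∩ (K ∪ N)).Nonempty},
    (fun x : E n => a⁻¹ • x) '' K', compact_translates hC (hC.proper _ (hK.union hN)) hK', ?_⟩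
  intro x hx y hy
  obtain ⟨a, ha⟩ := hcov x
  refine mem_translates (A := {a : G | ((fun x : E n => a • x) '' (K ∪ N) ∩ (K ∪ N)).Nonempty})
    ⟨a • x, ⟨x, Or.inl hx, rfl⟩, Or.inr (hKN ha)⟩ (hin _ ha _ ?_)
  rw [(h2 n G hC g hI).2 a x y]
  linarith

end Pool.Agent.MLS
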