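import Mathlib
import Pool.Agent.Work.MP_25cd3b_gt.M.Stmts

set_option autoImplicit false

/-!
# Item TrI: the trace function is invariant, smooth and nonnegative
-/

open MeasureTheory Set Filter Topology
open scoped ContDiff

namespace Pool.Agent.MLS

namespace ITrI

/-- Expansion of a vector in the standard basis. -/
lemma expand {n : ℕ} (v : E n) : v = ∑ i, v i • ee i := by
  ext j
  simp [ee, Finset.sum_apply, Pi.single_apply]

/-- The determinant of a smooth matrix function is smooth. -/
lemma det_smooth {n k : ℕ} {M : E n → Matrix (Fin k) (Fin k) ℝ}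
    (h : ∀ i j, ContDiff ℝ ∞ (fun x => M x i j)) : ContDiff ℝ ∞ (fun x => (M x).det) := by
  simp only [Matrix.det_apply']
  refine ContDiff.sum fun σ _ => ?_
  exact contDiff_const.mul (contDiff_prod fun i _ => h _ _)

/-- The entries of the inverse of a smooth matrix function are smooth. -/
lemma inv_smooth {n k : ℕ} {M : E n → Matrix (Fin k) (Fin k) ℝ}
    (h : ∀ i j, ContDiff ℝ ∞ (fun x => M x i j)) (hd : ∀ x, (M x).det ≠ 0) (i j : Fin k) :
    ContDiff ℝ ∞ (fun x => (M x)⁻¹ i j) := by
  have h1 : (fun x => (M x)⁻¹ i j) =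
      fun x => ((M x).det)⁻¹ * ((M x).updateRow j (Pi.single i 1)).det := by
    funext x
    rw [Matrix.inv_def, Ring.inverse_eq_inv', Matrix.smul_apply, Matrix.adjugate_apply,
      smul_eq_mul]
  rw [h1]
  refine ((det_smooth h).inv hd).mul (det_smooth fun a b => ?_)
  by_cases hab : a = j
  · subst hab
    simpa using contDiff_const
  · simpa [Matrix.updateRow_ne hab] using h a b

/-- The matrix of a form is smooth. -/
lemma gm_smooth {n : ℕ} (g : Form n) (i j : Fin n) : ContDiff ℝ ∞ (fun x => gm g x i j) := by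
  have h : ContDiff ℝ ∞ (fun x => g.val x (ee i) (ee j)) :=
    (g.smooth.clm_apply contDiff_const).clm_apply contDiff_const
  simpa [gm] using h

/-- The value of the form in terms of its matrix. -/
lemma val_eq {n : ℕ} (g : Form n) (x u v : E n) :
    g.val x u v = ∑ i, ∑ j, u i * v j * gm g x i j := by
  conv_lhs => rw [expand u, expand v]
  simp only [map_sum, map_smul, sum_apply, smul_apply,
    smul_eq_mul, gm, Matrix.of_apply, Finset.mul_sum, mul_assoc]
  rw [Finset.sum_comm]
  exact Finset.sum_congr rfl fun i _ => Finset.sum_congr rfl fun j _ => by ring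

/-- The matrix of a form is positive semidefinite. -/
lemma gm_psd {n : ℕ} (g : Form n) (x : E n) : (gm g x).PosSemidef := by
  refine Matrix.PosSemidef.of_dotProduct_mulVec_nonneg ?_ fun v => ?_
  · ext i j
    simp [gm, g.symm x (ee i) (ee j)]
  · have h := g.nonneg x (WithLp.toLp 2 v)
    rw [val_eq] at h
    refine h.trans_eq ?_
    simp only [dotProduct, Matrix.mulVec, star_trivial, Finset.mul_sum]
    exact Finset.sum_congr rfl fun i _ => Finset.sum_congr rfl fun j _ => by ring

/-- The matrix of the derivative of the action. -/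
noncomputable def dm {n : ℕ} {G : Type} [Group G] [MulAction G (E n)] (a : G) (x : E n) :
    Matrix (Fin n) (Fin n) ℝ := Matrix.of fun i j => dac a x (ee j) i

/-- Transformation of the matrix of an invariant form. -/
lemma gm_inv {n : ℕ} {G : Type} [Group G] [MulAction G (E n)] {g : Form n} (hg : Inv G g) (a : G)
    (x : E n) : gm g x = (dm a x).transpose * gm g (a • x) * dm a x := by
  ext i j
  have h : gm g x i j = g.val (a • x) (dac a x (ee i)) (dac a x (ee j)) := (hg a x _ _).symm
  rw [h, val_eq, Matrix.mul_apply]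
  simp only [Matrix.mul_apply, Matrix.transpose_apply, dm, Matrix.of_apply, Finset.sum_mul]
  rw [Finset.sum_comm]
  exact Finset.sum_congr rfl fun k _ => Finset.sum_congr rfl fun l _ => by ring

end ITrI

open ITrI in
theorem pr_TrI (h1 : StDens) : StTrI := by
  intro n G _ _ hG g1 g2 hR h1i h2i
  obtain ⟨hpos, -, -⟩ := h1 n g1 hR
  refine ⟨fun a x => ?_, ?_, fun x => ?_⟩
  · have e1 := gm_inv h1i a x
    have e2 := gm_inv h2i a x
    have hd : (dm a x).det ≠ 0 := by
      intro h0
      have := hpos x
      rw [e1, Matrix.det_mul, h0, mul_zero] at this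
      exact lt_irrefl _ this
    have hu : IsUnit (dm a x).det := isUnit_iff_ne_zero.2 hd
    have hu' : IsUnit (dm a x).transpose.det := by rwa [Matrix.det_transpose]
    have h3 : tr g1 g2 x = ((gm g1 x)⁻¹ * gm g2 x).trace := rfl
    have h4 : tr g1 g2 (a • x) = ((gm g1 (a • x))⁻¹ * gm g2 (a • x)).trace := rfl
    rw [h3, h4, e1, e2, Matrix.mul_inv_rev, Matrix.mul_inv_rev]
    have h5 : (dm a x)⁻¹ * ((gm g1 (a • x))⁻¹ * ((dm a x).transpose)⁻¹) *
        ((dm a x).transpose * gm g2 (a • x) * dm a x) =
        (dm a x)⁻¹ * ((gm g1 (a • x))⁻¹ * gm g2 (a • x) * dm a x) := by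
      have h6 : ((dm a x).transpose)⁻¹ * (dm a x).transpose = 1 := Matrix.nonsing_inv_mul _ hu'
      calc _ = (dm a x)⁻¹ * ((gm g1 (a • x))⁻¹ * (((dm a x).transpose)⁻¹ *
            (dm a x).transpose) * gm g2 (a • x) * dm a x) := by
            simp only [Matrix.mul_assoc]
        _ = _ := by rw [h6, Matrix.mul_one]
    rw [h5, Matrix.trace_mul_comm (dm a x)⁻¹, Matrix.mul_assoc _ (dm a x),
      Matrix.mul_nonsing_inv _ hu, Matrix.mul_one]
  · have h2 : tr g1 g2 = fun x => ∑ i, ∑ j, (gm g1 x)⁻¹ i j * gm g2 x j i := by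
      funext x
      simp [tr, Matrix.trace, Matrix.mul_apply]
    rw [h2]
    exact ContDiff.sum fun i _ => ContDiff.sum fun j _ =>
      (inv_smooth (gm_smooth g1) (fun x => (hpos x).ne') i j).mul (gm_smooth g2 j i)
  · have hp : ((gm g1 x)⁻¹).PosSemidef := (gm_psd g1 x).inv
    obtain ⟨B, hB⟩ : ∃ B : Matrix (Fin n) (Fin n) ℝ, (gm g1 x)⁻¹ = B.conjTranspose * B := by
      open scoped MatrixOrder in
      exact CStarAlgebra.nonneg_iff_eq_star_mul_self.mp hp.nonneg
    have h3 : tr g1 g2 x = (B * gm g2 x * B.conjTranspose).trace := by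
      rw [tr, hB, Matrix.mul_assoc, Matrix.trace_mul_comm]
    rw [h3]
    exact ((gm_psd g2 x).mul_mul_conjTranspose_same B).trace_nonneg

end Pool.Agent.MLS
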