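import Pool.Agent.Work.MP_25cd3b_gt.M.Asm2

set_option autoImplicit false

/-!
# MP_25cd3b_gt: second part.  Stability in Kaehler classes, and convexity of the volume
-/

open MeasureTheory Set Filter Topology
open scoped ContDiff ENNReal

namespace Pool.Agent.MLS

/-- multiple of a form -/
noncomputable def smulF {n : ℕ} (r : ℝ) (hr : 0 ≤ r) (g : Form n) : Form n where
  val := fun x => r • g.val x
  smooth := g.smooth.const_smul r
  symm := fun x u v => by simp only [smul_apply, g.symm x u v]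
  nonneg := fun x v => by
    simpa only [smul_apply, smul_eq_mul] using mul_nonneg hr (g.nonneg x v)

/-- fundamental domains -/
def IsFD {n : ℕ} (G : Type) [Group G] [MulAction G (E n)] (D : Set (E n)) : Prop :=
  MeasurableSet D ∧ ∀ x : E n, ∃! a : G, a • x ∈ D

/-- the unit ball bundle (of covectors) over `D` -/
def Bd {n : ℕ} (g : Form n) (D : Set (E n)) : Set (W n) := {z | z.1 ∈ D ∧ Hm g z ≤ 1 / 2}

/-- Scaling.  `nrm (r^2 g) = r nrm g`, so paths of length `l` become paths of length `r l`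
(induction), and conversely (`r > 0`); the infimum scales.  Invariance is preserved. -/
def StScale : Prop := ∀ (n : ℕ) (G : Type) [Group G] [MulAction G (E n)] (g : Form n) (r : ℝ)
  (_ : 0 < r), (∀ x v, nrm (smulF (r ^ 2) (sq_nonneg r) g) x v = r * nrm g x v) ∧
  (∀ a : G, L (smulF (r ^ 2) (sq_nonneg r) g) a = r * L g a) ∧
  (Inv G g → Inv G (smulF (r ^ 2) (sq_nonneg r) g))

/-- Integrals over the part of the ball bundle over a fundamental domain.  `StUnf` on phase space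
(`ρ a = lft g a`, `StLftA`, `StLftM`, `StCnt`) with `a` the indicator of `{z | z.1 ∈ D}`,
`b z = ofReal (χ z.1)` and `F = ofReal f` times the indicator of `{Hm g ≤ 1/2}`; then
`integral_eq_lintegral_of_nonneg_ae` on both sides. -/
def StFDW : Prop := ∀ (n : ℕ) (G : Type) [Group G] [MulAction G (E n)], Cocompact n G →
  ∀ g : Form n, Riem g → Inv G g → ∀ χ : E n → ℝ, PU G χ → ∀ D : Set (E n), IsFD G D →
  ∀ f : W n → ℝ, Continuous f → (∀ z, 0 ≤ f z) → (∀ (a : G) z, f (lft g a z) = f z) →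
  ∫ z in Bd g D, f z = ∫ z in {z : W n | Hm g z ≤ 1 / 2}, χ z.1 * f z

/-- Fubini and the fibre integral: `∫_B χ g2(v, v) = (cn n / n) ∫ χ tr g1 g2 dens g1`, `B` the ball
bundle of `g1`, `v = vel g1 z`.  The integrand is continuous with compact support in `B`
(`StSub`); `setIntegral` over `{z | Hm g1 z ≤ 1/2}` is the integral over `x` of the integral over the
fibre, which is `StFib` with `b = g2.val x`. -/
def StFub : Prop := ∀ (n : ℕ) (g1 g2 : Form n), Riem g1 → ∀ χ : E n → ℝ, Continuous χ →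
  HasCompactSupport χ →
  ∫ z in {z : W n | Hm g1 z ≤ 1 / 2}, χ z.1 * g2.val z.1 (vel g1 z) (vel g1 z) =
    cn n / n * ∫ x, χ x * (tr g1 g2 x * dens g1 x)

/-- The key inequality with a constant: `κ ∫_B χ a^2 ≤ ∫_B χ a b`, `a = nrm g1 v`, `b = nrm g2 v`.
For `κ = 0` the right side is `≥ 0`.  For `κ > 0` apply `StKey` to `g1` and
`smulF ((κ⁻¹)^2) g2` (`StScale`). -/
def StKeyK : Prop := ∀ (n : ℕ) (G : Type) [Group G] [MulAction G (E n)], Cocompact n G →
  ∀ g1 g2 : Form n, Riem g1 → Inv G g1 → Inv G g2 → Minz g1 → HypG g1 → ∀ κ : ℝ, 0 ≤ κ →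
  (∀ a : G, κ * L g1 a ≤ L g2 a) → ∀ χ : E n → ℝ, PU G χ →
  κ * (∫ z in {z : W n | Hm g1 z ≤ 1 / 2}, χ z.1 * g1.val z.1 (vel g1 z) (vel g1 z)) ≤
    ∫ z in {z : W n | Hm g1 z ≤ 1 / 2}, χ z.1 * (nrm g1 z.1 (vel g1 z) * nrm g2 z.1 (vel g1 z))

/-- Stability in Kaehler classes.  `∫ χ (b - a)^2 = ∫ χ a^2 - 2 ∫ χ a b + ∫ χ b^2`; the middle term
is `≤ - 2 κ ∫ χ a^2` by `StKeyK` (and `StPull`), and `∫ χ b^2 ≤ ∫ χ a^2` by `StFub` and the
computation in `kah_le` (the form `pull F hF g2 + b` has mean trace `n`, and `tr g1 b ≥ 0`).  Pass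
to `D` by `StFDW`.  If `κ = 1` then `StMain` (as in `kah_le`). -/
def StThK : Prop := ∀ (n : ℕ) (G : Type) [Group G] [MulAction G (E n)], Cocompact n G →
  ∀ g1 g2 : Form n, Riem g1 → Riem g2 → Inv G g1 → Inv G g2 → Minz g1 → HypG g1 →
  ∀ κ : ℝ, 0 ≤ κ → (∀ a : G, κ * L g1 a ≤ L g2 a) →
  ∀ J : E n → E n →L[ℝ] E n, IsJ G J → Kah J g1 →
  ∀ (F : E n → E n) (hF : ContDiff ℝ ∞ F), (∀ (a : G) x, F (a • x) = a • F x) →
  ClassLe G J (pull F hF g2) g1 → ∀ D : Set (E n), IsFD G D →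
  (∫ z in Bd g1 D, (nrm (pull F hF g2) z.1 (vel g1 z) - nrm g1 z.1 (vel g1 z)) ^ 2) ≤
    2 * (1 - κ) * (∫ z in Bd g1 D, nrm g1 z.1 (vel g1 z) ^ 2) ∧
  (κ = 1 → g1 = pull F hF g2)

/-- volume density on the segment from `g1` to `g2` -/
noncomputable def sdens {n : ℕ} (g1 g2 : Form n) (t : ℝ) (x : E n) : ℝ :=
  Real.sqrt ((1 - t) • gm g1 x + t • gm g2 x).det

/-- Integrals of `sdens` over a fundamental domain, `0 ≤ t ≤ 1`: `StFD` with
`f = sdens g1 g2 t / dens g1` (continuous, nonnegative, and invariant: both matrices transform by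
`gm g x = Dᵀ gm g (a x) D`). -/
def StSFD : Prop := ∀ (n : ℕ) (G : Type) [Group G] [MulAction G (E n)], Cocompact n G →
  ∀ g1 g2 : Form n, Riem g1 → Inv G g1 → Inv G g2 → ∀ χ : E n → ℝ, PU G χ →
  ∀ D : Set (E n), IsFD G D → ∀ t : ℝ,
  ∫ x in D, sdens g1 g2 t x = ∫ x, χ x * sdens g1 g2 t x

/-- First variation of the volume.  For `x` in the compact support of `χ` the determinant of
`gm g1 x + t (gm g2 x - gm g1 x)` is a polynomial in `t` with continuous coefficients in `x`,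
positive at `t = 0`, hence positive for `|t| ≤ ε` with `ε > 0` uniform; its square root has the
derivative `1/2 tr (gm g1⁻¹ (gm g2 - gm g1)) dens g1` at `t = 0` (Jacobi, see I_Div:
`IDiv.fderiv_det`), and derivatives for `|t| ≤ ε` are bounded on the support; differentiate under the
integral (`hasDerivAt_integral_of_dominated_loc_of_deriv_le`). -/
def StVar : Prop := ∀ (n : ℕ) (g1 g2 : Form n), Riem g1 → ∀ χ : E n → ℝ, Continuous χ →
  HasCompactSupport χ →
  HasDerivAt (fun t => ∫ x, χ x * sdens g1 g2 t x)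
    (1 / 2 * ((∫ x, χ x * (tr g1 g2 x * dens g1 x)) - n * ∫ x, χ x * dens g1 x)) 0

/-- Volume comparison along segments on which the volume is convex.  `φ t = ∫_D sdens t` is convex
and (`StSFD`, `StVar`) has the derivative `1/2 (∫ χ tr dens - n ∫ χ dens) ≥ 0` at `0`
(`StMain`); so `φ 1 ≥ φ 0 + φ' 0 ≥ φ 0`, and equality gives `φ' 0 = 0` and `g1 = g2` (`StMain`).
(The convexity is only assumed on `[0,1]`; `φ' 0` is the right derivative, the slopes
`(φ t - φ 0) / t` increase.)  `sdens 0 = dens g1`, `sdens 1 = dens g2`. -/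
def StThV : Prop := ∀ (n : ℕ) (G : Type) [Group G] [MulAction G (E n)], Cocompact n G →
  ∀ g1 g2 : Form n, Riem g1 → Riem g2 → Inv G g1 → Inv G g2 → Minz g1 → HypG g1 →
  (∀ a : G, L g1 a ≤ L g2 a) → ∀ D : Set (E n), IsFD G D →
  ConvexOn ℝ (Icc 0 1) (fun t => ∫ x in D, sdens g1 g2 t x) →
  (∫ x in D, dens g1 x) ≤ ∫ x in D, dens g2 x ∧
  ((∫ x in D, dens g2 x) ≤ ∫ x in D, dens g1 x → g1 = g2)

end Pool.Agent.MLS
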