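import Mathlib
import Pool.Agent.Work.MP_25cd3b_gt.M.Stmts2
import Pool.Agent.Work.MP_25cd3b_gt.M.I_TrI

set_option autoImplicit false

/-!
# Item SFD: integrals of the density of a segment over a fundamental domain
-/

open MeasureTheory Set Filter Topology
open scoped ContDiff ENNReal

namespace Pool.Agent.MLS

namespace ISFD

theorem sqrt_det {n : ℕ} (A M : Matrix (Fin n) (Fin n) ℝ) :
    Real.sqrt (A.transpose * M * A).det = |A.det| * Real.sqrt M.det := by
  have h : (A.transpose * M * A).det = A.det ^ 2 * M.det := by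
    rw [Matrix.det_mul, Matrix.det_mul, Matrix.det_transpose]
    ring
  rw [h, Real.sqrt_mul (sq_nonneg _), Real.sqrt_sq_eq_abs]

theorem sdens_inv {n : ℕ} {G : Type} [Group G] [MulAction G (E n)] {g1 g2 : Form n}
    (h1 : Inv G g1) (h2 : Inv G g2) (t : ℝ) (a : G) (x : E n) :
    sdens g1 g2 t x = |(ITrI.dm a x).det| * sdens g1 g2 t (a • x) := by
  unfold sdens
  rw [← sqrt_det, ITrI.gm_inv h1 a x, ITrI.gm_inv h2 a x]
  congr 2
  rw [Matrix.mul_add, Matrix.add_mul, Matrix.mul_smul, Matrix.mul_smul, Matrix.smul_mul,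
    Matrix.smul_mul]

theorem dens_inv {n : ℕ} {G : Type} [Group G] [MulAction G (E n)] {g : Form n}
    (h : Inv G g) (a : G) (x : E n) :
    dens g x = |(ITrI.dm a x).det| * dens g (a • x) := by
  unfold dens
  rw [← sqrt_det, ITrI.gm_inv h a x]

theorem sdens_cont {n : ℕ} (g1 g2 : Form n) (t : ℝ) : Continuous (sdens g1 g2 t) := by
  have h : ContDiff ℝ ∞ (fun x => ((1 - t) • gm g1 x + t • gm g2 x).det) := by
    refine ITrI.det_smooth fun i j => ?_
    simp only [Matrix.add_apply, Matrix.smul_apply, smul_eq_mul]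
    exact (contDiff_const.mul (ITrI.gm_smooth g1 i j)).add
      (contDiff_const.mul (ITrI.gm_smooth g2 i j))
  exact Real.continuous_sqrt.comp h.continuous

end ISFD

theorem pr_SFD (h1 : StFD) (h2 : StDens) : StSFD := by
  intro n G _ _ hG g1 g2 hR h1i h2i χ hχ D hD t
  obtain ⟨hpos, hsm, -⟩ := h2 n g1 hR
  have hd : ∀ x, 0 < dens g1 x := fun x => Real.sqrt_pos.2 (hpos x)
  have key := h1 n G hG g1 hR h1i χ hχ D hD.1 hD.2 (fun x => sdens g1 g2 t x / dens g1 x)
    ((ISFD.sdens_cont g1 g2 t).div hsm.continuous fun x => (hd x).ne')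
    (fun x => div_nonneg (Real.sqrt_nonneg _) (hd x).le)
    (fun a x => by
      have e1 := ISFD.sdens_inv h1i h2i t a x
      have e2 := ISFD.dens_inv h1i a x
      have hne : |(ITrI.dm a x).det| ≠ 0 := by
        intro h0
        have := hd x
        rw [e2, h0, zero_mul] at this
        exact lt_irrefl _ this
      rw [e1, e2, mul_div_mul_left _ _ hne])
  have e : ∀ x, sdens g1 g2 t x / dens g1 x * dens g1 x = sdens g1 g2 t x :=
    fun x => div_mul_cancel₀ _ (hd x).ne'
  simpa only [e] using key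

end Pool.Agent.MLS
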