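import Pool.Agent.Work.MP_25cd3b_gt.M.Stmts2

set_option autoImplicit false

/-!
# MP_25cd3b_gt: scaling of a form
-/

open MeasureTheory Set Filter Topology
open scoped ContDiff ENNReal Pointwise

namespace Pool.Agent.MLS

namespace IScale

theorem nrm_smulF {n : ℕ} (g : Form n) (r : ℝ) (hr : 0 < r) (x v : E n) :
    nrm (smulF (r ^ 2) (sq_nonneg r) g) x v = r * nrm g x v := by
  have h : (smulF (r ^ 2) (sq_nonneg r) g).val x v v = r ^ 2 * g.val x v v := rfl
  unfold nrm
  rw [h, Real.sqrt_mul (sq_nonneg r), Real.sqrt_sq hr.le]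

theorem pathLen {n : ℕ} (g h : Form n) (r : ℝ) (hn : ∀ x v, nrm h x v = r * nrm g x v)
    {x y : E n} {l : ℝ} (p : PathLen g x y l) : PathLen h x y (r * l) := by
  induction p with
  | refl x => simpa using PathLen.refl (g := h) x
  | cons c a b y l hc hab _ ih =>
    have := PathLen.cons (g := h) c a b y (r * l) hc hab ih
    simp only [hn, intervalIntegral.integral_const_mul] at this
    rwa [mul_add]

end IScale

/-- scaling -/
theorem pr_Scale : StScale := by
  intro n G _ _ g r hr
  refine ⟨fun x v => IScale.nrm_smulF g r hr x v, fun a => ?_, fun hi a x u v => ?_⟩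
  · have hset : {l | ∃ x : E n, PathLen (smulF (r ^ 2) (sq_nonneg r) g) x (a • x) l} =
        r • {l | ∃ x : E n, PathLen g x (a • x) l} := by
      ext l
      rw [Set.mem_smul_set_iff_inv_smul_mem₀ hr.ne']
      constructor
      · rintro ⟨x, hx⟩
        refine ⟨x, ?_⟩
        refine IScale.pathLen _ _ r⁻¹ (fun y v => ?_) hx
        rw [IScale.nrm_smulF g r hr, inv_mul_cancel_left₀ hr.ne']
      · rintro ⟨x, hx⟩
        refine ⟨x, ?_⟩
        have := IScale.pathLen g (smulF (r ^ 2) (sq_nonneg r) g) r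
          (fun y v => IScale.nrm_smulF g r hr y v) hx
        rwa [smul_eq_mul, mul_inv_cancel_left₀ hr.ne'] at this
    unfold L
    rw [hset, Real.sInf_smul_of_nonneg hr.le, smul_eq_mul]
  · change r ^ 2 * g.val (a • x) (dac a x u) (dac a x v) = r ^ 2 * g.val x u v
    rw [hi a x u v]

end Pool.Agent.MLS
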