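import Mathlib
import Pool.Agent.Work.MP_25cd3b_gt.M.Stmts

set_option autoImplicit false

/-!
# MP_25cd3b_gt, item Seg: long geodesics
-/

open MeasureTheory Set Filter Topology
open scoped ContDiff ENNReal
open Pool.Agent.Work.MP_c9f990_an.Al (IsFlow)

namespace Pool.Agent.MLS

namespace ISeg

/-- the speed of a `C^2` curve is continuous -/
theorem cont_nrm {n : ℕ} (g : Form n) (c : ℝ → E n) (hc : ContDiff ℝ 2 c) :
    Continuous fun t => nrm g (c t) (deriv c t) := by
  have h1 : Continuous c := hc.continuous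
  have h2 : Continuous (deriv c) := hc.continuous_deriv (by norm_num)
  have h3 : Continuous fun t => g.val (c t) := g.smooth.continuous.comp h1
  exact Real.continuous_sqrt.comp ((h3.clm_apply h2).clm_apply h2)

theorem nrm_nonneg {n : ℕ} (g : Form n) (x v : E n) : 0 ≤ nrm g x v := Real.sqrt_nonneg _

end ISeg

open ISeg in
theorem pr_Seg (h1 : StGd) (h2 : StInvD) (h3 : StCmp) (h4 : StLd) (h5 : StB2) (h6 : StPig)
    (h7 : StCell) (h8 : StFlow) (h9 : StOp) (h12 : StGeo2) (h13 : StLftA) (h14 : StEqF) :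
    StSeg := by
  intro n G _ _ hG g1 g2 hR1 hI1 hI2 hM hH hL
  obtain ⟨_, hpm1, _, _⟩ := h1 n g1
  obtain ⟨_, hpm2, _, hcv2⟩ := h1 n g2
  obtain ⟨δ, hδ⟩ := hH
  have hδ0 : 0 ≤ δ := by
    have h := hδ 0 0 0 0
    rw [hpm1.self, max_self] at h
    linarith
  obtain ⟨K, hK, hKG⟩ := hG.cocompact
  obtain ⟨φ, M, hφ⟩ := h8 n G hG g1 hR1 hI1
  obtain ⟨A, hA0, _, hA⟩ := h3 n G hG g1 g2 hR1 hI1 hI2
  obtain ⟨R, hR⟩ : ∃ R : ℝ, R = 3 + δ := ⟨_, rfl⟩
  obtain ⟨N, cell, hcell⟩ := h7 n g1 φ M hR1 hφ K R hK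
  obtain ⟨C1, hC1⟩ : ∃ C1 : ℝ, C1 = max R (5 + 3 * δ) := ⟨_, rfl⟩
  have hC10 : 0 ≤ C1 := by
    rw [hC1]
    exact (by linarith : (0 : ℝ) ≤ R).trans (le_max_left _ _)
  obtain ⟨C, hC⟩ : ∃ C : ℝ, C = C1 + A := ⟨_, rfl⟩
  have hC0 : 0 ≤ C := by linarith
  refine ⟨N * (C + 1) + 1, by positivity, ?_⟩
  intro c hc hsp T hT
  have hmin := hM c hc hsp
  have hcn := cont_nrm g2 c hc.smooth
  have hint : ∀ a b : ℝ, IntervalIntegrable (fun t => nrm g2 (c t) (deriv c t)) volume a b :=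
    fun a b => hcn.intervalIntegrable a b
  -- the curve in phase space
  let z : ℝ → W n := fun s => (c s, op g1 (c s) (deriv c s))
  have hz : ∀ t, 0 ≤ t → z t = φ t (z 0) := by
    refine hφ.uniq z (fun t _ => ?_)
    exact (h12 n g1 hR1 c hc t).hasDerivWithinAt
  have hφz : ∀ k : ℕ, φ R (z k) = z (k + R) := by
    intro k
    have hk : (0 : ℝ) ≤ k := Nat.cast_nonneg k
    rw [hz k hk, ← hφ.add, hz (k + R) (by linarith), add_comm]
  obtain ⟨_, _, hio, _, _, _, _, _, hHm⟩ := h9 n g1 hR1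
  have hE : ∀ t, Hm g1 (z t) = 1 / 2 := by
    intro t
    rw [hHm]
    have hv : vel g1 (z t) = deriv c t := hio (c t) (deriv c t)
    rw [hv]
    show 1 / 2 * g1.val (c t) (deriv c t) (deriv c t) = 1 / 2
    rw [hsp t, mul_one]
  obtain ⟨_, hlH, _, _, _⟩ := h13 n G hG g1 hR1 hI1
  have hcov : ∀ k : ℕ, ∃ a : G, a • c k ∈ K := fun k => hKG (c k)
  choose γ hγ using hcov
  let w : ℕ → W n := fun k => lft g1 (γ k) (z k)
  have hwH : ∀ k, Hm g1 (w k) = 1 / 2 := fun k => by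
    show Hm g1 (lft g1 (γ k) (z k)) = 1 / 2
    rw [hlH, hE]
  have hwK : ∀ k, (w k).1 ∈ K := fun k => hγ k
  have hwR : ∀ k : ℕ, (φ R (w k)).1 = γ k • c (k + R) := by
    intro k
    show (φ R (lft g1 (γ k) (z k))).1 = γ k • c (k + R)
    rw [h14 n G hG g1 hR1 hI1 φ M hφ (γ k) R (z k), hφz]
    rfl
  let F : ℕ → ℝ := fun k => ∫ t in (0 : ℝ)..k, nrm g2 (c t) (deriv c t)
  have hFd : ∀ i j : ℕ, F j - F i = ∫ t in (i : ℝ)..j, nrm g2 (c t) (deriv c t) := by
    intro i j
    show (∫ t in (0 : ℝ)..j, nrm g2 (c t) (deriv c t)) -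
      (∫ t in (0 : ℝ)..i, nrm g2 (c t) (deriv c t)) = _
    exact intervalIntegral.integral_interval_sub_left (hint _ _) (hint _ _)
  have hFm : Monotone F := by
    intro i j hij
    have h : 0 ≤ F j - F i := by
      rw [hFd]
      exact intervalIntegral.integral_nonneg (by exact_mod_cast hij)
        fun t _ => nrm_nonneg g2 _ _
    linarith
  obtain ⟨_, hinv⟩ := h2 n G hG g1 hI1
  -- the main estimate
  have key : ∀ i j : ℕ, i ≤ j → cell (w i) = cell (w j) → (j : ℝ) - i - C ≤ F j - F i := by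
    intro i j hij hcl
    obtain ⟨e1, e2⟩ := hcell (w i) (w j) (hwK i) (hwK j) (hwH i) (hwH j) hcl
    rw [hwR, hwR] at e2
    have e1' : gd g1 (γ i • c i) (γ j • c j) ≤ 1 := e1
    have hij' : (i : ℝ) ≤ j := by exact_mod_cast hij
    let f : G := (γ j)⁻¹ * γ i
    have hf : ∀ x y : E n, gd g1 (f • x) y = gd g1 (γ i • x) (γ j • y) := by
      intro x y
      rw [← hinv (γ j) (f • x) y, smul_smul]
      show gd g1 ((γ j * ((γ j)⁻¹ * γ i)) • x) (γ j • y) = _
      rw [mul_inv_cancel_left]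
    have a1 : gd g1 (f • c i) (c j) ≤ 1 := by rw [hf]; exact e1'
    have a2 : gd g1 (f • c (i + R)) (c (j + R)) ≤ 1 := by rw [hf]; exact e2
    have hlow : (j : ℝ) - i - C1 ≤ L g1 f := by
      refine (h4 n G g1 f).2 _ fun x => ?_
      rcases le_or_gt R ((j : ℝ) - i) with hR' | hR'
      · have hb := h5 (E n) (gd g1) δ hpm1 hδ (fun x => f • x)
          (fun x y => hinv f x y) (c i) (c (i + R)) (c j) (c (j + R)) (c (j - R))
          ((j : ℝ) - i) R
          (by rw [hmin, abs_sub_comm, abs_of_nonneg (by linarith)])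
          (by rw [hmin, abs_sub_comm, abs_of_nonneg (by linarith)]; ring)
          (by rw [hmin, abs_sub_comm, abs_of_nonneg (by linarith)]; ring)
          (by rw [hmin, abs_sub_comm, abs_of_nonneg (by linarith)]; ring)
          (by rw [hmin, abs_sub_comm, abs_of_nonneg (by linarith)]; ring)
          (by rw [hmin, abs_sub_comm, abs_of_nonneg (by linarith)]; ring)
          (by rw [hmin, abs_sub_comm, abs_of_nonneg (by linarith)]; ring)
          a1 a2 (by linarith) hR' x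
        have h6 : 5 + 3 * δ ≤ C1 := by rw [hC1]; exact le_max_right _ _
        exact le_trans (by linarith) hb
      · have h6 : R ≤ C1 := by rw [hC1]; exact le_max_left _ _
        have h7 := hpm1.nonneg x (f • x)
        linarith
    have hup : L g2 f ≤ (F j - F i) + A := by
      have b1 := (h4 n G g2 f).1 (c i)
      have b2 := hpm2.tri (c i) (c j) (f • c i)
      have b3 := hcv2 c i j (hc.smooth.of_le (by norm_num)) hij'
      have b4 := hA (c j) (f • c i)
      have b5 : A * gd g1 (c j) (f • c i) ≤ A * 1 := by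
        apply mul_le_mul_of_nonneg_left _ hA0.le
        rw [hpm1.symm]
        exact a1
      rw [hFd]
      linarith
    have h8 := hL f
    linarith
  have hp := h6 N F (fun k => cell (w k)) C hC0 hFm key ⌊T⌋₊
  have hF0 : F 0 = 0 := by
    show (∫ t in (0 : ℝ)..((0 : ℕ) : ℝ), nrm g2 (c t) (deriv c t)) = 0
    rw [Nat.cast_zero, intervalIntegral.integral_same]
  have hfl := Nat.floor_le hT
  have hfl2 := Nat.lt_floor_add_one T
  have hsplit : (∫ t in (0 : ℝ)..T, nrm g2 (c t) (deriv c t)) =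
      F ⌊T⌋₊ + ∫ t in (⌊T⌋₊ : ℝ)..T, nrm g2 (c t) (deriv c t) :=
    (intervalIntegral.integral_add_adjacent_intervals (hint _ _) (hint _ _)).symm
  have hnn : 0 ≤ ∫ t in (⌊T⌋₊ : ℝ)..T, nrm g2 (c t) (deriv c t) :=
    intervalIntegral.integral_nonneg hfl fun t _ => nrm_nonneg g2 _ _
  rw [hsplit]
  linarith

end Pool.Agent.MLS
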