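import Mathlib
import Pool.Agent.Work.MP_25cd3b_gt.M.Stmts

/-!
# Item Split: a path can be cut at every length
-/

set_option autoImplicit false

open MeasureTheory Set Filter Topology
open scoped ContDiff ENNReal

namespace Pool.Agent.MLS

namespace ISplit

lemma cont {n : ℕ} (g : Form n) (c : ℝ → E n) (hc : ContDiff ℝ 1 c) :
    Continuous fun t => nrm g (c t) (deriv c t) := by
  unfold nrm
  have h1 : Continuous fun t => g.val (c t) := g.smooth.continuous.comp hc.continuous
  have h2 : Continuous (deriv c) := hc.continuous_deriv le_rfl
  exact Real.continuous_sqrt.comp ((h1.clm_apply h2).clm_apply h2)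

end ISplit

theorem pr_Split : StSplit := by
  intro n g x y l r h
  induction h generalizing r with
  | refl x =>
    intro h0 h1
    have hr : r = 0 := le_antisymm h1 h0
    subst hr
    refine ⟨x, PathLen.refl x, ?_⟩
    rw [sub_zero]
    exact PathLen.refl x
  | cons c a b y l hc hab h ih =>
    intro h0 h1
    have hcont := ISplit.cont g c hc
    by_cases hm : (∫ t in a..b, nrm g (c t) (deriv c t)) ≤ r
    · obtain ⟨z, k1, k2⟩ := ih (r - ∫ t in a..b, nrm g (c t) (deriv c t)) (by linarith)
        (by linarith)
      refine ⟨z, ?_, ?_⟩
      · have k3 := PathLen.cons c a b z _ hc hab k1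
        rwa [add_sub_cancel] at k3
      · have e : (∫ t in a..b, nrm g (c t) (deriv c t)) + l - r =
            l - (r - ∫ t in a..b, nrm g (c t) (deriv c t)) := by ring
        rwa [e]
    · have hm' := not_le.1 hm
      have hi : ∀ u v : ℝ, IntervalIntegrable (fun t => nrm g (c t) (deriv c t)) volume u v :=
        fun u v => hcont.intervalIntegrable u v
      have hF : Continuous fun u => ∫ t in a..u, nrm g (c t) (deriv c t) :=
        intervalIntegral.continuous_primitive hi a
      obtain ⟨t, ht, hft⟩ := intermediate_value_Icc hab hF.continuousOn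
        (show r ∈ Icc (∫ t in a..a, nrm g (c t) (deriv c t))
          (∫ t in a..b, nrm g (c t) (deriv c t)) from
          ⟨by rw [intervalIntegral.integral_same]; exact h0, hm'.le⟩)
      have hft' : (∫ t in a..t, nrm g (c t) (deriv c t)) = r := hft
      refine ⟨c t, ?_, ?_⟩
      · have k3 := PathLen.cons (g := g) c a t (c t) 0 hc ht.1 (PathLen.refl _)
        rwa [add_zero, hft'] at k3
      · have k3 := PathLen.cons c t b y l hc ht.2 h
        have e : (∫ t in a..b, nrm g (c t) (deriv c t)) + l - r =
            (∫ s in t..b, nrm g (c s) (deriv c s)) + l := by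
          rw [← intervalIntegral.integral_add_adjacent_intervals (hi a t) (hi t b), hft']
          ring
        rwa [e]

end Pool.Agent.MLS
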