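import Mathlib
import Pool.Agent.Work.MP_25cd3b_gt.M.Stmts

set_option autoImplicit false

/-!
# MP_25cd3b_gt, item Sub: energy sublevels over compact sets are compact
-/

open MeasureTheory Set Filter Topology
open scoped ContDiff ENNReal

namespace Pool.Agent.MLS

theorem pr_Sub (h1 : StBnd) (h2 : StOp) : StSub := by
  intro n g hg K r hK
  obtain ⟨_, _, _, hinv, _, hop, _, hHm, hval⟩ := h2 n g hg
  obtain ⟨C, hC, hCb⟩ := (h1 n g K hK).2 hg
  obtain ⟨B, hB⟩ := hK.exists_bound_of_continuousOn hop.continuous.continuousOn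
  have hcl : IsClosed {z : W n | z.1 ∈ K ∧ Hm g z ≤ r} :=
    (hK.isClosed.preimage continuous_fst).inter (isClosed_le hHm.continuous continuous_const)
  refine (hK.prod (isCompact_closedBall (0 : E n) (B * (C * Real.sqrt (2 * r))))).of_isClosed_subset
    hcl ?_
  rintro ⟨x, p⟩ ⟨hx, hH⟩
  refine ⟨hx, ?_⟩
  rw [mem_closedBall_zero_iff]
  have e1 := hval (x, p)
  have e2 : g.val x (vel g (x, p)) (vel g (x, p)) ≤ 2 * r := by
    simp only at e1 hH hx
    linarith
  have e3 : nrm g x (vel g (x, p)) ≤ Real.sqrt (2 * r) := Real.sqrt_le_sqrt e2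
  have e4 : ‖vel g (x, p)‖ ≤ C * Real.sqrt (2 * r) :=
    (hCb x hx _).trans (mul_le_mul_of_nonneg_left e3 hC.le)
  have e5 : op g x (vel g (x, p)) = p := hinv x p
  calc ‖p‖ = ‖op g x (vel g (x, p))‖ := by rw [e5]
    _ ≤ ‖op g x‖ * ‖vel g (x, p)‖ := ContinuousLinearMap.le_opNorm _ _
    _ ≤ B * (C * Real.sqrt (2 * r)) :=
      mul_le_mul (hB x hx) e4 (norm_nonneg _) ((norm_nonneg _).trans (hB x hx))

end Pool.Agent.MLS
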