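import Mathlib
import Pool.Agent.Work.MP_25cd3b_gt.M.Stmts

set_option autoImplicit false

open MeasureTheory Set Filter Topology

namespace Pool.Agent.MLS

namespace ISym

/-- invariance of the integral over the ball under a linear isometry -/
theorem inv {n : ℕ} (T : E n ≃ₗᵢ[ℝ] E n) (f : E n → ℝ) :
    ∫ ξ in Metric.closedBall (0 : E n) 1, f (T ξ) =
      ∫ ξ in Metric.closedBall (0 : E n) 1, f ξ := by
  have h := T.measurePreserving.setIntegral_preimage_emb
    T.toHomeomorph.measurableEmbedding f (Metric.closedBall (0 : E n) 1)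
  have hp : T ⁻¹' Metric.closedBall (0 : E n) 1 = Metric.closedBall (0 : E n) 1 := by
    rw [LinearIsometryEquiv.preimage_closedBall, map_zero]
  rw [hp] at h
  exact h

theorem intg {n : ℕ} (f : E n → ℝ) (hf : Continuous f) :
    IntegrableOn f (Metric.closedBall (0 : E n) 1) :=
  hf.continuousOn.integrableOn_compact (isCompact_closedBall _ _)

/-- reflection of a coordinate -/
noncomputable def refl {n : ℕ} (i : Fin n) : E n ≃ₗᵢ[ℝ] E n :=
  LinearIsometryEquiv.piLpCongrRight 2 (fun k : Fin n =>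
    if k = i then LinearIsometryEquiv.neg ℝ else LinearIsometryEquiv.refl ℝ ℝ)

theorem refl_same {n : ℕ} (i : Fin n) (ξ : E n) : refl i ξ i = -ξ i := by
  simp [refl]

theorem refl_ne {n : ℕ} (i j : Fin n) (h : j ≠ i) (ξ : E n) : refl i ξ j = ξ j := by
  simp [refl, h]

theorem off {n : ℕ} (i j : Fin n) (h : i ≠ j) :
    ∫ ξ in Metric.closedBall (0 : E n) 1, ξ i * ξ j = 0 := by
  have h1 := inv (refl i) (fun ξ => ξ i * ξ j)
  simp only [refl_same, refl_ne i j h.symm, neg_mul] at h1
  rw [integral_neg] at h1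
  linarith

/-- exchange of two coordinates -/
noncomputable def swp {n : ℕ} (i j : Fin n) : E n ≃ₗᵢ[ℝ] E n :=
  LinearIsometryEquiv.piLpCongrLeft 2 ℝ ℝ (Equiv.swap i j)

theorem swp_left {n : ℕ} (i j : Fin n) (ξ : E n) : swp i j ξ i = ξ j := by
  simp [swp]

theorem diag {n : ℕ} (i j : Fin n) :
    ∫ ξ in Metric.closedBall (0 : E n) 1, ξ i * ξ i =
      ∫ ξ in Metric.closedBall (0 : E n) 1, ξ j * ξ j := by
  have h1 := inv (swp i j) (fun ξ => ξ i * ξ i)
  simp only [swp_left] at h1
  exact h1.symm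

theorem cn_eq {n : ℕ} (i : Fin n) :
    cn n = n * ∫ ξ in Metric.closedBall (0 : E n) 1, ξ i * ξ i := by
  unfold cn
  have h1 : ∀ ξ : E n, ‖ξ‖ ^ 2 = ∑ k, ξ k * ξ k := by
    intro ξ
    rw [EuclideanSpace.norm_sq_eq]
    refine Finset.sum_congr rfl fun k _ => ?_
    rw [Real.norm_eq_abs, sq_abs, sq]
  simp only [h1]
  rw [integral_finsetSum]
  · rw [Finset.sum_congr rfl (fun k _ => diag k i)]
    simp
  · intro k _
    exact intg _ (by fun_prop)

end ISym

open ISym in
theorem pr_Sym : StSym := by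
  intro n A
  have h1 : ∫ ξ in Metric.closedBall (0 : E n) 1, ∑ i, ∑ j, A i j * (ξ i * ξ j) =
      ∑ i, ∑ j, A i j * ∫ ξ in Metric.closedBall (0 : E n) 1, ξ i * ξ j := by
    rw [integral_finsetSum]
    · refine Finset.sum_congr rfl fun i _ => ?_
      rw [integral_finsetSum]
      · refine Finset.sum_congr rfl fun j _ => ?_
        rw [integral_const_mul]
      · intro j _
        exact intg _ (by fun_prop)
    · intro i _
      exact intg _ (by fun_prop)
  rw [h1]
  have h2 : ∀ i : Fin n, ∑ j, A i j * ∫ ξ in Metric.closedBall (0 : E n) 1, ξ i * ξ j =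
      A i i * (cn n / n) := by
    intro i
    have hn : (n : ℝ) ≠ 0 := by
      have : 0 < n := i.pos
      positivity
    rw [Finset.sum_eq_single i]
    · rw [cn_eq i]
      field_simp
    · intro j _ hj
      rw [off i j hj.symm, mul_zero]
    · intro h
      exact absurd (Finset.mem_univ i) h
  rw [Finset.sum_congr rfl (fun i _ => h2 i), ← Finset.sum_mul, Matrix.trace]
  simp only [Matrix.diag]
  ring

end Pool.Agent.MLS
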