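import Mathlib
import Pool.Agent.Work.MP_25cd3b_gt.M.Stmts

set_option autoImplicit false

/-!
# MP_25cd3b_gt, item Tr0: Hamiltonian fields are divergence free and tangent to the level sets
-/

open MeasureTheory Set Filter Topology
open scoped ContDiff ENNReal

namespace Pool.Agent.MLS

namespace ITr0

theorem sh_apply {n : ℕ} (l : E n →L[ℝ] ℝ) (i : Fin n) : (sh l) i = l (ee i) := by
  have h : sh l = ∑ j, l (ee j) • (ee j : E n) := by
    simp [sh]
  rw [h]
  simp [ee, Pi.single_apply]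

theorem inner_sh {n : ℕ} (l : E n →L[ℝ] ℝ) (w : E n) : inner ℝ (sh l) w = l w := by
  have hw : w = ∑ i, w i • (ee i : E n) := by
    have := (EuclideanSpace.basisFun (Fin n) ℝ).sum_repr w
    simpa [ee] using this.symm
  conv_rhs => rw [hw]
  rw [map_sum, PiLp.inner_apply]
  refine Finset.sum_congr rfl fun i _ => ?_
  rw [sh_apply, map_smul]
  simp

/-- The linear map which sends the derivative of `H` to the Hamiltonian field. -/
noncomputable def T (n : ℕ) : (W n →L[ℝ] ℝ) →L[ℝ] W n :=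
  (sh.comp ((ContinuousLinearMap.compL ℝ (E n) (W n) ℝ).flip
    (ContinuousLinearMap.inr ℝ (E n) (E n)))).prod
  (-(sh.comp ((ContinuousLinearMap.compL ℝ (E n) (W n) ℝ).flip
    (ContinuousLinearMap.inl ℝ (E n) (E n)))))

theorem XH_eq {n : ℕ} (H : W n → ℝ) : XH H = fun z => T n (fderiv ℝ H z) := rfl

theorem T_fst {n : ℕ} (l : W n →L[ℝ] ℝ) (i : Fin n) : (T n l).1 i = l (0, ee i) := by
  change (sh (l.comp (ContinuousLinearMap.inr ℝ (E n) (E n)))) i = _
  rw [sh_apply]
  rfl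

theorem T_snd {n : ℕ} (l : W n →L[ℝ] ℝ) (i : Fin n) : (T n l).2 i = -l (ee i, 0) := by
  change (-sh (l.comp (ContinuousLinearMap.inl ℝ (E n) (E n)))) i = _
  rw [PiLp.neg_apply, sh_apply]
  rfl

theorem trace_eq {n : ℕ} (f : W n →ₗ[ℝ] W n) :
    LinearMap.trace ℝ (W n) f = ∑ i, (f (ee i, 0)).1 i + ∑ i, (f (0, ee i)).2 i := by
  classical
  let b : Module.Basis (Fin n) ℝ (E n) := (EuclideanSpace.basisFun (Fin n) ℝ).toBasis
  rw [LinearMap.trace_eq_matrix_trace ℝ (b.prod b) f, Matrix.trace, Fintype.sum_sum_type]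
  simp [LinearMap.toMatrix_apply, b, ee]

end ITr0

open ITr0 in
/-- Item Tr0. -/
theorem pr_Tr0 : StTr0 := by
  intro n H hH
  have h1 : ContDiff ℝ ∞ (fderiv ℝ H) := hH.fderiv_right (by norm_num)
  refine ⟨?_, fun z => ?_, fun z => ?_⟩
  · rw [XH_eq]
    exact (T n).contDiff.comp h1
  · have hs : IsSymmSndFDerivAt ℝ H z := by
      refine ContDiffAt.isSymmSndFDerivAt (n := ∞) hH.contDiffAt ?_
      rw [minSmoothness_of_isRCLikeNormedField]
      exact WithTop.coe_le_coe.2 (le_top : (2 : ℕ∞) ≤ ⊤)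
    have hd : HasFDerivAt (XH H) ((T n).comp (fderiv ℝ (fderiv ℝ H) z)) z := by
      rw [XH_eq]
      exact (T n).hasFDerivAt.comp z ((h1.differentiable (by simp)) z).hasFDerivAt
    rw [hd.fderiv, trace_eq, ← Finset.sum_add_distrib]
    refine Finset.sum_eq_zero fun i _ => ?_
    have e1 : (((T n).comp (fderiv ℝ (fderiv ℝ H) z) : W n →ₗ[ℝ] W n) (ee i, 0)).1 i =
        fderiv ℝ (fderiv ℝ H) z (ee i, 0) (0, ee i) := T_fst _ i
    have e2 : (((T n).comp (fderiv ℝ (fderiv ℝ H) z) : W n →ₗ[ℝ] W n) (0, ee i)).2 i =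
        -fderiv ℝ (fderiv ℝ H) z (0, ee i) (ee i, 0) := T_snd _ i
    rw [e1, e2, hs (ee i, 0) (0, ee i)]
    ring
  · set D := fderiv ℝ H z with hD
    have e : D (XH H z) = (D.comp (ContinuousLinearMap.inl ℝ (E n) (E n)))
          (sh (D.comp (ContinuousLinearMap.inr ℝ (E n) (E n)))) -
        (D.comp (ContinuousLinearMap.inr ℝ (E n) (E n)))
          (sh (D.comp (ContinuousLinearMap.inl ℝ (E n) (E n)))) := by
      simp only [ContinuousLinearMap.comp_apply, ContinuousLinearMap.inl_apply,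
        ContinuousLinearMap.inr_apply, ← map_sub]
      congr 1
      simp [XH, hD]
    rw [e, ← inner_sh, ← inner_sh, real_inner_comm, sub_self]

end Pool.Agent.MLS
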