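import Mathlib
import Pool.Agent.Work.MP_25cd3b_gt.M.Stmts

set_option autoImplicit false

/-!
# Unfolding of integrals
-/

open MeasureTheory Set Filter Topology
open scoped ENNReal

namespace Pool.Agent.MLS

theorem pr_Unf : StUnf := by
  intro X _ ν G _ _ ρ hρ hmul hone a b F ha hb hF hsa hsb hFi
  have hmeas : ∀ γ, Measurable (ρ γ) := fun γ => (hρ γ).measurable
  calc ∫⁻ x, a x * F x ∂ν = ∫⁻ x, ∑' γ, a x * F x * b (ρ γ x) ∂ν := by
        refine lintegral_congr fun x => ?_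
        rw [ENNReal.tsum_mul_left, hsb, mul_one]
    _ = ∑' γ, ∫⁻ x, a x * F x * b (ρ γ x) ∂ν :=
        lintegral_tsum fun γ => ((ha.mul hF).mul (hb.comp (hmeas γ))).aemeasurable
    _ = ∑' γ, ∫⁻ x, a (ρ γ⁻¹ x) * F x * b x ∂ν := by
        refine tsum_congr fun γ => ?_
        have h := (hρ γ).lintegral_comp (f := fun y => a (ρ γ⁻¹ y) * F y * b y)
          (((ha.comp (hmeas γ⁻¹)).mul hF).mul hb)
        rw [← h]
        refine lintegral_congr fun x => ?_
        have h2 : ρ γ⁻¹ (ρ γ x) = x := by rw [← hmul, inv_mul_cancel, hone]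
        rw [h2, hFi]
    _ = ∫⁻ x, ∑' γ, a (ρ γ⁻¹ x) * F x * b x ∂ν :=
        (lintegral_tsum fun γ =>
          (((ha.comp (hmeas γ⁻¹)).mul hF).mul hb).aemeasurable).symm
    _ = ∫⁻ x, b x * F x ∂ν := by
        refine lintegral_congr fun x => ?_
        have h3 : ∑' γ : G, a (ρ γ⁻¹ x) = 1 := by
          rw [← hsa x]
          exact (Equiv.inv G).tsum_eq (fun γ => a (ρ γ x))
        simp_rw [mul_assoc]
        rw [ENNReal.tsum_mul_right, h3, one_mul, mul_comm]

end Pool.Agent.MLS
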