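import Pool.Agent.Work.MP_c9f990_an.Bd.B01
import Pool.Agent.Work.MP_25cd3b_gt.M.Asm3
import Pool.Agent.Work.MP_25cd3b_gt.M.I_Avg
import Pool.Agent.Work.MP_25cd3b_gt.M.I_B1
import Pool.Agent.Work.MP_25cd3b_gt.M.I_B2
import Pool.Agent.Work.MP_25cd3b_gt.M.I_Bnd
import Pool.Agent.Work.MP_25cd3b_gt.M.I_Cell
import Pool.Agent.Work.MP_25cd3b_gt.M.I_Cmp
import Pool.Agent.Work.MP_25cd3b_gt.M.I_Cnt
import Pool.Agent.Work.MP_25cd3b_gt.M.I_CtsD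
import Pool.Agent.Work.MP_25cd3b_gt.M.I_Dens
import Pool.Agent.Work.MP_25cd3b_gt.M.I_Div
import Pool.Agent.Work.MP_25cd3b_gt.M.I_DivZ
import Pool.Agent.Work.MP_25cd3b_gt.M.I_EqF
import Pool.Agent.Work.MP_25cd3b_gt.M.I_EqG
import Pool.Agent.Work.MP_25cd3b_gt.M.I_FD
import Pool.Agent.Work.MP_25cd3b_gt.M.I_FDW
import Pool.Agent.Work.MP_25cd3b_gt.M.I_Fib
import Pool.Agent.Work.MP_25cd3b_gt.M.I_Flow
import Pool.Agent.Work.MP_25cd3b_gt.M.I_Fub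
import Pool.Agent.Work.MP_25cd3b_gt.M.I_Fun
import Pool.Agent.Work.MP_25cd3b_gt.M.I_Gd
import Pool.Agent.Work.MP_25cd3b_gt.M.I_Geo1
import Pool.Agent.Work.MP_25cd3b_gt.M.I_Geo2
import Pool.Agent.Work.MP_25cd3b_gt.M.I_Hd
import Pool.Agent.Work.MP_25cd3b_gt.M.I_InvD
import Pool.Agent.Work.MP_25cd3b_gt.M.I_Kah
import Pool.Agent.Work.MP_25cd3b_gt.M.I_Key
import Pool.Agent.Work.MP_25cd3b_gt.M.I_KeyK
import Pool.Agent.Work.MP_25cd3b_gt.M.I_Ld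
import Pool.Agent.Work.MP_25cd3b_gt.M.I_LftA
import Pool.Agent.Work.MP_25cd3b_gt.M.I_LftM
import Pool.Agent.Work.MP_25cd3b_gt.M.I_MP
import Pool.Agent.Work.MP_25cd3b_gt.M.I_Main
import Pool.Agent.Work.MP_25cd3b_gt.M.I_Op
import Pool.Agent.Work.MP_25cd3b_gt.M.I_PU
import Pool.Agent.Work.MP_25cd3b_gt.M.I_Patch
import Pool.Agent.Work.MP_25cd3b_gt.M.I_Pig
import Pool.Agent.Work.MP_25cd3b_gt.M.I_Prop
import Pool.Agent.Work.MP_25cd3b_gt.M.I_Pull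
import Pool.Agent.Work.MP_25cd3b_gt.M.I_SFD
import Pool.Agent.Work.MP_25cd3b_gt.M.I_Scale
import Pool.Agent.Work.MP_25cd3b_gt.M.I_Seg
import Pool.Agent.Work.MP_25cd3b_gt.M.I_Split
import Pool.Agent.Work.MP_25cd3b_gt.M.I_Sub
import Pool.Agent.Work.MP_25cd3b_gt.M.I_Sym
import Pool.Agent.Work.MP_25cd3b_gt.M.I_Tr0
import Pool.Agent.Work.MP_25cd3b_gt.M.I_TrI
import Pool.Agent.Work.MP_25cd3b_gt.M.I_Unf
import Pool.Agent.Work.MP_25cd3b_gt.M.I_Var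

set_option autoImplicit false

/-!
# MP_25cd3b_gt: all items assembled
-/

open MeasureTheory Set Filter Topology
open Pool.Agent.Work.MP_c9f990_an.Al (I_FLOW I_ODE I_LIOU)

namespace Pool.Agent.MLS

theorem p_CtsD : StCtsD := pr_CtsD pr_Bnd pr_Gd
theorem p_Fun : StFun := pr_Fun pr_Bnd pr_Gd
theorem p_Prop : StProp := pr_Prop pr_Gd pr_InvD pr_Split p_Fun
theorem p_Cmp : StCmp := pr_Cmp pr_Bnd pr_Gd
theorem p_Ld : StLd := pr_Ld pr_Gd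
theorem p_B2 : StB2 := pr_B2 pr_B1
theorem p_Sub : StSub := pr_Sub pr_Bnd pr_Op
theorem p_Cell : StCell := pr_Cell pr_Gd p_CtsD p_Sub
theorem p_Hd : StHd := pr_Hd pr_Op
theorem p_Geo1 : StGeo1 := pr_Geo1 pr_Op p_Hd pr_Tr0
theorem p_Geo2 : StGeo2 := pr_Geo2 pr_Op p_Hd
theorem p_EqG : StEqG := pr_EqG pr_Op
theorem p_Patch : StPatch := pr_Patch (I_FLOW I_ODE)
theorem p_Flow : StFlow := pr_Flow p_Patch p_Sub p_Prop pr_Gd pr_Op p_Hd pr_Tr0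
theorem p_MP : StMP := pr_MP I_LIOU pr_Tr0
theorem p_LftA : StLftA := pr_LftA pr_Op
theorem p_LftM : StLftM := pr_LftM pr_Op p_LftA
theorem p_EqF : StEqF := pr_EqF p_Geo1 p_Geo2 p_EqG
theorem p_Avg : StAvg := pr_Avg pr_Unf pr_Cnt pr_Op p_MP p_LftA p_LftM p_EqF
theorem p_Seg : StSeg := pr_Seg pr_Gd pr_InvD p_Cmp p_Ld p_B2 pr_Pig p_Cell p_Flow pr_Op p_Geo2
  p_LftA p_EqF
theorem p_Key : StKey := pr_Key p_Seg p_Avg p_Flow p_Sub pr_Op p_Geo1 p_LftA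
theorem p_Fib : StFib := pr_Fib pr_Op pr_Sym
theorem p_Main : StMain := pr_Main p_Key p_Fib pr_Op p_Sub
theorem p_TrI : StTrI := pr_TrI pr_Dens
theorem p_FD : StFD := pr_FD pr_Unf pr_Cnt pr_Dens
theorem p_Kah : StKah := pr_Kah pr_Div pr_DivZ pr_Dens
theorem p_FDW : StFDW := pr_FDW pr_Unf pr_Cnt pr_Op p_LftA p_LftM
theorem p_Fub : StFub := pr_Fub pr_Op p_Sub p_Fib
theorem p_KeyK : StKeyK := pr_KeyK pr_Scale p_Key
theorem p_SFD : StSFD := pr_SFD p_FD pr_Dens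
theorem p_Var : StVar := pr_Var pr_Dens
theorem p_ThK : StThK := pr_ThK p_Main pr_PU p_TrI p_Kah pr_Pull pr_Op p_LftA p_FDW p_Fub p_KeyK
  p_Sub
theorem p_ThV : StThV := pr_ThV p_Main pr_PU p_SFD p_Var

end Pool.Agent.MLS
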