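import Mathlib
import Pool.Agent.Work.MP_c9f990_an.Al.Defs

set_option autoImplicit false

/-!
# MP_25cd3b_gt: marked length spectra, energy of maps and Kaehler classes.  Definitions

A closed manifold with universal covering `R^n` is `R^n / G`, where `G` acts on `R^n` by
diffeomorphisms, freely, properly discontinuously and with compact quotient.  Metrics of the
manifold are `G`-invariant metrics of `R^n`, and smooth maps of the manifold to itself which are
homotopic to the identity are `G`-equivariant smooth maps of `R^n`.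
-/

open MeasureTheory Set Filter Topology
open scoped ContDiff ENNReal

namespace Pool.Agent.MLS

/-- points and vectors -/
abbrev E (n : ℕ) := EuclideanSpace ℝ (Fin n)

/-- phase space (position and momentum) -/
abbrev W (n : ℕ) := E n × E n

/-- the vectors of the standard basis -/
noncomputable def ee {n : ℕ} (i : Fin n) : E n := EuclideanSpace.single i (1 : ℝ)

/-- a smooth field of symmetric positive semidefinite bilinear forms on `R^n` -/
@[ext] structure Form (n : ℕ) where
  val : E n → E n →L[ℝ] E n →L[ℝ] ℝ
  smooth : ContDiff ℝ ∞ val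
  symm : ∀ x u v, val x u v = val x v u
  nonneg : ∀ x v, 0 ≤ val x v v

/-- the form is a Riemannian metric -/
def Riem {n : ℕ} (g : Form n) : Prop := ∀ x v, v ≠ 0 → 0 < g.val x v v

/-- length of the tangent vector `v` at `x` -/
noncomputable def nrm {n : ℕ} (g : Form n) (x v : E n) : ℝ := Real.sqrt (g.val x v v)

/-- `PathLen g x y l`: some piecewise `C^1` curve from `x` to `y` has length `l` -/
inductive PathLen {n : ℕ} (g : Form n) : E n → E n → ℝ → Prop
  | refl (x : E n) : PathLen g x x 0
  | cons (c : ℝ → E n) (a b : ℝ) (y : E n) (l : ℝ) (hc : ContDiff ℝ 1 c) (hab : a ≤ b)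
      (h : PathLen g (c b) y l) :
      PathLen g (c a) y ((∫ t in a..b, nrm g (c t) (deriv c t)) + l)

/-- distance of the form -/
noncomputable def gd {n : ℕ} (g : Form n) (x y : E n) : ℝ := sInf {l | PathLen g x y l}

/-- the group acts smoothly, freely, properly discontinuously and cocompactly on `R^n` -/
structure Cocompact (n : ℕ) (G : Type) [Group G] [MulAction G (E n)] : Prop where
  smooth : ∀ a : G, ContDiff ℝ ∞ (fun x : E n => a • x)
  free : ∀ (a : G) (x : E n), a • x = x → a = 1
  proper : ∀ K : Set (E n), IsCompact K →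
    {a : G | ((fun x : E n => a • x) '' K ∩ K).Nonempty}.Finite
  cocompact : ∃ K : Set (E n), IsCompact K ∧ ∀ x : E n, ∃ a : G, a • x ∈ K

/-- derivative of the action -/
noncomputable def dac {n : ℕ} {G : Type} [Group G] [MulAction G (E n)] (a : G) (x : E n) :
    E n →L[ℝ] E n := fderiv ℝ (fun y : E n => a • y) x

/-- the form is invariant under the group -/
def Inv {n : ℕ} (G : Type) [Group G] [MulAction G (E n)] (g : Form n) : Prop :=
  ∀ (a : G) (x u v : E n), g.val (a • x) (dac a x u) (dac a x v) = g.val x u v

/-- marked length spectrum: infimum of the lengths of the curves from `x` to `a x`, that is of the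
closed curves of the quotient in the free homotopy class of `a` -/
noncomputable def L {n : ℕ} {G : Type} [Group G] [MulAction G (E n)] (g : Form n) (a : G) : ℝ :=
  sInf {l | ∃ x : E n, PathLen g x (a • x) l}

/-- geodesics (Euler-Lagrange equations of the energy) -/
structure IsGeo {n : ℕ} (g : Form n) (c : ℝ → E n) : Prop where
  smooth : ContDiff ℝ 2 c
  el : ∀ t w, HasDerivAt (fun s => g.val (c s) (deriv c s) w)
    (1 / 2 * fderiv ℝ g.val (c t) w (deriv c t) (deriv c t)) t

/-- no conjugate points: every unit speed geodesic of the universal covering is minimizing -/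
def Minz {n : ℕ} (g : Form n) : Prop :=
  ∀ c : ℝ → E n, IsGeo g c → (∀ t, g.val (c t) (deriv c t) (deriv c t) = 1) →
    ∀ s t, gd g (c s) (c t) = |s - t|

/-- the four point condition of Gromov -/
def Hyp4 {X : Type} (d : X → X → ℝ) (δ : ℝ) : Prop :=
  ∀ x y z w, d x y + d z w ≤ max (d x z + d y w) (d x w + d y z) + δ

/-- the universal covering is Gromov hyperbolic -/
def HypG {n : ℕ} (g : Form n) : Prop := ∃ δ, Hyp4 (gd g) δ

/-- matrix of the form -/
noncomputable def gm {n : ℕ} (g : Form n) (x : E n) : Matrix (Fin n) (Fin n) ℝ :=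
  Matrix.of fun i j => g.val x (ee i) (ee j)

/-- trace of `g2` with respect to `g1` -/
noncomputable def tr {n : ℕ} (g1 g2 : Form n) (x : E n) : ℝ := ((gm g1 x)⁻¹ * gm g2 x).trace

/-- volume density -/
noncomputable def dens {n : ℕ} (g : Form n) (x : E n) : ℝ := Real.sqrt (gm g x).det

/-- pull-back under a smooth map -/
noncomputable def pull {n : ℕ} (F : E n → E n) (hF : ContDiff ℝ ∞ F) (g : Form n) : Form n where
  val := fun x => ((ContinuousLinearMap.compL ℝ (E n) (E n) ℝ).flip (fderiv ℝ F x)).comp
    ((g.val (F x)).comp (fderiv ℝ F x))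
  smooth := by
    have h1 : ContDiff ℝ ∞ (fderiv ℝ F) := hF.fderiv_right (by norm_num)
    have h2 : ContDiff ℝ ∞ (fun x => g.val (F x)) := g.smooth.comp hF
    exact ((ContinuousLinearMap.contDiff _).comp h1).clm_comp (h2.clm_comp h1)
  symm := fun x u v => by simpa using g.symm _ _ _
  nonneg := fun x v => by simpa using g.nonneg _ _

/-- almost complex structure on the quotient -/
structure IsJ {n : ℕ} (G : Type) [Group G] [MulAction G (E n)] (J : E n → E n →L[ℝ] E n) :
    Prop where
  smooth : ContDiff ℝ ∞ J
  sq : ∀ x u, J x (J x u) = -u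
  inv : ∀ (a : G) (x u : E n), J (a • x) (dac a x u) = dac a x (J x u)

/-- the form is compatible with `J`, and the two form `g (J u, v)` is closed -/
structure Kah {n : ℕ} (J : E n → E n →L[ℝ] E n) (g : Form n) : Prop where
  compat : ∀ x u v, g.val x (J x u) (J x v) = g.val x u v
  closed : ∀ x u v w, fderiv ℝ (fun y => g.val y (J y v) w) x u +
    fderiv ℝ (fun y => g.val y (J y w) u) x v + fderiv ℝ (fun y => g.val y (J y u) v) x w = 0

/-- the two form of `g2` is `r` times the two form of `g1` plus the derivative of an invariant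
one form -/
def Cohom {n : ℕ} (G : Type) [Group G] [MulAction G (E n)] (J : E n → E n →L[ℝ] E n)
    (g1 g2 : Form n) (r : ℝ) : Prop :=
  ∃ α : E n → E n →L[ℝ] ℝ, ContDiff ℝ ∞ α ∧
    (∀ (a : G) (x u : E n), α (a • x) (dac a x u) = α x u) ∧
    ∀ x u v, g2.val x (J x u) v =
      r * g1.val x (J x u) v + (fderiv ℝ α x u v - fderiv ℝ α x v u)

/-! ### auxiliary definitions of the proof -/

/-- the vector of a linear functional -/
noncomputable def sh {n : ℕ} : (E n →L[ℝ] ℝ) →L[ℝ] E n :=
  ∑ i, (ContinuousLinearMap.apply ℝ ℝ (ee i)).smulRight (ee i)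

/-- the operator of the form -/
noncomputable def op {n : ℕ} (g : Form n) (x : E n) : E n →L[ℝ] E n := sh.comp (g.val x)

/-- the inverse operator -/
noncomputable def iop {n : ℕ} (g : Form n) (x : E n) : E n →L[ℝ] E n := Ring.inverse (op g x)

/-- kinetic energy as a function of position and momentum -/
noncomputable def Hm {n : ℕ} (g : Form n) (z : W n) : ℝ := 1 / 2 * inner ℝ z.2 (iop g z.1 z.2)

/-- velocity of a point of phase space -/
noncomputable def vel {n : ℕ} (g : Form n) (z : W n) : E n := iop g z.1 z.2

/-- Hamiltonian vector field -/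
noncomputable def XH {n : ℕ} (H : W n → ℝ) (z : W n) : W n :=
  (sh ((fderiv ℝ H z).comp (ContinuousLinearMap.inr ℝ (E n) (E n))),
    -sh ((fderiv ℝ H z).comp (ContinuousLinearMap.inl ℝ (E n) (E n))))

/-- action on phase space -/
noncomputable def lft {n : ℕ} {G : Type} [Group G] [MulAction G (E n)] (g : Form n) (a : G)
    (z : W n) : W n := (a • z.1, op g (a • z.1) (dac a z.1 (iop g z.1 z.2)))

/-- invariant partition of unity -/
structure PU {n : ℕ} (G : Type) [Group G] [MulAction G (E n)] (χ : E n → ℝ) : Prop where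
  smooth : ContDiff ℝ ∞ χ
  nonneg : ∀ x, 0 ≤ χ x
  cpt : HasCompactSupport χ
  sum : ∀ x, HasSum (fun a : G => χ (a • x)) 1

/-- second moment of the unit ball -/
noncomputable def cn (n : ℕ) : ℝ := ∫ ξ in Metric.closedBall (0 : E n) 1, ‖ξ‖ ^ 2

/-- pseudometrics -/
structure IsPM {X : Type} (d : X → X → ℝ) : Prop where
  nonneg : ∀ x y, 0 ≤ d x y
  self : ∀ x, d x x = 0
  symm : ∀ x y, d x y = d y x
  tri : ∀ x y z, d x z ≤ d x y + d y z

end Pool.Agent.MLS
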