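import Pool.Agent.Work.MP_25cd3b_gt.M.Stmts

set_option autoImplicit false

/-!
# Item CtsD: continuity of the distance
-/

open MeasureTheory Set Filter Topology
open scoped ContDiff ENNReal

namespace Pool.Agent.MLS

namespace ICtsD

/-- Local Lipschitz bound of the distance, on a closed ball. -/
lemma gd_le {n : ℕ} (h2 : StGd) (g : Form n) {R C : ℝ} (hC : 0 < C)
    (hb : ∀ x ∈ Metric.closedBall (0 : E n) R, ∀ v, nrm g x v ≤ C * ‖v‖) {x y : E n}
    (hx : x ∈ Metric.closedBall (0 : E n) R) (hy : y ∈ Metric.closedBall (0 : E n) R) :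
    gd g x y ≤ C * ‖y - x‖ := by
  set c : ℝ → E n := fun t => x + t • (y - x) with hc
  have hd : ∀ t, deriv c t = y - x := by
    intro t
    have h : HasDerivAt c (y - x) t := by
      have h1 := ((hasDerivAt_id t).smul_const (y - x)).const_add x
      simpa [hc] using h1
    exact h.deriv
  have hcd : ContDiff ℝ 1 c := contDiff_const.add (contDiff_id.smul contDiff_const)
  have h := (h2 n g).2.2.2 c 0 1 hcd zero_le_one
  have hc0 : c 0 = x := by simp [hc]
  have hc1 : c 1 = y := by simp [hc]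
  rw [hc0, hc1] at h
  refine h.trans ((le_abs_self _).trans ?_)
  rw [← Real.norm_eq_abs]
  have h3 : ∀ t ∈ Set.uIoc (0 : ℝ) 1, ‖nrm g (c t) (deriv c t)‖ ≤ C * ‖y - x‖ := by
    intro t ht
    rw [uIoc_of_le zero_le_one] at ht
    have hmem : c t ∈ Metric.closedBall (0 : E n) R := by
      have hconv := convex_closedBall (0 : E n) R
      exact hconv.add_smul_sub_mem hx hy ⟨ht.1.le, ht.2⟩
    have hnn : 0 ≤ nrm g (c t) (y - x) := Real.sqrt_nonneg _
    rw [hd t, Real.norm_of_nonneg hnn]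
    exact hb _ hmem _
  have h4 := intervalIntegral.norm_integral_le_of_norm_le_const h3
  simpa using h4

end ICtsD

open ICtsD

/-- Item CtsD. -/
theorem pr_CtsD (h1 : StBnd) (h2 : StGd) : StCtsD := by
  intro n g
  rw [continuous_iff_continuousAt]
  rintro ⟨x₀, y₀⟩
  have hpm := (h2 n g).2.1
  set R := max ‖x₀‖ ‖y₀‖ + 1 with hR
  obtain ⟨C, hC, hb⟩ := (h1 n g (Metric.closedBall 0 R) (isCompact_closedBall _ _)).1
  have hx₀ : x₀ ∈ Metric.closedBall (0 : E n) R := by
    rw [mem_closedBall_zero_iff, hR]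
    linarith [le_max_left ‖x₀‖ ‖y₀‖]
  have hy₀ : y₀ ∈ Metric.closedBall (0 : E n) R := by
    rw [mem_closedBall_zero_iff, hR]
    linarith [le_max_right ‖x₀‖ ‖y₀‖]
  have hlim : Tendsto (fun p : E n × E n => C * ‖x₀ - p.1‖ + C * ‖y₀ - p.2‖) (𝓝 (x₀, y₀))
      (𝓝 0) := by
    have hcont : Continuous (fun p : E n × E n => C * ‖x₀ - p.1‖ + C * ‖y₀ - p.2‖) := by
      fun_prop
    have := hcont.tendsto (x₀, y₀)
    simpa using this
  refine tendsto_iff_dist_tendsto_zero.2 (squeeze_zero' (Eventually.of_forall fun _ =>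
    dist_nonneg) ?_ hlim)
  have hball : Metric.ball (x₀, y₀) 1 ∈ 𝓝 (x₀, y₀) := Metric.ball_mem_nhds _ one_pos
  filter_upwards [hball] with p hp
  have hp' : max (dist p.1 x₀) (dist p.2 y₀) < 1 := hp
  have hp1 : ‖p.1 - x₀‖ < 1 := by
    rw [← dist_eq_norm]; exact (le_max_left _ _).trans_lt hp'
  have hp2 : ‖p.2 - y₀‖ < 1 := by
    rw [← dist_eq_norm]; exact (le_max_right _ _).trans_lt hp'
  have hx : p.1 ∈ Metric.closedBall (0 : E n) R := by
    rw [mem_closedBall_zero_iff, hR]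
    have := norm_le_norm_add_norm_sub' p.1 x₀
    have := norm_sub_rev p.1 x₀
    linarith [le_max_left ‖x₀‖ ‖y₀‖]
  have hy : p.2 ∈ Metric.closedBall (0 : E n) R := by
    rw [mem_closedBall_zero_iff, hR]
    have := norm_le_norm_add_norm_sub' p.2 y₀
    have := norm_sub_rev p.2 y₀
    linarith [le_max_right ‖x₀‖ ‖y₀‖]
  have e1 := gd_le h2 g hC hb hx hx₀
  have e2 := gd_le h2 g hC hb hy hy₀
  have t1 := hpm.tri p.1 x₀ p.2
  have t2 := hpm.tri x₀ y₀ p.2
  have t3 := hpm.tri x₀ p.1 y₀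
  have t4 := hpm.tri p.1 p.2 y₀
  have s1 := hpm.symm p.1 x₀
  have s2 := hpm.symm p.2 y₀
  show dist (gd g p.1 p.2) (gd g x₀ y₀) ≤ _
  rw [Real.dist_eq, abs_le]
  constructor <;> linarith

end Pool.Agent.MLS
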