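import Pool.Agent.Work.MP_25cd3b_gt.M.Stmts

set_option autoImplicit false

/-!
# MP_25cd3b_gt: from the main inequality to the theorems
-/

open MeasureTheory Set Filter Topology
open scoped ContDiff ENNReal

namespace Pool.Agent.MLS

theorem pr_ThA (hM : StMain) (hF : StFD) (hP : StPU) (hT : StTrI) (hU : StPull) : StThA := by
  intro n G _ _ hG g1 g2 r1 _ i1 i2 hm hh hL F hFs hFe D hD hD1
  obtain ⟨χ, hχ⟩ := hP n G hG
  obtain ⟨ip, lp⟩ := hU n G hG g2 i2 F hFs hFe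
  have hL' : ∀ a : G, L g1 a ≤ L (pull F hFs g2) a := fun a => (hL a).trans (lp a)
  obtain ⟨m1, m2⟩ := hM n G hG g1 (pull F hFs g2) r1 i1 ip hm hh hL' χ hχ
  obtain ⟨t1, t2, t3⟩ := hT n G hG g1 (pull F hFs g2) r1 i1 ip
  have e1 := hF n G hG g1 r1 i1 χ hχ D hD hD1 (fun _ => 1) continuous_const
    (fun _ => zero_le_one) (fun _ _ => rfl)
  have e2 := hF n G hG g1 r1 i1 χ hχ D hD hD1 (tr g1 (pull F hFs g2)) t2.continuous t3 t1
  simp only [one_mul] at e1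
  rw [e1, e2]
  exact ⟨m1, m2⟩

theorem kah_main (hM : StMain) (hK : StKah) (hP : StPU) :
    ∀ (n : ℕ) (G : Type) [Group G] [MulAction G (E n)], Cocompact n G →
    ∀ g1 g2 : Form n, Riem g1 → Inv G g1 → Inv G g2 → Minz g1 → HypG g1 →
    (∀ a : G, L g1 a ≤ L g2 a) → ∀ J : E n → E n →L[ℝ] E n, IsJ G J → Kah J g1 →
    ∀ r : ℝ, r ≤ 1 → Cohom G J g1 g2 r → g1 = g2 := by
  intro n G _ _ hG g1 g2 r1 i1 i2 hm hh hL J hJ hk r hr hc
  obtain ⟨χ, hχ⟩ := hP n G hG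
  obtain ⟨m1, m2⟩ := hM n G hG g1 g2 r1 i1 i2 hm hh hL χ hχ
  apply m2
  rw [hK n G hG g1 g2 r1 i1 J hJ hk r hc χ hχ]
  have h0 : 0 ≤ ∫ x, χ x * dens g1 x :=
    integral_nonneg fun x => mul_nonneg (hχ.nonneg x) (Real.sqrt_nonneg _)
  have h1 : 0 ≤ (n : ℝ) * ∫ x, χ x * dens g1 x := by positivity
  nlinarith

theorem pr_ThB (hM : StMain) (hK : StKah) (hP : StPU) (hU : StPull) : StThB := by
  intro n G _ _ hG g1 g2 r1 _ i1 i2 hm hh hL J hJ hk F hFs hFe r hr hc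
  obtain ⟨ip, lp⟩ := hU n G hG g2 i2 F hFs hFe
  exact kah_main hM hK hP n G hG g1 _ r1 i1 ip hm hh (fun a => (hL a).trans (lp a)) J hJ hk r
    hr hc

/-- proportional classes -/
def StThC : Prop := ∀ (n : ℕ) (G : Type) [Group G] [MulAction G (E n)], Cocompact n G →
  ∀ g1 g2 : Form n, Riem g1 → Riem g2 → Inv G g1 → Inv G g2 → Minz g1 → HypG g1 → Minz g2 →
  HypG g2 → (∀ a : G, L g1 a = L g2 a) → ∀ J : E n → E n →L[ℝ] E n, IsJ G J → Kah J g1 →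
  Kah J g2 → ∀ r : ℝ, Cohom G J g1 g2 r → g1 = g2

theorem pr_ThC (hM : StMain) (hK : StKah) (hP : StPU) : StThC := by
  intro n G _ _ hG g1 g2 r1 r2 i1 i2 m1 y1 m2 y2 hL J hJ k1 k2 r hc
  rcases le_total r 1 with hr | hr
  · exact kah_main hM hK hP n G hG g1 g2 r1 i1 i2 m1 y1 (fun a => (hL a).le) J hJ k1 r hr hc
  · have hr0 : 0 < r := by linarith
    refine (kah_main hM hK hP n G hG g2 g1 r2 i2 i1 m2 y2 (fun a => (hL a).ge) J hJ k2 r⁻¹
      (inv_le_one_of_one_le₀ hr) ?_).symm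
    obtain ⟨α, ha, hi, he⟩ := hc
    refine ⟨fun x => (-r⁻¹) • α x, ha.const_smul (-r⁻¹), fun a x u => ?_, fun x u v => ?_⟩
    · simp only [ContinuousLinearMap.smul_apply, hi a x u]
    · have hd : fderiv ℝ (fun x => (-r⁻¹) • α x) x = (-r⁻¹) • fderiv ℝ α x :=
        fderiv_fun_const_smul (ha.differentiable (by norm_num) x) _
      rw [hd]
      simp only [ContinuousLinearMap.smul_apply, smul_eq_mul, he x u v]
      field_simp
      ring

end Pool.Agent.MLS
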