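import Pool.Agent.Work.MP_25cd3b_gt.M.Stmts

set_option autoImplicit false

/-!
# MP_25cd3b_gt: simultaneous diagonalization, sums of forms, the symmetric inequality
-/

open MeasureTheory Set Filter Topology
open scoped ContDiff ENNReal

namespace Pool.Agent.MLS

/-- sum of two forms -/
noncomputable def addF {n : ℕ} (g h : Form n) : Form n where
  val := fun x => g.val x + h.val x
  smooth := g.smooth.add h.smooth
  symm := fun x u v => by
    simp only [add_apply, g.symm x u v, h.symm x u v]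
  nonneg := fun x v => by
    simpa only [add_apply] using add_nonneg (g.nonneg x v) (h.nonneg x v)

theorem addF_inv {n : ℕ} {G : Type} [Group G] [MulAction G (E n)] {g h : Form n} (hg : Inv G g)
    (hh : Inv G h) : Inv G (addF g h) := fun a x u v => by
  simp only [addF, add_apply, hg a x u v, hh a x u v]

theorem gm_addF {n : ℕ} (g h : Form n) (x : E n) : gm (addF g h) x = gm g x + gm h x := by
  ext i j
  simp [gm, addF]

theorem tr_addF {n : ℕ} (g1 g h : Form n) (x : E n) :
    tr g1 (addF g h) x = tr g1 g x + tr g1 h x := by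
  simp only [tr, gm_addF, mul_add, Matrix.trace_add]

/-- data of a simultaneous diagonalization at a point -/
def Diag {n : ℕ} (g1 g2 : Form n) (x : E n) (b : Module.Basis (Fin n) ℝ (E n)) (l : Fin n → ℝ) :
    Prop :=
  (∀ i j, g1.val x (b i) (b j) = if i = j then 1 else 0) ∧
    ∀ i j, g2.val x (b i) (b j) = if i = j then l i else 0

theorem gm_basis {n : ℕ} (g : Form n) (x : E n) (b : Module.Basis (Fin n) ℝ (E n)) :
    (Matrix.of fun i j => g.val x (b i) (b j)) =
      (Matrix.of fun k i => b i k).transpose * gm g x * (Matrix.of fun k i => b i k) := by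
  have hb : ∀ v : E n, v = ∑ k, v k • ee k := by
    intro v
    ext j
    simp [ee, Finset.sum_apply, Pi.single_apply]
  ext i j
  rw [Matrix.mul_assoc, Matrix.mul_apply]
  simp only [Matrix.transpose_apply, Matrix.of_apply, Matrix.mul_apply, gm]
  conv_lhs => rw [hb (b i), hb (b j)]
  simp only [map_sum, map_smul, sum_apply, smul_apply,
    smul_eq_mul]
  simp only [Finset.mul_sum]
  refine (Finset.sum_comm).trans ?_
  refine Finset.sum_congr rfl fun k _ => ?_
  refine Finset.sum_congr rfl fun l _ => ?_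
  ring

theorem diag_tr {n : ℕ} {g1 g2 : Form n} {x : E n} {b : Module.Basis (Fin n) ℝ (E n)}
    {l : Fin n → ℝ} (h : Diag g1 g2 x b l) (hl : ∀ i, 0 < l i) :
    tr g1 g2 x = ∑ i, l i ∧ tr g2 g1 x = ∑ i, (l i)⁻¹ ∧
      dens g2 x = Real.sqrt (∏ i, l i) * dens g1 x ∧ 0 < (gm g1 x).det := by
  set B : Matrix (Fin n) (Fin n) ℝ := Matrix.of fun k i => b i k with hB
  have h1 : B.transpose * gm g1 x * B = 1 := by
    rw [← gm_basis g1 x b]
    ext i j
    simp [h.1 i j, Matrix.one_apply]
  have h2 : B.transpose * gm g2 x * B = Matrix.diagonal l := by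
    rw [← gm_basis g2 x b]
    ext i j
    simp [h.2 i j, Matrix.diagonal_apply]
  have hBdet : B.det * B.det * (gm g1 x).det = 1 := by
    have := congrArg Matrix.det h1
    simp only [Matrix.det_mul, Matrix.det_transpose, Matrix.det_one] at this
    linarith
  have hB0 : B.det ≠ 0 := by
    intro h0
    rw [h0] at hBdet
    simp at hBdet
  have hBu : IsUnit B.det := isUnit_iff_ne_zero.2 hB0
  have hg1 : 0 < (gm g1 x).det := by
    have hp : 0 < B.det * B.det := mul_self_pos.2 hB0
    by_contra hc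
    have : B.det * B.det * (gm g1 x).det ≤ 0 := mul_nonpos_of_nonneg_of_nonpos hp.le (not_lt.1 hc)
    linarith
  have hinv : ∀ (d : Fin n → ℝ) (M : Matrix (Fin n) (Fin n) ℝ), (∀ i, 0 < d i) →
      B.transpose * M * B = Matrix.diagonal d →
      M⁻¹ = B * Matrix.diagonal (fun i => (d i)⁻¹) * B.transpose := by
    intro d M hd hM
    apply Matrix.inv_eq_left_inv
    have e1 : Matrix.diagonal (fun i => (d i)⁻¹) * (B.transpose * M * B) = 1 := by
      rw [hM, Matrix.diagonal_mul_diagonal]
      have : (fun i => (d i)⁻¹ * d i) = fun _ => (1 : ℝ) := by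
        funext i
        exact inv_mul_cancel₀ (hd i).ne'
      rw [this, Matrix.diagonal_one]
    have e2 : (B * (Matrix.diagonal (fun i => (d i)⁻¹) * B.transpose * M)) = 1 := by
      have : (Matrix.diagonal (fun i => (d i)⁻¹) * B.transpose * M) * B = 1 := by
        rw [← e1]
        simp only [Matrix.mul_assoc]
      exact mul_eq_one_comm.1 this
    rw [← e2]
    simp only [Matrix.mul_assoc]
  have hM1 : (gm g1 x)⁻¹ = B * B.transpose := by
    have := hinv (fun _ => 1) (gm g1 x) (fun _ => one_pos) (by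
      rw [h1]
      exact Matrix.diagonal_one.symm)
    rw [this]
    simp
  have hM2 : (gm g2 x)⁻¹ = B * Matrix.diagonal (fun i => (l i)⁻¹) * B.transpose :=
    hinv l _ hl h2
  refine ⟨?_, ?_, ?_, hg1⟩
  · rw [tr, hM1, Matrix.mul_assoc, Matrix.trace_mul_comm, h2, Matrix.trace_diagonal]
  · rw [tr, hM2]
    have : B * Matrix.diagonal (fun i => (l i)⁻¹) * B.transpose * gm g1 x =
        B * (Matrix.diagonal (fun i => (l i)⁻¹) * (B.transpose * gm g1 x)) := by
      simp only [Matrix.mul_assoc]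
    rw [this, Matrix.trace_mul_comm, Matrix.mul_assoc, h1, mul_one, Matrix.trace_diagonal]
  · have hd2 : B.det * B.det * (gm g2 x).det = ∏ i, l i := by
      have := congrArg Matrix.det h2
      simp only [Matrix.det_mul, Matrix.det_transpose, Matrix.det_diagonal] at this
      linarith
    have e : (gm g2 x).det = (∏ i, l i) * (gm g1 x).det := by
      have hp : B.det * B.det ≠ 0 := mul_ne_zero hB0 hB0
      have : B.det * B.det * (gm g2 x).det = B.det * B.det * ((∏ i, l i) * (gm g1 x).det) := by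
        rw [hd2]
        linear_combination (-(∏ i, l i)) * hBdet
      exact mul_left_cancel₀ hp this
    rw [dens, dens, e, Real.sqrt_mul (Finset.prod_nonneg fun i _ => (hl i).le)]

/-- the eigenvalues of a metric are positive -/
theorem diag_pos {n : ℕ} {g1 g2 : Form n} (r2 : Riem g2) {x : E n}
    {b : Module.Basis (Fin n) ℝ (E n)} {l : Fin n → ℝ} (h : Diag g1 g2 x b l) (i : Fin n) :
    0 < l i := by
  have := r2 x (b i) (b.ne_zero i)
  rw [h.2 i i] at this
  simpa using this

/-- sum of the terms `(l_i - 1) (1 - s / l_i)`, `s` the square root of the product -/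
theorem cone_le {n : ℕ} {l : Fin n → ℝ} (hl : ∀ i, 0 < l i)
    (h : (∀ i, 1 ≤ l i ∧ (l i) ^ 2 ≤ ∏ j, l j) ∨ (∀ i, l i ≤ 1 ∧ ∏ j, l j ≤ (l i) ^ 2)) :
    ∑ i, (l i - 1) * (1 - Real.sqrt (∏ j, l j) / l i) ≤ 0 := by
  apply Finset.sum_nonpos
  intro i _
  rcases h with h | h
  · have h1 : 1 ≤ Real.sqrt (∏ j, l j) / l i := by
      rw [one_le_div (hl i)]
      exact Real.le_sqrt_of_sq_le (h i).2
    exact mul_nonpos_of_nonneg_of_nonpos (by linarith [(h i).1]) (by linarith)
  · have h1 : Real.sqrt (∏ j, l j) / l i ≤ 1 := by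
      rw [div_le_one (hl i)]
      exact Real.sqrt_le_iff.2 ⟨(hl i).le, (h i).2⟩
    exact mul_nonpos_of_nonpos_of_nonneg (by linarith [(h i).1]) (by linarith)

/-! ### comparison of Kaehler classes -/

/-- the class of the two form of `g1` minus the class of the two form of `g2` is represented by
the semipositive form `b (J u, v)` -/
def ClassLe {n : ℕ} (G : Type) [Group G] [MulAction G (E n)] (J : E n → E n →L[ℝ] E n)
    (g2 g1 : Form n) : Prop :=
  ∃ (b : Form n) (α : E n → E n →L[ℝ] ℝ), Inv G b ∧ ContDiff ℝ ∞ α ∧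
    (∀ (a : G) (x u : E n), α (a • x) (dac a x u) = α x u) ∧
    ∀ x u v, g1.val x (J x u) v - g2.val x (J x u) v =
      b.val x (J x u) v + (fderiv ℝ α x u v - fderiv ℝ α x v u)

/-- the theorem on Kaehler classes in general form -/
theorem kah_le (hM : StMain) (hK : StKah) (hP : StPU) (hT : StTrI) :
    ∀ (n : ℕ) (G : Type) [Group G] [MulAction G (E n)], Cocompact n G →
    ∀ g1 g2 : Form n, Riem g1 → Inv G g1 → Inv G g2 → Minz g1 → HypG g1 →
    (∀ a : G, L g1 a ≤ L g2 a) → ∀ J : E n → E n →L[ℝ] E n, IsJ G J → Kah J g1 →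
    ClassLe G J g2 g1 → g1 = g2 := by
  intro n G _ _ hG g1 g2 r1 i1 i2 hm hh hL J hJ hk hc
  obtain ⟨b, α, ib, ha, hi, he⟩ := hc
  obtain ⟨χ, hχ⟩ := hP n G hG
  obtain ⟨m1, m2⟩ := hM n G hG g1 g2 r1 i1 i2 hm hh hL χ hχ
  obtain ⟨_, t2, _⟩ := hT n G hG g1 g2 r1 i1 i2
  obtain ⟨_, s2, s3⟩ := hT n G hG g1 b r1 i1 ib
  apply m2
  have hcoh : Cohom G J g1 (addF g2 b) 1 := by
    refine ⟨fun x => (-1 : ℝ) • α x, ha.const_smul (-1 : ℝ), fun a x u => ?_, fun x u v => ?_⟩
    · simp only [smul_apply, hi a x u]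
    · have hd : fderiv ℝ (fun x => (-1 : ℝ) • α x) x = (-1 : ℝ) • fderiv ℝ α x :=
        fderiv_fun_const_smul (ha.differentiable (by norm_num) x) _
      rw [hd]
      simp only [addF, smul_apply, add_apply, smul_eq_mul]
      linarith [he x u v]
  have hk2 := hK n G hG g1 (addF g2 b) r1 i1 J hJ hk 1 hcoh χ hχ
  rw [one_mul] at hk2
  rw [← hk2]
  have hcd : Continuous (dens g1) := by
    unfold dens gm
    refine Real.continuous_sqrt.comp (Continuous.matrix_det ?_)
    refine continuous_matrix fun i j => ?_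
    exact ((g1.smooth.continuous.clm_apply continuous_const).clm_apply continuous_const)
  have hint : ∀ f : E n → ℝ, Continuous f → Integrable (fun x => χ x * (f x * dens g1 x)) := by
    intro f hf
    apply Continuous.integrable_of_hasCompactSupport
    · exact hχ.smooth.continuous.mul (hf.mul hcd)
    · exact hχ.cpt.mul_right
  apply integral_mono (hint _ t2.continuous)
  · have : (fun x => χ x * (tr g1 (addF g2 b) x * dens g1 x)) =
        fun x => χ x * ((fun y => tr g1 g2 y + tr g1 b y) x * dens g1 x) := by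
      funext x
      rw [tr_addF]
    rw [this]
    exact hint _ (t2.continuous.add s2.continuous)
  · intro x
    simp only [tr_addF]
    have h1 : 0 ≤ χ x * (tr g1 b x * dens g1 x) :=
      mul_nonneg (hχ.nonneg x) (mul_nonneg (s3 x) (Real.sqrt_nonneg _))
    linarith [h1]

/-! ### the symmetric inequality -/

/-- sum of the two energy inequalities, with an invariant partition of unity -/
theorem two_main (hM : StMain) (hP : StPU) (hT : StTrI) :
    ∀ (n : ℕ) (G : Type) [Group G] [MulAction G (E n)], Cocompact n G →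
    ∀ g1 g2 : Form n, Riem g1 → Riem g2 → Inv G g1 → Inv G g2 → Minz g1 → HypG g1 → Minz g2 →
    HypG g2 → (∀ a : G, L g1 a = L g2 a) →
    (∀ x, tr g1 g2 x * dens g1 x + tr g2 g1 x * dens g2 x ≤ n * (dens g1 x + dens g2 x)) →
    g1 = g2 := by
  intro n G _ _ hG g1 g2 r1 r2 i1 i2 m1 h1 m2 h2 hL hc
  obtain ⟨χ, hχ⟩ := hP n G hG
  obtain ⟨a1, b1⟩ := hM n G hG g1 g2 r1 i1 i2 m1 h1 (fun a => (hL a).le) χ hχ
  obtain ⟨a2, b2⟩ := hM n G hG g2 g1 r2 i2 i1 m2 h2 (fun a => (hL a).ge) χ hχ
  obtain ⟨_, t2, _⟩ := hT n G hG g1 g2 r1 i1 i2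
  obtain ⟨_, s2, _⟩ := hT n G hG g2 g1 r2 i2 i1
  apply b1
  have hcd : ∀ g : Form n, Continuous (dens g) := by
    intro g
    unfold dens gm
    refine Real.continuous_sqrt.comp (Continuous.matrix_det ?_)
    refine continuous_matrix fun i j => ?_
    exact ((g.smooth.continuous.clm_apply continuous_const).clm_apply continuous_const)
  have hint : ∀ f : E n → ℝ, Continuous f → Integrable (fun x => χ x * f x) := by
    intro f hf
    apply Continuous.integrable_of_hasCompactSupport
    · exact hχ.smooth.continuous.mul hf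
    · exact hχ.cpt.mul_right
  have e1 : Integrable (fun x => χ x * (tr g1 g2 x * dens g1 x)) :=
    hint (fun x => tr g1 g2 x * dens g1 x) (t2.continuous.mul (hcd g1))
  have e2 : Integrable (fun x => χ x * (tr g2 g1 x * dens g2 x)) :=
    hint (fun x => tr g2 g1 x * dens g2 x) (s2.continuous.mul (hcd g2))
  have e3 := hint _ (hcd g1)
  have e4 := hint _ (hcd g2)
  have key : (∫ x, χ x * (tr g1 g2 x * dens g1 x)) + ∫ x, χ x * (tr g2 g1 x * dens g2 x) ≤
      n * ((∫ x, χ x * dens g1 x) + ∫ x, χ x * dens g2 x) := by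
    rw [← integral_add e1 e2, ← integral_add e3 e4, ← integral_const_mul]
    apply integral_mono (e1.add e2) ((e3.add e4).const_mul _)
    intro x
    have := mul_le_mul_of_nonneg_left (hc x) (hχ.nonneg x)
    simp only [Pi.add_apply]
    nlinarith
  nlinarith

/-- the pointwise condition in terms of the eigenvalues of `g2` with respect to `g1` -/
theorem cone_main (hM : StMain) (hP : StPU) (hT : StTrI) :
    ∀ (n : ℕ) (G : Type) [Group G] [MulAction G (E n)], Cocompact n G →
    ∀ g1 g2 : Form n, Riem g1 → Riem g2 → Inv G g1 → Inv G g2 → Minz g1 → HypG g1 → Minz g2 →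
    HypG g2 → (∀ a : G, L g1 a = L g2 a) →
    (∀ x, ∃ (b : Module.Basis (Fin n) ℝ (E n)) (l : Fin n → ℝ), Diag g1 g2 x b l ∧
      ∑ i, (l i - 1) * (1 - Real.sqrt (∏ j, l j) / l i) ≤ 0) →
    g1 = g2 := by
  intro n G _ _ hG g1 g2 r1 r2 i1 i2 m1 h1 m2 h2 hL hc
  apply two_main hM hP hT n G hG g1 g2 r1 r2 i1 i2 m1 h1 m2 h2 hL
  intro x
  obtain ⟨b, l, hd, hs⟩ := hc x
  have hl : ∀ i, 0 < l i := fun i => diag_pos r2 hd i
  obtain ⟨t1, t2, t3, t4⟩ := diag_tr hd hl
  rw [t1, t2, t3]
  have hd1 : 0 < dens g1 x := Real.sqrt_pos.2 t4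
  set s := Real.sqrt (∏ j, l j) with hsd
  have e : ∑ i, (l i - 1) * (1 - s / l i) =
      (∑ i, l i) + s * (∑ i, (l i)⁻¹) - n * (1 + s) := by
    have : ∀ i, (l i - 1) * (1 - s / l i) = l i + s * (l i)⁻¹ - (1 + s) := by
      intro i
      have := (hl i).ne'
      field_simp
      ring
    simp only [this, Finset.sum_sub_distrib, Finset.sum_add_distrib, Finset.sum_const,
      Finset.card_univ, Fintype.card_fin, nsmul_eq_mul, Finset.mul_sum, mul_add]
  rw [e] at hs
  nlinarith

end Pool.Agent.MLS
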