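import Pool.Agent.Work.MP_25cd3b_gt.M.Stmts2
import Pool.Agent.Work.MP_25cd3b_gt.M.I_Main

set_option autoImplicit false

/-!
# MP_25cd3b_gt: Fubini and the fibre integral (item Fub), proved in I_Main
-/

namespace Pool.Agent.MLS

theorem pr_Fub (h1 : StOp) (h2 : StSub) (h3 : StFib) : StFub :=
  fun _ g1 g2 hR χ hχ hc => IMain.fubini h3 h1 h2 g1 g2 hR χ hχ hc

end Pool.Agent.MLS
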