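import Mathlib
import Pool.Agent.Work.MP_25cd3b_gt.M.Stmts

set_option autoImplicit false

/-!
# Item Ld of the block [25cd3b MLS]: the marked length spectrum and the distance
-/

open MeasureTheory Set Filter Topology
open scoped ContDiff ENNReal

namespace Pool.Agent.MLS

namespace ILd

/-- lengths of paths are nonnegative -/
theorem len_nonneg (h1 : StGd) {n : ℕ} (g : Form n) (x y : E n) (l : ℝ) (h : PathLen g x y l) :
    0 ≤ l :=
  ((h1 n g).2.1.nonneg x y).trans ((h1 n g).1 x y l h)

/-- there is a path between any two points -/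
theorem exists_path (h1 : StGd) {n : ℕ} (g : Form n) (x y : E n) : ∃ l, PathLen g x y l := by
  obtain ⟨l, hl, _⟩ := (h1 n g).2.2.1 x y 1 one_pos
  exact ⟨l, hl⟩

end ILd

theorem pr_Ld (h1 : StGd) : StLd := by
  intro n G _ _ g a
  have hb : BddBelow {l | ∃ x : E n, PathLen g x (a • x) l} := by
    refine ⟨0, ?_⟩
    rintro l ⟨x, hx⟩
    exact ILd.len_nonneg h1 g _ _ l hx
  constructor
  · intro x
    show sInf {l | ∃ x : E n, PathLen g x (a • x) l} ≤ sInf {l | PathLen g x (a • x) l}
    apply csInf_le_csInf hb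
    · exact ILd.exists_path h1 g x (a • x)
    · intro l hl
      exact ⟨x, hl⟩
  · intro r hr
    show r ≤ sInf {l | ∃ x : E n, PathLen g x (a • x) l}
    apply le_csInf
    · obtain ⟨l, hl⟩ := ILd.exists_path h1 g (0 : E n) (a • 0)
      exact ⟨l, 0, hl⟩
    · rintro l ⟨x, hx⟩
      exact (hr x).trans ((h1 n g).1 _ _ l hx)

end Pool.Agent.MLS
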