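import Mathlib
import Pool.Agent.Work.MP_25cd3b_gt.M.Stmts

set_option autoImplicit false

/-!
# Item Pull of block [25cd3b MLS]: pull-back of forms under equivariant maps
-/

open MeasureTheory Set Filter Topology
open scoped ContDiff ENNReal

namespace Pool.Agent.MLS

namespace IPull

/-- lengths are nonnegative -/
theorem len_nonneg {n : ℕ} (g : Form n) {x y : E n} {l : ℝ} (h : PathLen g x y l) : 0 ≤ l := by
  induction h with
  | refl x => exact le_refl 0
  | cons c a b y l hc hab h ih =>
    have h1 : 0 ≤ ∫ t in a..b, nrm g (c t) (deriv c t) :=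
      intervalIntegral.integral_nonneg hab (fun t _ => Real.sqrt_nonneg _)
    exact add_nonneg h1 ih

/-- the straight segment is a path -/
theorem exists_path {n : ℕ} (g : Form n) (x y : E n) : ∃ l, PathLen g x y l := by
  have hc : ContDiff ℝ 1 (fun t : ℝ => x + t • (y - x)) := by fun_prop
  have h := PathLen.cons (g := g) (fun t : ℝ => x + t • (y - x)) 0 1
    (x + (1 : ℝ) • (y - x)) 0 hc zero_le_one (PathLen.refl _)
  have e0 : x + (0 : ℝ) • (y - x) = x := by simp
  have e1 : x + (1 : ℝ) • (y - x) = y := by simp
  simp only [e0, e1] at h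
  exact ⟨_, h⟩

/-- value of the pull-back -/
theorem pull_val {n : ℕ} (F : E n → E n) (hF : ContDiff ℝ ∞ F) (g : Form n) (x u v : E n) :
    (pull F hF g).val x u v = g.val (F x) (fderiv ℝ F x u) (fderiv ℝ F x v) := rfl

/-- norm of the pull-back -/
theorem pull_nrm {n : ℕ} (F : E n → E n) (hF : ContDiff ℝ ∞ F) (g : Form n) (x v : E n) :
    nrm (pull F hF g) x v = nrm g (F x) (fderiv ℝ F x v) := rfl

/-- smooth maps send paths to paths of the same length -/
theorem path_map {n : ℕ} (F : E n → E n) (hF : ContDiff ℝ ∞ F) (g : Form n) {x y : E n} {l : ℝ}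
    (h : PathLen (pull F hF g) x y l) : PathLen g (F x) (F y) l := by
  induction h with
  | refl x => exact PathLen.refl _
  | cons c a b y l hc hab h ih =>
    have hFd : Differentiable ℝ F := hF.differentiable (by simp)
    have hcd : Differentiable ℝ c := hc.differentiable (by simp)
    have hF1 : ContDiff ℝ 1 F := hF.of_le (by exact_mod_cast le_top)
    have hFc : ContDiff ℝ 1 (fun t => F (c t)) := hF1.comp hc
    have e : ∀ t, deriv (fun t => F (c t)) t = fderiv ℝ F (c t) (deriv c t) := fun t =>
      ((hFd (c t)).hasFDerivAt.comp_hasDerivAt t (hcd t).hasDerivAt).deriv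
    have h1 := PathLen.cons (g := g) (fun t => F (c t)) a b (F y) l hFc hab ih
    have h2 : (fun t => nrm g (F (c t)) (deriv (fun t => F (c t)) t)) =
        fun t => nrm (pull F hF g) (c t) (deriv c t) := by
      funext t
      rw [e t, pull_nrm]
    simp only [h2] at h1
    exact h1

end IPull

open IPull in
/-- Item Pull. -/
theorem pr_Pull : StPull := by
  intro n G _ _ hG g hg F hF hFG
  have hFd : Differentiable ℝ F := hF.differentiable (by simp)
  have hD : ∀ (a : G) (x u : E n),
      fderiv ℝ F (a • x) (dac a x u) = dac a (F x) (fderiv ℝ F x u) := by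
    intro a x u
    have had : ∀ y : E n, DifferentiableAt ℝ (fun z : E n => a • z) y := fun y =>
      ((hG.smooth a).differentiable (by simp)) y
    have h1 : HasFDerivAt (fun z : E n => F (a • z))
        ((fderiv ℝ F (a • x)).comp (dac a x)) x :=
      HasFDerivAt.comp (g := F) (f := fun z : E n => a • z) x (hFd (a • x)).hasFDerivAt
        (had x).hasFDerivAt
    have h2 : HasFDerivAt (fun z : E n => a • F z)
        ((dac a (F x)).comp (fderiv ℝ F x)) x :=
      HasFDerivAt.comp (g := fun z : E n => a • z) (f := F) x (had (F x)).hasFDerivAt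
        (hFd x).hasFDerivAt
    have h3 : (fun z : E n => F (a • z)) = fun z : E n => a • F z := funext fun z => hFG a z
    rw [h3] at h1
    have h4 := h1.unique h2
    exact congrArg (fun T : E n →L[ℝ] E n => T u) h4
  refine ⟨?_, ?_⟩
  · intro a x u v
    rw [pull_val, pull_val, hD, hD, hFG]
    exact hg a (F x) _ _
  · intro a
    refine csInf_le_csInf ⟨0, ?_⟩ ?_ ?_
    · rintro l ⟨x, h⟩
      exact len_nonneg g h
    · obtain ⟨l, hl⟩ := exists_path (pull F hF g) 0 (a • (0 : E n))
      exact ⟨l, 0, hl⟩
    · rintro l ⟨x, h⟩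
      have h1 := path_map F hF g h
      rw [hFG] at h1
      exact ⟨F x, h1⟩

end Pool.Agent.MLS
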