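import Mathlib
import Pool.Agent.Work.MP_25cd3b_gt.M.Stmts2
import Pool.Agent.Work.MP_25cd3b_gt.M.I_Div

set_option autoImplicit false

/-!
# MP_25cd3b_gt, item Var: the first variation of the volume
-/

open MeasureTheory Set Filter Topology
open scoped ContDiff ENNReal

namespace Pool.Agent.MLS

namespace IVar

/-- the segment of matrices -/
noncomputable def seg {n : ℕ} (g1 g2 : Form n) (t : ℝ) (x : E n) : Matrix (Fin n) (Fin n) ℝ :=
  (1 - t) • gm g1 x + t • gm g2 x

/-- the derivative of the determinant along the segment -/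
noncomputable def dd {n : ℕ} (g1 g2 : Form n) (t : ℝ) (x : E n) : ℝ :=
  ∑ k, ((seg g1 g2 t x).updateRow k ((gm g2 x - gm g1 x) k)).det

theorem gm_cont {n : ℕ} (g : Form n) : Continuous (gm g) := by
  refine continuous_matrix fun i j => ?_
  simp only [gm, Matrix.of_apply]
  exact (g.smooth.continuous.clm_apply continuous_const).clm_apply continuous_const

theorem seg_cont {n : ℕ} (g1 g2 : Form n) : Continuous (fun p : ℝ × E n => seg g1 g2 p.1 p.2) := by
  have h1 : Continuous (fun p : ℝ × E n => gm g1 p.2) := (gm_cont g1).comp continuous_snd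
  have h2 : Continuous (fun p : ℝ × E n => gm g2 p.2) := (gm_cont g2).comp continuous_snd
  exact ((continuous_const.sub continuous_fst).smul h1).add (continuous_fst.smul h2)

theorem dd_cont {n : ℕ} (g1 g2 : Form n) : Continuous (fun p : ℝ × E n => dd g1 g2 p.1 p.2) := by
  have h1 : Continuous (fun p : ℝ × E n => gm g1 p.2) := (gm_cont g1).comp continuous_snd
  have h2 : Continuous (fun p : ℝ × E n => gm g2 p.2) := (gm_cont g2).comp continuous_snd
  unfold dd
  refine continuous_finsetSum _ fun k _ => ?_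
  refine Continuous.matrix_det ?_
  refine (seg_cont g1 g2).matrix_updateRow k ?_
  exact (continuous_apply k).comp (h2.sub h1)

theorem seg_deriv {n : ℕ} (g1 g2 : Form n) (t : ℝ) (x : E n) (i j : Fin n) :
    HasDerivAt (fun s => seg g1 g2 s x i j) ((gm g2 x - gm g1 x) i j) t := by
  have h1 : HasDerivAt (fun s : ℝ => (1 - s) * gm g1 x i j + s * gm g2 x i j)
      ((0 - 1) * gm g1 x i j + 1 * gm g2 x i j) t :=
    (((hasDerivAt_const t (1 : ℝ)).sub (hasDerivAt_id t)).mul_const _).add
      ((hasDerivAt_id t).mul_const _)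
  have h2 : (0 - 1) * gm g1 x i j + 1 * gm g2 x i j = (gm g2 x - gm g1 x) i j := by
    rw [Matrix.sub_apply]
    ring
  rw [h2] at h1
  exact h1

theorem det_deriv {n : ℕ} (g1 g2 : Form n) (t : ℝ) (x : E n) :
    HasDerivAt (fun s => (seg g1 g2 s x).det) (dd g1 g2 t x) t :=
  IDiv.det_hasDerivAt (fun s => seg g1 g2 s x) (gm g2 x - gm g1 x) t
    (fun i j => seg_deriv g1 g2 t x i j)

theorem seg_zero {n : ℕ} (g1 g2 : Form n) (x : E n) : seg g1 g2 0 x = gm g1 x := by
  simp [seg]

theorem dd_zero {n : ℕ} (g1 g2 : Form n) (x : E n) (h : 0 < (gm g1 x).det) :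
    dd g1 g2 0 x = (gm g1 x).det * (tr g1 g2 x - n) := by
  have hd : ∀ i j, DifferentiableAt ℝ (fun s => seg g1 g2 s x i j) 0 := fun i j =>
    (seg_deriv g1 g2 0 x i j).differentiableAt
  have h1 := IDiv.fderiv_det (A := fun s : ℝ => seg g1 g2 s x) (x := 0) hd
    (by rw [seg_zero]; exact h.ne') 1
  have h2 : fderiv ℝ (fun s => (seg g1 g2 s x).det) 0 1 = dd g1 g2 0 x := by
    rw [(det_deriv g1 g2 0 x).hasFDerivAt.fderiv]
    simp
  have h3 : (Matrix.of fun i j => fderiv ℝ (fun s => seg g1 g2 s x i j) 0 1) =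
      gm g2 x - gm g1 x := by
    ext i j
    rw [Matrix.of_apply, (seg_deriv g1 g2 0 x i j).hasFDerivAt.fderiv]
    simp
  rw [h2, h3, seg_zero, Matrix.mul_sub, Matrix.trace_sub,
    Matrix.nonsing_inv_mul _ (isUnit_iff_ne_zero.2 h.ne'), Matrix.trace_one] at h1
  rw [h1]
  simp [tr]

/-- a uniform interval on which the determinant is positive over a compact set -/
theorem tube {n : ℕ} (g1 g2 : Form n) (K : Set (E n)) (hK : IsCompact K)
    (h : ∀ x, 0 < (gm g1 x).det) :
    ∃ ε : ℝ, 0 < ε ∧ ∀ t, |t| ≤ ε → ∀ x ∈ K, 0 < (seg g1 g2 t x).det := by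
  have hc : Continuous (fun p : ℝ × E n => (seg g1 g2 p.1 p.2).det) :=
    (seg_cont g1 g2).matrix_det
  have hopen : IsOpen {p : ℝ × E n | 0 < (seg g1 g2 p.1 p.2).det} :=
    isOpen_lt continuous_const hc
  have hsub : ({0} : Set ℝ) ×ˢ K ⊆ {p : ℝ × E n | 0 < (seg g1 g2 p.1 p.2).det} := by
    rintro ⟨t, x⟩ ⟨ht, hx⟩
    have ht' : t = 0 := ht
    subst ht'
    change 0 < (seg g1 g2 0 x).det
    rw [seg_zero]
    exact h x
  obtain ⟨u, v, hu, hv, h0u, hKv, huv⟩ := generalized_tube_lemma isCompact_singleton hK hopen hsub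
  obtain ⟨ε, hε, hεu⟩ := Metric.isOpen_iff.1 hu 0 (h0u rfl)
  refine ⟨ε / 2, by linarith, fun t ht x hx => ?_⟩
  have h1 : t ∈ u := hεu (by rw [mem_ball_zero_iff, Real.norm_eq_abs]; linarith)
  exact huv (mk_mem_prod h1 (hKv hx))

end IVar

open IVar in
/-- Item Var. -/
theorem pr_Var (h1 : StDens) : StVar := by
  intro n g1 g2 hR χ hχ hcs
  obtain ⟨hpos, hsm, -⟩ := h1 n g1 hR
  have hK : IsCompact (tsupport χ) := hcs
  obtain ⟨ε, hε, hεp⟩ := tube g1 g2 (tsupport χ) hK hpos
  set D : ℝ → E n → ℝ := fun t x => (seg g1 g2 t x).det with hD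
  have hDc : Continuous (fun p : ℝ × E n => D p.1 p.2) := (seg_cont g1 g2).matrix_det
  set F : ℝ → E n → ℝ := fun t x => χ x * Real.sqrt (D t x) with hF
  set F' : ℝ → E n → ℝ := fun t x => χ x * (dd g1 g2 t x / (2 * Real.sqrt (D t x))) with hF'
  have hχ0 : ∀ x, x ∉ tsupport χ → χ x = 0 := fun x hx => image_eq_zero_of_notMem_tsupport hx
  -- a bound
  have hcomp : IsCompact (Icc (-ε) ε ×ˢ tsupport χ) := isCompact_Icc.prod hK
  have hcont : ContinuousOn (fun p : ℝ × E n => dd g1 g2 p.1 p.2 / (2 * Real.sqrt (D p.1 p.2)))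
      (Icc (-ε) ε ×ˢ tsupport χ) := by
    refine ContinuousOn.div (dd_cont g1 g2).continuousOn
      (continuousOn_const.mul hDc.sqrt.continuousOn) ?_
    rintro ⟨t, x⟩ ⟨ht, hx⟩
    have h2 : 0 < D t x := hεp t (abs_le.2 ht) x hx
    have h3 := Real.sqrt_pos.2 h2
    change 2 * Real.sqrt (D t x) ≠ 0
    positivity
  obtain ⟨C, hC⟩ := hcomp.exists_bound_of_continuousOn hcont
  have hFc : ∀ t, Continuous (F t) := fun t =>
    hχ.mul ((hDc.comp (Continuous.prodMk_right t)).sqrt)
  have hFs : ∀ t, HasCompactSupport (F t) := fun t => hcs.mul_right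
  have hs : Ioo (-ε) ε ∈ 𝓝 (0 : ℝ) := Ioo_mem_nhds (by linarith) hε
  have hmain := hasDerivAt_integral_of_dominated_loc_of_deriv_le (μ := (volume : Measure (E n)))
    (F := F) (F' := F') (x₀ := (0 : ℝ)) (s := Ioo (-ε) ε) (bound := fun x => C * |χ x|) hs
    (Eventually.of_forall fun t => (hFc t).aestronglyMeasurable)
    ((hFc 0).integrable_of_hasCompactSupport (hFs 0)) ?_ ?_ ?_ ?_
  · obtain ⟨hint, hder⟩ := hmain
    -- the value of the derivative
    have hval : ∀ x, F' 0 x = 1 / 2 * (χ x * (tr g1 g2 x * dens g1 x)) -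
        1 / 2 * (n * (χ x * dens g1 x)) := by
      intro x
      have h2 : D 0 x = (gm g1 x).det := by simp only [hD]; rw [seg_zero]
      have h3 : 0 < Real.sqrt (gm g1 x).det := Real.sqrt_pos.2 (hpos x)
      have h4 : (gm g1 x).det = Real.sqrt (gm g1 x).det * Real.sqrt (gm g1 x).det :=
        (Real.mul_self_sqrt (hpos x).le).symm
      simp only [hF']
      rw [h2, dd_zero g1 g2 x (hpos x)]
      unfold dens
      have h5 : (gm g1 x).det * (tr g1 g2 x - n) / (2 * Real.sqrt (gm g1 x).det) =
          1 / 2 * (Real.sqrt (gm g1 x).det * (tr g1 g2 x - n)) := by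
        rw [div_eq_iff (by positivity)]
        calc (gm g1 x).det * (tr g1 g2 x - n) =
            (Real.sqrt (gm g1 x).det * Real.sqrt (gm g1 x).det) * (tr g1 g2 x - n) := by
              rw [← h4]
          _ = _ := by ring
      rw [h5]
      ring
    have hd1 : Integrable (fun x => χ x * dens g1 x) volume :=
      (hχ.mul hsm.continuous).integrable_of_hasCompactSupport hcs.mul_right
    have hd2 : Integrable (fun x => χ x * (tr g1 g2 x * dens g1 x)) volume := by
      have h2 : (fun x => χ x * (tr g1 g2 x * dens g1 x)) =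
          fun x => 2 * F' 0 x + n * (χ x * dens g1 x) := by
        funext x
        rw [hval x]
        ring
      rw [h2]
      exact (hint.const_mul 2).add (hd1.const_mul _)
    have h6 : (∫ x, F' 0 x) = 1 / 2 * ((∫ x, χ x * (tr g1 g2 x * dens g1 x)) -
        n * ∫ x, χ x * dens g1 x) := by
      have h7 : (fun x => F' 0 x) = fun x => 1 / 2 * (χ x * (tr g1 g2 x * dens g1 x)) -
        1 / 2 * (n * (χ x * dens g1 x)) := funext hval
      rw [h7, integral_sub (hd2.const_mul _) ((hd1.const_mul _).const_mul _),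
        integral_const_mul, integral_const_mul, integral_const_mul]
      ring
    rw [h6] at hder
    exact hder
  · -- measurability of the derivative
    have h3 : Continuous (F' 0) := by
      have e1 : Continuous (fun x : E n => ((0 : ℝ), x)) := Continuous.prodMk_right 0
      have e2 : Continuous ((fun p : ℝ × E n => dd g1 g2 p.1 p.2) ∘ fun x : E n => ((0 : ℝ), x)) :=
        (dd_cont g1 g2).comp e1
      have e3 : Continuous ((fun p : ℝ × E n => D p.1 p.2) ∘ fun x : E n => ((0 : ℝ), x)) :=
        hDc.comp e1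
      have e4 : Continuous (fun x : E n => 2 * Real.sqrt (D 0 x)) :=
        continuous_const.mul e3.sqrt
      have h4 : Continuous (fun x => dd g1 g2 0 x / (2 * Real.sqrt (D 0 x))) := by
        refine Continuous.div e2 e4 ?_
        intro x
        have h5 : 0 < D 0 x := by
          simp only [hD]
          rw [seg_zero]
          exact hpos x
        have h6 := Real.sqrt_pos.2 h5
        change 2 * Real.sqrt (D 0 x) ≠ 0
        positivity
      exact hχ.mul h4
    exact h3.aestronglyMeasurable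
  · -- the bound
    refine Eventually.of_forall fun x t ht => ?_
    simp only [hF']
    rw [norm_mul, Real.norm_eq_abs, mul_comm C]
    by_cases hx : x ∈ tsupport χ
    · exact mul_le_mul_of_nonneg_left (hC (t, x) (mk_mem_prod (Ioo_subset_Icc_self ht) hx))
        (abs_nonneg _)
    · rw [hχ0 x hx]
      simp
  · have h2 : HasCompactSupport (fun x => |χ x|) := hcs.comp_left (g := fun s : ℝ => |s|)
      abs_zero
    have h3 : Integrable (fun x => |χ x|) volume := hχ.abs.integrable_of_hasCompactSupport h2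
    exact h3.const_mul C
  · -- the derivative
    refine Eventually.of_forall fun x t ht => ?_
    by_cases hx : x ∈ tsupport χ
    · have h2 : 0 < D t x := hεp t (abs_le.2 ⟨ht.1.le, ht.2.le⟩) x hx
      have h3 := (det_deriv g1 g2 t x).sqrt h2.ne'
      exact h3.const_mul (χ x)
    · have h2 : (fun s => F s x) = fun _ => (0 : ℝ) := by
        funext s
        simp only [hF]
        rw [hχ0 x hx, zero_mul]
      have h3 : F' t x = 0 := by
        simp only [hF']
        rw [hχ0 x hx, zero_mul]
      rw [h3]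
      change HasDerivAt (fun s => F s x) 0 t
      rw [h2]
      exact hasDerivAt_const t 0

end Pool.Agent.MLS
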